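import Pool.Agent.Helper20.PFAlg

set_option autoImplicit false

open MeasureTheory
open scoped BigOperators ComplexConjugate

namespace Pool.Agent.Helper20.PF

variable {M : Type}

theorem an_an (m m' : M) (v : Fock M) : an m (an m' v) = an m' (an m v) := by
  apply MvPolynomial.ext
  intro n
  have h1 : ∀ a b : M, Fock.coeff n (an a (an b v)) =
      Fock.coeff (n + Finsupp.single a 1 + Finsupp.single b 1) v *
        (((n + Finsupp.single a 1 : M →₀ ℕ) b : ℂ) + 1) * ((n a : ℂ) + 1) := by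
    intro a b
    rw [coeff_an, coeff_an]
  have h2 : Fock.coeff n (an m (an m' v)) = Fock.coeff n (an m' (an m v)) := by
    classical
    by_cases hm : m = m'
    · rw [hm]
    · rw [h1, h1]
      have e1 : (n + Finsupp.single m 1 : M →₀ ℕ) m' = n m' := by
        rw [Finsupp.add_apply, Finsupp.single_apply, if_neg hm, add_zero]
      have e2 : (n + Finsupp.single m' 1 : M →₀ ℕ) m = n m := by
        rw [Finsupp.add_apply, Finsupp.single_apply, if_neg (Ne.symm hm), add_zero]
      rw [e1, e2, add_right_comm]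
      ring
  exact h2

theorem cr_cr (m m' : M) (v : Fock M) : cr m (cr m' v) = cr m' (cr m v) := by
  have h : (MvPolynomial.X m : MvPolynomial M ℂ) * ((MvPolynomial.X m' : MvPolynomial M ℂ) * v.poly)
      = (MvPolynomial.X m' : MvPolynomial M ℂ) * ((MvPolynomial.X m : MvPolynomial M ℂ) * v.poly) := by
    ring
  exact h

variable [Fintype M]

/-- `∑ cₘ aₘ`. -/
noncomputable def anC (c : M → ℂ) : Fock M →ₗ[ℂ] Fock M := ∑ m, c m • an m

/-- `∑ cₘ a*ₘ`. -/
noncomputable def crC (c : M → ℂ) : Fock M →ₗ[ℂ] Fock M := ∑ m, c m • cr m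

theorem anC_apply (c : M → ℂ) (v : Fock M) : anC c v = ∑ m, c m • an m v := by
  unfold anC; simp

theorem crC_apply (c : M → ℂ) (v : Fock M) : crC c v = ∑ m, c m • cr m v := by
  unfold crC; simp

theorem inner_crC_left (c : M → ℂ) (u v : Fock M) :
    inner ℂ (crC c u) v = inner ℂ u (anC (fun m => conj (c m)) v) := by
  rw [crC_apply, anC_apply, sum_inner, inner_sum]
  apply Finset.sum_congr rfl
  intro m _
  rw [inner_smul_left, inner_smul_right, inner_cr_left]

theorem inner_crC_right (c : M → ℂ) (u v : Fock M) :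
    inner ℂ u (crC c v) = inner ℂ (anC (fun m => conj (c m)) u) v := by
  rw [← inner_conj_symm, inner_crC_left, inner_conj_symm]

theorem anC_crC (c d : M → ℂ) (v : Fock M) :
    anC c (crC d v) = crC d (anC c v) + (∑ m, c m * d m) • v := by
  classical
  rw [crC_apply, anC_apply, anC_apply, crC_apply]
  simp only [map_sum, map_smul]
  have h : ∀ m : M, c m • ∑ m', d m' • an m (cr m' v) =
      (∑ m', d m' • c m • cr m' (an m v)) + (c m * d m) • v := by
    intro m
    have : ∀ m', d m' • an m (cr m' v) = d m' • cr m' (an m v) + (if m = m' then d m' • v else 0) := by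
      intro m'
      rw [an_cr, smul_add]
      split_ifs <;> simp
    rw [Finset.sum_congr rfl (fun m' _ => this m'), Finset.sum_add_distrib, Finset.sum_ite_eq,
      if_pos (Finset.mem_univ _), smul_add, smul_smul, Finset.smul_sum]
    congr 1
    apply Finset.sum_congr rfl
    intro m' _
    rw [smul_comm]
  rw [Finset.sum_congr rfl (fun m _ => h m), Finset.sum_add_distrib, Finset.sum_smul]
  congr 1
  rw [Finset.sum_comm]
  apply Finset.sum_congr rfl
  intro m _
  rw [Finset.smul_sum]

theorem anC_anC (c d : M → ℂ) (v : Fock M) : anC c (anC d v) = anC d (anC c v) := by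
  simp only [anC_apply, map_sum, map_smul]
  simp only [Finset.smul_sum]
  rw [Finset.sum_comm]
  apply Finset.sum_congr rfl
  intro m _
  apply Finset.sum_congr rfl
  intro m' _
  rw [an_an, smul_comm]

theorem crC_crC (c d : M → ℂ) (v : Fock M) : crC c (crC d v) = crC d (crC c v) := by
  simp only [crC_apply, map_sum, map_smul]
  simp only [Finset.smul_sum]
  rw [Finset.sum_comm]
  apply Finset.sum_congr rfl
  intro m _
  apply Finset.sum_congr rfl
  intro m' _
  rw [cr_cr, smul_comm]

theorem anC_vacuum (c : M → ℂ) : anC c (vacuum M) = 0 := by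
  rw [anC_apply]
  simp [an_vacuum]

theorem inner_self_real (v : Fock M) : inner ℂ v v = ((‖v‖ ^ 2 : ℝ) : ℂ) := by
  rw [inner_self_eq_norm_sq_to_K]
  push_cast
  rfl

/-- `‖a*(c) v‖² = ‖a(c̄) v‖² + ‖c‖² ‖v‖²`. -/
theorem norm_crC_sq (c : M → ℂ) (v : Fock M) :
    ‖crC c v‖ ^ 2 = ‖anC (fun m => conj (c m)) v‖ ^ 2 + (∑ m, ‖c m‖ ^ 2) * ‖v‖ ^ 2 := by
  have h1 : (inner ℂ (crC c v) (crC c v) : ℂ) =
      inner ℂ (anC (fun m => conj (c m)) v) (anC (fun m => conj (c m)) v) +
        ((∑ m, ‖c m‖ ^ 2 : ℝ) : ℂ) * inner ℂ v v := by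
    rw [inner_crC_left, anC_crC, inner_add_right, inner_crC_right, inner_smul_right]
    congr 1
    congr 1
    push_cast
    apply Finset.sum_congr rfl
    intro m _
    rw [Complex.conj_mul']
  rw [inner_self_real, inner_self_real, inner_self_real] at h1
  exact_mod_cast h1

/-- The number of quanta weighted by `w`. -/
noncomputable def numE (w : M → ℝ) (v : Fock M) : ℝ := ∑ m, w m * ‖an m v‖ ^ 2

theorem numE_nonneg (w : M → ℝ) (hw : ∀ m, 0 ≤ w m) (v : Fock M) : 0 ≤ numE w v := by
  unfold numE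
  apply Finset.sum_nonneg
  intro m _
  have := hw m
  positivity

/-- Cauchy-Schwarz for annihilation operators. -/
theorem norm_anC_sq_le (c : M → ℂ) (w : M → ℝ) (hw : ∀ m, 0 < w m) (v : Fock M) :
    ‖anC c v‖ ^ 2 ≤ (∑ m, ‖c m‖ ^ 2 / w m) * numE w v := by
  have h1 : ‖anC c v‖ ≤ ∑ m, (‖c m‖ / Real.sqrt (w m)) * (Real.sqrt (w m) * ‖an m v‖) := by
    rw [anC_apply]
    refine (norm_sum_le _ _).trans (le_of_eq ?_)
    apply Finset.sum_congr rfl
    intro m _
    have h2 : Real.sqrt (w m) ≠ 0 := (Real.sqrt_pos.mpr (hw m)).ne'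
    rw [norm_smul]
    field_simp
  have h3 := Finset.sum_mul_sq_le_sq_mul_sq Finset.univ
    (fun m => ‖c m‖ / Real.sqrt (w m)) (fun m => Real.sqrt (w m) * ‖an m v‖)
  have h4 : ‖anC c v‖ ^ 2 ≤
      (∑ m, (‖c m‖ / Real.sqrt (w m)) * (Real.sqrt (w m) * ‖an m v‖)) ^ 2 :=
    pow_le_pow_left₀ (norm_nonneg _) h1 2
  refine h4.trans (h3.trans (le_of_eq ?_))
  unfold numE
  congr 1
  · apply Finset.sum_congr rfl
    intro m _
    rw [div_pow, Real.sq_sqrt (hw m).le]
  · apply Finset.sum_congr rfl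
    intro m _
    rw [mul_pow, Real.sq_sqrt (hw m).le]

end Pool.Agent.Helper20.PF
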