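import Pool.Agent.Helper20.PFAlg3

set_option autoImplicit false

open MeasureTheory
open scoped BigOperators ComplexConjugate

namespace Pool.Agent.Helper20.PF

section General

variable {X : Type} [NormedAddCommGroup X] [NormedSpace ℝ X] [FiniteDimensional ℝ X]
variable {V : Type} [NormedAddCommGroup V] [InnerProductSpace ℂ V]

/-- Smooth compactly supported functions with values in a finite dimensional subspace. -/
structure FS (f : X → V) : Prop where
  smooth : ContDiff ℝ ((⊤ : ℕ∞) : WithTop ℕ∞) f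
  compact : HasCompactSupport f
  finite : ∃ E : Submodule ℂ V, FiniteDimensional ℂ E ∧ ∀ x, f x ∈ E

/-- A linear map agrees on a finite dimensional subspace with a continuous one. -/
theorem exists_clm (E : Submodule ℂ V) [FiniteDimensional ℂ E] (T : V →ₗ[ℂ] V) :
    ∃ T' : V →L[ℂ] V, ∀ v ∈ E, T' v = T v := by
  refine ⟨(LinearMap.toContinuousLinearMap (T ∘ₗ E.subtype)).comp E.orthogonalProjectionOnto, ?_⟩
  intro v hv
  have h1 : ((E.orthogonalProjectionOnto v : E) : V) = v :=
    Submodule.starProjection_eq_self_iff.mpr hv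
  simp [h1]

omit [FiniteDimensional ℝ X] in
theorem fderiv_mem (E : Submodule ℂ V) [FiniteDimensional ℂ E] (f : X → V)
    (hf : ContDiff ℝ ((⊤ : ℕ∞) : WithTop ℕ∞) f) (hE : ∀ x, f x ∈ E) (x v : X) :
    fderiv ℝ f x v ∈ E := by
  have h1 : ∀ y, E.starProjection (f y) = f y := fun y =>
    Submodule.starProjection_eq_self_iff.mpr (hE y)
  have h2 : fderiv ℝ f x = ((E.starProjection).restrictScalars ℝ).comp (fderiv ℝ f x) := by
    have h3 : f = fun y => ((E.starProjection).restrictScalars ℝ) (f y) := by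
      funext y; exact (h1 y).symm
    have hd : DifferentiableAt ℝ f x := (hf.differentiable (by simp)).differentiableAt
    conv_lhs => rw [h3]
    exact (((E.starProjection).restrictScalars ℝ).hasFDerivAt.comp x hd.hasFDerivAt).fderiv
  rw [h2]
  exact Submodule.starProjection_apply_mem E _

namespace FS

omit [FiniteDimensional ℝ X] in
theorem map {f : X → V} (hf : FS f) (T : V →ₗ[ℂ] V) :
    FS (fun x => T (f x)) := by
  obtain ⟨E, hE, hfE⟩ := hf.finite
  obtain ⟨T', hT'⟩ := exists_clm E T
  have h1 : (fun x => T (f x)) = fun x => (T'.restrictScalars ℝ) (f x) := by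
    funext x
    exact (hT' _ (hfE x)).symm
  refine ⟨?_, ?_, ⟨E.map T, inferInstance, fun x => Submodule.mem_map_of_mem (hfE x)⟩⟩
  · rw [h1]
    exact (T'.restrictScalars ℝ).contDiff.comp hf.smooth
  · exact hf.compact.comp_left (g := T) (map_zero T)

omit [FiniteDimensional ℝ X] in
theorem fderiv_map {f : X → V} (hf : FS f) (T : V →ₗ[ℂ] V) (x v : X) :
    fderiv ℝ (fun y => T (f y)) x v = T (fderiv ℝ f x v) := by
  obtain ⟨E, hE, hfE⟩ := hf.finite
  obtain ⟨T', hT'⟩ := exists_clm E T
  have h1 : (fun x => T (f x)) = fun x => (T'.restrictScalars ℝ) (f x) := by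
    funext x
    exact (hT' _ (hfE x)).symm
  have hd : DifferentiableAt ℝ f x := (hf.smooth.differentiable (by simp)).differentiableAt
  have h2 : fderiv ℝ (fun x => (T'.restrictScalars ℝ) (f x)) x =
      (T'.restrictScalars ℝ).comp (fderiv ℝ f x) :=
    ((T'.restrictScalars ℝ).hasFDerivAt.comp x hd.hasFDerivAt).fderiv
  rw [h1, h2]
  exact hT' _ (fderiv_mem E f hf.smooth hfE x v)

omit [FiniteDimensional ℝ X] in
theorem add {f g : X → V} (hf : FS f) (hg : FS g) : FS (fun x => f x + g x) := by
  obtain ⟨E, hE, hfE⟩ := hf.finite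
  obtain ⟨F, hF, hgF⟩ := hg.finite
  refine ⟨hf.smooth.add hg.smooth, hf.compact.add hg.compact, ⟨E ⊔ F, inferInstance, ?_⟩⟩
  intro x
  exact Submodule.add_mem_sup (hfE x) (hgF x)

omit [FiniteDimensional ℝ X] in
theorem smul {f : X → V} (hf : FS f) {c : X → ℂ} (hc : ContDiff ℝ ((⊤ : ℕ∞) : WithTop ℕ∞) c) :
    FS (fun x => c x • f x) := by
  obtain ⟨E, hE, hfE⟩ := hf.finite
  refine ⟨hc.smul hf.smooth, ?_, ⟨E, hE, fun x => E.smul_mem _ (hfE x)⟩⟩
  exact hf.compact.smul_left

omit [FiniteDimensional ℝ X] in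
theorem const_smul {f : X → V} (hf : FS f) (c : ℂ) : FS (fun x => c • f x) :=
  hf.smul contDiff_const

omit [FiniteDimensional ℝ X] in
theorem zero : FS (fun _ : X => (0 : V)) :=
  ⟨contDiff_const, HasCompactSupport.zero, ⟨⊥, inferInstance, fun _ => by simp⟩⟩

omit [FiniteDimensional ℝ X] in
theorem sum {ι : Type} (S : Finset ι) {f : ι → X → V} (hf : ∀ i ∈ S, FS (f i)) :
    FS (fun x => ∑ i ∈ S, f i x) := by
  classical
  induction S using Finset.induction_on with
  | empty => simpa using zero
  | insert a S ha ih =>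
    have h1 : (fun x => ∑ i ∈ insert a S, f i x) = fun x => f a x + ∑ i ∈ S, f i x := by
      funext x
      rw [Finset.sum_insert ha]
    rw [h1]
    exact (hf a (Finset.mem_insert_self a S)).add
      (ih (fun i hi => hf i (Finset.mem_insert_of_mem hi)))

omit [FiniteDimensional ℝ X] in
theorem deriv {f : X → V} (hf : FS f) (v : X) : FS (fun x => fderiv ℝ f x v) := by
  obtain ⟨E, hE, hfE⟩ := hf.finite
  refine ⟨?_, ?_, ⟨E, hE, fun x => fderiv_mem E f hf.smooth hfE x v⟩⟩
  · exact (hf.smooth.fderiv_right (m := ((⊤ : ℕ∞) : WithTop ℕ∞)) (by simp)).clm_apply contDiff_const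
  · exact hf.compact.fderiv_apply (𝕜 := ℝ) v

variable [MeasurableSpace X] [BorelSpace X] (μ : Measure X) [μ.IsAddHaarMeasure]

omit [FiniteDimensional ℝ X] in
theorem integrable_inner [IsLocallyFiniteMeasure μ] {f g : X → V} (hf : FS f) (hg : FS g) :
    Integrable (fun x => (inner ℂ (f x) (g x) : ℂ)) μ := by
  apply Continuous.integrable_of_hasCompactSupport
  · exact hf.smooth.continuous.inner hg.smooth.continuous
  · have : HasCompactSupport (fun x => (inner ℂ (f x) (g x) : ℂ)) := by
      apply hf.compact.mono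
      intro x hx
      rw [Function.mem_support] at hx ⊢
      intro h
      apply hx
      rw [h, inner_zero_left]
    exact this

omit [FiniteDimensional ℝ X] in
theorem integrable_norm_sq [IsLocallyFiniteMeasure μ] {f : X → V} (hf : FS f) :
    Integrable (fun x => ‖f x‖ ^ 2) μ := by
  apply Continuous.integrable_of_hasCompactSupport
  · exact hf.smooth.continuous.norm.pow 2
  · apply hf.compact.mono
    intro x hx
    rw [Function.mem_support] at hx ⊢
    intro h
    apply hx
    rw [h]; simp

theorem integral_by_parts {f g : X → V} (hf : FS f) (hg : FS g) (v : X) :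
    ∫ x, (inner ℂ (f x) (fderiv ℝ g x v) : ℂ) ∂μ = - ∫ x, (inner ℂ (fderiv ℝ f x v) (g x) : ℂ) ∂μ := by
  have i1 := integrable_inner μ hf (hg.deriv v)
  have i2 := integrable_inner μ (hf.deriv v) hg
  have i3 := integrable_inner μ hf hg
  have hfd : ∀ x, DifferentiableAt ℝ f x := fun x => (hf.smooth.differentiable (by simp)) x
  have hgd : ∀ x, DifferentiableAt ℝ g x := fun x => (hg.smooth.differentiable (by simp)) x
  have hd : ∀ x, fderiv ℝ (fun x => (inner ℂ (f x) (g x) : ℂ)) x v =
      inner ℂ (f x) (fderiv ℝ g x v) + inner ℂ (fderiv ℝ f x v) (g x) := by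
    intro x
    exact fderiv_inner_apply ℂ (hfd x) (hgd x) v
  have h1 := integral_mul_fderiv_eq_neg_fderiv_mul_of_integrable (μ := μ) (𝕜 := ℂ)
    (f := fun _ : X => (1 : ℂ)) (g := fun x => (inner ℂ (f x) (g x) : ℂ)) (v := v)
    (by simp) (by simp only [hd, one_mul]; exact i1.add i2) (by simpa using i3)
    (by intro x _; exact differentiableAt_const _)
    (by intro x _; exact (hfd x).inner ℂ (hgd x))
  simp only [hd, one_mul] at h1
  rw [integral_add i1 i2] at h1
  simp at h1
  exact eq_neg_of_add_eq_zero_left h1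

end FS

end General

end Pool.Agent.Helper20.PF
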