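import Mathlib

set_option autoImplicit false

open MeasureTheory
open scoped BigOperators

namespace Pool.Agent.Helper20.PF

/-- Physical space `ℝ³`. -/
abbrev E3 : Type := EuclideanSpace ℝ (Fin 3)

/-- The photon momentum `(2π/L) n` belonging to the integer vector `n`. -/
noncomputable def waveVector (L : ℝ) (n : Fin 3 → ℤ) : E3 :=
  WithLp.toLp 2 (fun i => (2 * Real.pi / L) * (n i : ℝ))

/-- Photon momenta `k ∈ (2π/L)ℤ³` with `0 < |k| < Λ`, indexed by integer vectors. -/
def Momentum (L Λ : ℝ) : Type :=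
  {n : Fin 3 → ℤ // 0 < ‖waveVector L n‖ ∧ ‖waveVector L n‖ < Λ}

/-- Photon modes: a momentum and one of the two polarisation indices. -/
abbrev Mode (L Λ : ℝ) : Type := Momentum L Λ × Fin 2

/-- The momentum `k` of a mode. -/
noncomputable def Mode.k {L Λ : ℝ} (m : Mode L Λ) : E3 := waveVector L m.1.1

/-- Finite-particle vectors of the photon Fock space with modes `M`: the polynomial `p` stands
for the vector `p(a*) |0⟩`, a polynomial in the creation operators applied to the vacuum. -/
def Fock (M : Type) : Type := MvPolynomial M ℂ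

noncomputable instance (M : Type) : AddCommGroup (Fock M) :=
  inferInstanceAs (AddCommGroup (MvPolynomial M ℂ))

noncomputable instance (M : Type) : Module ℂ (Fock M) :=
  inferInstanceAs (Module ℂ (MvPolynomial M ℂ))

/-- The polynomial `p` representing a Fock vector `p(a*) |0⟩`. -/
def Fock.poly {M : Type} (v : Fock M) : MvPolynomial M ℂ := v

/-- The coefficient of the monomial `∏ₘ (a*ₘ)^(nₘ) |0⟩` in a Fock vector. -/
noncomputable def Fock.coeff {M : Type} (n : M →₀ ℕ) (v : Fock M) : ℂ :=
  MvPolynomial.coeff n v.poly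

/-- The Fock space inner product: the vectors `∏ₘ (a*ₘ)^(nₘ) |0⟩` are orthogonal with squared
norm `∏ₘ nₘ!`. -/
noncomputable def fockInner {M : Type} (u v : Fock M) : ℂ :=
  ∑ n ∈ u.poly.support,
    (starRingEnd ℂ) (Fock.coeff n u) * Fock.coeff n v * ((n.prod fun _ j => (j.factorial : ℂ)))

theorem fockInner_eq_sum {M : Type} (u v : Fock M) (S : Finset (M →₀ ℕ))
    (hS : u.poly.support ⊆ S) :
    fockInner u v = ∑ n ∈ S,
      (starRingEnd ℂ) (Fock.coeff n u) * Fock.coeff n v *
        ((n.prod fun _ j => (j.factorial : ℂ))) := by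
  unfold fockInner
  apply Finset.sum_subset hS
  intro n _ hn
  have : Fock.coeff n u = 0 := by
    unfold Fock.coeff
    exact MvPolynomial.notMem_support_iff.mp hn
  rw [this]; simp

theorem factorial_prod_conj {M : Type} (n : M →₀ ℕ) :
    (starRingEnd ℂ) (n.prod fun _ j => (j.factorial : ℂ)) = n.prod fun _ j => (j.factorial : ℂ) := by
  unfold Finsupp.prod
  rw [map_prod]
  simp

theorem factorial_prod_eq {M : Type} (n : M →₀ ℕ) :
    (n.prod fun _ j => (j.factorial : ℂ)) = ((n.prod fun _ j => (j.factorial : ℝ) : ℝ) : ℂ) := by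
  unfold Finsupp.prod
  simp

theorem factorial_prod_pos {M : Type} (n : M →₀ ℕ) :
    0 < (n.prod fun _ j => (j.factorial : ℝ)) := by
  unfold Finsupp.prod
  apply Finset.prod_pos
  intro i _
  show (0 : ℝ) < ((n i).factorial : ℝ)
  exact_mod_cast Nat.factorial_pos _

theorem Fock.coeff_add {M : Type} (n : M →₀ ℕ) (u v : Fock M) :
    Fock.coeff n (u + v) = Fock.coeff n u + Fock.coeff n v :=
  MvPolynomial.coeff_add n u v

theorem Fock.coeff_smul {M : Type} (n : M →₀ ℕ) (c : ℂ) (u : Fock M) :
    Fock.coeff n (c • u) = c * Fock.coeff n u :=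
  MvPolynomial.coeff_smul n c u

theorem fockInner_self {M : Type} (u : Fock M) :
    fockInner u u = ((∑ n ∈ u.poly.support,
      ‖Fock.coeff n u‖ ^ 2 * (n.prod fun _ j => (j.factorial : ℝ)) : ℝ) : ℂ) := by
  unfold fockInner
  push_cast
  apply Finset.sum_congr rfl
  intro n _
  rw [← factorial_prod_eq, ← Complex.mul_conj', mul_comm (Fock.coeff n u)]

/-- The Fock space inner product, packaged. -/
@[instance_reducible]
noncomputable def fockCore (M : Type) : InnerProductSpace.Core ℂ (Fock M) where
  inner := fockInner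
  conj_inner_symm u v := by
    classical
    rw [fockInner_eq_sum u v (u.poly.support ∪ v.poly.support)
        Finset.subset_union_left,
      fockInner_eq_sum v u (u.poly.support ∪ v.poly.support)
        Finset.subset_union_right, map_sum]
    apply Finset.sum_congr rfl
    intro n _
    rw [map_mul, map_mul, factorial_prod_conj]
    simp only [Complex.conj_conj]
    ring
  re_inner_nonneg u := by
    rw [fockInner_self]
    simp only [RCLike.re_to_complex, Complex.ofReal_re]
    apply Finset.sum_nonneg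
    intro n _
    exact mul_nonneg (by positivity) (factorial_prod_pos n).le
  add_left u v w := by
    classical
    rw [fockInner_eq_sum (u + v) w (u.poly.support ∪ v.poly.support)
        (MvPolynomial.support_add),
      fockInner_eq_sum u w (u.poly.support ∪ v.poly.support)
        Finset.subset_union_left,
      fockInner_eq_sum v w (u.poly.support ∪ v.poly.support)
        Finset.subset_union_right, ← Finset.sum_add_distrib]
    apply Finset.sum_congr rfl
    intro n _
    rw [Fock.coeff_add, map_add]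
    ring
  smul_left u v c := by
    rw [fockInner_eq_sum (c • u) v u.poly.support (MvPolynomial.support_smul),
      fockInner_eq_sum u v u.poly.support (Finset.Subset.refl _), Finset.mul_sum]
    apply Finset.sum_congr rfl
    intro n _
    rw [Fock.coeff_smul, map_mul]
    ring
  definite u hu := by
    rw [fockInner_self] at hu
    have h0 : (∑ n ∈ u.poly.support,
      ‖Fock.coeff n u‖ ^ 2 * (n.prod fun _ j => (j.factorial : ℝ)) : ℝ) = 0 := by
      exact_mod_cast hu
    rw [Finset.sum_eq_zero_iff_of_nonneg] at h0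
    · apply MvPolynomial.ext
      intro n
      by_cases hn : n ∈ u.poly.support
      · have h1 := h0 n hn
        have h2 := (factorial_prod_pos n).ne'
        have h3 : ‖Fock.coeff n u‖ ^ 2 = 0 := by
          rcases mul_eq_zero.mp h1 with h | h
          · exact h
          · exact absurd h h2
        have h4 : Fock.coeff n u = 0 := by simpa using h3
        exact h4
      · exact MvPolynomial.notMem_support_iff.mp hn
    · intro n _
      exact mul_nonneg (by positivity) (factorial_prod_pos n).le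

noncomputable instance (M : Type) : NormedAddCommGroup (Fock M) :=
  (fockCore M).toNormedAddCommGroup

noncomputable instance (M : Type) : InnerProductSpace ℂ (Fock M) :=
  InnerProductSpace.ofCore (fockCore M).toCore

/-- The vacuum vector `|0⟩`. -/
noncomputable def vacuum (M : Type) : Fock M := (1 : MvPolynomial M ℂ)

/-- The creation operator `a*ₘ`. -/
noncomputable def cr {M : Type} (m : M) : Fock M →ₗ[ℂ] Fock M :=
  LinearMap.mulLeft ℂ (MvPolynomial.X m : MvPolynomial M ℂ)

/-- The annihilation operator `aₘ`. -/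
noncomputable def an {M : Type} (m : M) : Fock M →ₗ[ℂ] Fock M :=
  (MvPolynomial.pderiv m : Derivation ℂ (MvPolynomial M ℂ) (MvPolynomial M ℂ)).toLinearMap

/-- The `i`-th component of the quantised vector potential at `x ∈ ℝ³`, for a field in a cube of
side `L` with ultraviolet cutoff `Λ` and polarisation vectors `pol`:
`A(x) = ∑_{k,μ} ε_μ(k) / √(2V|k|) (e^{ik·x} a_μ(k) + e^{-ik·x} a*_μ(k))` with `V = L³`. -/
noncomputable def vectorPotential (L Λ : ℝ) (pol : Mode L Λ → E3) (i : Fin 3) (x : E3)
    (v : Fock (Mode L Λ)) : Fock (Mode L Λ) :=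
  ∑ᶠ m : Mode L Λ, ((pol m i / Real.sqrt (2 * L ^ 3 * ‖m.k‖) : ℝ) : ℂ) •
    (Complex.exp (Complex.I * ((inner ℝ m.k x : ℝ) : ℂ)) • an m v +
      Complex.exp (-(Complex.I * ((inner ℝ m.k x : ℝ) : ℂ))) • cr m v)

/-- The field energy `H_f = ∑_{k,μ} |k| a*_μ(k) a_μ(k)`. -/
noncomputable def fieldEnergy (L Λ : ℝ) (v : Fock (Mode L Λ)) : Fock (Mode L Λ) :=
  ∑ᶠ m : Mode L Λ, ((‖m.k‖ : ℝ) : ℂ) • cr m (an m v)

/-- Wave functions of `N` spin-1/2 particles and the photon field: functions of `N` positions and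
`N` spin variables with values in Fock space. -/
abbrev WaveFunction (N : ℕ) (M : Type) : Type :=
  (Fin N → E3) → (Fin N → Fin 2) → Fock M

/-- The velocity operator `(p_j + √α A(x_j))_i` with `p_j = -i∇_{x_j}`. -/
noncomputable def velocity {N : ℕ} (α L Λ : ℝ) (pol : Mode L Λ → E3) (j : Fin N) (i : Fin 3)
    (Ψ : WaveFunction N (Mode L Λ)) : WaveFunction N (Mode L Λ) :=
  fun x s => (-Complex.I) •
      fderiv ℝ (fun y => Ψ y s) x (Pi.single j (EuclideanSpace.single i (1 : ℝ))) +
    ((Real.sqrt α : ℝ) : ℂ) • vectorPotential L Λ pol i (x j) (Ψ x s)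

/-- The Hamiltonian `H(N) = H_f + ½ ∑_j (p_j + √α A(x_j))²`. -/
noncomputable def hamiltonian {N : ℕ} (α L Λ : ℝ) (pol : Mode L Λ → E3)
    (Ψ : WaveFunction N (Mode L Λ)) : WaveFunction N (Mode L Λ) :=
  fun x s => fieldEnergy L Λ (Ψ x s) + (1 / 2 : ℂ) •
    ∑ j : Fin N, ∑ i : Fin 3, velocity α L Λ pol j i (velocity α L Λ pol j i Ψ) x s

/-- Fermionic states: smooth compactly supported functions of the positions, with values in a
finite-dimensional space of finite-particle vectors, antisymmetric under exchange of particle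
labels (position and spin together). -/
structure IsFermionState {N : ℕ} {M : Type} (Ψ : WaveFunction N M) : Prop where
  smooth : ∀ s, ContDiff ℝ ((⊤ : ℕ∞) : WithTop ℕ∞) (fun x => Ψ x s)
  compact : ∀ s, HasCompactSupport (fun x => Ψ x s)
  finite : ∃ E : Submodule ℂ (Fock M), FiniteDimensional ℂ E ∧ ∀ x s, Ψ x s ∈ E
  antisymm : ∀ (σ : Equiv.Perm (Fin N)) (x : Fin N → E3) (s : Fin N → Fin 2),
    Ψ (x ∘ σ) (s ∘ σ) = ((Equiv.Perm.sign σ : ℤ) : ℂ) • Ψ x s

/-- The inner product `⟨Φ, Ψ⟩` of the Hilbert space `L²((ℝ³ × {1,2})^N) ⊗ 𝓕`. -/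
noncomputable def braket {N : ℕ} {M : Type} (Φ Ψ : WaveFunction N M) : ℂ :=
  ∫ x, ∑ s, inner ℂ (Φ x s) (Ψ x s)

/-- The ground state energy `E₀(N) = inf ⟨Ψ, H(N) Ψ⟩ / ⟨Ψ, Ψ⟩` over nonzero fermionic `Ψ`. -/
noncomputable def groundEnergy (N : ℕ) (α L Λ : ℝ) (pol : Mode L Λ → E3) : ℝ :=
  sInf {e : ℝ | ∃ Ψ : WaveFunction N (Mode L Λ), IsFermionState Ψ ∧ Ψ ≠ 0 ∧
    e = (braket Ψ (hamiltonian α L Λ pol Ψ)).re / (braket Ψ Ψ).re}

/-- Admissible polarisation vectors: for every momentum `k` the two vectors `ε_1(k), ε_2(k)` are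
orthonormal and orthogonal to `k`. -/
structure IsPolarisation {L Λ : ℝ} (pol : Mode L Λ → E3) : Prop where
  orthonormal : ∀ (n : Momentum L Λ) (μ ν : Fin 2),
    inner ℝ (pol (n, μ)) (pol (n, ν)) = if μ = ν then (1 : ℝ) else 0
  transverse : ∀ m : Mode L Λ, inner ℝ (pol m) m.k = (0 : ℝ)

end Pool.Agent.Helper20.PF
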