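import Pool.Agent.Helper20.PFUpper2
import Pool.Agent.Helper20.PFCount

set_option autoImplicit false

open MeasureTheory
open scoped BigOperators ComplexConjugate

namespace Pool.Agent.Helper20.PF

section Orbital

/-- Existence of orbitals of arbitrary width with controlled kinetic energy. -/
theorem exists_orbital : ∃ κ : ℝ, 0 ≤ κ ∧ ∀ R : ℝ, 0 < R → ∃ φ : E3 → ℝ,
    ContDiff ℝ ((⊤ : ℕ∞) : WithTop ℕ∞) φ ∧ HasCompactSupport φ ∧ (0 < ∫ x, φ x ^ 2) ∧
    (∀ x, φ x ≠ 0 → ‖x‖ ≤ R) ∧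
    (∫ x, ∑ i : Fin 3, dphi φ i x ^ 2) / (∫ x, φ x ^ 2) = κ / R ^ 2 := by
  let f : ContDiffBump (0 : E3) := ⟨1 / 2, 1, by norm_num, by norm_num⟩
  have hf : ContDiff ℝ ((⊤ : ℕ∞) : WithTop ℕ∞) (f : E3 → ℝ) := f.contDiff
  have hfc : HasCompactSupport (f : E3 → ℝ) := f.hasCompactSupport
  set A : ℝ := ∫ x, (f x) ^ 2 with hA
  set G : ℝ := ∫ x, ∑ i : Fin 3, dphi f i x ^ 2 with hG
  have hApos : 0 < A := by
    apply Continuous.integral_pos_of_hasCompactSupport_nonneg_nonzero (x := (0 : E3))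
    · exact hf.continuous.pow 2
    · exact hfc.comp_left (g := fun r : ℝ => r ^ 2) (by simp)
    · intro x
      exact sq_nonneg _
    · have h1 : f (0 : E3) = 1 := by
        apply f.one_of_mem_closedBall
        simp [f.rIn_pos.le]
      rw [h1]; norm_num
  have hGnn : 0 ≤ G := by
    apply integral_nonneg
    intro x
    exact Finset.sum_nonneg (fun i _ => sq_nonneg _)
  refine ⟨G / A, div_nonneg hGnn hApos.le, ?_⟩
  intro R hR
  refine ⟨fun x => f (R⁻¹ • x), ?_, ?_, ?_, ?_, ?_⟩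
  · exact hf.comp (contDiff_const_smul _)
  · exact hfc.comp_smul (inv_ne_zero hR.ne')
  · have h1 : ∫ x : E3, f (R⁻¹ • x) ^ 2 = |(R⁻¹ ^ 3)⁻¹| • A := by
      have := Measure.integral_comp_smul (volume : Measure E3) (fun x => f x ^ 2) R⁻¹
      rw [this, finrank_euclideanSpace_fin]
    rw [h1, smul_eq_mul]
    positivity
  · intro x hx
    have h1 : (R⁻¹ • x) ∈ Function.support f := hx
    rw [f.support_eq, Metric.mem_ball, dist_zero_right, norm_smul, norm_inv,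
      Real.norm_eq_abs, abs_of_pos hR] at h1
    have h2 : f.rOut = 1 := rfl
    rw [h2, inv_mul_lt_iff₀ hR] at h1
    linarith
  · have h1 : ∫ x : E3, f (R⁻¹ • x) ^ 2 = |(R⁻¹ ^ 3)⁻¹| • A := by
      have := Measure.integral_comp_smul (volume : Measure E3) (fun x => f x ^ 2) R⁻¹
      rw [this, finrank_euclideanSpace_fin]
    have hd : ∀ (i : Fin 3) (x : E3), dphi (fun x => f (R⁻¹ • x)) i x = R⁻¹ * dphi f i (R⁻¹ • x) := by
      intro i x
      unfold dphi
      have h3 : HasFDerivAt (fun x : E3 => R⁻¹ • x) (R⁻¹ • ContinuousLinearMap.id ℝ E3) x :=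
        (ContinuousLinearMap.id ℝ E3).hasFDerivAt.const_smul R⁻¹
      have h4 : HasFDerivAt f (fderiv ℝ f (R⁻¹ • x)) (R⁻¹ • x) :=
        ((hf.differentiable (by simp)) (R⁻¹ • x)).hasFDerivAt
      have h5 : fderiv ℝ (fun x => f (R⁻¹ • x)) x = _ := (h4.comp x h3).fderiv
      rw [h5]
      simp
    have h2 : ∫ x : E3, ∑ i : Fin 3, dphi (fun x => f (R⁻¹ • x)) i x ^ 2 =
        R⁻¹ ^ 2 * (|(R⁻¹ ^ 3)⁻¹| • G) := by
      have e1 : ∀ x : E3, ∑ i : Fin 3, dphi (fun x => f (R⁻¹ • x)) i x ^ 2 =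
          R⁻¹ ^ 2 * (fun y => ∑ i : Fin 3, dphi f i y ^ 2) (R⁻¹ • x) := by
        intro x
        simp only [hd, mul_pow, Finset.mul_sum]
      simp only [e1]
      rw [integral_const_mul]
      congr 1
      have := Measure.integral_comp_smul (volume : Measure E3)
        (fun y => ∑ i : Fin 3, dphi f i y ^ 2) R⁻¹
      rw [this, finrank_euclideanSpace_fin]
    rw [h1, h2, smul_eq_mul, smul_eq_mul]
    have h6 : |(R⁻¹ ^ 3)⁻¹| ≠ 0 := by positivity
    field_simp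

end Orbital

theorem braket_self {N : ℕ} {M : Type} (Ψ : WaveFunction N M) :
    braket Ψ Ψ = ((∫ x, ∑ s, ‖Ψ x s‖ ^ 2 : ℝ) : ℂ) := by
  unfold braket
  rw [← integral_complex_ofReal]
  congr 1
  funext x
  push_cast
  apply Finset.sum_congr rfl
  intro s _
  rw [inner_self_real']; push_cast; rfl

theorem norm_pos_of_ne_zero {N : ℕ} {M : Type} {Ψ : WaveFunction N M} (h : WS Ψ) (h0 : Ψ ≠ 0) :
    0 < ∫ x, ∑ s, ‖Ψ x s‖ ^ 2 := by
  have : ∃ x s, Ψ x s ≠ 0 := by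
    by_contra hcon
    push Not at hcon
    apply h0
    funext x s
    exact hcon x s
  obtain ⟨x0, s0, hx⟩ := this
  apply Continuous.integral_pos_of_hasCompactSupport_nonneg_nonzero (x := x0)
  · exact continuous_finsetSum _ (fun s _ => (h s).smooth.continuous.norm.pow 2)
  · have h1 : ∀ s, HasCompactSupport (fun x => ‖Ψ x s‖ ^ 2) := fun s =>
      (h s).compact.comp_left (g := fun v : Fock M => ‖v‖ ^ 2) (by simp)
    have hK : IsCompact (⋃ s : Fin N → Fin 2, tsupport (fun x => ‖Ψ x s‖ ^ 2)) :=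
      isCompact_iUnion (fun s => h1 s)
    apply HasCompactSupport.intro hK
    intro x hx
    simp only [Set.mem_iUnion, not_exists] at hx
    apply Finset.sum_eq_zero
    intro s _
    exact image_eq_zero_of_notMem_tsupport (f := fun x => ‖Ψ x s‖ ^ 2) (hx s)
  · intro x
    exact Finset.sum_nonneg (fun s _ => by positivity)
  · have h2 : 0 < ‖Ψ x0 s0‖ ^ 2 := by positivity
    have h3 : ‖Ψ x0 s0‖ ^ 2 ≤ ∑ s, ‖Ψ x0 s‖ ^ 2 :=
      Finset.single_le_sum (f := fun s => ‖Ψ x0 s‖ ^ 2) (fun s _ => by positivity)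
        (Finset.mem_univ s0)
    exact (lt_of_lt_of_le h2 h3).ne'

variable {L Λ : ℝ}

/-- There is at least one one-electron state. -/
theorem one_state_exists : ∃ Ψ : WaveFunction 1 (Mode L Λ), IsFermionState Ψ ∧ Ψ ≠ 0 := by
  let f : ContDiffBump (0 : E3) := ⟨1 / 2, 1, by norm_num, by norm_num⟩
  have hf : ContDiff ℝ ((⊤ : ℕ∞) : WithTop ℕ∞) (f : E3 → ℝ) := f.contDiff
  have hfc : HasCompactSupport (f : E3 → ℝ) := f.hasCompactSupport
  refine ⟨fun x _ => ((f (x 0) : ℝ) : ℂ) • vacuum (Mode L Λ), ⟨?_, ?_, ?_, ?_⟩, ?_⟩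
  · intro s
    exact (Complex.ofRealCLM.contDiff.comp (hf.comp (contDiff_apply ℝ E3 0))).smul contDiff_const
  · intro s
    have hK : IsCompact (Set.pi Set.univ (fun _ : Fin 1 => tsupport (f : E3 → ℝ))) :=
      isCompact_univ_pi (fun _ => hfc)
    apply HasCompactSupport.intro hK
    intro x hx
    rw [Set.mem_univ_pi] at hx
    push Not at hx
    obtain ⟨i, hi⟩ := hx
    have hi0 : i = 0 := Subsingleton.elim _ _
    subst hi0
    have h0 : f (x 0) = 0 := image_eq_zero_of_notMem_tsupport hi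
    rw [h0]; simp
  · exact ⟨Submodule.span ℂ {vacuum (Mode L Λ)}, inferInstance,
      fun x s => Submodule.smul_mem _ _ (Submodule.mem_span_singleton_self _)⟩
  · intro σ x s
    have : σ = 1 := Subsingleton.elim _ _
    subst this
    simp
  · intro h
    have h1 := congrFun (congrFun h 0) 0
    simp only [Pi.zero_apply] at h1
    have h2 : f (0 : E3) = 1 := by
      apply f.one_of_mem_closedBall
      simp [f.rIn_pos.le]
    rw [h2] at h1
    simp at h1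
    have h3 := inner_vacuum (M := Mode L Λ)
    rw [h1] at h3
    simp at h3

variable [Fintype (Momentum L Λ)]

theorem le_groundEnergy_one (hL : 0 < L) (pol : Mode L Λ → E3) (hp : IsPolarisation pol)
    (hmu : 0 < muL L Λ) (α : ℝ) :
    (3 / 2) * (Real.sqrt α * Real.sqrt (muL L Λ)) - (3 / 2) * Λ ≤ groundEnergy 1 α L Λ pol := by
  apply le_csInf
  · obtain ⟨Ψ, h1, h2⟩ := one_state_exists (L := L) (Λ := Λ)
    exact ⟨_, Ψ, h1, h2, rfl⟩
  · rintro e ⟨Ψ, h1, h2, rfl⟩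
    have h3 := norm_pos_of_ne_zero h1.ws h2
    rw [braket_self, Complex.ofReal_re, braket_hamiltonian α pol h1.ws, Complex.ofReal_re,
      le_div_iff₀ h3]
    exact lower_bound_form hL pol hp hmu α h1.ws

/-- Comparison of the ground state energies of one and two electrons. -/
theorem binding_core (hL : 0 < L) (hΛ : 0 < Λ) (pol : Mode L Λ → E3) (hp : IsPolarisation pol)
    (hmu : 0 < muL L Λ) (α q R δ κ : ℝ) (hα : 0 < α) (hδ : 0 < δ)
    (hq : q = Real.sqrt (α * muL L Λ / 8)) (hqΛ : Λ < 4 * q)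
    (φ : E3 → ℝ) (hφ : ContDiff ℝ ((⊤ : ℕ∞) : WithTop ℕ∞) φ)
    (hφc : HasCompactSupport φ) (hφ0 : 0 < ∫ x, φ x ^ 2) (hR : ∀ x, φ x ≠ 0 → ‖x‖ ≤ R)
    (hκ : (∫ x, ∑ i : Fin 3, dphi φ i x ^ 2) / (∫ x, φ x ^ 2) = κ) :
    groundEnergy 2 α L Λ pol ≤ 2 * groundEnergy 1 α L Λ pol -
      (21 / 10 * q - 3 * Λ - 11 / 10 * δ - 88 * R ^ 2 * q ^ 2 * (18 * q + 3 * Λ) - κ) := by
  set mu := muL L Λ with hmudef
  have hc0 : mu ≤ 2 * Λ * c0 L Λ := muL_le_c0 hL hΛ
  have hc : 0 < c0 L Λ := by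
    by_contra hcon
    have : 2 * Λ * c0 L Λ ≤ 0 := mul_nonpos_of_nonneg_of_nonpos (by positivity) (not_lt.mp hcon)
    linarith
  have hq0 : 0 < q := by rw [hq]; exact Real.sqrt_pos.mpr (by positivity)
  have hq2 : q ^ 2 = α * mu / 8 := by rw [hq]; exact Real.sq_sqrt (by positivity)
  have hy : Real.sqrt (mu / (8 * α)) < c0 L Λ := by
    have h1 : mu / (2 * Λ) ≤ c0 L Λ := by
      rw [div_le_iff₀ (by positivity)]; linarith
    refine lt_of_lt_of_le ?_ h1
    rw [Real.sqrt_lt' (by positivity), div_pow, div_lt_div_iff₀ (by positivity) (by positivity)]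
    have h2 : Λ ^ 2 < 16 * q ^ 2 := by nlinarith
    rw [hq2] at h2
    have h3 : (2 * Λ) ^ 2 < 8 * (α * mu) := by nlinarith
    calc mu * (2 * Λ) ^ 2 < mu * (8 * (α * mu)) := by
          apply mul_lt_mul_of_pos_left h3 hmu
      _ = mu ^ 2 * (8 * α) := by ring
  obtain ⟨η, h1, h2, h3⟩ := exists_trial_opt hL pol hp hc hmu α δ hα hδ hy
  rw [← hmudef, ← hq] at h2 h3
  have hW : ∀ x : E3, ‖x‖ ≤ R → ∑ i : Fin 3, ‖vp pol i x η‖ ^ 2 ≤
      (1 + 1 / 10) * ∑ i : Fin 3, ‖vp pol i 0 η‖ ^ 2 +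
        (1 + 1 / (1 / 10)) * (R ^ 2 * mu * (6 * (3 * q) + 3 * Λ)) := by
    intro x hx
    have h4 := sum_norm_vp_le hL pol hp x η (1 / 10) (by norm_num)
    refine h4.trans ?_
    apply add_le_add_right
    apply mul_le_mul_of_nonneg_left _ (by norm_num)
    rw [h1]
    have h5 : ‖x‖ ^ 2 ≤ R ^ 2 := pow_le_pow_left₀ (norm_nonneg _) hx 2
    have h6 : 0 ≤ numE (fun m : Mode L Λ => ‖m.k‖) η := numE_nonneg _ (fun m => norm_nonneg _) _
    apply mul_le_mul
    · apply mul_le_mul_of_nonneg_right h5 hmu.le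
    · linarith
    · positivity
    · positivity
  have hub := groundEnergy_two_le hφ hφc hφ0 R hR α hα.le pol η h1 _ hW
  have hlb := le_groundEnergy_one hL pol hp hmu α
  rw [hκ] at hub
  have hβ : Real.sqrt α * Real.sqrt mu = Real.sqrt 8 * q := by
    rw [hq, ← Real.sqrt_mul hα.le, ← Real.sqrt_mul (by norm_num)]
    congr 1
    ring
  rw [← hmudef, hβ] at hlb
  have hs8 : (28 / 10 : ℝ) ≤ Real.sqrt 8 := by
    apply Real.le_sqrt_of_sq_le
    norm_num
  have hs8q : (28 / 10 : ℝ) * q ≤ Real.sqrt 8 * q := mul_le_mul_of_nonneg_right hs8 hq0.le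
  have hαW : α * ((1 + 1 / 10) * ∑ i : Fin 3, ‖vp pol i 0 η‖ ^ 2 +
        (1 + 1 / (1 / 10)) * (R ^ 2 * mu * (6 * (3 * q) + 3 * Λ))) ≤
      (11 / 10) * (3 * q + δ) + 88 * R ^ 2 * q ^ 2 * (18 * q + 3 * Λ) := by
    have e1 : α * ((1 + 1 / 10) * ∑ i : Fin 3, ‖vp pol i 0 η‖ ^ 2 +
        (1 + 1 / (1 / 10)) * (R ^ 2 * mu * (6 * (3 * q) + 3 * Λ))) =
        (11 / 10) * (α * ∑ i : Fin 3, ‖vp pol i 0 η‖ ^ 2) +
        88 * R ^ 2 * (α * mu / 8) * (18 * q + 3 * Λ) := by ring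
    rw [e1, ← hq2]
    linarith
  linarith

end Pool.Agent.Helper20.PF
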