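import Pool.Agent.Helper20.PFVel

set_option autoImplicit false

open MeasureTheory
open scoped BigOperators ComplexConjugate

namespace Pool.Agent.Helper20.PF

variable {L Λ : ℝ}

theorem al_mul_be (hL : 0 < L) (pol : Mode L Λ → E3) (i l : Fin 3) (m : Mode L Λ) :
    al pol i m * be pol l m = pol m i * pol m l * (1 / (2 * L ^ 3)) := by
  have hk : 0 < ‖m.k‖ := m.1.2.1
  unfold be al
  have h1 : Real.sqrt (2 * L ^ 3 * ‖m.k‖) * Real.sqrt (2 * L ^ 3 * ‖m.k‖) = 2 * L ^ 3 * ‖m.k‖ :=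
    Real.mul_self_sqrt (by positivity)
  have h2 : Real.sqrt (2 * L ^ 3 * ‖m.k‖) ≠ 0 := (Real.sqrt_pos.mpr (by positivity)).ne'
  have h3 : pol m i / Real.sqrt (2 * L ^ 3 * ‖m.k‖) * (pol m l / Real.sqrt (2 * L ^ 3 * ‖m.k‖) * ‖m.k‖)
      = pol m i * pol m l * ‖m.k‖ /
        (Real.sqrt (2 * L ^ 3 * ‖m.k‖) * Real.sqrt (2 * L ^ 3 * ‖m.k‖)) := by
    field_simp
  rw [h3, h1]
  field_simp

theorem be_mul_be (hL : 0 < L) (pol : Mode L Λ → E3) (i : Fin 3) (m : Mode L Λ) :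
    be pol i m * be pol i m = pol m i * pol m i * (‖m.k‖ / (2 * L ^ 3)) := by
  have h := al_mul_be hL pol i i m
  have h2 : be pol i m * be pol i m = (al pol i m * be pol i m) * ‖m.k‖ := by
    unfold be; ring
  rw [h2, h]
  ring

/-- The contact strength `μ = (2/3) |K| / V`. -/
noncomputable def muL (L Λ : ℝ) [Fintype (Momentum L Λ)] : ℝ :=
  (2 / 3) * (Fintype.card (Momentum L Λ) : ℝ) / L ^ 3

variable [Fintype (Momentum L Λ)]

theorem sum_al_be (hL : 0 < L) (pol : Mode L Λ → E3) (hp : IsPolarisation pol) (i l : Fin 3) :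
    ∑ m, al pol i m * be pol l m = if i = l then muL L Λ / 2 else 0 := by
  rw [Finset.sum_congr rfl (fun m _ => al_mul_be hL pol i l m)]
  rw [sum_pol pol hp (fun _ => 1 / (2 * L ^ 3)) i l]
  split_ifs
  · unfold muL
    simp only [Finset.sum_const, Finset.card_univ, nsmul_eq_mul]
    field_simp
  · rfl

theorem sum_be_sq_le (hL : 0 < L) (pol : Mode L Λ → E3) (hp : IsPolarisation pol) (i : Fin 3) :
    ∑ m, be pol i m ^ 2 ≤ Λ * (muL L Λ / 2) := by
  have h1 : ∑ m, be pol i m ^ 2 = 2 / 3 * ∑ n : Momentum L Λ, ‖n.k‖ / (2 * L ^ 3) := by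
    have h2 : ∀ m : Mode L Λ, be pol i m ^ 2 = pol m i * pol m i * ((fun r => r / (2 * L ^ 3)) ‖m.k‖) := by
      intro m
      rw [sq, be_mul_be hL pol i m]
    rw [Finset.sum_congr rfl (fun m _ => h2 m), sum_pol pol hp (fun r => r / (2 * L ^ 3)) i i,
      if_pos rfl]
  rw [h1]
  have h3 : ∑ n : Momentum L Λ, ‖n.k‖ / (2 * L ^ 3) ≤
      ∑ n : Momentum L Λ, Λ / (2 * L ^ 3) := by
    apply Finset.sum_le_sum
    intro n _
    have : ‖n.k‖ ≤ Λ := n.2.2.le
    gcongr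
  have h4 : ∑ n : Momentum L Λ, Λ / (2 * L ^ 3) = Fintype.card (Momentum L Λ) * (Λ / (2 * L ^ 3)) := by
    simp [Finset.sum_const, Finset.card_univ]
  rw [h4] at h3
  calc 2 / 3 * ∑ n : Momentum L Λ, ‖n.k‖ / (2 * L ^ 3) ≤
        2 / 3 * (Fintype.card (Momentum L Λ) * (Λ / (2 * L ^ 3))) := by
          apply mul_le_mul_of_nonneg_left h3 (by norm_num)
    _ = Λ * (muL L Λ / 2) := by
        unfold muL
        field_simp

/-- Bessel bound for field-type annihilation operators. -/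
theorem sum_norm_anC_be_le (hL : 0 < L) (pol : Mode L Λ → E3) (hp : IsPolarisation pol)
    (hmu : 0 < muL L Λ) (x : E3) (v : Fock (Mode L Λ)) :
    ∑ i : Fin 3, ‖anC (fun m => (be pol i m : ℂ) * ph m x) v‖ ^ 2 ≤
      (muL L Λ / 2) * numE (fun m => ‖m.k‖) v := by
  have hk : ∀ m : Mode L Λ, 0 < ‖m.k‖ := fun m => m.1.2.1
  have h1 := bessel_vec (ι := Fin 3) (fun m : Mode L Λ => ((Real.sqrt ‖m.k‖ : ℝ) : ℂ) • an m v)
    (fun i m => ((al pol i m * Real.sqrt ‖m.k‖ : ℝ) : ℂ) * ph m x) (muL L Λ / 2) (by linarith)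
    (by
      intro i l
      have h2 : ∀ m : Mode L Λ, ((al pol i m * Real.sqrt ‖m.k‖ : ℝ) : ℂ) * ph m x *
          conj (((al pol l m * Real.sqrt ‖m.k‖ : ℝ) : ℂ) * ph m x) =
          ((al pol i m * be pol l m : ℝ) : ℂ) := by
        intro m
        rw [map_mul, Complex.conj_ofReal]
        calc ((al pol i m * Real.sqrt ‖m.k‖ : ℝ) : ℂ) * ph m x *
              (((al pol l m * Real.sqrt ‖m.k‖ : ℝ) : ℂ) * conj (ph m x)) =
              ((al pol i m * Real.sqrt ‖m.k‖ * (al pol l m * Real.sqrt ‖m.k‖) : ℝ) : ℂ) *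
                (ph m x * conj (ph m x)) := by push_cast; ring
          _ = ((al pol i m * be pol l m : ℝ) : ℂ) := by
              rw [ph_mul_conj, mul_one]
              congr 1
              unfold be
              have := Real.mul_self_sqrt (hk m).le
              calc al pol i m * Real.sqrt ‖m.k‖ * (al pol l m * Real.sqrt ‖m.k‖) =
                  al pol i m * al pol l m * (Real.sqrt ‖m.k‖ * Real.sqrt ‖m.k‖) := by ring
                _ = _ := by rw [this]; ring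
      rw [Finset.sum_congr rfl (fun m _ => h2 m), ← Complex.ofReal_sum, sum_al_be hL pol hp]
      split_ifs <;> simp)
  refine le_trans (le_of_eq ?_) (h1.trans (le_of_eq ?_))
  · apply Finset.sum_congr rfl
    intro i _
    congr 2
    rw [anC_apply]
    apply Finset.sum_congr rfl
    intro m _
    rw [smul_smul]
    congr 1
    unfold be
    have h3 : ((Real.sqrt ‖m.k‖ : ℝ) : ℂ) * ((Real.sqrt ‖m.k‖ : ℝ) : ℂ) = ((‖m.k‖ : ℝ) : ℂ) := by
      rw [← Complex.ofReal_mul, Real.mul_self_sqrt (hk m).le]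
    push_cast
    calc (al pol i m : ℂ) * ((‖m.k‖ : ℝ) : ℂ) * ph m x =
        (al pol i m : ℂ) * (((Real.sqrt ‖m.k‖ : ℝ) : ℂ) * ((Real.sqrt ‖m.k‖ : ℝ) : ℂ)) * ph m x := by
          rw [h3]
      _ = _ := by ring
  · unfold numE
    congr 1
    apply Finset.sum_congr rfl
    intro m _
    rw [norm_smul, mul_pow]
    congr 1
    rw [Complex.norm_real, Real.norm_eq_abs, sq_abs, Real.sq_sqrt (hk m).le]

/-- The electric field is controlled by the field energy. -/
theorem sum_norm_ef_le (hL : 0 < L) (pol : Mode L Λ → E3) (hp : IsPolarisation pol)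
    (hmu : 0 < muL L Λ) (x : E3) (v : Fock (Mode L Λ)) :
    ∑ i : Fin 3, ‖ef pol i x v‖ ^ 2 ≤
      2 * muL L Λ * numE (fun m => ‖m.k‖) v + 3 * Λ * muL L Λ * ‖v‖ ^ 2 := by
  have h1 : ∀ i : Fin 3, ‖ef pol i x v‖ ^ 2 ≤
      4 * ‖anC (fun m => (be pol i m : ℂ) * ph m x) v‖ ^ 2 + 2 * (Λ * (muL L Λ / 2)) * ‖v‖ ^ 2 := by
    intro i
    have h2 : ‖ef pol i x v‖ = ‖anC (fun m => (be pol i m : ℂ) * ph m x) v -
        crC (fun m => conj ((be pol i m : ℂ) * ph m x)) v‖ := by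
      unfold ef
      rw [LinearMap.smul_apply, norm_smul, Complex.norm_I, one_mul, LinearMap.sub_apply]
      simp only [map_mul, Complex.conj_ofReal]
    rw [h2]
    have h3 := norm_anC_sub_crC_sq_le (fun m => (be pol i m : ℂ) * ph m x) v
    have h4 : ∑ m : Mode L Λ, ‖(be pol i m : ℂ) * ph m x‖ ^ 2 ≤ Λ * (muL L Λ / 2) := by
      refine le_trans (le_of_eq ?_) (sum_be_sq_le hL pol hp i)
      apply Finset.sum_congr rfl
      intro m _
      rw [norm_mul, norm_ph, mul_one, Complex.norm_real, Real.norm_eq_abs, sq_abs]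
    refine h3.trans ?_
    have h5 : 0 ≤ ‖v‖ ^ 2 := by positivity
    nlinarith
  calc ∑ i : Fin 3, ‖ef pol i x v‖ ^ 2 ≤ ∑ i : Fin 3,
        (4 * ‖anC (fun m => (be pol i m : ℂ) * ph m x) v‖ ^ 2 +
          2 * (Λ * (muL L Λ / 2)) * ‖v‖ ^ 2) := Finset.sum_le_sum (fun i _ => h1 i)
    _ = 4 * (∑ i : Fin 3, ‖anC (fun m => (be pol i m : ℂ) * ph m x) v‖ ^ 2) +
          3 * Λ * muL L Λ * ‖v‖ ^ 2 := by
        rw [Finset.sum_add_distrib, ← Finset.mul_sum]
        simp only [Finset.sum_const, Finset.card_univ, Fintype.card_fin, nsmul_eq_mul]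
        push_cast
        ring
    _ ≤ 2 * muL L Λ * numE (fun m => ‖m.k‖) v + 3 * Λ * muL L Λ * ‖v‖ ^ 2 := by
        have := sum_norm_anC_be_le hL pol hp hmu x v
        linarith

end Pool.Agent.Helper20.PF
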