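import Pool.Agent.Helper20.PFLower

set_option autoImplicit false

open MeasureTheory
open scoped BigOperators ComplexConjugate

namespace Pool.Agent.Helper20.PF

variable {L Λ : ℝ} {N : ℕ} [Fintype (Momentum L Λ)]

theorem FS.differentiableAt {V : Type} [NormedAddCommGroup V] [InnerProductSpace ℂ V]
    {f : (Fin N → E3) → V} (hf : FS f) (x : Fin N → E3) : DifferentiableAt ℝ f x :=
  (hf.smooth.differentiable (by simp)) x

theorem fderiv_anC_apply {f : (Fin N → E3) → Fock (Mode L Λ)} (hf : FS f)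
    {c : Mode L Λ → (Fin N → E3) → ℂ}
    (hc : ∀ m, ContDiff ℝ ((⊤ : ℕ∞) : WithTop ℕ∞) (c m)) (x v : Fin N → E3) :
    fderiv ℝ (fun x => anC (fun m => c m x) (f x)) x v =
      anC (fun m => c m x) (fderiv ℝ f x v) + anC (fun m => fderiv ℝ (c m) x v) (f x) := by
  have hcd : ∀ m, DifferentiableAt ℝ (c m) x := fun m => ((hc m).differentiable (by simp)) x
  simp only [anC_apply]
  have hs : fderiv ℝ (fun x => ∑ m, c m x • (an m) (f x)) x =
      ∑ m, fderiv ℝ (fun x => c m x • (an m) (f x)) x :=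
    fderiv_fun_sum (fun m _ => (hcd m).smul ((hf.map (an m)).differentiableAt x))
  rw [hs, _root_.sum_apply, ← Finset.sum_add_distrib]
  apply Finset.sum_congr rfl
  intro m _
  have h1 := ((hcd m).hasFDerivAt.smul ((hf.map (an m)).differentiableAt x).hasFDerivAt).fderiv
  have h2 : fderiv ℝ (fun x => c m x • (an m) (f x)) x =
    c m x • fderiv ℝ (fun x => (an m) (f x)) x +
      (fderiv ℝ (c m) x).smulRight ((an m) (f x)) := h1
  rw [h2]
  simp only [_root_.add_apply, _root_.smul_apply,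
    ContinuousLinearMap.smulRight_apply, hf.fderiv_map (an m)]

theorem fderiv_crC_apply {f : (Fin N → E3) → Fock (Mode L Λ)} (hf : FS f)
    {c : Mode L Λ → (Fin N → E3) → ℂ}
    (hc : ∀ m, ContDiff ℝ ((⊤ : ℕ∞) : WithTop ℕ∞) (c m)) (x v : Fin N → E3) :
    fderiv ℝ (fun x => crC (fun m => c m x) (f x)) x v =
      crC (fun m => c m x) (fderiv ℝ f x v) + crC (fun m => fderiv ℝ (c m) x v) (f x) := by
  have hcd : ∀ m, DifferentiableAt ℝ (c m) x := fun m => ((hc m).differentiable (by simp)) x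
  simp only [crC_apply]
  have hs : fderiv ℝ (fun x => ∑ m, c m x • (cr m) (f x)) x =
      ∑ m, fderiv ℝ (fun x => c m x • (cr m) (f x)) x :=
    fderiv_fun_sum (fun m _ => (hcd m).smul ((hf.map (cr m)).differentiableAt x))
  rw [hs, _root_.sum_apply, ← Finset.sum_add_distrib]
  apply Finset.sum_congr rfl
  intro m _
  have h1 := ((hcd m).hasFDerivAt.smul ((hf.map (cr m)).differentiableAt x).hasFDerivAt).fderiv
  have h2 : fderiv ℝ (fun x => c m x • (cr m) (f x)) x =
    c m x • fderiv ℝ (fun x => (cr m) (f x)) x +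
      (fderiv ℝ (c m) x).smulRight ((cr m) (f x)) := h1
  rw [h2]
  simp only [_root_.add_apply, _root_.smul_apply,
    ContinuousLinearMap.smulRight_apply, hf.fderiv_map (cr m)]

omit [Fintype (Momentum L Λ)] in
theorem fderiv_be_ph (pol : Mode L Λ → E3) (j : Fin N) (i : Fin 3) (m : Mode L Λ)
    (x : Fin N → E3) :
    fderiv ℝ (fun x : Fin N → E3 => (be pol i m : ℂ) * ph m (x j)) x (dir j i) =
      ((be pol i m * m.k i : ℝ) : ℂ) * (Complex.I * ph m (x j)) := by
  have hd : DifferentiableAt ℝ (fun x : Fin N → E3 => ph m (x j)) x :=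
    ((contDiff_ph m j).differentiable (by simp)) x
  rw [fderiv_const_mul hd, _root_.smul_apply, hasFDerivAt_ph, smul_eq_mul]
  push_cast
  ring

omit [Fintype (Momentum L Λ)] in
theorem fderiv_be_conj_ph (pol : Mode L Λ → E3) (j : Fin N) (i : Fin 3) (m : Mode L Λ)
    (x : Fin N → E3) :
    fderiv ℝ (fun x : Fin N → E3 => (be pol i m : ℂ) * conj (ph m (x j))) x (dir j i) =
      ((be pol i m * m.k i : ℝ) : ℂ) * (-Complex.I * conj (ph m (x j))) := by
  have hd : DifferentiableAt ℝ (fun x : Fin N → E3 => ph m (x j)) x :=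
    ((contDiff_ph m j).differentiable (by simp)) x
  have hd2 : DifferentiableAt ℝ (fun x : Fin N → E3 => conj (ph m (x j))) x :=
    ((contDiff_conj_ph m j).differentiable (by simp)) x
  have h1 : fderiv ℝ (fun x : Fin N → E3 => conj (ph m (x j))) x (dir j i) =
      conj (fderiv ℝ (fun x : Fin N → E3 => ph m (x j)) x (dir j i)) := by
    have h2 : fderiv ℝ (fun x : Fin N → E3 => conj (ph m (x j))) x =
        (Complex.conjCLE : ℂ →L[ℝ] ℂ).comp (fderiv ℝ (fun x : Fin N → E3 => ph m (x j)) x) :=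
      ((Complex.conjCLE : ℂ →L[ℝ] ℂ).hasFDerivAt.comp x hd.hasFDerivAt).fderiv
    rw [h2]
    rfl
  rw [fderiv_const_mul hd2, _root_.smul_apply, h1, hasFDerivAt_ph, smul_eq_mul]
  simp only [map_mul, Complex.conj_I, Complex.conj_ofReal]
  push_cast
  ring

omit [Fintype (Momentum L Λ)] in
theorem sum_be_k (pol : Mode L Λ → E3) (hp : IsPolarisation pol) (m : Mode L Λ) :
    ∑ i : Fin 3, be pol i m * m.k i = 0 := by
  have h1 := hp.transverse m
  rw [PiLp.inner_apply] at h1
  have h2 : ∑ i : Fin 3, be pol i m * m.k i =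
      (∑ i : Fin 3, pol m i * m.k i) * (‖m.k‖ / Real.sqrt (2 * L ^ 3 * ‖m.k‖)) := by
    rw [Finset.sum_mul]
    apply Finset.sum_congr rfl
    intro i _
    unfold be al
    ring
  rw [h2]
  have h3 : ∑ i : Fin 3, pol m i * m.k i = 0 := by
    rw [← h1]
    apply Finset.sum_congr rfl
    intro i _
    simp [mul_comm]
  rw [h3, zero_mul]

/-- `∑ᵢ ∂ᵢ Fᵢ = 0`: the divergence of the electric field vanishes. -/
theorem sum_fderiv_ef {f : (Fin N → E3) → Fock (Mode L Λ)} (hf : FS f) (pol : Mode L Λ → E3)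
    (hp : IsPolarisation pol) (j : Fin N) (x : Fin N → E3) :
    ∑ i : Fin 3, fderiv ℝ (fun x => ef pol i (x j) (f x)) x (dir j i) =
      ∑ i : Fin 3, ef pol i (x j) (fderiv ℝ f x (dir j i)) := by
  have h1 : ∀ i : Fin 3, fderiv ℝ (fun x => ef pol i (x j) (f x)) x (dir j i) =
      ef pol i (x j) (fderiv ℝ f x (dir j i)) +
      Complex.I • (anC (fun m => ((be pol i m * m.k i : ℝ) : ℂ) * (Complex.I * ph m (x j))) (f x) -
        crC (fun m => ((be pol i m * m.k i : ℝ) : ℂ) * (-Complex.I * conj (ph m (x j)))) (f x)) := by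
    intro i
    have ca : ∀ m : Mode L Λ, ContDiff ℝ ((⊤ : ℕ∞) : WithTop ℕ∞)
      (fun x : Fin N → E3 => (be pol i m : ℂ) * ph m (x j)) :=
      fun m => contDiff_const.mul (contDiff_ph m j)
    have cc : ∀ m : Mode L Λ, ContDiff ℝ ((⊤ : ℕ∞) : WithTop ℕ∞)
      (fun x : Fin N → E3 => (be pol i m : ℂ) * conj (ph m (x j))) :=
      fun m => contDiff_const.mul (contDiff_conj_ph m j)
    have fa : FS (fun x => anC (fun m => (be pol i m : ℂ) * ph m (x j)) (f x)) := hf.anC ca
    have fc : FS (fun x => crC (fun m => (be pol i m : ℂ) * conj (ph m (x j))) (f x)) := hf.crC cc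
    have h2 : fderiv ℝ (fun x => ef pol i (x j) (f x)) x (dir j i) =
        Complex.I • (fderiv ℝ (fun x => anC (fun m => (be pol i m : ℂ) * ph m (x j)) (f x)) x (dir j i)
          - fderiv ℝ (fun x => crC (fun m => (be pol i m : ℂ) * conj (ph m (x j))) (f x)) x (dir j i))
        := by
      have h3 : fderiv ℝ (fun x => ef pol i (x j) (f x)) x =
          Complex.I • (fderiv ℝ (fun x => anC (fun m => (be pol i m : ℂ) * ph m (x j)) (f x)) x
          - fderiv ℝ (fun x => crC (fun m => (be pol i m : ℂ) * conj (ph m (x j))) (f x)) x) :=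
        (((fa.differentiableAt x).hasFDerivAt.sub (fc.differentiableAt x).hasFDerivAt).const_smul
          Complex.I).fderiv
      rw [h3]
      rfl
    rw [h2, fderiv_anC_apply hf ca, fderiv_crC_apply hf cc]
    unfold ef
    simp only [fderiv_be_ph, fderiv_be_conj_ph, LinearMap.smul_apply, LinearMap.sub_apply]
    module
  rw [Finset.sum_congr rfl (fun i _ => h1 i), Finset.sum_add_distrib, ← Finset.smul_sum,
    Finset.sum_sub_distrib]
  have h4 : ∀ c : Mode L Λ → ℂ, ∑ i : Fin 3, anC (fun m => ((be pol i m * m.k i : ℝ) : ℂ) * c m) (f x)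
      = 0 := by
    intro c
    simp only [anC_apply]
    rw [Finset.sum_comm]
    apply Finset.sum_eq_zero
    intro m _
    rw [← Finset.sum_smul, ← Finset.sum_mul, ← Complex.ofReal_sum, sum_be_k pol hp m]
    simp
  have h5 : ∀ c : Mode L Λ → ℂ, ∑ i : Fin 3, crC (fun m => ((be pol i m * m.k i : ℝ) : ℂ) * c m) (f x)
      = 0 := by
    intro c
    simp only [crC_apply]
    rw [Finset.sum_comm]
    apply Finset.sum_eq_zero
    intro m _
    rw [← Finset.sum_smul, ← Finset.sum_mul, ← Complex.ofReal_sum, sum_be_k pol hp m]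
    simp
  rw [h4 (fun m => Complex.I * ph m (x j)), h5 (fun m => -Complex.I * conj (ph m (x j)))]
  simp

/-- The gradient term does not contribute. -/
theorem integral_grad_ef {f : (Fin N → E3) → Fock (Mode L Λ)} (hf : FS f) (pol : Mode L Λ → E3)
    (hp : IsPolarisation pol) (j : Fin N) :
    ∫ x, ∑ i : Fin 3, (inner ℂ (fderiv ℝ f x (dir j i)) (ef pol i (x j) (f x)) : ℂ).re = 0 := by
  have hI : ∀ i, Integrable
      (fun x => (inner ℂ (fderiv ℝ f x (dir j i)) (ef pol i (x j) (f x)) : ℂ)) := fun i =>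
    FS.integrable_inner volume (hf.deriv (dir j i)) (hf.ef pol j i)
  have hI2 : ∀ i, Integrable
      (fun x => (inner ℂ (f x) (fderiv ℝ (fun x => ef pol i (x j) (f x)) x (dir j i)) : ℂ)) := fun i =>
    FS.integrable_inner volume hf ((hf.ef pol j i).deriv (dir j i))
  have hI3 : ∀ i, Integrable
      (fun x => (inner ℂ (f x) (ef pol i (x j) (fderiv ℝ f x (dir j i))) : ℂ)) := fun i =>
    FS.integrable_inner volume hf ((hf.deriv (dir j i)).ef pol j i)
  have h1 : ∀ i, ∫ x, (inner ℂ (f x) (fderiv ℝ (fun x => ef pol i (x j) (f x)) x (dir j i)) : ℂ) =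
      - ∫ x, (inner ℂ (fderiv ℝ f x (dir j i)) (ef pol i (x j) (f x)) : ℂ) := fun i =>
    FS.integral_by_parts volume hf (hf.ef pol j i) (dir j i)
  have h2 : ∑ i : Fin 3, ∫ x, (inner ℂ (f x)
      (fderiv ℝ (fun x => ef pol i (x j) (f x)) x (dir j i)) : ℂ) =
      ∑ i : Fin 3, ∫ x, (inner ℂ (f x) (ef pol i (x j) (fderiv ℝ f x (dir j i))) : ℂ) := by
    rw [← integral_finsetSum _ (fun i _ => hI2 i), ← integral_finsetSum _ (fun i _ => hI3 i)]
    congr 1
    funext x
    rw [← inner_sum, ← inner_sum, sum_fderiv_ef hf pol hp j x]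
  have h3 : ∀ i, ∫ x, (inner ℂ (f x) (ef pol i (x j) (fderiv ℝ f x (dir j i))) : ℂ) =
      conj (∫ x, (inner ℂ (fderiv ℝ f x (dir j i)) (ef pol i (x j) (f x)) : ℂ)) := by
    intro i
    rw [← integral_conj]
    congr 1
    funext x
    rw [← inner_ef, ← inner_conj_symm]
  simp only [h1, h3] at h2
  have h4 : ∀ i, ∫ x, (inner ℂ (fderiv ℝ f x (dir j i)) (ef pol i (x j) (f x)) : ℂ).re =
      (∫ x, (inner ℂ (fderiv ℝ f x (dir j i)) (ef pol i (x j) (f x)) : ℂ)).re := by
    intro i
    exact integral_re (hI i)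
  have hIre : ∀ i, Integrable
      (fun x => (inner ℂ (fderiv ℝ f x (dir j i)) (ef pol i (x j) (f x)) : ℂ).re) :=
    fun i => (hI i).re
  rw [integral_finsetSum _ (fun i _ => hIre i)]
  rw [Finset.sum_congr rfl (fun i _ => h4 i)]
  have h5 := congrArg Complex.re h2
  simp only [Finset.sum_neg_distrib, Complex.neg_re, Complex.re_sum, Complex.conj_re] at h5
  linarith

end Pool.Agent.Helper20.PF
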