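import Pool.Agent.Helper20.PFLower2

set_option autoImplicit false

open MeasureTheory
open scoped BigOperators ComplexConjugate

namespace Pool.Agent.Helper20.PF

variable {L Λ : ℝ} [Fintype (Momentum L Λ)]

/-- The contact term from the commutator `[A_i, F_i]`. -/
theorem re_inner_vp_ef (hL : 0 < L) (pol : Mode L Λ → E3) (hp : IsPolarisation pol) (i : Fin 3)
    (x : E3) (v : Fock (Mode L Λ)) :
    (inner ℂ (vp pol i x v) (Complex.I • ef pol i x v) : ℂ).re = muL L Λ / 2 * ‖v‖ ^ 2 := by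
  have h0 := vp_ef_comm pol i x v
  rw [sum_al_be hL pol hp i i, if_pos rfl] at h0
  have h1 : inner ℂ v (vp pol i x (ef pol i x v)) - inner ℂ v (ef pol i x (vp pol i x v)) =
      (-(2 * Complex.I) * ((muL L Λ / 2 : ℝ) : ℂ)) * ((‖v‖ ^ 2 : ℝ) : ℂ) := by
    rw [← inner_sub_right, h0, inner_smul_right, inner_self_real]
  have h2 : inner ℂ v (vp pol i x (ef pol i x v)) = inner ℂ (vp pol i x v) (ef pol i x v) := by
    rw [← inner_vp]
  have h3 : inner ℂ v (ef pol i x (vp pol i x v)) = conj (inner ℂ (vp pol i x v) (ef pol i x v)) := by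
    rw [← inner_ef, inner_conj_symm]
  rw [h2, h3] at h1
  rw [inner_smul_right]
  have key : ∀ (z : ℂ) (a r : ℝ), z - conj z = (-(2 * Complex.I) * (a : ℂ)) * (r : ℂ) →
      (Complex.I * z).re = a * r := by
    intro z a r hz
    have h4 := congrArg Complex.im hz
    simp [Complex.mul_re, Complex.mul_im] at h4
    simp [Complex.mul_re]
    linarith
  exact key _ _ _ h1

theorem lower_bound_form (hL : 0 < L) (pol : Mode L Λ → E3) (hp : IsPolarisation pol)
    (hmu : 0 < muL L Λ) (α : ℝ) {Ψ : WaveFunction 1 (Mode L Λ)}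
    (h : WS Ψ) :
    ((3 / 2) * (Real.sqrt α * Real.sqrt (muL L Λ)) - (3 / 2) * Λ) * ∫ x, ∑ s, ‖Ψ x s‖ ^ 2 ≤
      ∫ x, ∑ s, (numE (fun m => ‖m.k‖) (Ψ x s) +
        (1 / 2) * ∑ j : Fin 1, ∑ i : Fin 3, ‖velocity α L Λ pol j i Ψ x s‖ ^ 2) := by
  set mu := muL L Λ with hmudef
  have hvel : ∀ j i, WS (velocity α L Λ pol j i Ψ) := fun j i => h.velocity α pol j i
  have hsm : 0 < Real.sqrt mu := Real.sqrt_pos.mpr hmu
  -- pointwise inequality
  have hpt : ∀ x s, (Real.sqrt mu)⁻¹ * (∑ i : Fin 3,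
      (inner ℂ (velocity α L Λ pol 0 i Ψ x s) (Complex.I • ef pol i (x 0) (Ψ x s)) : ℂ).re) -
        (3 / 2) * Λ * ‖Ψ x s‖ ^ 2 ≤ numE (fun m => ‖m.k‖) (Ψ x s) +
        (1 / 2) * ∑ j : Fin 1, ∑ i : Fin 3, ‖velocity α L Λ pol j i Ψ x s‖ ^ 2 := by
    intro x s
    have h1 := sum_norm_ef_le hL pol hp hmu (x 0) (Ψ x s)
    rw [← hmudef] at h1
    have h2 : ∀ i : Fin 3, (Real.sqrt mu)⁻¹ * (inner ℂ (velocity α L Λ pol 0 i Ψ x s)
        (Complex.I • ef pol i (x 0) (Ψ x s)) : ℂ).re ≤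
        (1 / 2) * ‖velocity α L Λ pol 0 i Ψ x s‖ ^ 2 +
          (1 / (2 * mu)) * ‖ef pol i (x 0) (Ψ x s)‖ ^ 2 := by
      intro i
      have h3 : (inner ℂ (velocity α L Λ pol 0 i Ψ x s)
        (Complex.I • ef pol i (x 0) (Ψ x s)) : ℂ).re ≤
          ‖velocity α L Λ pol 0 i Ψ x s‖ * ‖ef pol i (x 0) (Ψ x s)‖ := by
        refine (Complex.re_le_norm _).trans ((norm_inner_le_norm _ _).trans ?_)
        rw [norm_smul, Complex.norm_I, one_mul]
      have h4 : (Real.sqrt mu)⁻¹ * (‖velocity α L Λ pol 0 i Ψ x s‖ * ‖ef pol i (x 0) (Ψ x s)‖) ≤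
          (1 / 2) * ‖velocity α L Λ pol 0 i Ψ x s‖ ^ 2 +
          (1 / (2 * mu)) * ‖ef pol i (x 0) (Ψ x s)‖ ^ 2 := by
        set a := ‖velocity α L Λ pol 0 i Ψ x s‖
        set b := ‖ef pol i (x 0) (Ψ x s)‖
        have h5 : (1 / (2 * mu)) * b ^ 2 = (1 / 2) * ((Real.sqrt mu)⁻¹ * b) ^ 2 := by
          rw [mul_pow, inv_pow, Real.sq_sqrt hmu.le]
          field_simp
        rw [h5]
        nlinarith [sq_nonneg (a - (Real.sqrt mu)⁻¹ * b)]
      refine le_trans ?_ h4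
      apply mul_le_mul_of_nonneg_left h3 (inv_nonneg.mpr hsm.le)
    have h6 : (Real.sqrt mu)⁻¹ * (∑ i : Fin 3,
      (inner ℂ (velocity α L Λ pol 0 i Ψ x s) (Complex.I • ef pol i (x 0) (Ψ x s)) : ℂ).re) ≤
        (1 / 2) * ∑ i : Fin 3, ‖velocity α L Λ pol 0 i Ψ x s‖ ^ 2 +
        (1 / (2 * mu)) * ∑ i : Fin 3, ‖ef pol i (x 0) (Ψ x s)‖ ^ 2 := by
      rw [Finset.mul_sum, Finset.mul_sum, Finset.mul_sum, ← Finset.sum_add_distrib]
      exact Finset.sum_le_sum (fun i _ => h2 i)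
    have h7 : (1 / (2 * mu)) * ∑ i : Fin 3, ‖ef pol i (x 0) (Ψ x s)‖ ^ 2 ≤
        numE (fun m => ‖m.k‖) (Ψ x s) + (3 / 2) * Λ * ‖Ψ x s‖ ^ 2 := by
      calc (1 / (2 * mu)) * ∑ i : Fin 3, ‖ef pol i (x 0) (Ψ x s)‖ ^ 2 ≤
          (1 / (2 * mu)) * (2 * mu * numE (fun m => ‖m.k‖) (Ψ x s) +
            3 * Λ * mu * ‖Ψ x s‖ ^ 2) := by
            apply mul_le_mul_of_nonneg_left h1 (by positivity)
        _ = _ := by field_simp
    simp only [Fin.sum_univ_one]
    linarith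
  -- the integral of the cross term
  have hcross : ∀ s, ∫ x, ∑ i : Fin 3,
      (inner ℂ (velocity α L Λ pol 0 i Ψ x s) (Complex.I • ef pol i (x 0) (Ψ x s)) : ℂ).re =
      Real.sqrt α * (3 / 2 * mu) * ∫ x, ‖Ψ x s‖ ^ 2 := by
    intro s
    have e1 : ∀ x, ∑ i : Fin 3,
      (inner ℂ (velocity α L Λ pol 0 i Ψ x s) (Complex.I • ef pol i (x 0) (Ψ x s)) : ℂ).re =
      -(∑ i : Fin 3, (inner ℂ (fderiv ℝ (fun y => Ψ y s) x (dir 0 i))
        (ef pol i (x 0) (Ψ x s)) : ℂ).re) + Real.sqrt α * (3 / 2 * mu) * ‖Ψ x s‖ ^ 2 := by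
      intro x
      have e2 : ∀ i : Fin 3, (inner ℂ (velocity α L Λ pol 0 i Ψ x s)
          (Complex.I • ef pol i (x 0) (Ψ x s)) : ℂ).re =
          -(inner ℂ (fderiv ℝ (fun y => Ψ y s) x (dir 0 i)) (ef pol i (x 0) (Ψ x s)) : ℂ).re +
          Real.sqrt α * (mu / 2 * ‖Ψ x s‖ ^ 2) := by
        intro i
        rw [← re_inner_vp_ef hL pol hp i (x 0) (Ψ x s), velocity_eq, inner_add_left,
          inner_smul_left, inner_smul_left, Complex.conj_ofReal, Complex.add_re,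
          Complex.re_ofReal_mul, inner_smul_right (_ : Fock (Mode L Λ))]
        congr 1
        rw [map_neg, Complex.conj_I, neg_neg, ← mul_assoc, Complex.I_mul_I]
        simp
      rw [Finset.sum_congr rfl (fun i _ => e2 i), Finset.sum_add_distrib, Finset.sum_neg_distrib]
      simp only [Finset.sum_const, Finset.card_univ, Fintype.card_fin, nsmul_eq_mul]
      push_cast
      ring
    simp only [e1]
    have hIre : ∀ i, Integrable (fun x => (inner ℂ (fderiv ℝ (fun y => Ψ y s) x (dir 0 i))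
        (ef pol i (x 0) (Ψ x s)) : ℂ).re) := fun i =>
      (FS.integrable_inner volume ((h s).deriv (dir 0 i)) ((h s).ef pol 0 i)).re
    rw [integral_add, integral_neg, integral_grad_ef (h s) pol hp 0, integral_const_mul]
    · simp
    · exact (integrable_finsetSum _ (fun i _ => hIre i)).neg
    · exact (FS.integrable_norm_sq volume (h s)).const_mul _
  -- integrability facts
  have hIc : ∀ s, Integrable (fun x => ∑ i : Fin 3,
      (inner ℂ (velocity α L Λ pol 0 i Ψ x s) (Complex.I • ef pol i (x 0) (Ψ x s)) : ℂ).re) := by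
    intro s
    apply integrable_finsetSum
    intro i _
    exact (FS.integrable_inner volume (hvel 0 i s) (((h s).ef pol 0 i).const_smul Complex.I)).re
  have hIn : ∀ s, Integrable (fun x => ‖Ψ x s‖ ^ 2) := fun s => FS.integrable_norm_sq volume (h s)
  have hIr : Integrable (fun x => ∑ s, (numE (fun m => ‖m.k‖) (Ψ x s) +
        (1 / 2) * ∑ j : Fin 1, ∑ i : Fin 3, ‖velocity α L Λ pol j i Ψ x s‖ ^ 2)) := by
    apply integrable_finsetSum
    intro s _
    apply Integrable.add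
    · unfold numE
      apply integrable_finsetSum
      intro m _
      exact (FS.integrable_norm_sq volume ((h s).map (an m))).const_mul _
    · apply Integrable.const_mul
      apply integrable_finsetSum
      intro j _
      apply integrable_finsetSum
      intro i _
      exact FS.integrable_norm_sq volume (hvel j i s)
  have hIl : Integrable (fun x => ∑ s, ((Real.sqrt mu)⁻¹ * (∑ i : Fin 3,
      (inner ℂ (velocity α L Λ pol 0 i Ψ x s) (Complex.I • ef pol i (x 0) (Ψ x s)) : ℂ).re) -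
        (3 / 2) * Λ * ‖Ψ x s‖ ^ 2)) := by
    apply integrable_finsetSum
    intro s _
    exact ((hIc s).const_mul _).sub ((hIn s).const_mul _)
  refine le_trans (le_of_eq ?_) (integral_mono hIl hIr
    (fun x => Finset.sum_le_sum (fun s _ => hpt x s)))
  have hIs : ∀ s, Integrable (fun x => (Real.sqrt mu)⁻¹ * (∑ i : Fin 3,
      (inner ℂ (velocity α L Λ pol 0 i Ψ x s) (Complex.I • ef pol i (x 0) (Ψ x s)) : ℂ).re) -
        (3 / 2) * Λ * ‖Ψ x s‖ ^ 2) := fun s => ((hIc s).const_mul _).sub ((hIn s).const_mul _)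
  rw [integral_finsetSum _ (fun s _ => hIn s), integral_finsetSum _ (fun s _ => hIs s),
    Finset.mul_sum]
  apply Finset.sum_congr rfl
  intro s _
  rw [integral_sub ((hIc s).const_mul _) ((hIn s).const_mul _), integral_const_mul,
    integral_const_mul, hcross s]
  have h8 : (Real.sqrt mu)⁻¹ * (Real.sqrt α * (3 / 2 * mu) * ∫ x, ‖Ψ x s‖ ^ 2) =
      (3 / 2) * (Real.sqrt α * Real.sqrt mu) * ∫ x, ‖Ψ x s‖ ^ 2 := by
    have h9 : (Real.sqrt mu)⁻¹ * mu = Real.sqrt mu := by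
      rw [inv_mul_eq_div, Real.div_sqrt]
    calc (Real.sqrt mu)⁻¹ * (Real.sqrt α * (3 / 2 * mu) * ∫ x, ‖Ψ x s‖ ^ 2) =
        (3 / 2) * (Real.sqrt α * ((Real.sqrt mu)⁻¹ * mu)) * ∫ x, ‖Ψ x s‖ ^ 2 := by ring
      _ = _ := by rw [h9]
  rw [h8]
  ring

end Pool.Agent.Helper20.PF
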