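import Pool.Agent.Helper20.PFDefs

set_option autoImplicit false

open MeasureTheory
open scoped BigOperators ComplexConjugate

namespace Pool.Agent.Helper20.PF

theorem waveVector_apply (L : ℝ) (n : Fin 3 → ℤ) (i : Fin 3) :
    waveVector L n i = (2 * Real.pi / L) * (n i : ℝ) := rfl

theorem norm_waveVector_sq (L : ℝ) (n : Fin 3 → ℤ) :
    ‖waveVector L n‖ ^ 2 = ∑ i, (waveVector L n i) ^ 2 := by
  rw [EuclideanSpace.norm_sq_eq]
  apply Finset.sum_congr rfl
  intro i _
  rw [Real.norm_eq_abs, sq_abs]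

theorem norm_eq_of_sum_sq (L : ℝ) (n n' : Fin 3 → ℤ)
    (h : ∑ i, (waveVector L n i) ^ 2 = ∑ i, (waveVector L n' i) ^ 2) :
    ‖waveVector L n‖ = ‖waveVector L n'‖ := by
  have h1 : ‖waveVector L n‖ ^ 2 = ‖waveVector L n'‖ ^ 2 := by
    rw [norm_waveVector_sq, norm_waveVector_sq, h]
  exact (pow_left_inj₀ (norm_nonneg _) (norm_nonneg _) two_ne_zero).mp h1

/-- Flip the sign of one coordinate. -/
def flipFun (i : Fin 3) (n : Fin 3 → ℤ) : Fin 3 → ℤ := Function.update n i (-n i)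

theorem flipFun_norm (L : ℝ) (i : Fin 3) (n : Fin 3 → ℤ) :
    ‖waveVector L (flipFun i n)‖ = ‖waveVector L n‖ := by
  apply norm_eq_of_sum_sq
  apply Finset.sum_congr rfl
  intro j _
  rw [waveVector_apply, waveVector_apply]
  unfold flipFun
  by_cases h : j = i
  · subst h; simp
  · rw [Function.update_of_ne h]

theorem flipFun_involutive (i : Fin 3) : Function.Involutive (flipFun i) := by
  intro n
  unfold flipFun
  funext j
  by_cases h : j = i
  · subst h; simp
  · simp [h]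

/-- The sign flip acting on momenta. -/
def flipMom (L Λ : ℝ) (i : Fin 3) : Momentum L Λ ≃ Momentum L Λ where
  toFun n := ⟨flipFun i n.1, by rw [flipFun_norm]; exact n.2⟩
  invFun n := ⟨flipFun i n.1, by rw [flipFun_norm]; exact n.2⟩
  left_inv n := Subtype.ext (flipFun_involutive i n.1)
  right_inv n := Subtype.ext (flipFun_involutive i n.1)

theorem perm_norm (L : ℝ) (σ : Equiv.Perm (Fin 3)) (n : Fin 3 → ℤ) :
    ‖waveVector L (n ∘ σ)‖ = ‖waveVector L n‖ := by
  apply norm_eq_of_sum_sq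
  simp only [waveVector_apply, Function.comp]
  exact Equiv.sum_comp σ (fun i => (2 * Real.pi / L * (n i : ℝ)) ^ 2)

/-- Permutation of coordinates acting on momenta. -/
def permMom (L Λ : ℝ) (σ : Equiv.Perm (Fin 3)) : Momentum L Λ ≃ Momentum L Λ where
  toFun n := ⟨n.1 ∘ σ, by rw [perm_norm]; exact n.2⟩
  invFun n := ⟨n.1 ∘ σ.symm, by rw [perm_norm]; exact n.2⟩
  left_inv n := Subtype.ext (by funext j; simp)
  right_inv n := Subtype.ext (by funext j; simp)

/-- Wave vector of a momentum. -/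
noncomputable def Momentum.k {L Λ : ℝ} (n : Momentum L Λ) : E3 := waveVector L n.1

variable {L Λ : ℝ} [Fintype (Momentum L Λ)]

theorem sum_offdiag (g : ℝ → ℝ) (i j : Fin 3) (hij : i ≠ j) :
    ∑ n : Momentum L Λ, n.k i * n.k j * g ‖n.k‖ = 0 := by
  have h1 : ∑ n : Momentum L Λ, n.k i * n.k j * g ‖n.k‖ =
      ∑ n : Momentum L Λ, -(n.k i * n.k j * g ‖n.k‖) := by
    rw [← Equiv.sum_comp (flipMom L Λ i)]
    apply Finset.sum_congr rfl
    intro n _
    have e1 : ((flipMom L Λ i) n).k i = -(n.k i) := by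
      show waveVector L (flipFun i n.1) i = - waveVector L n.1 i
      rw [waveVector_apply, waveVector_apply]
      simp [flipFun]
    have e2 : ((flipMom L Λ i) n).k j = n.k j := by
      show waveVector L (flipFun i n.1) j = waveVector L n.1 j
      rw [waveVector_apply, waveVector_apply]
      simp [flipFun, Function.update_of_ne (Ne.symm hij)]
    have e3 : ‖((flipMom L Λ i) n).k‖ = ‖n.k‖ := flipFun_norm L i n.1
    rw [e1, e2, e3]
    ring
  rw [Finset.sum_neg_distrib] at h1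
  linarith

theorem sum_diag_eq (g : ℝ → ℝ) (i j : Fin 3) :
    ∑ n : Momentum L Λ, n.k i * n.k i * g ‖n.k‖ = ∑ n : Momentum L Λ, n.k j * n.k j * g ‖n.k‖ := by
  rw [← Equiv.sum_comp (permMom L Λ (Equiv.swap i j))]
  apply Finset.sum_congr rfl
  intro n _
  have e1 : ((permMom L Λ (Equiv.swap i j)) n).k i = n.k j := by
    show waveVector L (n.1 ∘ Equiv.swap i j) i = waveVector L n.1 j
    rw [waveVector_apply, waveVector_apply]
    simp
  have e3 : ‖((permMom L Λ (Equiv.swap i j)) n).k‖ = ‖n.k‖ := perm_norm L _ n.1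
  rw [e1, e3]

omit [Fintype (Momentum L Λ)] in
theorem momentum_norm_pos (n : Momentum L Λ) : 0 < ‖n.k‖ := n.2.1

theorem sum_kk (g : ℝ → ℝ) (i j : Fin 3) :
    ∑ n : Momentum L Λ, n.k i * n.k j / ‖n.k‖ ^ 2 * g ‖n.k‖ =
      if i = j then (1 / 3) * ∑ n : Momentum L Λ, g ‖n.k‖ else 0 := by
  have h0 : ∀ i j : Fin 3, ∑ n : Momentum L Λ, n.k i * n.k j / ‖n.k‖ ^ 2 * g ‖n.k‖ =
      ∑ n : Momentum L Λ, n.k i * n.k j * (fun r => g r / r ^ 2) ‖n.k‖ := by
    intro i j
    apply Finset.sum_congr rfl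
    intro n _
    simp only
    ring
  split_ifs with hij
  · subst hij
    have h1 : ∑ l : Fin 3, ∑ n : Momentum L Λ, n.k l * n.k l / ‖n.k‖ ^ 2 * g ‖n.k‖ =
        ∑ n : Momentum L Λ, g ‖n.k‖ := by
      rw [Finset.sum_comm]
      apply Finset.sum_congr rfl
      intro n _
      rw [← Finset.sum_mul]
      have h2 : ∑ l : Fin 3, n.k l * n.k l / ‖n.k‖ ^ 2 = 1 := by
        rw [← Finset.sum_div]
        have h3 : ∑ l : Fin 3, n.k l * n.k l = ‖n.k‖ ^ 2 := by
          show _ = ‖waveVector L n.1‖ ^ 2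
          rw [norm_waveVector_sq]
          apply Finset.sum_congr rfl
          intro l _
          exact (sq _).symm
        rw [h3]
        exact div_self (pow_ne_zero _ (momentum_norm_pos n).ne')
      rw [h2, one_mul]
    have h4 : ∀ l : Fin 3, ∑ n : Momentum L Λ, n.k l * n.k l / ‖n.k‖ ^ 2 * g ‖n.k‖ =
        ∑ n : Momentum L Λ, n.k i * n.k i / ‖n.k‖ ^ 2 * g ‖n.k‖ := by
      intro l
      rw [h0, h0]
      exact sum_diag_eq (L := L) (Λ := Λ) (fun r => g r / r ^ 2) l i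
    rw [Finset.sum_congr rfl (fun l _ => h4 l)] at h1
    simp only [Finset.sum_const, Finset.card_univ, Fintype.card_fin, nsmul_eq_mul] at h1
    rw [← h1]
    push_cast
    ring
  · rw [h0]
    exact sum_offdiag (L := L) (Λ := Λ) (fun r => g r / r ^ 2) i j hij

omit [Fintype (Momentum L Λ)] in
theorem pol_complete (pol : Mode L Λ → E3) (hp : IsPolarisation pol) (n : Momentum L Λ)
    (i j : Fin 3) :
    ∑ μ : Fin 2, pol (n, μ) i * pol (n, μ) j =
      (if i = j then 1 else 0) - n.k i * n.k j / ‖n.k‖ ^ 2 := by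
  have hk : (0 : ℝ) < ‖n.k‖ := n.2.1
  -- orthonormal basis
  let b : Fin 3 → E3 := ![(‖n.k‖⁻¹) • n.k, pol (n, 0), pol (n, 1)]
  have hb : Orthonormal ℝ b := by
    have o := hp.orthonormal n
    have t0 : inner ℝ (pol (n, 0)) n.k = (0 : ℝ) := hp.transverse (n, 0)
    have t1 : inner ℝ (pol (n, 1)) n.k = (0 : ℝ) := hp.transverse (n, 1)
    have t0' : inner ℝ n.k (pol (n, 0)) = (0 : ℝ) := by rw [real_inner_comm]; exact t0
    have t1' : inner ℝ n.k (pol (n, 1)) = (0 : ℝ) := by rw [real_inner_comm]; exact t1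
    have o00 : inner ℝ (pol (n, 0)) (pol (n, 0)) = (1 : ℝ) := by rw [o]; simp
    have o11 : inner ℝ (pol (n, 1)) (pol (n, 1)) = (1 : ℝ) := by rw [o]; simp
    have o01 : inner ℝ (pol (n, 0)) (pol (n, 1)) = (0 : ℝ) := by rw [o]; simp
    have o10 : inner ℝ (pol (n, 1)) (pol (n, 0)) = (0 : ℝ) := by rw [o]; simp
    have okk : inner ℝ ((‖n.k‖⁻¹) • n.k) ((‖n.k‖⁻¹) • n.k) = (1 : ℝ) := by
      rw [inner_smul_left, inner_smul_right, real_inner_self_eq_norm_sq]
      simp
      field_simp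
    rw [orthonormal_iff_ite]
    have m1 : ∀ v w : E3, inner ℝ v w = (0 : ℝ) → inner ℝ ((‖n.k‖⁻¹) • v) w = (0 : ℝ) := by
      intro v w h
      rw [real_inner_smul_left, h, mul_zero]
    have m2 : ∀ v w : E3, inner ℝ v w = (0 : ℝ) → inner ℝ v ((‖n.k‖⁻¹) • w) = (0 : ℝ) := by
      intro v w h
      rw [real_inner_smul_right, h, mul_zero]
    intro a c
    fin_cases a <;> fin_cases c
    · exact okk
    · exact m1 _ _ t0'
    · exact m1 _ _ t1'
    · exact m2 _ _ t0
    · exact o00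
    · exact o01
    · exact m2 _ _ t1
    · exact o10
    · exact o11
  let B : OrthonormalBasis (Fin 3) ℝ E3 :=
    (basisOfOrthonormalOfCardEqFinrank hb (by simp)).toOrthonormalBasis (by
      rw [coe_basisOfOrthonormalOfCardEqFinrank]; exact hb)
  have hB : ∀ a, B a = b a := by
    intro a
    simp [B, Module.Basis.coe_toOrthonormalBasis, coe_basisOfOrthonormalOfCardEqFinrank]
  have h1 := B.sum_inner_mul_inner (EuclideanSpace.single i (1 : ℝ)) (EuclideanSpace.single j (1 : ℝ))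
  simp only [hB, Fin.sum_univ_three] at h1
  have e0 : ∀ (v : E3) (a : Fin 3), inner ℝ (EuclideanSpace.single a (1 : ℝ)) v = v a := by
    intro v a
    rw [EuclideanSpace.inner_single_left]; simp
  have e0' : ∀ (v : E3) (a : Fin 3), inner ℝ v (EuclideanSpace.single a (1 : ℝ)) = v a := by
    intro v a
    rw [EuclideanSpace.inner_single_right]; simp
  simp only [e0, e0'] at h1
  have hb0 : ∀ a : Fin 3, b 0 a = ‖n.k‖⁻¹ * n.k a := by
    intro a
    show ((‖n.k‖⁻¹) • n.k) a = _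
    simp
  have hb1 : b 1 = pol (n, 0) := rfl
  have hb2 : b 2 = pol (n, 1) := rfl
  rw [hb0, hb0, hb1, hb2] at h1
  have e3 : (EuclideanSpace.single j (1 : ℝ) : E3) i = if i = j then 1 else 0 := by
    simp [Pi.single_apply]
  rw [e3] at h1
  rw [Fin.sum_univ_two]
  have e4 : ‖n.k‖⁻¹ * n.k i * (‖n.k‖⁻¹ * n.k j) = n.k i * n.k j / ‖n.k‖ ^ 2 := by
    field_simp
  rw [e4] at h1
  linarith

/-- Sum over modes of polarisation products. -/
theorem sum_pol (pol : Mode L Λ → E3) (hp : IsPolarisation pol) (g : ℝ → ℝ) (i j : Fin 3) :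
    ∑ m : Mode L Λ, pol m i * pol m j * g ‖m.k‖ =
      if i = j then (2 / 3) * ∑ n : Momentum L Λ, g ‖n.k‖ else 0 := by
  rw [Fintype.sum_prod_type]
  have h1 : ∀ n : Momentum L Λ, ∑ μ : Fin 2, pol (n, μ) i * pol (n, μ) j *
      g ‖(Mode.k (n, μ) : E3)‖ =
      (if i = j then 1 else 0) * g ‖n.k‖ - n.k i * n.k j / ‖n.k‖ ^ 2 * g ‖n.k‖ := by
    intro n
    have h2 : ∀ μ : Fin 2, (Mode.k (n, μ) : E3) = n.k := fun μ => rfl
    simp only [h2]
    rw [← Finset.sum_mul, pol_complete pol hp n i j, sub_mul]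
  rw [Finset.sum_congr rfl (fun n _ => h1 n), Finset.sum_sub_distrib, sum_kk, ← Finset.mul_sum]
  split_ifs
  · ring
  · ring

end Pool.Agent.Helper20.PF
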