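import Pool.Agent.Helper20.PFAlg3

set_option autoImplicit false

open MeasureTheory
open scoped BigOperators ComplexConjugate

namespace Pool.Agent.Helper20.PF

section OneMode

variable {V : Type} [NormedAddCommGroup V] [InnerProductSpace ℂ V]

theorem inner_self_real' (v : V) : inner ℂ v v = ((‖v‖ ^ 2 : ℝ) : ℂ) := by
  rw [inner_self_eq_norm_sq_to_K]
  push_cast
  rfl

/-- The truncated squeezing operator. -/
noncomputable def sqz (Bd : Module.End ℂ V) (t : ℝ) (K : ℕ) : Module.End ℂ V :=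
  ∑ n ∈ Finset.range (K + 1), (((-t / 2) ^ n / (n.factorial : ℝ) : ℝ) : ℂ) • Bd ^ (2 * n)

variable (B Bd : Module.End ℂ V)

theorem B_pow (hcomm : ∀ u, B (Bd u) = Bd (B u) + u) (ξ : V) (hξ : B ξ = 0) (k : ℕ) :
    B ((Bd ^ (k + 1)) ξ) = ((k : ℂ) + 1) • (Bd ^ k) ξ := by
  induction k with
  | zero =>
    simp [hcomm, hξ]
  | succ k ih =>
    rw [pow_succ' Bd (k + 1), Module.End.mul_apply, hcomm, ih, map_smul, ← Module.End.mul_apply,
      ← pow_succ']
    rw [show (((k + 1 : ℕ) : ℂ) + 1) = ((k : ℂ) + 1) + 1 by push_cast; ring,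
      add_smul ((k : ℂ) + 1) 1, one_smul]

theorem one_mode (hadj : ∀ u v, inner ℂ (Bd u) v = inner ℂ u (B v))
    (hcomm : ∀ u, B (Bd u) = Bd (B u) + u) (ξ : V) (hξ : B ξ = 0) (t : ℝ) (ht0 : 0 < t)
    (ht1 : t < 1) (K : ℕ) :
    ‖ξ‖ ^ 2 ≤ ‖sqz Bd t K ξ‖ ^ 2 ∧
    ‖B (sqz Bd t K ξ)‖ ^ 2 ≤ t ^ 2 / (1 - t ^ 2) * ‖sqz Bd t K ξ‖ ^ 2 ∧
    ‖B (sqz Bd t K ξ) + Bd (sqz Bd t K ξ)‖ ^ 2 ≤
      ((1 - t) / (1 + t) + (2 * K + 1) * t ^ (2 * K)) * ‖sqz Bd t K ξ‖ ^ 2 := by
  classical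
  set e : ℕ → V := fun n => (((-t / 2) ^ n / (n.factorial : ℝ) : ℝ) : ℂ) • (Bd ^ (2 * n)) ξ with he
  have hadj' : ∀ u v, inner ℂ (B u) v = inner ℂ u (Bd v) := by
    intro u v
    rw [← inner_conj_symm, ← hadj, inner_conj_symm]
  have hη : sqz Bd t K ξ = ∑ n ∈ Finset.range (K + 1), e n := by
    unfold sqz
    rw [LinearMap.sum_apply]
    rfl
  have he0 : e 0 = ξ := by simp [he]
  have hBe0 : B (e 0) = 0 := by rw [he0, hξ]
  have hBe : ∀ n, B (e (n + 1)) = (-t : ℂ) • Bd (e n) := by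
    intro n
    simp only [he]
    rw [map_smul, map_smul, show 2 * (n + 1) = (2 * n + 1) + 1 by ring, B_pow B Bd hcomm ξ hξ,
      smul_smul, smul_smul, ← Module.End.mul_apply, ← pow_succ']
    congr 1
    rw [Nat.factorial_succ]
    push_cast
    have : (n.factorial : ℂ) ≠ 0 := by exact_mod_cast (Nat.factorial_pos n).ne'
    have h2 : ((n : ℂ) + 1) ≠ 0 := by exact_mod_cast Nat.succ_ne_zero n
    field_simp
    rw [pow_succ]
    ring
  have hN : ∀ n, Bd (B (e n)) = ((2 * n : ℕ) : ℂ) • e n := by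
    intro n
    cases n with
    | zero => simp [hBe0]
    | succ n =>
      simp only [he]
      rw [map_smul, show 2 * (n + 1) = (2 * n + 1) + 1 by ring, B_pow B Bd hcomm ξ hξ, map_smul,
        map_smul, ← Module.End.mul_apply, ← pow_succ', smul_comm]
      congr 1
      push_cast
      ring
  -- orthogonality of the `e n`
  have horth : ∀ n m, n ≠ m → inner ℂ (e n) (e m) = (0 : ℂ) := by
    intro n m hnm
    have h1 : ((2 * n : ℕ) : ℂ) * inner ℂ (e n) (e m) = ((2 * m : ℕ) : ℂ) * inner ℂ (e n) (e m) := by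
      have h2 : inner ℂ (Bd (B (e n))) (e m) = inner ℂ (e n) (Bd (B (e m))) := by
        rw [hadj, hadj']
      rw [hN, hN, inner_smul_left (e n) (e m), inner_smul_right (e n) (e m) ((2 * m : ℕ) : ℂ),
        map_natCast] at h2
      exact h2
    have h3 : (((2 * n : ℕ) : ℂ) - ((2 * m : ℕ) : ℂ)) * inner ℂ (e n) (e m) = 0 := by
      rw [sub_mul, h1, sub_self]
    rcases mul_eq_zero.mp h3 with h | h
    · exfalso
      rw [sub_eq_zero] at h
      have : (2 * n : ℕ) = 2 * m := by exact_mod_cast h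
      omega
    · exact h
  have horthd : ∀ n m, n ≠ m → inner ℂ (Bd (e n)) (Bd (e m)) = (0 : ℂ) := by
    intro n m hnm
    rw [hadj, hcomm, inner_add_right, horth n m hnm, hN, inner_smul_right, horth n m hnm]
    simp
  set p : ℕ → ℝ := fun n => ‖e n‖ ^ 2 with hp
  have hp0 : ∀ n, 0 ≤ p n := fun n => by positivity
  have hBsq : ∀ n, ‖B (e n)‖ ^ 2 = (2 * n) * p n := by
    intro n
    have h1 : inner ℂ (B (e n)) (B (e n)) = ((2 * n : ℕ) : ℂ) * inner ℂ (e n) (e n) := by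
      rw [hadj', hN, inner_smul_right]
    rw [inner_self_real', inner_self_real'] at h1
    have : ‖B (e n)‖ ^ 2 = ((2 * n : ℕ) : ℝ) * ‖e n‖ ^ 2 := by exact_mod_cast h1
    rw [this]; push_cast; rfl
  have hBdsq : ∀ n, ‖Bd (e n)‖ ^ 2 = (2 * n + 1) * p n := by
    intro n
    have h1 : inner ℂ (Bd (e n)) (Bd (e n)) = ((2 * n + 1 : ℕ) : ℂ) * inner ℂ (e n) (e n) := by
      rw [hadj, hcomm, inner_add_right, hN, inner_smul_right]
      push_cast; ring
    rw [inner_self_real', inner_self_real'] at h1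
    have : ‖Bd (e n)‖ ^ 2 = ((2 * n + 1 : ℕ) : ℝ) * ‖e n‖ ^ 2 := by exact_mod_cast h1
    rw [this]; push_cast; rfl
  have hrec : ∀ n, (2 * (n + 1 : ℕ)) * p (n + 1) = t ^ 2 * ((2 * n + 1) * p n) := by
    intro n
    rw [← hBdsq, ← hBsq, hBe, norm_smul, mul_pow]
    congr 1
    simp
  have hpt : ∀ n, p n ≤ t ^ (2 * n) * p 0 := by
    intro n
    induction n with
    | zero => simp
    | succ n ih =>
      have h1 := hrec n
      push_cast at h1
      have h2 : p (n + 1) ≤ t ^ 2 * p n := by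
        have h3 : (2 * ((n : ℝ) + 1)) * p (n + 1) ≤ (2 * ((n : ℝ) + 1)) * (t ^ 2 * p n) := by
          rw [h1]
          have : 0 ≤ t ^ 2 * p n := by have := hp0 n; positivity
          nlinarith
        exact le_of_mul_le_mul_left h3 (by positivity)
      calc p (n + 1) ≤ t ^ 2 * p n := h2
        _ ≤ t ^ 2 * (t ^ (2 * n) * p 0) := by
          apply mul_le_mul_of_nonneg_left ih (by positivity)
        _ = t ^ (2 * (n + 1)) * p 0 := by ring
  -- norms of sums
  have hsum : ∀ f : ℕ → V, (∀ n m, n ≠ m → inner ℂ (f n) (f m) = (0 : ℂ)) → ∀ S : Finset ℕ,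
      ‖∑ n ∈ S, f n‖ ^ 2 = ∑ n ∈ S, ‖f n‖ ^ 2 := by
    intro f hf S
    have h1 : inner ℂ (∑ n ∈ S, f n) (∑ n ∈ S, f n) = ∑ n ∈ S, inner ℂ (f n) (f n) := by
      rw [sum_inner]
      apply Finset.sum_congr rfl
      intro n hn
      rw [inner_sum, Finset.sum_eq_single n]
      · intro m _ hmn
        exact hf n m (Ne.symm hmn)
      · intro h; exact absurd hn h
    simp only [inner_self_real'] at h1
    exact_mod_cast h1
  set s : ℝ := ∑ n ∈ Finset.range (K + 1), p n with hs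
  set Nn : ℝ := ∑ n ∈ Finset.range (K + 1), (2 * n) * p n with hNn
  have e1 : ‖sqz Bd t K ξ‖ ^ 2 = s := by
    rw [hη, hsum e horth]
  have hBη : B (sqz Bd t K ξ) = (-t : ℂ) • ∑ n ∈ Finset.range K, Bd (e n) := by
    rw [hη, map_sum, Finset.sum_range_succ', hBe0, add_zero, Finset.smul_sum]
    exact Finset.sum_congr rfl (fun n _ => hBe n)
  have hBdη : Bd (sqz Bd t K ξ) = ∑ n ∈ Finset.range (K + 1), Bd (e n) := by
    rw [hη, map_sum]
  have hNs : Nn = t ^ 2 * ∑ n ∈ Finset.range K, (2 * n + 1) * p n := by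
    rw [hNn, Finset.sum_range_succ', Finset.mul_sum]
    simp only [Nat.cast_zero, mul_zero, zero_mul, add_zero]
    exact Finset.sum_congr rfl (fun n _ => hrec n)
  have e2 : ‖B (sqz Bd t K ξ)‖ ^ 2 = Nn := by
    rw [hBη, norm_smul, mul_pow, hsum _ horthd, hNs]
    congr 1
    · simp
    · exact Finset.sum_congr rfl (fun n _ => hBdsq n)
  have e3 : ‖Bd (sqz Bd t K ξ)‖ ^ 2 = Nn + s := by
    rw [hBdη, hsum _ horthd, hNn, hs, ← Finset.sum_add_distrib]
    apply Finset.sum_congr rfl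
    intro n _
    rw [hBdsq]
    ring
  have e4 : (inner ℂ (B (sqz Bd t K ξ)) (Bd (sqz Bd t K ξ)) : ℂ) =
      ((-t * ∑ n ∈ Finset.range K, (2 * n + 1) * p n : ℝ) : ℂ) := by
    rw [hBη, hBdη, inner_smul_left, sum_inner]
    have h1 : ∀ n ∈ Finset.range K, inner ℂ (Bd (e n)) (∑ m ∈ Finset.range (K + 1), Bd (e m)) =
        (((2 * n + 1) * p n : ℝ) : ℂ) := by
      intro n hn
      rw [inner_sum, Finset.sum_eq_single n]
      · rw [inner_self_real', hBdsq]
      · intro m _ hmn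
        exact horthd n m (Ne.symm hmn)
      · intro h
        exfalso
        apply h
        rw [Finset.mem_range] at hn ⊢
        omega
    rw [Finset.sum_congr rfl h1]
    push_cast
    simp
  have hkey : Nn = t ^ 2 * (Nn + s - (2 * K + 1) * p K) := by
    have h1 : Nn + s = ∑ n ∈ Finset.range (K + 1), (2 * n + 1) * p n := by
      rw [hNn, hs, ← Finset.sum_add_distrib]
      apply Finset.sum_congr rfl
      intro n _
      ring
    rw [h1, Finset.sum_range_succ]
    nth_rewrite 1 [hNs]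
    ring
  have hpK : p K ≤ t ^ (2 * K) * s := by
    have h1 := hpt K
    have h2 : p 0 ≤ s := by
      rw [hs]
      apply Finset.single_le_sum (f := p) (fun n _ => hp0 n) (Finset.mem_range.mpr (Nat.succ_pos K))
    calc p K ≤ t ^ (2 * K) * p 0 := h1
      _ ≤ t ^ (2 * K) * s := by
        apply mul_le_mul_of_nonneg_left h2 (by positivity)
  have ht2 : 0 < 1 - t ^ 2 := by nlinarith
  have hs0 : 0 ≤ s := Finset.sum_nonneg (fun n _ => hp0 n)
  refine ⟨?_, ?_, ?_⟩
  · rw [e1, ← he0]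
    apply Finset.single_le_sum (f := p) (fun n _ => hp0 n) (Finset.mem_range.mpr (Nat.succ_pos K))
  · rw [e1, e2]
    rw [div_mul_eq_mul_div, le_div_iff₀ ht2]
    have : 0 ≤ t ^ 2 * ((2 * K + 1) * p K) := by
      have := hp0 K
      positivity
    nlinarith [hkey]
  · have h1 : ‖B (sqz Bd t K ξ) + Bd (sqz Bd t K ξ)‖ ^ 2 =
        2 * Nn + s - 2 * (Nn / t) := by
      have h2 := @norm_add_sq ℂ V _ _ _ (B (sqz Bd t K ξ)) (Bd (sqz Bd t K ξ))
      rw [h2, e4, e2, e3]
      simp only [RCLike.re_to_complex, Complex.ofReal_re]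
      have h3 : ∑ n ∈ Finset.range K, (2 * (n : ℝ) + 1) * p n = Nn / t ^ 2 := by
        rw [hNs]; field_simp
      rw [h3]
      field_simp
      ring
    rw [h1, e1]
    have h4 : Nn = t ^ 2 / (1 - t ^ 2) * (s - (2 * K + 1) * p K) := by
      rw [div_mul_eq_mul_div, eq_div_iff ht2.ne']
      linarith [hkey]
    have h5 : 2 * Nn + s - 2 * (Nn / t) =
        (1 - t) / (1 + t) * s + 2 * t / (1 + t) * ((2 * K + 1) * p K) := by
      rw [h4]
      have h6 : (1 - t ^ 2) = (1 - t) * (1 + t) := by ring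
      have h7 : (1 - t) ≠ 0 := by linarith
      have h8 : (1 + t) ≠ 0 := by linarith
      rw [h6]
      field_simp
      ring
    rw [h5, show ((1 - t) / (1 + t) + (2 * (K : ℝ) + 1) * t ^ (2 * K)) * s =
      (1 - t) / (1 + t) * s + (2 * (K : ℝ) + 1) * t ^ (2 * K) * s by ring]
    apply add_le_add_right
    have h9 : 2 * t / (1 + t) ≤ 1 := by
      rw [div_le_one (by linarith)]
      linarith
    have h10 : 0 ≤ (2 * (K : ℝ) + 1) * p K := by have := hp0 K; positivity
    calc 2 * t / (1 + t) * ((2 * K + 1) * p K) ≤ 1 * ((2 * K + 1) * p K) := by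
          apply mul_le_mul_of_nonneg_right h9 h10
      _ = (2 * K + 1) * p K := one_mul _
      _ ≤ (2 * K + 1) * (t ^ (2 * K) * s) := by
          apply mul_le_mul_of_nonneg_left hpK (by positivity)
      _ = (2 * K + 1) * t ^ (2 * K) * s := by ring

end OneMode

end Pool.Agent.Helper20.PF
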