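import Pool.Agent.Helper20.PFLower3
import Pool.Agent.Helper20.PFSqueeze

set_option autoImplicit false

open MeasureTheory
open scoped BigOperators ComplexConjugate

namespace Pool.Agent.Helper20.PF

section Commute

variable {V : Type} [NormedAddCommGroup V] [InnerProductSpace ℂ V]

theorem commute_sqz (T Bd : Module.End ℂ V) (h : Commute T Bd) (t : ℝ) (K : ℕ) :
    Commute T (sqz Bd t K) := by
  unfold sqz
  apply Commute.sum_right
  intro n _
  exact (h.pow_right _).smul_right _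

theorem sqz_commute_sqz (Bd Bd' : Module.End ℂ V) (h : Commute Bd Bd') (t : ℝ) (K : ℕ) :
    Commute (sqz Bd t K) (sqz Bd' t K) :=
  commute_sqz _ _ (commute_sqz _ _ h.symm t K).symm t K

end Commute

variable {L Λ : ℝ}

theorem al_mul_al (hL : 0 < L) (pol : Mode L Λ → E3) (i l : Fin 3) (m : Mode L Λ) :
    al pol i m * al pol l m = pol m i * pol m l * ((fun r => 1 / (2 * L ^ 3 * r)) ‖m.k‖) := by
  have hk : 0 < ‖m.k‖ := m.1.2.1
  have h := al_mul_be hL pol i l m
  have h2 : al pol i m * al pol l m = (al pol i m * be pol l m) / ‖m.k‖ := by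
    unfold be; field_simp
  rw [h2, h]
  simp only
  field_simp

variable [Fintype (Momentum L Λ)]

/-- Vacuum variance of one component of the vector potential. -/
noncomputable def c0 (L Λ : ℝ) [Fintype (Momentum L Λ)] : ℝ :=
  (2 / 3) * ∑ n : Momentum L Λ, 1 / (2 * L ^ 3 * ‖n.k‖)

theorem sum_al_al (hL : 0 < L) (pol : Mode L Λ → E3) (hp : IsPolarisation pol) (i l : Fin 3) :
    ∑ m, al pol i m * al pol l m = if i = l then c0 L Λ else 0 := by
  rw [Finset.sum_congr rfl (fun m _ => al_mul_al hL pol i l m)]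
  rw [sum_pol pol hp (fun r => 1 / (2 * L ^ 3 * r)) i l]
  rfl

theorem muL_le_c0 (hL : 0 < L) (hΛ : 0 < Λ) : muL L Λ ≤ 2 * Λ * c0 L Λ := by
  have h1 : ∑ n : Momentum L Λ, 1 / (2 * L ^ 3 * Λ) ≤
      ∑ n : Momentum L Λ, 1 / (2 * L ^ 3 * ‖n.k‖) := by
    apply Finset.sum_le_sum
    intro n _
    have h2 : 0 < ‖n.k‖ := n.2.1
    have h3 : ‖n.k‖ ≤ Λ := n.2.2.le
    apply one_div_le_one_div_of_le (by positivity)
    gcongr
  have h4 : ∑ n : Momentum L Λ, 1 / (2 * L ^ 3 * Λ) =
      Fintype.card (Momentum L Λ) * (1 / (2 * L ^ 3 * Λ)) := by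
    simp [Finset.sum_const, Finset.card_univ]
  rw [h4] at h1
  unfold muL c0
  calc (2 / 3) * (Fintype.card (Momentum L Λ) : ℝ) / L ^ 3 =
      2 * Λ * (2 / 3 * (Fintype.card (Momentum L Λ) * (1 / (2 * L ^ 3 * Λ)))) := by
        field_simp
    _ ≤ _ := by
        apply mul_le_mul_of_nonneg_left _ (by positivity)
        apply mul_le_mul_of_nonneg_left h1 (by norm_num)

/-- Collective annihilation operators. -/
noncomputable def bA (pol : Mode L Λ → E3) (i : Fin 3) : Module.End ℂ (Fock (Mode L Λ)) :=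
  anC (fun m => ((al pol i m / Real.sqrt (c0 L Λ) : ℝ) : ℂ))

/-- Collective creation operators. -/
noncomputable def bC (pol : Mode L Λ → E3) (i : Fin 3) : Module.End ℂ (Fock (Mode L Λ)) :=
  crC (fun m => ((al pol i m / Real.sqrt (c0 L Λ) : ℝ) : ℂ))

theorem bC_adj (pol : Mode L Λ → E3) (i : Fin 3) (u v : Fock (Mode L Λ)) :
    inner ℂ (bC pol i u) v = inner ℂ u (bA pol i v) := by
  unfold bC bA
  rw [inner_crC_left]
  simp only [Complex.conj_ofReal]

theorem bA_bC (hL : 0 < L) (pol : Mode L Λ → E3) (hp : IsPolarisation pol) (hc : 0 < c0 L Λ)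
    (i l : Fin 3) (u : Fock (Mode L Λ)) :
    bA pol i (bC pol l u) = bC pol l (bA pol i u) + (if i = l then (1 : ℂ) else 0) • u := by
  unfold bA bC
  rw [anC_crC]
  congr 2
  have h1 : ∀ m, ((al pol i m / Real.sqrt (c0 L Λ) : ℝ) : ℂ) *
      ((al pol l m / Real.sqrt (c0 L Λ) : ℝ) : ℂ) =
      ((al pol i m * al pol l m / c0 L Λ : ℝ) : ℂ) := by
    intro m
    rw [← Complex.ofReal_mul, div_mul_div_comm, Real.mul_self_sqrt hc.le]
  rw [Finset.sum_congr rfl (fun m _ => h1 m), ← Complex.ofReal_sum, ← Finset.sum_div,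
    sum_al_al hL pol hp]
  split_ifs
  · rw [div_self hc.ne']; simp
  · simp

/-- The trial vector of the photon field: a product of three truncated squeezed modes. -/
noncomputable def trialV (pol : Mode L Λ → E3) (t : ℝ) (K : ℕ) : Fock (Mode L Λ) :=
  sqz (bC pol 0) t K (sqz (bC pol 1) t K (sqz (bC pol 2) t K (vacuum (Mode L Λ))))

theorem bC_commute (pol : Mode L Λ → E3) (i l : Fin 3) : Commute (bC pol i) (bC pol l) := by
  apply LinearMap.ext
  intro v
  exact crC_crC _ _ v

theorem bA_commute_bC (hL : 0 < L) (pol : Mode L Λ → E3) (hp : IsPolarisation pol)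
    (hc : 0 < c0 L Λ) (i l : Fin 3) (h : i ≠ l) : Commute (bA pol i) (bC pol l) := by
  apply LinearMap.ext
  intro v
  have := bA_bC hL pol hp hc i l v
  rw [if_neg h, zero_smul, add_zero] at this
  exact this

theorem bA_vacuum (pol : Mode L Λ → E3) (i : Fin 3) : bA pol i (vacuum (Mode L Λ)) = 0 := by
  unfold bA
  exact anC_vacuum _

/-- For each `i` the trial vector is a one mode squeezed vector in the mode `i`. -/
theorem trialV_eq (hL : 0 < L) (pol : Mode L Λ → E3) (hp : IsPolarisation pol)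
    (hc : 0 < c0 L Λ) (t : ℝ) (K : ℕ) (i : Fin 3) :
    ∃ a b : Fin 3, trialV pol t K = sqz (bC pol i) t K (sqz (bC pol a) t K
      (sqz (bC pol b) t K (vacuum (Mode L Λ)))) ∧
      bA pol i (sqz (bC pol a) t K (sqz (bC pol b) t K (vacuum (Mode L Λ)))) = 0 := by
  have key : ∀ a b : Fin 3, i ≠ a → i ≠ b →
      bA pol i (sqz (bC pol a) t K (sqz (bC pol b) t K (vacuum (Mode L Λ)))) = 0 := by
    intro a b ha hb
    have h1 := commute_sqz _ _ (bA_commute_bC hL pol hp hc i a ha) t K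
    have h2 := commute_sqz _ _ (bA_commute_bC hL pol hp hc i b hb) t K
    have h1' : ∀ v, bA pol i (sqz (bC pol a) t K v) = sqz (bC pol a) t K (bA pol i v) :=
      fun v => LinearMap.congr_fun h1 v
    have h2' : ∀ v, bA pol i (sqz (bC pol b) t K v) = sqz (bC pol b) t K (bA pol i v) :=
      fun v => LinearMap.congr_fun h2 v
    rw [h1', h2', bA_vacuum, map_zero, map_zero]
  have comm : ∀ (a b : Fin 3) (v : Fock (Mode L Λ)), sqz (bC pol a) t K (sqz (bC pol b) t K v) =
      sqz (bC pol b) t K (sqz (bC pol a) t K v) := by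
    intro a b v
    exact LinearMap.congr_fun (sqz_commute_sqz _ _ (bC_commute pol a b) t K) v
  unfold trialV
  fin_cases i
  · exact ⟨1, 2, rfl, key 1 2 (by decide) (by decide)⟩
  · exact ⟨0, 2, comm 0 1 _, key 0 2 (by decide) (by decide)⟩
  · refine ⟨0, 1, ?_, key 0 1 (by decide) (by decide)⟩
    rw [comm 1 2, comm 0 2]
    rfl

theorem trialV_facts (hL : 0 < L) (pol : Mode L Λ → E3) (hp : IsPolarisation pol)
    (hc : 0 < c0 L Λ) (t : ℝ) (ht0 : 0 < t) (ht1 : t < 1) (K : ℕ) (i : Fin 3) :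
    ‖bA pol i (trialV pol t K)‖ ^ 2 ≤ t ^ 2 / (1 - t ^ 2) * ‖trialV pol t K‖ ^ 2 ∧
    ‖bA pol i (trialV pol t K) + bC pol i (trialV pol t K)‖ ^ 2 ≤
      ((1 - t) / (1 + t) + (2 * K + 1) * t ^ (2 * K)) * ‖trialV pol t K‖ ^ 2 := by
  obtain ⟨a, b, h1, h2⟩ := trialV_eq hL pol hp hc t K i
  have h3 := one_mode (bA pol i) (bC pol i) (bC_adj pol i)
    (fun u => by rw [bA_bC hL pol hp hc i i u, if_pos rfl, one_smul]) _ h2 t ht0 ht1 K
  rw [← h1] at h3
  exact ⟨h3.2.1, h3.2.2⟩

theorem trialV_norm (hL : 0 < L) (pol : Mode L Λ → E3) (hp : IsPolarisation pol)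
    (hc : 0 < c0 L Λ) (t : ℝ) (ht0 : 0 < t) (ht1 : t < 1) (K : ℕ) :
    1 ≤ ‖trialV pol t K‖ ^ 2 := by
  have comm' : ∀ (i a : Fin 3), i ≠ a → ∀ v, bA pol i (sqz (bC pol a) t K v) =
      sqz (bC pol a) t K (bA pol i v) := fun i a ha v =>
    LinearMap.congr_fun (commute_sqz _ _ (bA_commute_bC hL pol hp hc i a ha) t K) v
  have hone := fun (i : Fin 3) (ξ : Fock (Mode L Λ)) (hξ : bA pol i ξ = 0) =>
    (one_mode (bA pol i) (bC pol i) (bC_adj pol i)
    (fun u => by rw [bA_bC hL pol hp hc i i u, if_pos rfl, one_smul]) ξ hξ t ht0 ht1 K).1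
  have h0 : ‖vacuum (Mode L Λ)‖ ^ 2 = 1 := by
    have := inner_vacuum (M := Mode L Λ)
    rw [inner_self_real] at this
    exact_mod_cast this
  have h1 := hone 2 _ (bA_vacuum pol 2)
  have h2 := hone 1 (sqz (bC pol 2) t K (vacuum (Mode L Λ))) (by
    rw [comm' 1 2 (by decide), bA_vacuum, map_zero])
  have h3 := hone 0 (sqz (bC pol 1) t K (sqz (bC pol 2) t K (vacuum (Mode L Λ)))) (by
    rw [comm' 0 1 (by decide), comm' 0 2 (by decide), bA_vacuum, map_zero, map_zero])
  unfold trialV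
  linarith

theorem an_crC (m : Mode L Λ) (d : Mode L Λ → ℂ) (v : Fock (Mode L Λ)) :
    an m (crC d v) = crC d (an m v) + d m • v := by
  classical
  have h := anC_crC (Pi.single m (1 : ℂ)) d v
  have h1 : ∀ w : Fock (Mode L Λ), anC (Pi.single m (1 : ℂ)) w = an m w := by
    intro w
    rw [anC_apply, Finset.sum_eq_single m]
    · simp
    · intro b _ hb
      rw [Pi.single_eq_of_ne hb, zero_smul]
    · intro h; exact absurd (Finset.mem_univ _) h
  rw [h1, h1] at h
  rw [h]
  congr 2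
  rw [Finset.sum_eq_single m]
  · simp
  · intro b _ hb
    rw [Pi.single_eq_of_ne hb, zero_mul]
  · intro h; exact absurd (Finset.mem_univ _) h

/-- On the trial vector the annihilation operators act through the collective ones. -/
theorem an_trialV (hL : 0 < L) (pol : Mode L Λ → E3) (hp : IsPolarisation pol)
    (hc : 0 < c0 L Λ) (t : ℝ) (K : ℕ) (m : Mode L Λ) :
    an m (trialV pol t K) = ∑ i : Fin 3, ((al pol i m / Real.sqrt (c0 L Λ) : ℝ) : ℂ) •
      bA pol i (trialV pol t K) := by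
  let D : Module.End ℂ (Fock (Mode L Λ)) := an m -
    ∑ i : Fin 3, ((al pol i m / Real.sqrt (c0 L Λ) : ℝ) : ℂ) • bA pol i
  have hD : ∀ l, Commute D (bC pol l) := by
    intro l
    apply LinearMap.ext
    intro v
    show D (bC pol l v) = bC pol l (D v)
    simp only [D, LinearMap.sub_apply, LinearMap.sum_apply, LinearMap.smul_apply, map_sub, map_sum,
      map_smul, bA_bC hL pol hp hc]
    have h1 : an m (bC pol l v) = bC pol l (an m v) +
        ((al pol l m / Real.sqrt (c0 L Λ) : ℝ) : ℂ) • v := by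
      unfold bC
      exact an_crC m _ v
    rw [h1]
    simp only [smul_add, Finset.sum_add_distrib, ite_smul, one_smul, zero_smul, smul_ite,
      smul_zero, Finset.sum_ite_eq', Finset.mem_univ, if_true]
    abel
  have hD0 : D (vacuum (Mode L Λ)) = 0 := by
    simp only [D, LinearMap.sub_apply, LinearMap.sum_apply, LinearMap.smul_apply, an_vacuum,
      bA_vacuum, smul_zero, Finset.sum_const_zero, sub_zero]
  have hs : ∀ l v, D (sqz (bC pol l) t K v) = sqz (bC pol l) t K (D v) := fun l v =>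
    LinearMap.congr_fun (commute_sqz _ _ (hD l) t K) v
  have h2 : D (trialV pol t K) = 0 := by
    unfold trialV
    rw [hs, hs, hs, hD0, map_zero, map_zero, map_zero]
  have h3 : an m (trialV pol t K) - ∑ i : Fin 3, ((al pol i m / Real.sqrt (c0 L Λ) : ℝ) : ℂ) •
      bA pol i (trialV pol t K) = 0 := by
    rw [← h2]
    simp only [D, LinearMap.sub_apply, LinearMap.sum_apply, LinearMap.smul_apply]
  exact sub_eq_zero.mp h3

theorem numE_trialV (hL : 0 < L) (pol : Mode L Λ → E3) (hp : IsPolarisation pol)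
    (hc : 0 < c0 L Λ) (t : ℝ) (K : ℕ) :
    numE (fun m => ‖m.k‖) (trialV pol t K) =
      muL L Λ / (2 * c0 L Λ) * ∑ i : Fin 3, ‖bA pol i (trialV pol t K)‖ ^ 2 := by
  set η := trialV pol t K
  have h1 : ((numE (fun m => ‖m.k‖) η : ℝ) : ℂ) =
      ((muL L Λ / (2 * c0 L Λ) * ∑ i : Fin 3, ‖bA pol i η‖ ^ 2 : ℝ) : ℂ) := by
    unfold numE
    push_cast
    have h2 : ∀ m : Mode L Λ, ((‖m.k‖ : ℝ) : ℂ) * ((‖an m η‖ : ℝ) : ℂ) ^ 2 =
        ∑ i : Fin 3, ∑ l : Fin 3, ((al pol l m * be pol i m / c0 L Λ : ℝ) : ℂ) *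
          inner ℂ (bA pol i η) (bA pol l η) := by
      intro m
      have h3 : ((‖an m η‖ : ℝ) : ℂ) ^ 2 = inner ℂ (an m η) (an m η) := by
        rw [inner_self_real]; push_cast; rfl
      rw [h3, an_trialV hL pol hp hc t K m]
      simp only [sum_inner, inner_sum, inner_smul_left, inner_smul_right, Complex.conj_ofReal,
        Finset.mul_sum]
      rw [Finset.sum_comm]
      apply Finset.sum_congr rfl
      intro i _
      apply Finset.sum_congr rfl
      intro l _
      have h4 : ((al pol l m * be pol i m / c0 L Λ : ℝ) : ℂ) =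
          ((‖m.k‖ : ℝ) : ℂ) * (((al pol l m / Real.sqrt (c0 L Λ) : ℝ) : ℂ) *
            ((al pol i m / Real.sqrt (c0 L Λ) : ℝ) : ℂ)) := by
        rw [← Complex.ofReal_mul, ← Complex.ofReal_mul, div_mul_div_comm, Real.mul_self_sqrt hc.le]
        congr 1
        unfold be
        ring
      rw [h4]
      ring
    rw [Finset.sum_congr rfl (fun m _ => h2 m), Finset.sum_comm]
    have h5 : ∀ i : Fin 3, ∑ m : Mode L Λ, ∑ l : Fin 3,
        ((al pol l m * be pol i m / c0 L Λ : ℝ) : ℂ) * inner ℂ (bA pol i η) (bA pol l η) =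
        ((muL L Λ / (2 * c0 L Λ) : ℝ) : ℂ) * ((‖bA pol i η‖ : ℝ) : ℂ) ^ 2 := by
      intro i
      rw [Finset.sum_comm]
      have h6 : ∀ l : Fin 3, ∑ m : Mode L Λ, ((al pol l m * be pol i m / c0 L Λ : ℝ) : ℂ) *
          inner ℂ (bA pol i η) (bA pol l η) =
          (if l = i then ((muL L Λ / (2 * c0 L Λ) : ℝ) : ℂ) else 0) *
            inner ℂ (bA pol i η) (bA pol l η) := by
        intro l
        rw [← Finset.sum_mul, ← Complex.ofReal_sum, ← Finset.sum_div, sum_al_be hL pol hp]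
        congr 1
        split_ifs
        · congr 1
          field_simp
        · simp
      rw [Finset.sum_congr rfl (fun l _ => h6 l)]
      simp only [ite_mul, zero_mul, Finset.sum_ite_eq', Finset.mem_univ, if_true]
      rw [inner_self_real]
      push_cast
      rfl
    rw [Finset.sum_congr rfl (fun i _ => h5 i), ← Finset.mul_sum]
    push_cast
    rfl
  exact_mod_cast h1

end Pool.Agent.Helper20.PF
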