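import Pool.Agent.Helper20.PFTrial

set_option autoImplicit false

open MeasureTheory
open scoped BigOperators ComplexConjugate

namespace Pool.Agent.Helper20.PF

variable {L Λ : ℝ} [Fintype (Momentum L Λ)]

theorem vp_zero (hc : 0 < c0 L Λ) (pol : Mode L Λ → E3) (i : Fin 3) (v : Fock (Mode L Λ)) :
    vp pol i 0 v = ((Real.sqrt (c0 L Λ) : ℝ) : ℂ) • (bA pol i v + bC pol i v) := by
  unfold vp bA bC
  rw [LinearMap.add_apply, smul_add]
  simp only [anC_apply, crC_apply, ph_zero, map_one, mul_one, Finset.smul_sum, smul_smul,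
    ← Complex.ofReal_mul]
  have h : ∀ m : Mode L Λ, Real.sqrt (c0 L Λ) * (al pol i m / Real.sqrt (c0 L Λ)) = al pol i m := by
    intro m
    have := (Real.sqrt_pos.mpr hc).ne'
    field_simp
  simp only [h]

theorem exists_trial (hL : 0 < L) (pol : Mode L Λ → E3) (hp : IsPolarisation pol)
    (hc : 0 < c0 L Λ) (hmu : 0 ≤ muL L Λ) (y δ : ℝ) (hy0 : 0 < y) (hy1 : y < 1) (hδ : 0 < δ) :
    ∃ η : Fock (Mode L Λ), ‖η‖ = 1 ∧
      numE (fun m => ‖m.k‖) η ≤ 3 * muL L Λ / (8 * c0 L Λ * y) ∧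
      ∑ i : Fin 3, ‖vp pol i 0 η‖ ^ 2 ≤ 3 * c0 L Λ * (y + δ) := by
  set t : ℝ := (1 - y) / (1 + y) with ht
  have ht0 : 0 < t := by
    rw [ht]; apply div_pos <;> linarith
  have ht1 : t < 1 := by
    rw [ht, div_lt_one (by linarith)]; linarith
  have hty : (1 - t) / (1 + t) = y := by
    rw [ht]
    have : (1 + y) ≠ 0 := by linarith
    field_simp
    ring
  have hty2 : t ^ 2 / (1 - t ^ 2) ≤ 1 / (4 * y) := by
    have h1 : t ^ 2 / (1 - t ^ 2) = (1 - y) ^ 2 / (4 * y) := by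
      have h2 : (1 + y) ≠ 0 := by linarith
      have h3 : 1 - t ^ 2 = 4 * y / (1 + y) ^ 2 := by
        rw [ht]; field_simp; ring
      rw [h3, ht]
      field_simp
    rw [h1]
    apply div_le_div_of_nonneg_right _ (by positivity)
    nlinarith
  have hK : ∃ K : ℕ, (2 * (K : ℝ) + 1) * t ^ (2 * K) < δ := by
    have hr : |t ^ 2| < 1 := by
      rw [abs_of_nonneg (by positivity)]
      nlinarith
    have l1 := tendsto_self_mul_const_pow_of_abs_lt_one hr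
    have l2 := tendsto_pow_atTop_nhds_zero_of_abs_lt_one hr
    have l3 : Filter.Tendsto (fun n : ℕ => 2 * ((n : ℝ) * (t ^ 2) ^ n) + (t ^ 2) ^ n) Filter.atTop
        (nhds (2 * 0 + 0)) := (l1.const_mul 2).add l2
    rw [mul_zero, add_zero] at l3
    obtain ⟨K, hK⟩ := (l3.eventually (gt_mem_nhds hδ)).exists
    refine ⟨K, lt_of_eq_of_lt ?_ hK⟩
    rw [pow_mul]; ring
  obtain ⟨K, hK⟩ := hK
  set w := trialV pol t K with hw
  have hw1 := trialV_norm hL pol hp hc t ht0 ht1 K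
  have hwpos : 0 < ‖w‖ := by
    by_contra hcon
    have : ‖w‖ = 0 := le_antisymm (not_lt.mp hcon) (norm_nonneg _)
    rw [← hw, this] at hw1
    norm_num at hw1
  have hfacts := trialV_facts hL pol hp hc t ht0 ht1 K
  rw [← hw] at hfacts
  set a : ℂ := ((‖w‖⁻¹ : ℝ) : ℂ) with ha
  have hna : ‖a‖ = ‖w‖⁻¹ := by
    rw [ha, Complex.norm_real, Real.norm_eq_abs, abs_of_pos (inv_pos.mpr hwpos)]
  have hsq : ‖w‖⁻¹ ^ 2 * ‖w‖ ^ 2 = 1 := by
    rw [← mul_pow, inv_mul_cancel₀ hwpos.ne', one_pow]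
  refine ⟨a • w, ?_, ?_, ?_⟩
  · rw [norm_smul, hna, inv_mul_cancel₀ hwpos.ne']
  · have h1 : numE (fun m => ‖m.k‖) (a • w) = ‖w‖⁻¹ ^ 2 * numE (fun m => ‖m.k‖) w := by
      unfold numE
      rw [Finset.mul_sum]
      apply Finset.sum_congr rfl
      intro m _
      rw [map_smul, norm_smul, hna, mul_pow]
      ring
    rw [h1, hw, numE_trialV hL pol hp hc t K, ← hw]
    have h2 : ∑ i : Fin 3, ‖bA pol i w‖ ^ 2 ≤ 3 * (1 / (4 * y) * ‖w‖ ^ 2) := by
      calc ∑ i : Fin 3, ‖bA pol i w‖ ^ 2 ≤ ∑ _i : Fin 3, (1 / (4 * y) * ‖w‖ ^ 2) := by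
            apply Finset.sum_le_sum
            intro i _
            refine (hfacts i).1.trans ?_
            apply mul_le_mul_of_nonneg_right hty2 (by positivity)
        _ = 3 * (1 / (4 * y) * ‖w‖ ^ 2) := by
            simp only [Finset.sum_const, Finset.card_univ, Fintype.card_fin, nsmul_eq_mul]
            push_cast
            ring
    calc ‖w‖⁻¹ ^ 2 * (muL L Λ / (2 * c0 L Λ) * ∑ i : Fin 3, ‖bA pol i w‖ ^ 2) ≤
        ‖w‖⁻¹ ^ 2 * (muL L Λ / (2 * c0 L Λ) * (3 * (1 / (4 * y) * ‖w‖ ^ 2))) := by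
          apply mul_le_mul_of_nonneg_left _ (by positivity)
          apply mul_le_mul_of_nonneg_left h2 (by positivity)
      _ = (‖w‖⁻¹ ^ 2 * ‖w‖ ^ 2) * (3 * muL L Λ / (8 * c0 L Λ * y)) := by
          field_simp
          ring
      _ = _ := by rw [hsq, one_mul]
  · have h1 : ∀ i : Fin 3, ‖vp pol i 0 (a • w)‖ ^ 2 ≤ c0 L Λ * (y + δ) := by
      intro i
      rw [map_smul, norm_smul, hna, vp_zero hc, norm_smul, Complex.norm_real, Real.norm_eq_abs,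
        abs_of_nonneg (Real.sqrt_nonneg _), mul_pow, mul_pow, Real.sq_sqrt hc.le]
      have h2 := (hfacts i).2
      rw [hty] at h2
      have h3 : ‖bA pol i w + bC pol i w‖ ^ 2 ≤ (y + δ) * ‖w‖ ^ 2 := by
        refine h2.trans ?_
        apply mul_le_mul_of_nonneg_right _ (by positivity)
        linarith
      calc ‖w‖⁻¹ ^ 2 * (c0 L Λ * ‖bA pol i w + bC pol i w‖ ^ 2) ≤
          ‖w‖⁻¹ ^ 2 * (c0 L Λ * ((y + δ) * ‖w‖ ^ 2)) := by
            apply mul_le_mul_of_nonneg_left _ (by positivity)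
            apply mul_le_mul_of_nonneg_left h3 hc.le
        _ = (‖w‖⁻¹ ^ 2 * ‖w‖ ^ 2) * (c0 L Λ * (y + δ)) := by ring
        _ = _ := by rw [hsq, one_mul]
    calc ∑ i : Fin 3, ‖vp pol i 0 (a • w)‖ ^ 2 ≤ ∑ _i : Fin 3, c0 L Λ * (y + δ) :=
          Finset.sum_le_sum (fun i _ => h1 i)
      _ = 3 * c0 L Λ * (y + δ) := by
          simp only [Finset.sum_const, Finset.card_univ, Fintype.card_fin, nsmul_eq_mul]
          push_cast
          ring

/-- The optimised trial vector. -/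
theorem exists_trial_opt (hL : 0 < L) (pol : Mode L Λ → E3) (hp : IsPolarisation pol)
    (hc : 0 < c0 L Λ) (hmu : 0 < muL L Λ) (α δ : ℝ) (hα : 0 < α) (hδ : 0 < δ)
    (hy : Real.sqrt (muL L Λ / (8 * α)) < c0 L Λ) :
    ∃ η : Fock (Mode L Λ), ‖η‖ = 1 ∧
      numE (fun m => ‖m.k‖) η ≤ 3 * Real.sqrt (α * muL L Λ / 8) ∧
      α * ∑ i : Fin 3, ‖vp pol i 0 η‖ ^ 2 ≤ 3 * Real.sqrt (α * muL L Λ / 8) + δ := by
  set mu := muL L Λ
  set c := c0 L Λ
  set y := Real.sqrt (mu / (8 * α)) / c with hydef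
  have hq : 0 < Real.sqrt (mu / (8 * α)) := Real.sqrt_pos.mpr (by positivity)
  have hy0 : 0 < y := by positivity
  have hy1 : y < 1 := by rw [hydef, div_lt_one hc]; exact hy
  have hδ' : 0 < δ / (3 * c * α) := by positivity
  obtain ⟨η, h1, h2, h3⟩ := exists_trial hL pol hp hc hmu.le y (δ / (3 * c * α)) hy0 hy1 hδ'
  have hcy : c * y = Real.sqrt (mu / (8 * α)) := by rw [hydef]; field_simp
  have hs1 : Real.sqrt (mu / (8 * α)) * Real.sqrt (α * mu / 8) = mu / 8 := by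
    rw [← Real.sqrt_mul (by positivity)]
    have : mu / (8 * α) * (α * mu / 8) = (mu / 8) ^ 2 := by field_simp
    rw [this, Real.sqrt_sq (by positivity)]
  have hs2 : α * Real.sqrt (mu / (8 * α)) = Real.sqrt (α * mu / 8) := by
    have h4 : α * mu / 8 = α ^ 2 * (mu / (8 * α)) := by field_simp
    rw [h4, Real.sqrt_mul (by positivity), Real.sqrt_sq hα.le]
  refine ⟨η, h1, ?_, ?_⟩
  · refine h2.trans (le_of_eq ?_)
    have h5 : 8 * c * y = 8 * Real.sqrt (mu / (8 * α)) := by rw [mul_assoc, hcy]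
    rw [h5]
    rw [div_eq_iff (by positivity)]
    nlinarith [hs1]
  · calc α * ∑ i : Fin 3, ‖vp pol i 0 η‖ ^ 2 ≤ α * (3 * c * (y + δ / (3 * c * α))) := by
          apply mul_le_mul_of_nonneg_left h3 hα.le
      _ = 3 * (α * (c * y)) + δ := by field_simp
      _ = 3 * Real.sqrt (α * mu / 8) + δ := by rw [hcy, hs2]

omit [Fintype (Momentum L Λ)] in
theorem norm_ph_sub_one_le (m : Mode L Λ) (x : E3) : ‖ph m x - 1‖ ≤ ‖m.k‖ * ‖x‖ := by
  unfold ph
  refine Real.norm_exp_I_mul_ofReal_sub_one_le.trans ?_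
  exact norm_inner_le_norm _ _

/-- Dependence of the vector potential on the position. -/
theorem norm_vp_sub_sq_le (hL : 0 < L) (pol : Mode L Λ → E3) (hp : IsPolarisation pol) (i : Fin 3)
    (x : E3) (v : Fock (Mode L Λ)) :
    ‖vp pol i x v - vp pol i 0 v‖ ^ 2 ≤
      ‖x‖ ^ 2 * muL L Λ * (2 * numE (fun m => ‖m.k‖) v + Λ * ‖v‖ ^ 2) := by
  have hk : ∀ m : Mode L Λ, 0 < ‖m.k‖ := fun m => m.1.2.1
  set c : Mode L Λ → ℂ := fun m => (al pol i m : ℂ) * (ph m x - 1) with hcdef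
  have h1 : vp pol i x v - vp pol i 0 v = anC c v + crC (fun m => conj (c m)) v := by
    unfold vp
    simp only [LinearMap.add_apply, anC_apply, crC_apply, ph_zero, map_one, mul_one, hcdef,
      map_mul, map_sub, Complex.conj_ofReal]
    rw [add_sub_add_comm, ← Finset.sum_sub_distrib, ← Finset.sum_sub_distrib]
    congr 1
    · apply Finset.sum_congr rfl
      intro m _
      module
    · apply Finset.sum_congr rfl
      intro m _
      module
  rw [h1]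
  have h2 := norm_anC_add_crC_sq_le c v
  have h3 := norm_anC_sq_le c (fun m => ‖m.k‖) hk v
  have hcm : ∀ m, ‖c m‖ ^ 2 ≤ ‖x‖ ^ 2 * (al pol i m ^ 2 * ‖m.k‖ ^ 2) := by
    intro m
    rw [hcdef]
    simp only
    rw [norm_mul, mul_pow, Complex.norm_real, Real.norm_eq_abs, sq_abs]
    have h4 : ‖ph m x - 1‖ ^ 2 ≤ (‖m.k‖ * ‖x‖) ^ 2 :=
      pow_le_pow_left₀ (norm_nonneg _) (norm_ph_sub_one_le m x) 2
    calc al pol i m ^ 2 * ‖ph m x - 1‖ ^ 2 ≤ al pol i m ^ 2 * (‖m.k‖ * ‖x‖) ^ 2 := by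
          apply mul_le_mul_of_nonneg_left h4 (sq_nonneg _)
      _ = _ := by ring
  have h5 : ∑ m, ‖c m‖ ^ 2 / ‖m.k‖ ≤ ‖x‖ ^ 2 * (muL L Λ / 2) := by
    have h6 : ∑ m, al pol i m * be pol i m = muL L Λ / 2 := by
      rw [sum_al_be hL pol hp i i, if_pos rfl]
    rw [← h6, Finset.mul_sum]
    apply Finset.sum_le_sum
    intro m _
    rw [div_le_iff₀ (hk m)]
    refine (hcm m).trans (le_of_eq ?_)
    unfold be
    ring
  have h7 : ∑ m, ‖c m‖ ^ 2 ≤ ‖x‖ ^ 2 * (Λ * (muL L Λ / 2)) := by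
    calc ∑ m, ‖c m‖ ^ 2 ≤ ∑ m, ‖x‖ ^ 2 * be pol i m ^ 2 := by
          apply Finset.sum_le_sum
          intro m _
          refine (hcm m).trans (le_of_eq ?_)
          unfold be
          ring
      _ = ‖x‖ ^ 2 * ∑ m, be pol i m ^ 2 := by rw [Finset.mul_sum]
      _ ≤ _ := by
          apply mul_le_mul_of_nonneg_left (sum_be_sq_le hL pol hp i) (sq_nonneg _)
  have hE : 0 ≤ numE (fun m : Mode L Λ => ‖m.k‖) v := numE_nonneg _ (fun m => (hk m).le) v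
  have hv : 0 ≤ ‖v‖ ^ 2 := sq_nonneg _
  calc ‖anC c v + crC (fun m => conj (c m)) v‖ ^ 2 ≤
        4 * ‖anC c v‖ ^ 2 + 2 * (∑ m, ‖c m‖ ^ 2) * ‖v‖ ^ 2 := h2
    _ ≤ 4 * ((‖x‖ ^ 2 * (muL L Λ / 2)) * numE (fun m => ‖m.k‖) v) +
        2 * (‖x‖ ^ 2 * (Λ * (muL L Λ / 2))) * ‖v‖ ^ 2 := by
        apply add_le_add
        · apply mul_le_mul_of_nonneg_left _ (by norm_num)
          exact h3.trans (mul_le_mul_of_nonneg_right h5 hE)
        · apply mul_le_mul_of_nonneg_right _ hv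
          apply mul_le_mul_of_nonneg_left h7 (by norm_num)
    _ = _ := by ring

theorem sum_norm_vp_le (hL : 0 < L) (pol : Mode L Λ → E3) (hp : IsPolarisation pol)
    (x : E3) (v : Fock (Mode L Λ)) (d : ℝ) (hd : 0 < d) :
    ∑ i : Fin 3, ‖vp pol i x v‖ ^ 2 ≤ (1 + d) * ∑ i : Fin 3, ‖vp pol i 0 v‖ ^ 2 +
      (1 + 1 / d) * (‖x‖ ^ 2 * muL L Λ * (6 * numE (fun m => ‖m.k‖) v + 3 * Λ * ‖v‖ ^ 2)) := by
  have h1 : ∀ i : Fin 3, ‖vp pol i x v‖ ^ 2 ≤ (1 + d) * ‖vp pol i 0 v‖ ^ 2 +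
      (1 + 1 / d) * (‖x‖ ^ 2 * muL L Λ * (2 * numE (fun m => ‖m.k‖) v + Λ * ‖v‖ ^ 2)) := by
    intro i
    have h2 := norm_vp_sub_sq_le hL pol hp i x v
    have h3 : ‖vp pol i x v‖ ≤ ‖vp pol i 0 v‖ + ‖vp pol i x v - vp pol i 0 v‖ := by
      have : vp pol i x v = vp pol i 0 v + (vp pol i x v - vp pol i 0 v) := by abel
      nth_rewrite 1 [this]
      exact norm_add_le _ _
    set a := ‖vp pol i 0 v‖
    set b := ‖vp pol i x v - vp pol i 0 v‖
    have ha : 0 ≤ a := norm_nonneg _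
    have hb : 0 ≤ b := norm_nonneg _
    have h4 : (a + b) ^ 2 ≤ (1 + d) * a ^ 2 + (1 + 1 / d) * b ^ 2 := by
      have h5 : 0 ≤ (Real.sqrt d * a - (Real.sqrt d)⁻¹ * b) ^ 2 := sq_nonneg _
      have h6 : (Real.sqrt d * a - (Real.sqrt d)⁻¹ * b) ^ 2 = d * a ^ 2 + 1 / d * b ^ 2 - 2 * a * b := by
        have h7 : Real.sqrt d ≠ 0 := (Real.sqrt_pos.mpr hd).ne'
        have h8 : Real.sqrt d ^ 2 = d := Real.sq_sqrt hd.le
        have h9 : ((Real.sqrt d)⁻¹) ^ 2 = 1 / d := by rw [inv_pow, h8, one_div]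
        calc _ = Real.sqrt d ^ 2 * a ^ 2 + ((Real.sqrt d)⁻¹) ^ 2 * b ^ 2 -
              2 * a * b * (Real.sqrt d * (Real.sqrt d)⁻¹) := by ring
          _ = _ := by rw [h8, h9, mul_inv_cancel₀ h7, mul_one]
      nlinarith
    have h10 : ‖vp pol i x v‖ ^ 2 ≤ (a + b) ^ 2 := pow_le_pow_left₀ (norm_nonneg _) h3 2
    have h11 : (1 + 1 / d) * b ^ 2 ≤ (1 + 1 / d) *
        (‖x‖ ^ 2 * muL L Λ * (2 * numE (fun m => ‖m.k‖) v + Λ * ‖v‖ ^ 2)) :=
      mul_le_mul_of_nonneg_left h2 (by positivity)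
    linarith
  calc ∑ i : Fin 3, ‖vp pol i x v‖ ^ 2 ≤ ∑ i : Fin 3, ((1 + d) * ‖vp pol i 0 v‖ ^ 2 +
      (1 + 1 / d) * (‖x‖ ^ 2 * muL L Λ * (2 * numE (fun m => ‖m.k‖) v + Λ * ‖v‖ ^ 2))) :=
        Finset.sum_le_sum (fun i _ => h1 i)
    _ = _ := by
        rw [Finset.sum_add_distrib, ← Finset.mul_sum]
        simp only [Finset.sum_const, Finset.card_univ, Fintype.card_fin, nsmul_eq_mul]
        push_cast
        ring

end Pool.Agent.Helper20.PF
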