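import Pool.Agent.Helper20.PFTrial2

set_option autoImplicit false

open MeasureTheory
open scoped BigOperators ComplexConjugate

namespace Pool.Agent.Helper20.PF

/-- The spin singlet. -/
noncomputable def chi (s : Fin 2 → Fin 2) : ℝ :=
  if s = ![0, 1] then 1 else if s = ![1, 0] then -1 else 0

/-- The two-electron trial function: both electrons in the orbital `φ`, spin singlet, photon
vector `η`. -/
noncomputable def trialWF {M : Type} (φ : E3 → ℝ) (η : Fock M) : WaveFunction 2 M :=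
  fun x s => ((φ (x 0) * φ (x 1) * chi s : ℝ) : ℂ) • η

theorem chi_swap (s : Fin 2 → Fin 2) : chi (s ∘ Equiv.swap 0 1) = - chi s := by
  have h : ∀ s : Fin 2 → Fin 2, (s ∘ Equiv.swap 0 1 = ![0, 1] ↔ s = ![1, 0]) ∧
      (s ∘ Equiv.swap 0 1 = ![1, 0] ↔ s = ![0, 1]) := by decide
  have hne : (![0, 1] : Fin 2 → Fin 2) ≠ ![1, 0] := by decide
  unfold chi
  rw [if_congr (h s).1 rfl rfl, if_congr (h s).2 rfl rfl]
  by_cases h1 : s = ![0, 1]
  · subst h1
    simp [hne]
  · by_cases h2 : s = ![1, 0]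
    · subst h2
      simp [hne.symm]
    · simp [h1, h2]

theorem sum_chi_sq : ∑ s : Fin 2 → Fin 2, chi s ^ 2 = 2 := by
  have hne : (![0, 1] : Fin 2 → Fin 2) ≠ ![1, 0] := by decide
  have h1 : ∀ s : Fin 2 → Fin 2, chi s ^ 2 =
      (if s = ![0, 1] then 1 else 0) + (if s = ![1, 0] then 1 else 0) := by
    intro s
    unfold chi
    by_cases h1 : s = ![0, 1]
    · subst h1
      simp [hne]
    · by_cases h2 : s = ![1, 0]
      · subst h2
        simp [hne.symm]
      · simp [h1, h2]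
  rw [Finset.sum_congr rfl (fun s _ => h1 s), Finset.sum_add_distrib]
  simp
  norm_num

section WF

variable {M : Type} {φ : E3 → ℝ}

theorem contDiff_trial (hφ : ContDiff ℝ ((⊤ : ℕ∞) : WithTop ℕ∞) φ) (c : ℝ) :
    ContDiff ℝ ((⊤ : ℕ∞) : WithTop ℕ∞) (fun x : Fin 2 → E3 => φ (x 0) * φ (x 1) * c) := by
  exact ((hφ.comp (contDiff_apply ℝ E3 0)).mul (hφ.comp (contDiff_apply ℝ E3 1))).mul contDiff_const

theorem trial_compact (hφc : HasCompactSupport φ) (c : ℝ) :
    HasCompactSupport (fun x : Fin 2 → E3 => φ (x 0) * φ (x 1) * c) := by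
  have hK : IsCompact (Set.pi Set.univ (fun _ : Fin 2 => tsupport φ)) :=
    isCompact_univ_pi (fun _ => hφc)
  apply HasCompactSupport.intro hK
  intro x hx
  rw [Set.mem_univ_pi] at hx
  push Not at hx
  obtain ⟨i, hi⟩ := hx
  have h0 : φ (x i) = 0 := image_eq_zero_of_notMem_tsupport hi
  fin_cases i
  · simp only [Fin.zero_eta] at h0
    rw [h0]; ring
  · simp only [Fin.mk_one] at h0
    rw [h0]; ring

theorem trialWF_isState (hφ : ContDiff ℝ ((⊤ : ℕ∞) : WithTop ℕ∞) φ) (hφc : HasCompactSupport φ)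
    (η : Fock M) : IsFermionState (trialWF φ η) where
  smooth s := by
    unfold trialWF
    exact (Complex.ofRealCLM.contDiff.comp (contDiff_trial hφ (chi s))).smul contDiff_const
  compact s := by
    unfold trialWF
    have h1 := (trial_compact hφc (chi s)).comp_left (g := fun r : ℝ => ((r : ℝ) : ℂ) • η)
      (by simp)
    exact h1
  finite := by
    refine ⟨Submodule.span ℂ {η}, inferInstance, ?_⟩
    intro x s
    exact Submodule.smul_mem _ _ (Submodule.mem_span_singleton_self η)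
  antisymm σ x s := by
    have hσ : σ = 1 ∨ σ = Equiv.swap 0 1 := by
      revert σ; decide
    rcases hσ with h | h
    · subst h
      simp [trialWF]
    · subst h
      unfold trialWF
      have e0 : (x ∘ Equiv.swap (0 : Fin 2) 1) 0 = x 1 := by simp
      have e1 : (x ∘ Equiv.swap (0 : Fin 2) 1) 1 = x 0 := by simp
      rw [chi_swap, Equiv.Perm.sign_swap (by decide), smul_smul, e0, e1]
      congr 1
      simp only [Units.val_neg, Units.val_one, Int.cast_neg, Int.cast_one]
      push_cast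
      ring

theorem IsFermionState.ws {N : ℕ} {Ψ : WaveFunction N M} (h : IsFermionState Ψ) : WS Ψ := by
  intro s
  obtain ⟨E, hE, hΨE⟩ := h.finite
  exact ⟨h.smooth s, h.compact s, ⟨E, hE, fun x => hΨE x s⟩⟩

/-- Partial derivative of the orbital. -/
noncomputable def dphi (φ : E3 → ℝ) (i : Fin 3) (x : E3) : ℝ :=
  fderiv ℝ φ x (EuclideanSpace.single i (1 : ℝ))

theorem hasFDerivAt_comp_apply (hφ : ContDiff ℝ ((⊤ : ℕ∞) : WithTop ℕ∞) φ) (j : Fin 2)
    (x : Fin 2 → E3) : HasFDerivAt (fun y : Fin 2 → E3 => φ (y j))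
      ((fderiv ℝ φ (x j)).comp (ContinuousLinearMap.proj (R := ℝ) (φ := fun _ : Fin 2 => E3) j)) x := by
  have h1 : HasFDerivAt φ (fderiv ℝ φ (x j)) (x j) :=
    ((hφ.differentiable (by simp)) (x j)).hasFDerivAt
  have h2 : HasFDerivAt (fun y : Fin 2 → E3 => y j)
      (ContinuousLinearMap.proj (R := ℝ) (φ := fun _ : Fin 2 => E3) j) x :=
    (ContinuousLinearMap.proj (R := ℝ) (φ := fun _ : Fin 2 => E3) j).hasFDerivAt
  exact h1.comp x h2

theorem fderiv_trial (hφ : ContDiff ℝ ((⊤ : ℕ∞) : WithTop ℕ∞) φ) (η : Fock M)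
    (x : Fin 2 → E3) (s : Fin 2 → Fin 2) (i : Fin 3) :
    fderiv ℝ (fun y => trialWF φ η y s) x (dir 0 i) =
      ((dphi φ i (x 0) * φ (x 1) * chi s : ℝ) : ℂ) • η ∧
    fderiv ℝ (fun y => trialWF φ η y s) x (dir 1 i) =
      ((φ (x 0) * dphi φ i (x 1) * chi s : ℝ) : ℂ) • η := by
  have h0 := hasFDerivAt_comp_apply hφ 0 x
  have h1 := hasFDerivAt_comp_apply hφ 1 x
  have h2 := ((h0.mul h1).mul_const (chi s))
  have h3 := (Complex.ofRealCLM.hasFDerivAt.comp x h2).smul_const η
  have h4 : fderiv ℝ (fun y => trialWF φ η y s) x = _ := h3.fderiv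
  constructor
  · rw [h4]
    simp [dir, dphi]
    congr 1
    ring
  · rw [h4]
    simp [dir, dphi]
    congr 1
    ring

end WF

end Pool.Agent.Helper20.PF
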