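import Pool.Agent.Helper20.PFUpper

set_option autoImplicit false

open MeasureTheory
open scoped BigOperators ComplexConjugate

namespace Pool.Agent.Helper20.PF

variable {L Λ : ℝ} [Fintype (Momentum L Λ)]

/-- Norm of the velocity applied to a product: the cross term vanishes. -/
theorem norm_vel_sq (pol : Mode L Λ → E3) (i : Fin 3) (y : E3) (η : Fock (Mode L Λ)) (a b : ℝ) :
    ‖(-Complex.I) • ((a : ℂ) • η) + (b : ℂ) • vp pol i y η‖ ^ 2 =
      a ^ 2 * ‖η‖ ^ 2 + b ^ 2 * ‖vp pol i y η‖ ^ 2 := by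
  have h1 := @norm_add_sq ℂ _ _ _ _ ((-Complex.I) • ((a : ℂ) • η)) ((b : ℂ) • vp pol i y η)
  have h2 : (inner ℂ η (vp pol i y η) : ℂ).im = 0 := by
    have h3 : conj (inner ℂ η (vp pol i y η)) = inner ℂ η (vp pol i y η) := by
      rw [inner_conj_symm, inner_vp]
    exact Complex.conj_eq_iff_im.mp h3
  have h4 : RCLike.re (inner ℂ ((-Complex.I) • ((a : ℂ) • η)) ((b : ℂ) • vp pol i y η) : ℂ) = 0 := by
    rw [inner_smul_left, inner_smul_left, inner_smul_right (_ : Fock (Mode L Λ))]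
    simp only [map_neg, Complex.conj_I, Complex.conj_ofReal, neg_neg, RCLike.re_to_complex]
    simp [Complex.mul_re, Complex.mul_im, h2]
  rw [h1, h4]
  rw [norm_smul, norm_smul, norm_smul, norm_neg, Complex.norm_I, Complex.norm_real,
    Complex.norm_real, Real.norm_eq_abs, Real.norm_eq_abs, mul_pow, mul_pow, mul_pow, sq_abs, sq_abs]
  ring

theorem numE_smul (w : Mode L Λ → ℝ) (c : ℝ) (v : Fock (Mode L Λ)) :
    numE w ((c : ℂ) • v) = c ^ 2 * numE w v := by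
  unfold numE
  rw [Finset.mul_sum]
  apply Finset.sum_congr rfl
  intro m _
  rw [map_smul, norm_smul, Complex.norm_real, Real.norm_eq_abs, mul_pow, sq_abs]
  ring

variable {φ : E3 → ℝ}

/-- The energy density of the trial function. -/
theorem trial_density (hφ : ContDiff ℝ ((⊤ : ℕ∞) : WithTop ℕ∞) φ) (α : ℝ) (hα : 0 ≤ α)
    (pol : Mode L Λ → E3) (η : Fock (Mode L Λ)) (hη : ‖η‖ = 1) (x : Fin 2 → E3) :
    ∑ s, (numE (fun m => ‖m.k‖) (trialWF φ η x s) +
        (1 / 2) * ∑ j : Fin 2, ∑ i : Fin 3, ‖velocity α L Λ pol j i (trialWF φ η) x s‖ ^ 2) =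
      2 * (φ (x 0) ^ 2 * φ (x 1) ^ 2 * numE (fun m => ‖m.k‖) η +
        (1 / 2) * ((∑ i : Fin 3, dphi φ i (x 0) ^ 2) * φ (x 1) ^ 2 +
          φ (x 0) ^ 2 * (∑ i : Fin 3, dphi φ i (x 1) ^ 2)) +
        (1 / 2) * α * (φ (x 0) ^ 2 * φ (x 1) ^ 2) * ((∑ i : Fin 3, ‖vp pol i (x 0) η‖ ^ 2) +
          (∑ i : Fin 3, ‖vp pol i (x 1) η‖ ^ 2))) := by
  have h1 : ∀ s, (numE (fun m => ‖m.k‖) (trialWF φ η x s) +
        (1 / 2) * ∑ j : Fin 2, ∑ i : Fin 3, ‖velocity α L Λ pol j i (trialWF φ η) x s‖ ^ 2) =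
      chi s ^ 2 * (φ (x 0) ^ 2 * φ (x 1) ^ 2 * numE (fun m => ‖m.k‖) η +
        (1 / 2) * ((∑ i : Fin 3, dphi φ i (x 0) ^ 2) * φ (x 1) ^ 2 +
          φ (x 0) ^ 2 * (∑ i : Fin 3, dphi φ i (x 1) ^ 2)) +
        (1 / 2) * α * (φ (x 0) ^ 2 * φ (x 1) ^ 2) * ((∑ i : Fin 3, ‖vp pol i (x 0) η‖ ^ 2) +
          (∑ i : Fin 3, ‖vp pol i (x 1) η‖ ^ 2))) := by
    intro s
    have e0 : ∀ i : Fin 3, ‖velocity α L Λ pol 0 i (trialWF φ η) x s‖ ^ 2 =
        chi s ^ 2 * (dphi φ i (x 0) ^ 2 * φ (x 1) ^ 2 +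
          α * (φ (x 0) ^ 2 * φ (x 1) ^ 2) * ‖vp pol i (x 0) η‖ ^ 2) := by
      intro i
      rw [velocity_eq, (fderiv_trial hφ η x s i).1]
      have h2 : ((Real.sqrt α : ℝ) : ℂ) • (vp pol i (x 0)) (trialWF φ η x s) =
          ((Real.sqrt α * (φ (x 0) * φ (x 1) * chi s) : ℝ) : ℂ) • vp pol i (x 0) η := by
        unfold trialWF
        rw [map_smul, smul_smul, ← Complex.ofReal_mul]
      rw [h2, norm_vel_sq, hη, mul_pow (Real.sqrt α), Real.sq_sqrt hα]
      ring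
    have e1 : ∀ i : Fin 3, ‖velocity α L Λ pol 1 i (trialWF φ η) x s‖ ^ 2 =
        chi s ^ 2 * (φ (x 0) ^ 2 * dphi φ i (x 1) ^ 2 +
          α * (φ (x 0) ^ 2 * φ (x 1) ^ 2) * ‖vp pol i (x 1) η‖ ^ 2) := by
      intro i
      rw [velocity_eq, (fderiv_trial hφ η x s i).2]
      have h2 : ((Real.sqrt α : ℝ) : ℂ) • (vp pol i (x 1)) (trialWF φ η x s) =
          ((Real.sqrt α * (φ (x 0) * φ (x 1) * chi s) : ℝ) : ℂ) • vp pol i (x 1) η := by
        unfold trialWF
        rw [map_smul, smul_smul, ← Complex.ofReal_mul]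
      rw [h2, norm_vel_sq, hη, mul_pow (Real.sqrt α), Real.sq_sqrt hα]
      ring
    have e2 : numE (fun m => ‖m.k‖) (trialWF φ η x s) =
        chi s ^ 2 * (φ (x 0) ^ 2 * φ (x 1) ^ 2 * numE (fun m => ‖m.k‖) η) := by
      unfold trialWF
      rw [numE_smul]
      ring
    rw [Fin.sum_univ_two, Finset.sum_congr rfl (fun i _ => e0 i),
      Finset.sum_congr rfl (fun i _ => e1 i), e2, ← Finset.mul_sum, ← Finset.mul_sum,
      Finset.sum_add_distrib, Finset.sum_add_distrib, ← Finset.mul_sum, ← Finset.mul_sum,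
      ← Finset.mul_sum, ← Finset.sum_mul]
    ring
  rw [Finset.sum_congr rfl (fun s _ => h1 s), ← Finset.sum_mul, sum_chi_sq]

omit [Fintype (Momentum L Λ)] in
theorem trial_norm (η : Fock (Mode L Λ)) (hη : ‖η‖ = 1) (x : Fin 2 → E3) :
    ∑ s, ‖trialWF φ η x s‖ ^ 2 = 2 * (φ (x 0) ^ 2 * φ (x 1) ^ 2) := by
  have h1 : ∀ s, ‖trialWF φ η x s‖ ^ 2 = chi s ^ 2 * (φ (x 0) ^ 2 * φ (x 1) ^ 2) := by
    intro s
    unfold trialWF
    rw [norm_smul, hη, mul_one, Complex.norm_real, Real.norm_eq_abs, sq_abs]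
    ring
  rw [Finset.sum_congr rfl (fun s _ => h1 s), ← Finset.sum_mul, sum_chi_sq]

theorem integral_two (F G : E3 → ℝ) :
    ∫ x : Fin 2 → E3, F (x 0) * G (x 1) = (∫ x, F x) * ∫ x, G x := by
  have h := integral_fin_nat_prod_volume_eq_prod (𝕜 := ℝ) (n := 2) (E := fun _ => E3) ![F, G]
  simp only [Fin.prod_univ_two, Matrix.cons_val_zero, Matrix.cons_val_one] at h
  exact h

theorem integrable_two {F G : E3 → ℝ} (hF : Continuous F) (hG : Continuous G)
    (hFc : HasCompactSupport F) (hGc : HasCompactSupport G) :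
    Integrable (fun x : Fin 2 → E3 => F (x 0) * G (x 1)) := by
  apply Continuous.integrable_of_hasCompactSupport
  · exact (hF.comp (continuous_apply 0)).mul (hG.comp (continuous_apply 1))
  · have hK : IsCompact (Set.pi Set.univ (fun j : Fin 2 => if j = 0 then tsupport F else tsupport G)) := by
      apply isCompact_univ_pi
      intro j
      fin_cases j
      · exact hFc
      · exact hGc
    apply HasCompactSupport.intro hK
    intro x hx
    rw [Set.mem_univ_pi] at hx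
    push Not at hx
    obtain ⟨i, hi⟩ := hx
    fin_cases i
    · have h0 : F (x 0) = 0 := image_eq_zero_of_notMem_tsupport hi
      rw [h0]; ring
    · have h0 : G (x 1) = 0 := image_eq_zero_of_notMem_tsupport hi
      rw [h0]; ring

/-- Upper bound for the ground state energy of two electrons. -/
theorem groundEnergy_two_le (hφ : ContDiff ℝ ((⊤ : ℕ∞) : WithTop ℕ∞) φ)
    (hφc : HasCompactSupport φ) (hφ0 : 0 < ∫ x, φ x ^ 2) (R : ℝ) (hR : ∀ x, φ x ≠ 0 → ‖x‖ ≤ R)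
    (α : ℝ) (hα : 0 ≤ α) (pol : Mode L Λ → E3) (η : Fock (Mode L Λ)) (hη : ‖η‖ = 1) (W : ℝ)
    (hW : ∀ x : E3, ‖x‖ ≤ R → ∑ i : Fin 3, ‖vp pol i x η‖ ^ 2 ≤ W) :
    groundEnergy 2 α L Λ pol ≤ numE (fun m => ‖m.k‖) η + α * W +
      (∫ x, ∑ i : Fin 3, dphi φ i x ^ 2) / ∫ x, φ x ^ 2 := by
  set Ψ : WaveFunction 2 (Mode L Λ) := trialWF φ η with hΨ
  have hst : IsFermionState Ψ := trialWF_isState hφ hφc η
  set A := ∫ x, φ x ^ 2 with hA
  set G := ∫ x, ∑ i : Fin 3, dphi φ i x ^ 2 with hG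
  set E := numE (fun m => ‖m.k‖) η with hE
  have cφ2 : Continuous (fun x => φ x ^ 2) := hφ.continuous.pow 2
  have sφ2 : HasCompactSupport (fun x => φ x ^ 2) := by
    have := hφc.comp_left (g := fun r : ℝ => r ^ 2) (by simp)
    exact this
  have cdi : ∀ i, Continuous (dphi φ i) := by
    intro i
    unfold dphi
    exact (hφ.continuous_fderiv (by simp)).clm_apply continuous_const
  have sdi : ∀ i, HasCompactSupport (fun x => dphi φ i x ^ 2) := by
    intro i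
    have h1 : HasCompactSupport (dphi φ i) := by
      unfold dphi
      exact hφc.fderiv_apply (𝕜 := ℝ) _
    exact h1.comp_left (g := fun r : ℝ => r ^ 2) (by simp)
  have cG : Continuous (fun x => ∑ i : Fin 3, dphi φ i x ^ 2) :=
    continuous_finsetSum _ (fun i _ => (cdi i).pow 2)
  have sG : HasCompactSupport (fun x => ∑ i : Fin 3, dphi φ i x ^ 2) := by
    simp only [Fin.sum_univ_three]
    exact ((sdi 0).add (sdi 1)).add (sdi 2)
  -- norm
  have hnorm : (braket Ψ Ψ).re = 2 * (A * A) := by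
    have h1 : braket Ψ Ψ = ((∫ x, ∑ s, ‖Ψ x s‖ ^ 2 : ℝ) : ℂ) := by
      unfold braket
      rw [← integral_complex_ofReal]
      congr 1
      funext x
      push_cast
      apply Finset.sum_congr rfl
      intro s _
      rw [inner_self_real]; push_cast; rfl
    rw [h1, Complex.ofReal_re]
    simp only [hΨ, trial_norm (φ := φ) η hη]
    rw [integral_const_mul, integral_two (fun x => φ x ^ 2) (fun x => φ x ^ 2)]
  -- energy
  have hen : (braket Ψ (hamiltonian α L Λ pol Ψ)).re ≤ 2 * (A * A * (E + α * W) + A * G) := by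
    rw [braket_hamiltonian α pol hst.ws, Complex.ofReal_re]
    simp only [hΨ, trial_density hφ α hα pol η hη]
    have hb : ∀ x : Fin 2 → E3, 2 * (φ (x 0) ^ 2 * φ (x 1) ^ 2 * E +
        (1 / 2) * ((∑ i : Fin 3, dphi φ i (x 0) ^ 2) * φ (x 1) ^ 2 +
          φ (x 0) ^ 2 * (∑ i : Fin 3, dphi φ i (x 1) ^ 2)) +
        (1 / 2) * α * (φ (x 0) ^ 2 * φ (x 1) ^ 2) * ((∑ i : Fin 3, ‖vp pol i (x 0) η‖ ^ 2) +
          (∑ i : Fin 3, ‖vp pol i (x 1) η‖ ^ 2))) ≤
        2 * (E + α * W) * (φ (x 0) ^ 2 * φ (x 1) ^ 2) +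
          ((∑ i : Fin 3, dphi φ i (x 0) ^ 2) * φ (x 1) ^ 2 +
          φ (x 0) ^ 2 * (∑ i : Fin 3, dphi φ i (x 1) ^ 2)) := by
      intro x
      have h2 : (φ (x 0) ^ 2 * φ (x 1) ^ 2) * ((∑ i : Fin 3, ‖vp pol i (x 0) η‖ ^ 2) +
          (∑ i : Fin 3, ‖vp pol i (x 1) η‖ ^ 2)) ≤ (φ (x 0) ^ 2 * φ (x 1) ^ 2) * (2 * W) := by
        by_cases h0 : φ (x 0) = 0
        · simp [h0]
        · by_cases h1 : φ (x 1) = 0
          · simp [h1]
          · apply mul_le_mul_of_nonneg_left _ (by positivity)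
            have := hW (x 0) (hR _ h0)
            have := hW (x 1) (hR _ h1)
            linarith
      have h3 : α * ((φ (x 0) ^ 2 * φ (x 1) ^ 2) * ((∑ i : Fin 3, ‖vp pol i (x 0) η‖ ^ 2) +
          (∑ i : Fin 3, ‖vp pol i (x 1) η‖ ^ 2))) ≤ α * ((φ (x 0) ^ 2 * φ (x 1) ^ 2) * (2 * W)) :=
        mul_le_mul_of_nonneg_left h2 hα
      linarith
    have i1 : Integrable (fun x : Fin 2 → E3 => φ (x 0) ^ 2 * φ (x 1) ^ 2) :=
      integrable_two cφ2 cφ2 sφ2 sφ2
    have i2 : Integrable (fun x : Fin 2 → E3 => (∑ i : Fin 3, dphi φ i (x 0) ^ 2) * φ (x 1) ^ 2) :=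
      integrable_two cG cφ2 sG sφ2
    have i3 : Integrable (fun x : Fin 2 → E3 => φ (x 0) ^ 2 * (∑ i : Fin 3, dphi φ i (x 1) ^ 2)) :=
      integrable_two cφ2 cG sφ2 sG
    have hIl : Integrable (fun x : Fin 2 → E3 => 2 * (φ (x 0) ^ 2 * φ (x 1) ^ 2 * E +
        (1 / 2) * ((∑ i : Fin 3, dphi φ i (x 0) ^ 2) * φ (x 1) ^ 2 +
          φ (x 0) ^ 2 * (∑ i : Fin 3, dphi φ i (x 1) ^ 2)) +
        (1 / 2) * α * (φ (x 0) ^ 2 * φ (x 1) ^ 2) * ((∑ i : Fin 3, ‖vp pol i (x 0) η‖ ^ 2) +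
          (∑ i : Fin 3, ‖vp pol i (x 1) η‖ ^ 2)))) := by
      have hd : ∀ x : Fin 2 → E3, 2 * (φ (x 0) ^ 2 * φ (x 1) ^ 2 * E +
        (1 / 2) * ((∑ i : Fin 3, dphi φ i (x 0) ^ 2) * φ (x 1) ^ 2 +
          φ (x 0) ^ 2 * (∑ i : Fin 3, dphi φ i (x 1) ^ 2)) +
        (1 / 2) * α * (φ (x 0) ^ 2 * φ (x 1) ^ 2) * ((∑ i : Fin 3, ‖vp pol i (x 0) η‖ ^ 2) +
          (∑ i : Fin 3, ‖vp pol i (x 1) η‖ ^ 2))) = _ :=
          fun x => (trial_density hφ α hα pol η hη x).symm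
      rw [funext hd]
      apply integrable_finsetSum
      intro s _
      apply Integrable.add
      · unfold numE
        apply integrable_finsetSum
        intro m _
        exact (FS.integrable_norm_sq volume ((hst.ws s).map (an m))).const_mul _
      · apply Integrable.const_mul
        apply integrable_finsetSum
        intro j _
        apply integrable_finsetSum
        intro i _
        exact FS.integrable_norm_sq volume ((hst.ws.velocity α pol j i) s)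
    have i23 : Integrable (fun x : Fin 2 → E3 => (∑ i : Fin 3, dphi φ i (x 0) ^ 2) * φ (x 1) ^ 2 +
          φ (x 0) ^ 2 * (∑ i : Fin 3, dphi φ i (x 1) ^ 2)) := i2.add i3
    have i11 : Integrable (fun x : Fin 2 → E3 =>
        2 * (E + α * W) * (φ (x 0) ^ 2 * φ (x 1) ^ 2)) := i1.const_mul _
    have i123 : Integrable (fun x : Fin 2 → E3 => 2 * (E + α * W) * (φ (x 0) ^ 2 * φ (x 1) ^ 2) +
          ((∑ i : Fin 3, dphi φ i (x 0) ^ 2) * φ (x 1) ^ 2 +
          φ (x 0) ^ 2 * (∑ i : Fin 3, dphi φ i (x 1) ^ 2))) := i11.add i23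
    refine (integral_mono hIl i123 hb).trans (le_of_eq ?_)
    rw [integral_add i11 i23, integral_const_mul, integral_add i2 i3,
        integral_two (fun x => φ x ^ 2) (fun x => φ x ^ 2),
        integral_two (fun x => ∑ i : Fin 3, dphi φ i x ^ 2) (fun x => φ x ^ 2),
        integral_two (fun x => φ x ^ 2) (fun x => ∑ i : Fin 3, dphi φ i x ^ 2)]
    ring
  have hne : Ψ ≠ 0 := by
    intro h0
    rw [h0] at hnorm
    have : (braket (0 : WaveFunction 2 (Mode L Λ)) 0).re = 0 := by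
      unfold braket
      simp
    rw [this] at hnorm
    have : 0 < A * A := by positivity
    linarith
  have hbdd : BddBelow {e : ℝ | ∃ Ψ : WaveFunction 2 (Mode L Λ), IsFermionState Ψ ∧ Ψ ≠ 0 ∧
      e = (braket Ψ (hamiltonian α L Λ pol Ψ)).re / (braket Ψ Ψ).re} := by
    refine ⟨0, ?_⟩
    rintro e ⟨Φ, hΦ, _, rfl⟩
    apply div_nonneg
    · rw [braket_hamiltonian α pol hΦ.ws, Complex.ofReal_re]
      apply integral_nonneg
      intro x
      apply Finset.sum_nonneg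
      intro s _
      have h1 : 0 ≤ numE (fun m : Mode L Λ => ‖m.k‖) (Φ x s) :=
        numE_nonneg _ (fun m => norm_nonneg _) _
      have h2 : 0 ≤ ∑ j : Fin 2, ∑ i : Fin 3, ‖velocity α L Λ pol j i Φ x s‖ ^ 2 :=
        Finset.sum_nonneg (fun j _ => Finset.sum_nonneg (fun i _ => by positivity))
      linarith
    · have h1 : braket Φ Φ = ((∫ x, ∑ s, ‖Φ x s‖ ^ 2 : ℝ) : ℂ) := by
        unfold braket
        rw [← integral_complex_ofReal]
        congr 1
        funext x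
        push_cast
        apply Finset.sum_congr rfl
        intro s _
        rw [inner_self_real]; push_cast; rfl
      rw [h1, Complex.ofReal_re]
      apply integral_nonneg
      intro x
      exact Finset.sum_nonneg (fun s _ => by positivity)
  refine (csInf_le hbdd ⟨Ψ, hst, hne, rfl⟩).trans ?_
  rw [hnorm, div_le_iff₀ (by positivity)]
  refine hen.trans (le_of_eq ?_)
  field_simp

end Pool.Agent.Helper20.PF
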