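import Pool.Agent.Helper20.PFField

set_option autoImplicit false

open MeasureTheory
open scoped BigOperators ComplexConjugate

namespace Pool.Agent.Helper20.PF

variable {L Λ : ℝ} {N : ℕ}

/-- The direction of the `i`-th coordinate of particle `j`. -/
noncomputable def dir (j : Fin N) (i : Fin 3) : Fin N → E3 :=
  Pi.single j (EuclideanSpace.single i (1 : ℝ))

theorem contDiff_ph (m : Mode L Λ) (j : Fin N) :
    ContDiff ℝ ((⊤ : ℕ∞) : WithTop ℕ∞) (fun x : Fin N → E3 => ph m (x j)) := by
  unfold ph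
  apply ContDiff.cexp
  apply contDiff_const.mul
  apply Complex.ofRealCLM.contDiff.comp
  exact contDiff_const.inner ℝ (contDiff_apply ℝ E3 j)

theorem contDiff_conj_ph (m : Mode L Λ) (j : Fin N) :
    ContDiff ℝ ((⊤ : ℕ∞) : WithTop ℕ∞) (fun x : Fin N → E3 => conj (ph m (x j))) :=
  Complex.conjCLE.contDiff.comp (contDiff_ph m j)

theorem hasFDerivAt_ph (m : Mode L Λ) (j : Fin N) (i : Fin 3) (x : Fin N → E3) :
    fderiv ℝ (fun x : Fin N → E3 => ph m (x j)) x (dir j i) =
      Complex.I * ((m.k i : ℝ) : ℂ) * ph m (x j) := by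
  unfold ph
  have h1 : HasFDerivAt (fun x : Fin N → E3 => (inner ℝ m.k (x j) : ℝ))
      ((innerSL ℝ m.k).comp (ContinuousLinearMap.proj (R := ℝ) (φ := fun _ : Fin N => E3) j)) x :=
    ((innerSL ℝ m.k).comp (ContinuousLinearMap.proj (R := ℝ) (φ := fun _ : Fin N => E3) j)).hasFDerivAt
  have h2 := (Complex.ofRealCLM.hasFDerivAt.comp x h1).const_mul Complex.I
  have h3 := h2.cexp
  have h4 : fderiv ℝ (fun x : Fin N → E3 => Complex.exp (Complex.I * ((inner ℝ m.k (x j) : ℝ) : ℂ))) x
      = _ := h3.fderiv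
  rw [h4]
  simp [dir, EuclideanSpace.inner_single_right]
  ring

variable [Fintype (Momentum L Λ)]

theorem FS.anC {f : (Fin N → E3) → Fock (Mode L Λ)} (hf : FS f) {c : Mode L Λ → (Fin N → E3) → ℂ}
    (hc : ∀ m, ContDiff ℝ ((⊤ : ℕ∞) : WithTop ℕ∞) (c m)) :
    FS (fun x => PF.anC (fun m => c m x) (f x)) := by
  simp only [anC_apply]
  exact FS.sum Finset.univ (fun m _ => (hf.map (an m)).smul (hc m))

theorem FS.crC {f : (Fin N → E3) → Fock (Mode L Λ)} (hf : FS f) {c : Mode L Λ → (Fin N → E3) → ℂ}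
    (hc : ∀ m, ContDiff ℝ ((⊤ : ℕ∞) : WithTop ℕ∞) (c m)) :
    FS (fun x => PF.crC (fun m => c m x) (f x)) := by
  simp only [crC_apply]
  exact FS.sum Finset.univ (fun m _ => (hf.map (cr m)).smul (hc m))

theorem FS.vp {f : (Fin N → E3) → Fock (Mode L Λ)} (hf : FS f) (pol : Mode L Λ → E3) (j : Fin N)
    (i : Fin 3) : FS (fun x => PF.vp pol i (x j) (f x)) := by
  unfold PF.vp
  simp only [LinearMap.add_apply]
  exact (hf.anC (fun m => contDiff_const.mul (contDiff_ph m j))).add
    (hf.crC (fun m => contDiff_const.mul (contDiff_conj_ph m j)))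

theorem FS.ef {f : (Fin N → E3) → Fock (Mode L Λ)} (hf : FS f) (pol : Mode L Λ → E3) (j : Fin N)
    (i : Fin 3) : FS (fun x => PF.ef pol i (x j) (f x)) := by
  unfold PF.ef
  simp only [LinearMap.smul_apply, sub_eq_add_neg]
  apply FS.const_smul
  apply (hf.anC (fun m => contDiff_const.mul (contDiff_ph m j))).add
  have h := (hf.crC (fun m => contDiff_const.mul (contDiff_conj_ph m j))
    (c := fun m x => (be pol i m : ℂ) * conj (ph m (x j)))).const_smul (-1)
  simpa using h

/-- All spin components are smooth, compactly supported and finite. -/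
def WS {M : Type} (Ψ : WaveFunction N M) : Prop := ∀ s, FS (fun x => Ψ x s)

theorem velocity_eq (α : ℝ) (pol : Mode L Λ → E3) (j : Fin N) (i : Fin 3)
    (Ψ : WaveFunction N (Mode L Λ)) (x : Fin N → E3) (s : Fin N → Fin 2) :
    velocity α L Λ pol j i Ψ x s = (-Complex.I) • fderiv ℝ (fun y => Ψ y s) x (dir j i) +
      ((Real.sqrt α : ℝ) : ℂ) • vp pol i (x j) (Ψ x s) := by
  unfold velocity dir
  rw [vectorPotential_eq]

theorem WS.velocity {Ψ : WaveFunction N (Mode L Λ)} (h : WS Ψ) (α : ℝ) (pol : Mode L Λ → E3)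
    (j : Fin N) (i : Fin 3) : WS (PF.velocity α L Λ pol j i Ψ) := by
  intro s
  simp only [velocity_eq]
  exact (((h s).deriv (dir j i)).const_smul _).add (((h s).vp pol j i).const_smul _)

omit [Fintype (Momentum L Λ)] in
theorem braket_eq_sum {M : Type} {Φ Ψ : WaveFunction N M} (hΦ : WS Φ) (hΨ : WS Ψ) :
    braket Φ Ψ = ∑ s, ∫ x, inner ℂ (Φ x s) (Ψ x s) := by
  unfold braket
  rw [integral_finsetSum]
  intro s _
  exact FS.integrable_inner volume (hΦ s) (hΨ s)

theorem braket_velocity (α : ℝ) (pol : Mode L Λ → E3) (j : Fin N) (i : Fin 3)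
    {Φ Ψ : WaveFunction N (Mode L Λ)} (hΦ : WS Φ) (hΨ : WS Ψ) :
    braket Φ (velocity α L Λ pol j i Ψ) = braket (velocity α L Λ pol j i Φ) Ψ := by
  rw [braket_eq_sum hΦ (hΨ.velocity α pol j i), braket_eq_sum (hΦ.velocity α pol j i) hΨ]
  apply Finset.sum_congr rfl
  intro s _
  simp only [velocity_eq, inner_add_left, inner_add_right, inner_smul_left, inner_smul_right]
  have i1 := (FS.integrable_inner volume (hΦ s) ((hΨ s).deriv (dir j i))).const_mul (-Complex.I)
  have i2 := (FS.integrable_inner volume (hΦ s) ((hΨ s).vp pol j i)).const_mul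
    ((Real.sqrt α : ℝ) : ℂ)
  have i3 := (FS.integrable_inner volume ((hΦ s).deriv (dir j i)) (hΨ s)).const_mul
    (conj (-Complex.I))
  have i4 := (FS.integrable_inner volume ((hΦ s).vp pol j i) (hΨ s)).const_mul
    (conj ((Real.sqrt α : ℝ) : ℂ))
  rw [integral_add i1 i2, integral_add i3 i4, integral_const_mul, integral_const_mul,
    integral_const_mul, integral_const_mul, FS.integral_by_parts volume (hΦ s) (hΨ s)]
  simp only [inner_vp, map_neg, Complex.conj_I, Complex.conj_ofReal]
  ring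

theorem fieldEnergy_eq (v : Fock (Mode L Λ)) :
    fieldEnergy L Λ v = (∑ m : Mode L Λ, ((‖m.k‖ : ℝ) : ℂ) • (cr m ∘ₗ an m)) v := by
  unfold fieldEnergy
  rw [finsum_eq_sum_of_fintype, LinearMap.sum_apply]
  rfl

theorem WS.fieldEnergy {Ψ : WaveFunction N (Mode L Λ)} (h : WS Ψ) :
    WS (fun x s => PF.fieldEnergy L Λ (Ψ x s)) := by
  intro s
  simp only [fieldEnergy_eq]
  exact (h s).map _

theorem WS.hamiltonian_parts {Ψ : WaveFunction N (Mode L Λ)} (h : WS Ψ) (α : ℝ)
    (pol : Mode L Λ → E3) :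
    WS (fun x s => (1 / 2 : ℂ) • ∑ j : Fin N, ∑ i : Fin 3,
      PF.velocity α L Λ pol j i (PF.velocity α L Λ pol j i Ψ) x s) := by
  intro s
  apply FS.const_smul
  apply FS.sum
  intro j _
  apply FS.sum
  intro i _
  exact ((h.velocity α pol j i).velocity α pol j i) s

/-- The quadratic form of the Hamiltonian. -/
theorem braket_hamiltonian (α : ℝ) (pol : Mode L Λ → E3) {Ψ : WaveFunction N (Mode L Λ)}
    (h : WS Ψ) :
    braket Ψ (hamiltonian α L Λ pol Ψ) =
      ((∫ x, ∑ s, (numE (fun m => ‖m.k‖) (Ψ x s) +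
        (1 / 2) * ∑ j : Fin N, ∑ i : Fin 3, ‖velocity α L Λ pol j i Ψ x s‖ ^ 2) : ℝ) : ℂ) := by
  have h0 : WS (hamiltonian α L Λ pol Ψ) := by
    intro s
    exact (h.fieldEnergy s).add (h.hamiltonian_parts α pol s)
  have hvel : ∀ j i, WS (velocity α L Λ pol j i Ψ) := fun j i => h.velocity α pol j i
  have hvv : ∀ j i, WS (velocity α L Λ pol j i (velocity α L Λ pol j i Ψ)) :=
    fun j i => (hvel j i).velocity α pol j i
  -- left side
  have e1 : braket Ψ (hamiltonian α L Λ pol Ψ) =
      (∑ s, ∫ x, inner ℂ (Ψ x s) (fieldEnergy L Λ (Ψ x s))) +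
      (1 / 2 : ℂ) * ∑ j : Fin N, ∑ i : Fin 3,
        braket Ψ (velocity α L Λ pol j i (velocity α L Λ pol j i Ψ)) := by
    rw [braket_eq_sum h h0]
    have : ∀ s, ∫ x, inner ℂ (Ψ x s) (hamiltonian α L Λ pol Ψ x s) =
        (∫ x, inner ℂ (Ψ x s) (fieldEnergy L Λ (Ψ x s))) +
        (1 / 2 : ℂ) * ∑ j : Fin N, ∑ i : Fin 3,
          ∫ x, inner ℂ (Ψ x s) (velocity α L Λ pol j i (velocity α L Λ pol j i Ψ) x s) := by
      intro s
      unfold hamiltonian
      simp only [inner_add_right, inner_smul_right, inner_sum]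
      rw [integral_add (FS.integrable_inner volume (h s) (h.fieldEnergy s)), integral_const_mul,
        integral_finsetSum]
      · congr 2
        apply Finset.sum_congr rfl
        intro j _
        rw [integral_finsetSum]
        intro i _
        exact FS.integrable_inner volume (h s) (hvv j i s)
      · intro j _
        apply integrable_finsetSum
        intro i _
        exact FS.integrable_inner volume (h s) (hvv j i s)
      · have := FS.integrable_inner volume (h s) (h.hamiltonian_parts α pol s)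
        simp only [inner_smul_right, inner_sum] at this
        exact this
    rw [Finset.sum_congr rfl (fun s _ => this s), Finset.sum_add_distrib, ← Finset.mul_sum]
    congr 2
    rw [Finset.sum_comm]
    apply Finset.sum_congr rfl
    intro j _
    rw [Finset.sum_comm]
    apply Finset.sum_congr rfl
    intro i _
    rw [braket_eq_sum h (hvv j i)]
  rw [e1]
  have e2 : ∀ j i, braket Ψ (velocity α L Λ pol j i (velocity α L Λ pol j i Ψ)) =
      ∑ s, ∫ x, inner ℂ (velocity α L Λ pol j i Ψ x s) (velocity α L Λ pol j i Ψ x s) := by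
    intro j i
    rw [braket_velocity α pol j i h (hvel j i), braket_eq_sum (hvel j i) (hvel j i)]
  simp only [e2]
  have e3 : (((∫ x, ∑ s, (numE (fun m => ‖m.k‖) (Ψ x s) +
        (1 / 2) * ∑ j : Fin N, ∑ i : Fin 3, ‖velocity α L Λ pol j i Ψ x s‖ ^ 2) : ℝ)) : ℂ) =
      ∫ x, ∑ s, (inner ℂ (Ψ x s) (fieldEnergy L Λ (Ψ x s)) + (1 / 2 : ℂ) *
        ∑ j : Fin N, ∑ i : Fin 3,
          inner ℂ (velocity α L Λ pol j i Ψ x s) (velocity α L Λ pol j i Ψ x s)) := by
    rw [← integral_complex_ofReal]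
    congr 1
    funext x
    push_cast
    apply Finset.sum_congr rfl
    intro s _
    rw [inner_fieldEnergy]
    congr 2
    apply Finset.sum_congr rfl
    intro j _
    apply Finset.sum_congr rfl
    intro i _
    rw [inner_self_real]
    push_cast
    rfl
  have hint : ∀ s j i, Integrable (fun x => (inner ℂ (velocity α L Λ pol j i Ψ x s)
      (velocity α L Λ pol j i Ψ x s) : ℂ)) := fun s j i =>
    FS.integrable_inner volume (hvel j i s) (hvel j i s)
  have hint2 : ∀ s, Integrable (fun x => (1 / 2 : ℂ) * ∑ j : Fin N, ∑ i : Fin 3,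
      (inner ℂ (velocity α L Λ pol j i Ψ x s) (velocity α L Λ pol j i Ψ x s) : ℂ)) := by
    intro s
    apply Integrable.const_mul
    apply integrable_finsetSum
    intro j _
    apply integrable_finsetSum
    intro i _
    exact hint s j i
  have hint1 : ∀ s, Integrable (fun x => (inner ℂ (Ψ x s) (fieldEnergy L Λ (Ψ x s)) : ℂ)) :=
    fun s => FS.integrable_inner volume (h s) (h.fieldEnergy s)
  have e4 : ∀ s, ∫ x, (inner ℂ (Ψ x s) (fieldEnergy L Λ (Ψ x s)) + (1 / 2 : ℂ) *
        ∑ j : Fin N, ∑ i : Fin 3,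
          inner ℂ (velocity α L Λ pol j i Ψ x s) (velocity α L Λ pol j i Ψ x s)) =
      (∫ x, inner ℂ (Ψ x s) (fieldEnergy L Λ (Ψ x s))) + (1 / 2 : ℂ) *
        ∑ j : Fin N, ∑ i : Fin 3,
          ∫ x, inner ℂ (velocity α L Λ pol j i Ψ x s) (velocity α L Λ pol j i Ψ x s) := by
    intro s
    rw [integral_add (hint1 s) (hint2 s), integral_const_mul, integral_finsetSum]
    · congr 2
      apply Finset.sum_congr rfl
      intro j _
      rw [integral_finsetSum]
      intro i _
      exact hint s j i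
    · intro j _
      apply integrable_finsetSum
      intro i _
      exact hint s j i
  rw [e3, integral_finsetSum, Finset.sum_congr rfl (fun s _ => e4 s), Finset.sum_add_distrib,
    ← Finset.mul_sum]
  · congr 2
    symm
    rw [Finset.sum_comm]
    apply Finset.sum_congr rfl
    intro j _
    rw [Finset.sum_comm]
  · intro s _
    exact (hint1 s).add (hint2 s)

end Pool.Agent.Helper20.PF
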