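import Mathlib

set_option autoImplicit false

open Set Function Filter
open scoped BigOperators ENNReal Topology ComplexConjugate

namespace Pool.Agent.Helper20.SM

variable {E : Type} [NormedAddCommGroup E] [InnerProductSpace ℂ E]

/-- Trace inequality for a Hermitian form from bounds on orthonormal diagonal families. -/
theorem lemA (H : E →ₗ⋆[ℂ] E →ₗ[ℂ] ℂ) (hH : ∀ u v, conj (H u v) = H v u) (R : ℝ)
    (hR : ∀ (n : ℕ) (e : Fin n → E) (lam : Fin n → ℝ), Orthonormal ℂ e →
      (∀ i j, H (e i) (e j) = if i = j then ((lam i : ℝ) : ℂ) else 0) → ∑ i, max (-lam i) 0 ≤ R)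
    {ι : Type} [Fintype ι] (Φ : ι → E) (w : ι → ℝ) (hw : ∀ i, 0 ≤ w i) (κ : ℝ)
    (hκ : ∀ f : E, ∑ j, w j * ‖(inner ℂ f (Φ j) : ℂ)‖ ^ 2 ≤ κ * ‖f‖ ^ 2) (hκ0 : 0 ≤ κ) :
    -(κ * R) ≤ ∑ j, w j * (H (Φ j) (Φ j)).re := by
  classical
  set W : Submodule ℂ E := Submodule.span ℂ (Set.range Φ) with hW
  have : FiniteDimensional ℂ W := FiniteDimensional.span_of_finite ℂ (Set.finite_range Φ)
  set n := Module.finrank ℂ W with hn
  let b : OrthonormalBasis (Fin n) ℂ W := stdOrthonormalBasis ℂ W
  -- the operator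
  let T : W →ₗ[ℂ] W := ∑ i, ((H (b i : E)).comp W.subtype).smulRight (b i)
  have hT : ∀ u v : W, (inner ℂ v (T u) : ℂ) = H (v : E) (u : E) := by
    intro u v
    have h1 : T u = ∑ i, (H (b i : E) (u : E)) • b i := by
      simp [T, LinearMap.sum_apply]
    rw [h1, inner_sum]
    simp only [inner_smul_right]
    have h2 : (v : E) = ∑ i, (inner ℂ (b i) v : ℂ) • (b i : E) := by
      have h3 := b.sum_repr' v
      calc (v : E) = ((∑ i, (inner ℂ (b i) v : ℂ) • b i : W) : E) := by rw [h3]
        _ = _ := by push_cast; rfl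
    conv_rhs => rw [h2]
    rw [map_sum, LinearMap.sum_apply]
    apply Finset.sum_congr rfl
    intro i _
    rw [LinearMap.map_smulₛₗ, LinearMap.smul_apply, smul_eq_mul, inner_conj_symm, mul_comm]
  have hsym : T.IsSymmetric := by
    intro u v
    rw [hT v u, ← inner_conj_symm, hT u v, hH]
  let f : OrthonormalBasis (Fin n) ℂ W := hsym.eigenvectorBasis hn.symm
  let lam : Fin n → ℝ := hsym.eigenvalues hn.symm
  have hTf : ∀ i, T (f i) = ((lam i : ℝ) : ℂ) • f i := fun i => hsym.apply_eigenvectorBasis hn.symm i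
  have horth : Orthonormal ℂ (fun i => (f i : E)) := by
    have := f.orthonormal
    exact this.comp_linearIsometry W.subtypeₗᵢ
  have hdiag : ∀ i j, H (f i : E) (f j : E) = if i = j then ((lam i : ℝ) : ℂ) else 0 := by
    intro i j
    rw [← hT (f j) (f i), hTf, inner_smul_right, orthonormal_iff_ite.mp f.orthonormal i j]
    by_cases hij : i = j
    · subst hij; simp
    · simp [hij]
  have hsum := hR n (fun i => (f i : E)) lam horth hdiag
  -- expand
  have hmem : ∀ j, Φ j ∈ W := fun j => Submodule.subset_span ⟨j, rfl⟩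
  have hexp : ∀ j, (H (Φ j) (Φ j)).re = ∑ i, lam i * ‖(inner ℂ (f i : E) (Φ j) : ℂ)‖ ^ 2 := by
    intro j
    set u : W := ⟨Φ j, hmem j⟩ with hu
    have h1 : H (Φ j) (Φ j) = (inner ℂ u (T u) : ℂ) := (hT u u).symm
    have h2 : T u = ∑ i, ((inner ℂ (f i) u : ℂ) * ((lam i : ℝ) : ℂ)) • f i := by
      conv_lhs => rw [← f.sum_repr' u]
      rw [map_sum]
      apply Finset.sum_congr rfl
      intro i _
      rw [map_smul, hTf, smul_smul]
    rw [h1, h2, inner_sum, Complex.re_sum]
    apply Finset.sum_congr rfl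
    intro i _
    rw [inner_smul_right]
    have h3 : (inner ℂ u (f i) : ℂ) = conj (inner ℂ (f i) u : ℂ) := by rw [inner_conj_symm]
    have h4 : (inner ℂ (f i : E) (Φ j) : ℂ) = (inner ℂ (f i) u : ℂ) := rfl
    rw [h3, h4, mul_right_comm, Complex.mul_conj, ← Complex.ofReal_mul, Complex.ofReal_re,
      Complex.normSq_eq_norm_sq, mul_comm]
  have hrho : ∀ i, 0 ≤ ∑ j, w j * ‖(inner ℂ (f i : E) (Φ j) : ℂ)‖ ^ 2 := fun i =>
    Finset.sum_nonneg (fun j _ => mul_nonneg (hw j) (sq_nonneg _))
  have hrho2 : ∀ i, ∑ j, w j * ‖(inner ℂ (f i : E) (Φ j) : ℂ)‖ ^ 2 ≤ κ := by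
    intro i
    have h1 := hκ (f i : E)
    have h2 : ‖(f i : E)‖ = 1 := horth.1 i
    rw [h2] at h1
    simpa using h1
  calc -(κ * R) ≤ -(κ * ∑ i, max (-lam i) 0) := by
        have := mul_le_mul_of_nonneg_left hsum hκ0
        linarith
    _ = ∑ i, -(κ * max (-lam i) 0) := by
        rw [Finset.mul_sum, Finset.sum_neg_distrib]
    _ ≤ ∑ i, lam i * ∑ j, w j * ‖(inner ℂ (f i : E) (Φ j) : ℂ)‖ ^ 2 := by
        apply Finset.sum_le_sum
        intro i _
        have h1 := hrho i
        have h2 := hrho2 i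
        rcases le_total 0 (lam i) with h3 | h3
        · have h4 : max (-lam i) 0 = 0 := max_eq_right (by linarith)
          rw [h4]
          have := mul_nonneg h3 h1
          linarith
        · have h4 : max (-lam i) 0 = -lam i := max_eq_left (by linarith)
          rw [h4]
          nlinarith
    _ = _ := by
        simp only [hexp, Finset.mul_sum]
        rw [Finset.sum_comm]
        apply Finset.sum_congr rfl
        intro j _
        apply Finset.sum_congr rfl
        intro i _
        ring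

/-- Counting: an orthonormal family with low diagonal energies is no larger than a family of
functionals on whose common kernel the form is bounded below. -/
theorem count (H : E →ₗ⋆[ℂ] E →ₗ[ℂ] ℂ) (t : ℝ)
    (T : Finset (E →ₗ[ℂ] ℂ)) (hT : ∀ u : E, (∀ L ∈ T, L u = 0) → -(t * ‖u‖ ^ 2) ≤ (H u u).re)
    (n : ℕ) (e : Fin n → E) (lam : Fin n → ℝ) (he : Orthonormal ℂ e)
    (hd : ∀ i j, H (e i) (e j) = if i = j then ((lam i : ℝ) : ℂ) else 0) :
    (Finset.univ.filter (fun i => lam i < -t)).card ≤ T.card := by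
  classical
  by_contra hcon
  push Not at hcon
  set I := Finset.univ.filter (fun i => lam i < -t) with hI
  let M : (I → ℂ) →ₗ[ℂ] (T → ℂ) := LinearMap.pi (fun L =>
    ∑ i : I, ((L : E →ₗ[ℂ] ℂ) (e i)) • (LinearMap.proj i : (I → ℂ) →ₗ[ℂ] ℂ))
  have hk : LinearMap.ker M ≠ ⊥ := by
    apply LinearMap.ker_ne_bot_of_finrank_lt
    simpa using hcon
  obtain ⟨c, hc, hc0⟩ := (Submodule.ne_bot_iff _).mp hk
  set u : E := ∑ i : I, c i • e i with hu
  have hL : ∀ L ∈ T, L u = 0 := by
    intro L hL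
    have h1 := congr_fun (LinearMap.mem_ker.mp hc) ⟨L, hL⟩
    simp only [M, LinearMap.pi_apply, LinearMap.sum_apply, LinearMap.smul_apply,
      LinearMap.proj_apply, smul_eq_mul, Pi.zero_apply] at h1
    rw [hu, map_sum]
    simp only [map_smul, smul_eq_mul]
    rw [← h1]
    apply Finset.sum_congr rfl
    intro i _
    ring
  have h1 := hT u hL
  have he' : Orthonormal ℂ (fun i : I => e i) := he.comp _ Subtype.val_injective
  have h2 : ‖u‖ ^ 2 = ∑ i : I, ‖c i‖ ^ 2 := by
    have h3 : ((‖u‖ ^ 2 : ℝ) : ℂ) = ((∑ i : I, ‖c i‖ ^ 2 : ℝ) : ℂ) := by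
      rw [Complex.ofReal_pow]
      have h4 : (inner ℂ u u : ℂ) = ((‖u‖ : ℝ) : ℂ) ^ 2 := inner_self_eq_norm_sq_to_K (𝕜 := ℂ) u
      rw [← h4]
      rw [hu, he'.inner_sum]
      push_cast
      apply Finset.sum_congr rfl
      intro i _
      rw [mul_comm, Complex.mul_conj, Complex.normSq_eq_norm_sq]
      push_cast
      rfl
    exact_mod_cast h3
  have h5 : (H u u).re = ∑ i : I, lam i * ‖c i‖ ^ 2 := by
    have h10 : H u u = ∑ i : I, conj (c i) * ∑ j : I, c j * H (e i) (e j) := by
      have h11 : H u = ∑ i : I, conj (c i) • H (e i) := by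
        rw [hu, map_sum]
        apply Finset.sum_congr rfl
        intro i _
        rw [LinearMap.map_smulₛₗ]
      rw [h11, LinearMap.sum_apply]
      apply Finset.sum_congr rfl
      intro i _
      rw [LinearMap.smul_apply, smul_eq_mul, hu, map_sum]
      simp only [map_smul, smul_eq_mul]
    rw [h10, Complex.re_sum]
    apply Finset.sum_congr rfl
    intro i _
    simp only [hd]
    have h6 : ∀ j : I, (c j * if (i : Fin n) = (j : Fin n) then ((lam i : ℝ) : ℂ) else 0) =
        if j = i then c i * ((lam i : ℝ) : ℂ) else 0 := by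
      intro j
      by_cases hij : j = i
      · subst hij; simp
      · have : (i : Fin n) ≠ (j : Fin n) := fun h => hij (Subtype.ext h.symm)
        simp [hij, this]
    rw [Finset.sum_congr rfl (fun j _ => h6 j)]
    rw [Finset.sum_ite_eq' Finset.univ i, if_pos (Finset.mem_univ _)]
    rw [← mul_assoc, mul_comm (conj (c i)), Complex.mul_conj, ← Complex.ofReal_mul, Complex.ofReal_re,
      Complex.normSq_eq_norm_sq, mul_comm]
  have h7 : ∑ i : I, lam i * ‖c i‖ ^ 2 < ∑ i : I, -t * ‖c i‖ ^ 2 := by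
    apply Finset.sum_lt_sum
    · intro i _
      have : lam i < -t := (Finset.mem_filter.mp i.2).2
      nlinarith [sq_nonneg ‖c i‖]
    · obtain ⟨i, hi⟩ := Function.ne_iff.mp hc0
      refine ⟨i, Finset.mem_univ _, ?_⟩
      have h8 : lam i < -t := (Finset.mem_filter.mp i.2).2
      have h9 : 0 < ‖c i‖ ^ 2 := by
        have : 0 < ‖c i‖ := norm_pos_iff.mpr hi
        positivity
      nlinarith
  rw [← Finset.mul_sum, ← h2] at h7
  linarith

end Pool.Agent.Helper20.SM
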