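import Pool.Agent.Helper20.SMLoc

set_option autoImplicit false

open MeasureTheory Set Function
open scoped BigOperators ENNReal

namespace Pool.Agent.Helper20.SM

noncomputable def GQ (a : R3) (ℓ : ℝ) (u : TS) : ℝ≥0∞ := ∫⁻ x in qs a ℓ, ‖(u : R3 → S2) x‖ₑ ^ 2

noncomputable def KQ (A : R3 → Fin 3 → ℝ) (a : R3) (ℓ : ℝ) (u : TS) : ℝ≥0∞ :=
  ∫⁻ x in qs a ℓ, ∑ k, ‖Dm A k u x‖ₑ ^ 2

noncomputable def PQ (V : R3 → ℝ≥0∞) (a : R3) (ℓ : ℝ) (u : TS) : ℝ≥0∞ :=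
  ∫⁻ x in qs a ℓ, V x * ‖(u : R3 → S2) x‖ₑ ^ 2

noncomputable def nu (V : R3 → ℝ≥0∞) (a : R3) (ℓ : ℝ) : ℝ≥0∞ :=
  ENNReal.ofReal (ℓ ^ (1 / 2 : ℝ)) * ∫⁻ x in qs a ℓ, V x ^ (7 / 4 : ℝ)

theorem lint_sq (f : R3 → S2) (hf : Continuous f) :
    ∫⁻ x, ‖f x‖ₑ ^ 2 ∂m3 = ENNReal.ofReal (∫ x, ‖f x‖ ^ 2 ∂m3) := by
  have hi : Integrable (fun x => ‖f x‖ ^ 2) m3 := integrable_m3 (hf.norm.pow 2)
  rw [ofReal_integral_eq_lintegral_ofReal hi (Filter.Eventually.of_forall (fun _ => sq_nonneg _))]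
  apply lintegral_congr
  intro x
  rw [ENNReal.ofReal_pow (norm_nonneg _), ofReal_norm]

theorem GQ_eq (a : R3) (ℓ : ℝ) (hℓ : 0 < ℓ) (u : TS) :
    GQ a ℓ u = ENNReal.ofReal (ℓ ^ 3) * ENNReal.ofReal (gloc a ℓ u) := by
  unfold GQ gloc
  rw [scale a ℓ hℓ _ ((ts0 u).enorm.measurable.pow_const 2)]
  congr 1
  exact lint_sq _ ((ts0 u).comp (aff_cont a ℓ))

theorem KQ_eq (A : R3 → Fin 3 → ℝ) (hA : Continuous A) (a : R3) (ℓ : ℝ) (hℓ : 0 < ℓ) (u : TS) :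
    KQ A a ℓ u = ENNReal.ofReal (ℓ ^ 3) * ENNReal.ofReal (kloc A a ℓ u) := by
  unfold KQ kloc
  have hm : ∀ k, Measurable (fun x => ‖Dm A k u x‖ₑ ^ 2) := fun k =>
    (Dm_cont A hA k u).enorm.measurable.pow_const 2
  have hm2 : ∀ k, Measurable (fun x => ‖Dm A k u (a + ℓ • x)‖ₑ ^ 2) := fun k =>
    ((Dm_cont A hA k u).comp (aff_cont a ℓ)).enorm.measurable.pow_const 2
  rw [scale a ℓ hℓ _ (Finset.measurable_sum _ (fun k _ => hm k))]
  congr 1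
  rw [lintegral_finsetSum _ (fun k _ => hm2 k),
    ENNReal.ofReal_sum_of_nonneg (fun k _ => integral_nonneg (fun _ => sq_nonneg _))]
  apply Finset.sum_congr rfl
  intro k _
  exact lint_sq _ ((Dm_cont A hA k u).comp (aff_cont a ℓ))

/-- The Poincare inequality in integral form. -/
theorem exclQ (A : R3 → Fin 3 → ℝ) (hA : Continuous A) (a : R3) (ℓ : ℝ) (hℓ : 0 < ℓ) :
    ∃ T : Finset (TS →ₗ[ℂ] ℂ), T.card ≤ 2 ∧ ∀ u : TS, (∀ L ∈ T, L u = 0) →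
      GQ a ℓ u ≤ ENNReal.ofReal (1000 * ℓ ^ 2) * KQ A a ℓ u := by
  obtain ⟨T, hT, h⟩ := excl A hA a ℓ hℓ
  refine ⟨T, hT, fun u hu => ?_⟩
  have h1 := h u hu
  rw [GQ_eq a ℓ hℓ, KQ_eq A hA a ℓ hℓ, mul_left_comm]
  rw [← ENNReal.ofReal_mul (p := 1000 * ℓ ^ 2) (by positivity)]
  exact mul_le_mul_right (ENNReal.ofReal_le_ofReal h1) _

/-- The potential energy bound on a cube. -/
theorem potQ (A : R3 → Fin 3 → ℝ) (hA : Continuous A) (a : R3) (ℓ : ℝ) (hℓ : 0 < ℓ)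
    (V : R3 → ℝ≥0∞) (hV : Measurable V) (u : TS) :
    PQ V a ℓ u ≤ (nu V a ℓ) ^ (4 / 7 : ℝ) *
      (ENNReal.ofReal (2 * (ℓ ^ 2)⁻¹) * GQ a ℓ u + 96 * KQ A a ℓ u) := by
  have hVT : Measurable (fun x => V (a + ℓ • x)) := hV.comp (aff_cont a ℓ).measurable
  have h1 := cube_pot (fun x => (u : R3 → S2) (a + ℓ • x)) ((ts1 u).comp (aff_c1 a ℓ))
    (fun k x => ℓ * ‖Dm A k u (a + ℓ • x)‖)
    (fun k => continuous_const.mul ((Dm_cont A hA k u).comp (aff_cont a ℓ)).norm)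
    (by
      intro j x
      have hf : ContDiff ℝ 1 (fun y => ‖(u : R3 → S2) y‖ ^ 2) := (ts1 u).norm_sq ℂ
      have e1 := fderiv_aff (fun y => ‖(u : R3 → S2) y‖ ^ 2) hf a ℓ x (Pi.single j 1)
      rw [e1, smul_eq_mul, abs_mul, abs_of_pos hℓ]
      have := fderiv_normsq_le A j u (a + ℓ • x)
      calc ℓ * |fderiv ℝ (fun y => ‖(u : R3 → S2) y‖ ^ 2) (a + ℓ • x) (Pi.single j 1)|
          ≤ ℓ * (2 * ‖(u : R3 → S2) (a + ℓ • x)‖ * ‖Dm A j u (a + ℓ • x)‖) := by gcongr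
        _ = _ := by ring)
    (fun x => V (a + ℓ • x)) hVT
  have hG : ∫⁻ x, ‖(u : R3 → S2) (a + ℓ • x)‖ₑ ^ 2 ∂m3 = ENNReal.ofReal (gloc a ℓ u) := by
    unfold gloc
    exact lint_sq _ ((ts0 u).comp (aff_cont a ℓ))
  have hK : ∑ k, ∫⁻ x, (ENNReal.ofReal (ℓ * ‖Dm A k u (a + ℓ • x)‖)) ^ 2 ∂m3 =
      ENNReal.ofReal (ℓ ^ 2) * ENNReal.ofReal (kloc A a ℓ u) := by
    unfold kloc
    rw [ENNReal.ofReal_sum_of_nonneg (fun k _ => integral_nonneg (fun _ => sq_nonneg _)),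
      Finset.mul_sum]
    apply Finset.sum_congr rfl
    intro k _
    have hc2 : Continuous (fun x => Dm A k u (a + ℓ • x)) := (Dm_cont A hA k u).comp (aff_cont a ℓ)
    have hm2 : Measurable (fun x => ‖Dm A k u (a + ℓ • x)‖ₑ ^ 2) := hc2.enorm.measurable.pow_const 2
    rw [← lint_sq _ hc2, ← lintegral_const_mul _ hm2]
    apply lintegral_congr
    intro x
    rw [ENNReal.ofReal_mul hℓ.le, ofReal_norm, mul_pow, ENNReal.ofReal_pow hℓ.le]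
  have hP : PQ V a ℓ u = ENNReal.ofReal (ℓ ^ 3) *
      ∫⁻ x, V (a + ℓ • x) * ‖(u : R3 → S2) (a + ℓ • x)‖ₑ ^ 2 ∂m3 := by
    unfold PQ
    have hm3 : Measurable (fun x => V x * ‖(u : R3 → S2) x‖ₑ ^ 2) :=
      hV.mul ((ts0 u).enorm.measurable.pow_const 2)
    rw [scale a ℓ hℓ _ hm3]
  have hnu : (nu V a ℓ) ^ (4 / 7 : ℝ) = ENNReal.ofReal (ℓ ^ 2) *
      (∫⁻ x, V (a + ℓ • x) ^ (7 / 4 : ℝ) ∂m3) ^ (4 / 7 : ℝ) := by
    unfold nu
    rw [scale a ℓ hℓ _ (hV.pow_const _), ← mul_assoc, ← ENNReal.ofReal_mul (by positivity),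
      ENNReal.mul_rpow_of_nonneg _ _ (by norm_num : (0 : ℝ) ≤ 4 / 7),
      ENNReal.ofReal_rpow_of_pos (by positivity)]
    congr 2
    rw [← Real.rpow_natCast ℓ 3, ← Real.rpow_add hℓ, ← Real.rpow_mul hℓ.le, ← Real.rpow_natCast ℓ 2]
    norm_num
  rw [hP, hnu, GQ_eq a ℓ hℓ, KQ_eq A hA a ℓ hℓ]
  rw [hG, hK] at h1
  set w := (∫⁻ x, V (a + ℓ • x) ^ (7 / 4 : ℝ) ∂m3) ^ (4 / 7 : ℝ) with hw
  set g := ENNReal.ofReal (gloc a ℓ u) with hg
  set q := ENNReal.ofReal (kloc A a ℓ u) with hq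
  calc ENNReal.ofReal (ℓ ^ 3) * ∫⁻ x, V (a + ℓ • x) * ‖(u : R3 → S2) (a + ℓ • x)‖ₑ ^ 2 ∂m3
      ≤ ENNReal.ofReal (ℓ ^ 3) * (w * (2 * g + 96 * (ENNReal.ofReal (ℓ ^ 2) * q))) := by
        gcongr
    _ = _ := by
        have e1 : ENNReal.ofReal (2 * (ℓ ^ 2)⁻¹) = 2 * ENNReal.ofReal (ℓ ^ 2)⁻¹ := by
          rw [ENNReal.ofReal_mul (by norm_num)]
          norm_num
        have e2 : ENNReal.ofReal (ℓ ^ 2) * ENNReal.ofReal (ℓ ^ 2)⁻¹ = 1 := by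
          rw [← ENNReal.ofReal_mul (by positivity), mul_inv_cancel₀ (by positivity), ENNReal.ofReal_one]
        rw [e1]
        calc ENNReal.ofReal (ℓ ^ 3) * (w * (2 * g + 96 * (ENNReal.ofReal (ℓ ^ 2) * q)))
            = w * (2 * 1 * (ENNReal.ofReal (ℓ ^ 3) * g) +
              96 * (ENNReal.ofReal (ℓ ^ 2) * (ENNReal.ofReal (ℓ ^ 3) * q))) := by ring
          _ = w * (2 * (ENNReal.ofReal (ℓ ^ 2) * ENNReal.ofReal (ℓ ^ 2)⁻¹) * (ENNReal.ofReal (ℓ ^ 3) * g) +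
              96 * (ENNReal.ofReal (ℓ ^ 2) * (ENNReal.ofReal (ℓ ^ 3) * q))) := by rw [e2]
          _ = _ := by ring

/-- Critical mass. -/
noncomputable def c2 : ℝ := (1 / 5000 : ℝ) ^ (7 / 4 : ℝ)

theorem c2_pos : 0 < c2 := by unfold c2; positivity

theorem nu_small {x : ℝ≥0∞} (h : x ≤ ENNReal.ofReal c2) : x ^ (4 / 7 : ℝ) ≤ ENNReal.ofReal (1 / 5000) := by
  calc x ^ (4 / 7 : ℝ) ≤ (ENNReal.ofReal c2) ^ (4 / 7 : ℝ) := ENNReal.rpow_le_rpow h (by norm_num)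
    _ = _ := by
      rw [ENNReal.ofReal_rpow_of_pos c2_pos]
      congr 1
      unfold c2
      rw [← Real.rpow_mul (by norm_num)]
      norm_num

theorem small_cube (A : R3 → Fin 3 → ℝ) (hA : Continuous A) (a : R3) (ℓ : ℝ) (hℓ : 0 < ℓ)
    (V : R3 → ℝ≥0∞) (hV : Measurable V) (h : nu V a ℓ ≤ ENNReal.ofReal c2) :
    ∃ T : Finset (TS →ₗ[ℂ] ℂ), T.card ≤ 2 ∧ ∀ u : TS, (∀ L ∈ T, L u = 0) →
      2 * PQ V a ℓ u ≤ KQ A a ℓ u := by
  obtain ⟨T, hT, hT2⟩ := exclQ A hA a ℓ hℓ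
  refine ⟨T, hT, fun u hu => ?_⟩
  have h1 := hT2 u hu
  have h2 := potQ A hA a ℓ hℓ V hV u
  have h3 := nu_small h
  calc 2 * PQ V a ℓ u ≤ 2 * (ENNReal.ofReal (1 / 5000) *
      (ENNReal.ofReal (2 * (ℓ ^ 2)⁻¹) * (ENNReal.ofReal (1000 * ℓ ^ 2) * KQ A a ℓ u) + 96 * KQ A a ℓ u)) := by
        refine mul_le_mul_right (h2.trans ?_) 2
        gcongr
    _ = (2 * (ENNReal.ofReal (1 / 5000) *
        (ENNReal.ofReal (2 * (ℓ ^ 2)⁻¹) * ENNReal.ofReal (1000 * ℓ ^ 2) + 96))) * KQ A a ℓ u := by ring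
    _ ≤ 1 * KQ A a ℓ u := by
        gcongr
        rw [← ENNReal.ofReal_mul (by positivity)]
        have e1 : 2 * (ℓ ^ 2)⁻¹ * (1000 * ℓ ^ 2) = 2000 := by
          field_simp
          norm_num
        have e2 : (96 : ℝ≥0∞) = ENNReal.ofReal 96 := by norm_num
        have e3 : (2 : ℝ≥0∞) = ENNReal.ofReal 2 := by norm_num
        rw [e1, e2, ← ENNReal.ofReal_add (by norm_num) (by norm_num), ← ENNReal.ofReal_mul (by norm_num),
          e3, ← ENNReal.ofReal_mul (by norm_num)]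
        rw [ENNReal.ofReal_le_one]
        norm_num
    _ = _ := one_mul _

theorem base_cube (A : R3 → Fin 3 → ℝ) (hA : Continuous A) (a : R3) (ℓ : ℝ) (hℓ : 0 < ℓ)
    (V : R3 → ℝ≥0∞) (hV : Measurable V) (h : nu V a ℓ ≤ ENNReal.ofReal c2) (u : TS) :
    2 * PQ V a ℓ u ≤ KQ A a ℓ u + ENNReal.ofReal ((ℓ ^ 2)⁻¹ / 2) * GQ a ℓ u := by
  have h2 := potQ A hA a ℓ hℓ V hV u
  have h3 := nu_small h
  calc 2 * PQ V a ℓ u ≤ 2 * (ENNReal.ofReal (1 / 5000) *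
      (ENNReal.ofReal (2 * (ℓ ^ 2)⁻¹) * GQ a ℓ u + 96 * KQ A a ℓ u)) := by
        refine mul_le_mul_right (h2.trans ?_) 2
        gcongr
    _ = (2 * (ENNReal.ofReal (1 / 5000) * 96)) * KQ A a ℓ u +
        (2 * (ENNReal.ofReal (1 / 5000) * ENNReal.ofReal (2 * (ℓ ^ 2)⁻¹))) * GQ a ℓ u := by ring
    _ ≤ 1 * KQ A a ℓ u + ENNReal.ofReal ((ℓ ^ 2)⁻¹ / 2) * GQ a ℓ u := by
        have e2 : (96 : ℝ≥0∞) = ENNReal.ofReal 96 := by norm_num
        have e3 : (2 : ℝ≥0∞) = ENNReal.ofReal 2 := by norm_num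
        gcongr
        · rw [e2, ← ENNReal.ofReal_mul (by norm_num), e3, ← ENNReal.ofReal_mul (by norm_num),
            ENNReal.ofReal_le_one]
          norm_num
        · rw [← ENNReal.ofReal_mul (by norm_num), e3, ← ENNReal.ofReal_mul (by norm_num)]
          apply ENNReal.ofReal_le_ofReal
          have : 0 < (ℓ ^ 2)⁻¹ := by positivity
          linarith
    _ = _ := by rw [one_mul]

/-- Additivity over the eight children. -/
theorem PQ_split (V : R3 → ℝ≥0∞) (a : R3) (ℓ : ℝ) (hℓ : 0 < ℓ) (u : TS) :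
    PQ V a (2 * ℓ) u = ∑ δ : Fin 3 → Bool, PQ V (fun k => if δ k then a k + ℓ else a k) ℓ u :=
  split a ℓ hℓ _

theorem KQ_split (A : R3 → Fin 3 → ℝ) (a : R3) (ℓ : ℝ) (hℓ : 0 < ℓ) (u : TS) :
    KQ A a (2 * ℓ) u = ∑ δ : Fin 3 → Bool, KQ A (fun k => if δ k then a k + ℓ else a k) ℓ u :=
  split a ℓ hℓ _

theorem GQ_split (a : R3) (ℓ : ℝ) (hℓ : 0 < ℓ) (u : TS) :
    GQ a (2 * ℓ) u = ∑ δ : Fin 3 → Bool, GQ (fun k => if δ k then a k + ℓ else a k) ℓ u :=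
  split a ℓ hℓ _

theorem nu_split (V : R3 → ℝ≥0∞) (a : R3) (ℓ : ℝ) (hℓ : 0 < ℓ) :
    ∑ δ : Fin 3 → Bool, nu V (fun k => if δ k then a k + ℓ else a k) ℓ ≤
      ENNReal.ofReal (17 / 24) * nu V a (2 * ℓ) := by
  unfold nu
  rw [split a ℓ hℓ, ← Finset.mul_sum, ← mul_assoc, ← ENNReal.ofReal_mul (by norm_num)]
  gcongr
  rw [Real.mul_rpow (by norm_num) hℓ.le]
  have h1 : (1 : ℝ) ≤ 17 / 24 * (2 : ℝ) ^ (1 / 2 : ℝ) := by
    rw [← Real.sqrt_eq_rpow]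
    have h2 : (24 / 17 : ℝ) ≤ Real.sqrt 2 := by
      apply Real.le_sqrt_of_sq_le
      norm_num
    linarith
  have h3 : 0 ≤ ℓ ^ (1 / 2 : ℝ) := by positivity
  nlinarith

/-- Small scale induction. -/
theorem small_scale (A : R3 → Fin 3 → ℝ) (hA : Continuous A)
    (V : R3 → ℝ≥0∞) (hV : Measurable V) (η : ℝ)
    (hη : ∀ a ℓ, 0 < ℓ → ℓ ≤ η → nu V a ℓ ≤ ENNReal.ofReal c2) (n : ℕ) :
    ∀ (a : R3) (ℓ : ℝ), 0 < ℓ → ℓ ≤ 2 ^ n * η →
    ∃ T : Finset (TS →ₗ[ℂ] ℂ), (T.card : ℝ≥0∞) ≤ 2 + ENNReal.ofReal (48 / c2) * nu V a ℓ ∧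
      ∀ u : TS, (∀ L ∈ T, L u = 0) → 2 * PQ V a ℓ u ≤ KQ A a ℓ u := by
  classical
  have hdirect : ∀ (a : R3) (ℓ : ℝ), 0 < ℓ → nu V a ℓ ≤ ENNReal.ofReal c2 →
    ∃ T : Finset (TS →ₗ[ℂ] ℂ), (T.card : ℝ≥0∞) ≤ 2 + ENNReal.ofReal (48 / c2) * nu V a ℓ ∧
      ∀ u : TS, (∀ L ∈ T, L u = 0) → 2 * PQ V a ℓ u ≤ KQ A a ℓ u := by
    intro a ℓ hℓ hn
    obtain ⟨T, hT, hT2⟩ := small_cube A hA a ℓ hℓ V hV hn
    refine ⟨T, ?_, hT2⟩
    calc (T.card : ℝ≥0∞) ≤ 2 := by exact_mod_cast hT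
      _ ≤ _ := le_self_add
  induction n with
  | zero =>
    intro a ℓ hℓ hle
    exact hdirect a ℓ hℓ (hη a ℓ hℓ (by simpa using hle))
  | succ n ih =>
    intro a ℓ hℓ hle
    by_cases hn : nu V a ℓ ≤ ENNReal.ofReal c2
    · exact hdirect a ℓ hℓ hn
    push Not at hn
    obtain ⟨ℓ', hℓ'⟩ : ∃ ℓ', ℓ = 2 * ℓ' := ⟨ℓ / 2, by ring⟩
    subst hℓ'
    have hl' : 0 < ℓ' := by linarith
    have hle' : ℓ' ≤ 2 ^ n * η := by
      rw [pow_succ] at hle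
      linarith
    choose T hT hT2 using fun δ : Fin 3 → Bool =>
      ih (fun k => if δ k then a k + ℓ' else a k) ℓ' hl' hle'
    refine ⟨Finset.univ.biUnion T, ?_, ?_⟩
    · calc ((Finset.univ.biUnion T).card : ℝ≥0∞) ≤ ((∑ δ, (T δ).card : ℕ) : ℝ≥0∞) := by
            exact_mod_cast Finset.card_biUnion_le
        _ = ∑ δ, ((T δ).card : ℝ≥0∞) := by push_cast; rfl
        _ ≤ ∑ δ : Fin 3 → Bool, (2 + ENNReal.ofReal (48 / c2) *
            nu V (fun k => if δ k then a k + ℓ' else a k) ℓ') := Finset.sum_le_sum (fun δ _ => hT δ)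
        _ = 16 + ENNReal.ofReal (48 / c2) * ∑ δ : Fin 3 → Bool,
            nu V (fun k => if δ k then a k + ℓ' else a k) ℓ' := by
            rw [Finset.sum_add_distrib, Finset.mul_sum]
            simp
            norm_num
        _ ≤ 16 + ENNReal.ofReal (48 / c2) * (ENNReal.ofReal (17 / 24) * nu V a (2 * ℓ')) := by
            gcongr
            exact nu_split V a ℓ' hl'
        _ ≤ (2 + ENNReal.ofReal (14 / c2) * nu V a (2 * ℓ')) +
            ENNReal.ofReal (48 / c2) * (ENNReal.ofReal (17 / 24) * nu V a (2 * ℓ')) := by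
            gcongr
            have h1 : (14 : ℝ≥0∞) ≤ ENNReal.ofReal (14 / c2) * nu V a (2 * ℓ') := by
              calc (14 : ℝ≥0∞) = ENNReal.ofReal (14 / c2) * ENNReal.ofReal c2 := by
                    rw [← ENNReal.ofReal_mul (by have := c2_pos; positivity),
                      div_mul_cancel₀ _ c2_pos.ne']
                    norm_num
                _ ≤ _ := by gcongr
            calc (16 : ℝ≥0∞) = 2 + 14 := by norm_num
              _ ≤ _ := by gcongr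
        _ = 2 + (ENNReal.ofReal (14 / c2) + ENNReal.ofReal (48 / c2) * ENNReal.ofReal (17 / 24)) *
            nu V a (2 * ℓ') := by ring
        _ = _ := by
            have := c2_pos
            rw [← ENNReal.ofReal_mul (by positivity), ← ENNReal.ofReal_add (by positivity) (by positivity)]
            congr 3
            field_simp
            norm_num
    · intro u hu
      rw [PQ_split V a ℓ' hl', KQ_split A a ℓ' hl', Finset.mul_sum]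
      apply Finset.sum_le_sum
      intro δ _
      apply hT2 δ u
      intro L hL
      exact hu L (Finset.mem_biUnion.mpr ⟨δ, Finset.mem_univ _, hL⟩)

/-- Large scale induction. -/
theorem large_scale (A : R3 → Fin 3 → ℝ) (hA : Continuous A)
    (V : R3 → ℝ≥0∞) (hV : Measurable V) (η : ℝ) (hη0 : 0 < η)
    (hη : ∀ a ℓ, 0 < ℓ → ℓ ≤ η → nu V a ℓ ≤ ENNReal.ofReal c2) (ℓ : ℝ) (hℓ : 0 < ℓ) (m : ℕ) :
    ∀ (a : R3),
    ∃ T : Finset (TS →ₗ[ℂ] ℂ), (T.card : ℝ≥0∞) ≤ ENNReal.ofReal (50 / c2) *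
        (ENNReal.ofReal (ℓ ^ (1 / 2 : ℝ)) * ∫⁻ x in qs a (2 ^ m * ℓ), V x ^ (7 / 4 : ℝ)) ∧
      ∀ u : TS, (∀ L ∈ T, L u = 0) → 2 * PQ V a (2 ^ m * ℓ) u ≤ KQ A a (2 ^ m * ℓ) u +
        ENNReal.ofReal ((ℓ ^ 2)⁻¹ / 2) * GQ a (2 ^ m * ℓ) u := by
  classical
  induction m with
  | zero =>
    intro a
    simp only [pow_zero, one_mul]
    by_cases hn : nu V a ℓ ≤ ENNReal.ofReal c2
    · exact ⟨∅, by simp, fun u _ => base_cube A hA a ℓ hℓ V hV hn u⟩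
    push Not at hn
    obtain ⟨n, hnn⟩ : ∃ n : ℕ, ℓ / η < 2 ^ n := pow_unbounded_of_one_lt _ (by norm_num)
    have hle : ℓ ≤ 2 ^ n * η := by
      rw [div_lt_iff₀ hη0] at hnn
      exact hnn.le
    obtain ⟨T, hT, hT2⟩ := small_scale A hA V hV η hη n a ℓ hℓ hle
    refine ⟨T, ?_, fun u hu => (hT2 u hu).trans le_self_add⟩
    refine hT.trans ?_
    have := c2_pos
    calc 2 + ENNReal.ofReal (48 / c2) * nu V a ℓ
        ≤ ENNReal.ofReal (2 / c2) * nu V a ℓ + ENNReal.ofReal (48 / c2) * nu V a ℓ := by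
          gcongr
          calc (2 : ℝ≥0∞) = ENNReal.ofReal (2 / c2) * ENNReal.ofReal c2 := by
                rw [← ENNReal.ofReal_mul (by positivity), div_mul_cancel₀ _ c2_pos.ne']
                norm_num
            _ ≤ _ := by gcongr
      _ = ENNReal.ofReal (50 / c2) * nu V a ℓ := by
          rw [← add_mul, ← ENNReal.ofReal_add (by positivity) (by positivity)]
          congr 2
          field_simp
          norm_num
      _ = _ := rfl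
  | succ m ih =>
    intro a
    have e : (2 : ℝ) ^ (m + 1) * ℓ = 2 * (2 ^ m * ℓ) := by ring
    have hl' : 0 < 2 ^ m * ℓ := by positivity
    rw [e]
    choose T hT hT2 using fun δ : Fin 3 → Bool =>
      ih (fun k => if δ k then a k + 2 ^ m * ℓ else a k)
    refine ⟨Finset.univ.biUnion T, ?_, ?_⟩
    · calc ((Finset.univ.biUnion T).card : ℝ≥0∞) ≤ ((∑ δ, (T δ).card : ℕ) : ℝ≥0∞) := by
            exact_mod_cast Finset.card_biUnion_le
        _ = ∑ δ, ((T δ).card : ℝ≥0∞) := by push_cast; rfl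
        _ ≤ _ := Finset.sum_le_sum (fun δ _ => hT δ)
        _ = _ := by
            rw [split a (2 ^ m * ℓ) hl', ← Finset.mul_sum, ← Finset.mul_sum]
    · intro u hu
      rw [PQ_split V a _ hl', KQ_split A a _ hl', GQ_split a _ hl', Finset.mul_sum, Finset.mul_sum,
        ← Finset.sum_add_distrib]
      apply Finset.sum_le_sum
      intro δ _
      apply hT2 δ u
      intro L hL
      exact hu L (Finset.mem_biUnion.mpr ⟨δ, Finset.mem_univ _, hL⟩)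

/-- The bound on the number of bound states: finitely many linear conditions suffice. -/
theorem clr (A : R3 → Fin 3 → ℝ) (hA : Continuous A)
    (V : R3 → ℝ≥0∞) (hV : Measurable V) (M : ℝ) (hM : ∀ x, V x ≤ ENNReal.ofReal M)
    (R : ℝ) (hR : ∀ x : R3, V x ≠ 0 → ∀ k, |x k| ≤ R) (s : ℝ) (hs : 0 < s) :
    ∃ T : Finset (TS →ₗ[ℂ] ℂ), (T.card : ℝ≥0∞) ≤ ENNReal.ofReal (50 / c2) *
        (ENNReal.ofReal (s ^ (-(1 / 4) : ℝ)) * ∫⁻ x, V x ^ (7 / 4 : ℝ)) ∧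
      ∀ u : TS, (∀ L ∈ T, L u = 0) → 2 * ∫⁻ x, V x * ‖(u : R3 → S2) x‖ₑ ^ 2 ≤
        (∫⁻ x, ∑ k, ‖Dm A k u x‖ₑ ^ 2) + ENNReal.ofReal (s / 2) * ∫⁻ x, ‖(u : R3 → S2) x‖ₑ ^ 2 := by
  -- length scale
  set ℓ : ℝ := s ^ (-(1 / 2) : ℝ) with hℓdef
  have hℓ : 0 < ℓ := by positivity
  have hℓ2 : (ℓ ^ 2)⁻¹ = s := by
    rw [hℓdef, ← Real.rpow_natCast, ← Real.rpow_mul hs.le, ← Real.rpow_neg hs.le]
    norm_num
  have hℓh : ℓ ^ (1 / 2 : ℝ) = s ^ (-(1 / 4) : ℝ) := by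
    rw [hℓdef, ← Real.rpow_mul hs.le]
    norm_num
  -- small scale threshold
  obtain ⟨η, hη0, hη⟩ : ∃ η : ℝ, 0 < η ∧ ∀ (a : R3) (ℓ : ℝ), 0 < ℓ → ℓ ≤ η →
      nu V a ℓ ≤ ENNReal.ofReal c2 := by
    set M' : ℝ := max M 1 with hM'
    have hM'1 : 1 ≤ M' := le_max_right _ _
    have hM'0 : 0 < M' := by linarith
    set q : ℝ := M' ^ (7 / 4 : ℝ) with hq
    have hq0 : 0 < q := by positivity
    refine ⟨(c2 / q) ^ (2 / 7 : ℝ), by have := c2_pos; positivity, ?_⟩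
    intro a ℓ hℓ hle
    unfold nu
    have h1 : ∫⁻ x in qs a ℓ, V x ^ (7 / 4 : ℝ) ≤ ENNReal.ofReal (ℓ ^ 3) * ENNReal.ofReal q := by
      calc ∫⁻ x in qs a ℓ, V x ^ (7 / 4 : ℝ) ≤ ∫⁻ x in qs a ℓ, ENNReal.ofReal q := by
            apply lintegral_mono
            intro x
            dsimp only
            rw [hq, ← ENNReal.ofReal_rpow_of_pos hM'0]
            apply ENNReal.rpow_le_rpow _ (by norm_num)
            exact (hM x).trans (ENNReal.ofReal_le_ofReal (le_max_left _ _))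
        _ = ENNReal.ofReal (ℓ ^ 3) * ENNReal.ofReal q := by
            rw [scale a ℓ hℓ _ measurable_const]
            simp
    calc ENNReal.ofReal (ℓ ^ (1 / 2 : ℝ)) * ∫⁻ x in qs a ℓ, V x ^ (7 / 4 : ℝ)
        ≤ ENNReal.ofReal (ℓ ^ (1 / 2 : ℝ)) * (ENNReal.ofReal (ℓ ^ 3) * ENNReal.ofReal q) := by gcongr
      _ = ENNReal.ofReal (ℓ ^ (7 / 2 : ℝ) * q) := by
          rw [← ENNReal.ofReal_mul (by positivity), ← ENNReal.ofReal_mul (by positivity), ← mul_assoc,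
            ← Real.rpow_natCast ℓ 3, ← Real.rpow_add hℓ]
          norm_num
      _ ≤ ENNReal.ofReal c2 := by
          apply ENNReal.ofReal_le_ofReal
          have h2 : ℓ ^ (7 / 2 : ℝ) ≤ c2 / q := by
            calc ℓ ^ (7 / 2 : ℝ) ≤ ((c2 / q) ^ (2 / 7 : ℝ)) ^ (7 / 2 : ℝ) :=
                  Real.rpow_le_rpow hℓ.le hle (by norm_num)
              _ = c2 / q := by
                rw [← Real.rpow_mul (by have := c2_pos; positivity)]
                norm_num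
          calc ℓ ^ (7 / 2 : ℝ) * q ≤ c2 / q * q := by gcongr
            _ = c2 := div_mul_cancel₀ _ hq0.ne'
  -- the big cube
  obtain ⟨m, hm⟩ : ∃ m : ℕ, (2 * |R| + 1) / ℓ < 2 ^ m := pow_unbounded_of_one_lt _ (by norm_num)
  have hm' : 2 * |R| + 1 < 2 ^ m * ℓ := by rwa [div_lt_iff₀ hℓ] at hm
  set a : R3 := fun _ => -|R| with ha
  obtain ⟨T, hT, hT2⟩ := large_scale A hA V hV η hη0 hη ℓ hℓ m a
  refine ⟨T, ?_, ?_⟩
  · refine hT.trans ?_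
    rw [hℓh]
    gcongr
    exact Measure.restrict_le_self
  · intro u hu
    have h1 := hT2 u hu
    have h2 : ∫⁻ x, V x * ‖(u : R3 → S2) x‖ₑ ^ 2 = PQ V a (2 ^ m * ℓ) u := by
      unfold PQ
      rw [← lintegral_indicator (qs_meas _ _)]
      apply lintegral_congr
      intro x
      by_cases hx : x ∈ qs a (2 ^ m * ℓ)
      · rw [indicator_of_mem hx]
      · rw [indicator_of_notMem hx]
        have h3 : V x = 0 := by
          by_contra hne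
          apply hx
          intro k
          have h4 := hR x hne k
          have h5 := abs_le.mp (h4.trans (le_abs_self R))
          constructor
          · exact h5.1
          · rw [ha]
            dsimp only
            linarith [h5.2]
        rw [h3, zero_mul]
    rw [h2]
    refine h1.trans ?_
    rw [hℓ2]
    unfold KQ GQ
    gcongr
    · exact Measure.restrict_le_self
    · exact Measure.restrict_le_self

end Pool.Agent.Helper20.SM
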