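import Pool.Agent.Helper20.SMPauli

set_option autoImplicit false

open MeasureTheory Set Function Filter
open scoped BigOperators ENNReal Topology

namespace Pool.Agent.Helper20.SM

open Pool.Agent.Helper20.PF (FS)

/-- Field strength components. -/
noncomputable def Fs (A : R3 → Fin 3 → ℝ) (j k : Fin 3) (x : R3) : ℝ :=
  fderiv ℝ (fun y => A y k) x (Pi.single j 1) - fderiv ℝ (fun y => A y j) x (Pi.single k 1)

/-- Field strength. -/
noncomputable def Bn (A : R3 → Fin 3 → ℝ) (x : R3) : ℝ :=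
  Real.sqrt (Fs A 0 1 x ^ 2 + Fs A 0 2 x ^ 2 + Fs A 1 2 x ^ 2)

theorem Bn_nonneg (A : R3 → Fin 3 → ℝ) (x : R3) : 0 ≤ Bn A x := Real.sqrt_nonneg _

theorem Fs_cont (A : R3 → Fin 3 → ℝ) (hA : ContDiff ℝ ((⊤ : ℕ∞) : WithTop ℕ∞) A) (j k : Fin 3) :
    Continuous (Fs A j k) := by
  unfold Fs
  have h : ∀ j k : Fin 3, Continuous (fun x => fderiv ℝ (fun y => A y k) x (Pi.single j (1 : ℝ) : R3)) :=
    fun j k => ((contDiff_pi.mp hA k).continuous_fderiv (by simp)).clm_apply continuous_const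
  exact (h j k).sub (h k j)

theorem Bn_cont (A : R3 → Fin 3 → ℝ) (hA : ContDiff ℝ ((⊤ : ℕ∞) : WithTop ℕ∞) A) :
    Continuous (Bn A) := by
  unfold Bn
  exact Real.continuous_sqrt.comp
    ((((Fs_cont A hA 0 1).pow 2).add ((Fs_cont A hA 0 2).pow 2)).add ((Fs_cont A hA 1 2).pow 2))

/-- Integrability of products involving a test spinor. -/
theorem int_mul {E : Type} [NormedAddCommGroup E] (u : TS) (f : R3 → E) (hf : Continuous f)
    (h : ∀ x, (u : R3 → S2) x = 0 → f x = 0) : Integrable f := by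
  apply hf.integrable_of_hasCompactSupport
  apply (tsK u).mono
  intro x hx
  rw [Function.mem_support] at hx ⊢
  exact fun h0 => hx (h x h0)

theorem pair (A : R3 → Fin 3 → ℝ) (hA : ContDiff ℝ ((⊤ : ℕ∞) : WithTop ℕ∞) A) (u : TS)
    (j k : Fin 3) (J : S2 →ₗ[ℂ] S2) :
    ∫ x, ((inner ℂ (Dm A j u x) (J (Dm A k u x)) : ℂ).re - (inner ℂ (Dm A k u x) (J (Dm A j u x)) : ℂ).re) =
    ∫ x, (-Complex.I * ((Fs A j k x : ℝ) : ℂ) * (inner ℂ ((u : R3 → S2) x) (J ((u : R3 → S2) x)) : ℂ)).re := by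
  have hAc := hA.continuous
  have key : ∀ j k : Fin 3, ∫ x, (inner ℂ (Dm A j u x) (J (Dm A k u x)) : ℂ) =
      ∫ x, (inner ℂ ((u : R3 → S2) x) (J (Dm A j (DT A hA k u) x)) : ℂ) := by
    intro j k
    have h1 := Dm_symm A hAc j u (LT J (DT A hA k u))
    calc ∫ x, (inner ℂ (Dm A j u x) (J (Dm A k u x)) : ℂ) =
        ∫ x, (inner ℂ (Dm A j u x) ((LT J (DT A hA k u) : R3 → S2) x) : ℂ) := rfl
      _ = _ := h1
      _ = _ := by
        apply integral_congr_ae
        filter_upwards with x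
        rw [Dm_LT]
  have hint : ∀ j k : Fin 3, Integrable (fun x => (inner ℂ (Dm A j u x) (J (Dm A k u x)) : ℂ)) := by
    intro j k
    exact FS.integrable_inner volume (toFS (DT A hA j u)) (toFS (LT J (DT A hA k u)))
  have hint2 : ∀ j k : Fin 3, Integrable (fun x => (inner ℂ ((u : R3 → S2) x) (J (Dm A j (DT A hA k u) x)) : ℂ)) := by
    intro j k
    exact FS.integrable_inner volume (toFS u) (toFS (LT J (DT A hA j (DT A hA k u))))
  calc ∫ x, ((inner ℂ (Dm A j u x) (J (Dm A k u x)) : ℂ).re - (inner ℂ (Dm A k u x) (J (Dm A j u x)) : ℂ).re)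
      = ∫ x, ((inner ℂ (Dm A j u x) (J (Dm A k u x)) : ℂ) - (inner ℂ (Dm A k u x) (J (Dm A j u x)) : ℂ)).re := by
        simp only [Complex.sub_re]
    _ = (∫ x, ((inner ℂ (Dm A j u x) (J (Dm A k u x)) : ℂ) - (inner ℂ (Dm A k u x) (J (Dm A j u x)) : ℂ))).re := by
        have := integral_re ((hint j k).sub (hint k j))
        simpa using this
    _ = (∫ x, ((inner ℂ ((u : R3 → S2) x) (J (Dm A j (DT A hA k u) x)) : ℂ) -
          (inner ℂ ((u : R3 → S2) x) (J (Dm A k (DT A hA j u) x)) : ℂ))).re := by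
        rw [integral_sub (hint j k) (hint k j), integral_sub (hint2 j k) (hint2 k j), key, key]
    _ = (∫ x, (-Complex.I * ((Fs A j k x : ℝ) : ℂ) * (inner ℂ ((u : R3 → S2) x) (J ((u : R3 → S2) x)) : ℂ))).re := by
        congr 1
        apply integral_congr_ae
        filter_upwards with x
        rw [← inner_sub_right, ← map_sub, Dm_comm A hA j k u x, map_smul, inner_smul_right]
        rfl
    _ = _ := by
        have hi : Integrable (fun x => (-Complex.I * ((Fs A j k x : ℝ) : ℂ) * (inner ℂ ((u : R3 → S2) x) (J ((u : R3 → S2) x)) : ℂ))) := by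
          apply int_mul u
          · have c1 : Continuous (fun x => -Complex.I * ((Fs A j k x : ℝ) : ℂ)) :=
              continuous_const.mul (Complex.continuous_ofReal.comp (Fs_cont A hA j k))
            exact c1.mul ((ts0 u).inner (ts0 (LT J u)))
          · intro x hx
            rw [hx, inner_zero_left, mul_zero]
        have := integral_re hi
        simpa using this.symm

theorem int_D (A : R3 → Fin 3 → ℝ) (hA : ContDiff ℝ ((⊤ : ℕ∞) : WithTop ℕ∞) A) (u : TS) (k : Fin 3) :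
    Integrable (fun x => ‖Dm A k u x‖ ^ 2) :=
  FS.integrable_norm_sq volume (toFS (DT A hA k u))

theorem int_u (u : TS) : Integrable (fun x => ‖(u : R3 → S2) x‖ ^ 2) :=
  FS.integrable_norm_sq volume (toFS u)

theorem add3 (a b c : R3 → ℝ) (ha : Integrable a) (hb : Integrable b)
    (hc : Integrable c) : ∫ x, (a x + b x + c x) = (∫ x, a x) + (∫ x, b x) + (∫ x, c x) := by
  have h1 : Integrable (fun x => a x + b x) := ha.add hb
  rw [integral_add h1 hc, integral_add ha hb]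

theorem add4 (f a b c : R3 → ℝ) (hf : Integrable f) (ha : Integrable a) (hb : Integrable b)
    (hc : Integrable c) : ∫ x, (f x + (a x + b x + c x)) =
      (∫ x, f x) + ((∫ x, a x) + (∫ x, b x) + (∫ x, c x)) := by
  have h1 : Integrable (fun x => a x + b x) := ha.add hb
  have h2 : Integrable (fun x => a x + b x + c x) := h1.add hc
  rw [integral_add hf h2, integral_add h1 hc, integral_add ha hb]

/-- The Pauli operator bounded below by the magnetic kinetic energy minus the field. -/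
theorem pauli_lower (A : R3 → Fin 3 → ℝ) (hA : ContDiff ℝ ((⊤ : ℕ∞) : WithTop ℕ∞) A) (u : TS) :
    (∫ x, ∑ k, ‖Dm A k u x‖ ^ 2) - ∫ x, Bn A x * ‖(u : R3 → S2) x‖ ^ 2 ≤
      ∫ x, ‖∑ k, sg k (Dm A k u x)‖ ^ 2 := by
  have hre : ∀ j k : Fin 3, ∀ J : S2 →ₗ[ℂ] S2, Integrable (fun x => ((inner ℂ (Dm A j u x) (J (Dm A k u x)) : ℂ).re -
      (inner ℂ (Dm A k u x) (J (Dm A j u x)) : ℂ).re)) := by
    intro j k J
    have h1 := FS.integrable_inner volume (toFS (DT A hA j u)) (toFS (LT J (DT A hA k u)))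
    have h2 := FS.integrable_inner volume (toFS (DT A hA k u)) (toFS (LT J (DT A hA j u)))
    exact h1.re.sub h2.re
  have hF : ∀ j k : Fin 3, ∀ J : S2 →ₗ[ℂ] S2, Integrable (fun x =>
      (-Complex.I * ((Fs A j k x : ℝ) : ℂ) * (inner ℂ ((u : R3 → S2) x) (J ((u : R3 → S2) x)) : ℂ)).re) := by
    intro j k J
    have hi : Integrable (fun x => (-Complex.I * ((Fs A j k x : ℝ) : ℂ) * (inner ℂ ((u : R3 → S2) x) (J ((u : R3 → S2) x)) : ℂ))) := by
      apply int_mul u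
      · have c1 : Continuous (fun x => -Complex.I * ((Fs A j k x : ℝ) : ℂ)) :=
          continuous_const.mul (Complex.continuous_ofReal.comp (Fs_cont A hA j k))
        exact c1.mul ((ts0 u).inner (ts0 (LT J u)))
      · intro x hx
        rw [hx, inner_zero_left, mul_zero]
    exact hi.re
  have hB : Integrable (fun x => Bn A x * ‖(u : R3 → S2) x‖ ^ 2) := by
    apply int_mul u
    · exact (Bn_cont A hA).mul ((ts0 u).norm.pow 2)
    · intro x hx; rw [hx]; simp
  have hK : Integrable (fun x => ∑ k, ‖Dm A k u x‖ ^ 2) := integrable_finsetSum _ (fun k _ => int_D A hA u k)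
  have p01 := pair A hA u 0 1 ((sg 0).comp (sg 1))
  have p02 := pair A hA u 0 2 ((sg 0).comp (sg 2))
  have p12 := pair A hA u 1 2 ((sg 1).comp (sg 2))
  have r01 := hre 0 1 ((sg 0).comp (sg 1))
  have r02 := hre 0 2 ((sg 0).comp (sg 2))
  have r12 := hre 1 2 ((sg 1).comp (sg 2))
  have f01 := hF 0 1 ((sg 0).comp (sg 1))
  have f02 := hF 0 2 ((sg 0).comp (sg 2))
  have f12 := hF 1 2 ((sg 1).comp (sg 2))
  simp only [LinearMap.comp_apply] at p01 p02 p12 r01 r02 r12 f01 f02 f12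
  have e1 : ∀ x, ‖∑ k, sg k (Dm A k u x)‖ ^ 2 = ∑ k, ‖Dm A k u x‖ ^ 2 +
      (((inner ℂ (Dm A 0 u x) (sg 0 (sg 1 (Dm A 1 u x))) : ℂ).re - (inner ℂ (Dm A 1 u x) (sg 0 (sg 1 (Dm A 0 u x))) : ℂ).re) +
      ((inner ℂ (Dm A 0 u x) (sg 0 (sg 2 (Dm A 2 u x))) : ℂ).re - (inner ℂ (Dm A 2 u x) (sg 0 (sg 2 (Dm A 0 u x))) : ℂ).re) +
      ((inner ℂ (Dm A 1 u x) (sg 1 (sg 2 (Dm A 2 u x))) : ℂ).re - (inner ℂ (Dm A 2 u x) (sg 1 (sg 2 (Dm A 1 u x))) : ℂ).re)) :=
    fun x => sg_expand (fun k => Dm A k u x)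
  simp only [e1]
  have l1 := add4 _ _ _ _ hK r01 r02 r12
  have l2 := add3 _ _ _ f01 f02 f12
  have e3 : - ∫ x, Bn A x * ‖(u : R3 → S2) x‖ ^ 2 ≤
      ∫ x, ((-Complex.I * ((Fs A 0 1 x : ℝ) : ℂ) * (inner ℂ ((u : R3 → S2) x) (sg 0 (sg 1 ((u : R3 → S2) x))) : ℂ)).re +
        (-Complex.I * ((Fs A 0 2 x : ℝ) : ℂ) * (inner ℂ ((u : R3 → S2) x) (sg 0 (sg 2 ((u : R3 → S2) x))) : ℂ)).re +
        (-Complex.I * ((Fs A 1 2 x : ℝ) : ℂ) * (inner ℂ ((u : R3 → S2) x) (sg 1 (sg 2 ((u : R3 → S2) x))) : ℂ)).re) := by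
    rw [← integral_neg]
    apply integral_mono hB.neg ((f01.add f02).add f12)
    intro x
    exact (abs_le.mp (field_bound (Fs A 0 1 x) (Fs A 0 2 x) (Fs A 1 2 x) ((u : R3 → S2) x))).1
  rw [l1, p01, p02, p12]
  rw [l2] at e3
  linarith

end Pool.Agent.Helper20.SM
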