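import Pool.Agent.Helper20.SMCoul

set_option autoImplicit false

open MeasureTheory Set Function Filter
open scoped BigOperators ENNReal Topology

namespace Pool.Agent.Helper20.SM

open Pool.Agent.Helper20.PF (FS)

/-- Regularised squared distance. -/
noncomputable def qd (δ : ℝ) (x : R3) : ℝ := ∑ k, x k ^ 2 + δ

/-- Euclidean length. -/
noncomputable def en (x : R3) : ℝ := Real.sqrt (∑ k, x k ^ 2)

theorem qd_pos (δ : ℝ) (hδ : 0 < δ) (x : R3) : 0 < qd δ x := by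
  unfold qd
  have : 0 ≤ ∑ k, x k ^ 2 := Finset.sum_nonneg (fun _ _ => sq_nonneg _)
  linarith

theorem qd_fderiv (δ : ℝ) (x : R3) :
    HasFDerivAt (qd δ) (∑ j, (2 * x j) • (ContinuousLinearMap.proj j : R3 →L[ℝ] ℝ)) x := by
  unfold qd
  apply HasFDerivAt.add_const
  have : HasFDerivAt (fun x : R3 => ∑ j, x j ^ 2) (∑ j, (2 * x j) • (ContinuousLinearMap.proj j : R3 →L[ℝ] ℝ)) x := by
    apply HasFDerivAt.fun_sum
    intro j _
    have h1 := ((ContinuousLinearMap.proj j : R3 →L[ℝ] ℝ).hasFDerivAt (x := x)).pow 2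
    simpa using h1
  exact this

theorem qd_cont (δ : ℝ) : Continuous (qd δ) := by
  unfold qd
  fun_prop

/-- Regularised vector field. -/
noncomputable def Xf (δ : ℝ) (k : Fin 3) (x : R3) : ℝ := x k * (qd δ x) ^ (-(1 / 2) : ℝ)

theorem Xf_cont (δ : ℝ) (hδ : 0 < δ) (k : Fin 3) : Continuous (Xf δ k) := by
  unfold Xf
  exact (continuous_apply k).mul ((qd_cont δ).rpow_const (fun x => Or.inl (qd_pos δ hδ x).ne'))

theorem Xf_hasFDeriv (δ : ℝ) (hδ : 0 < δ) (k : Fin 3) (x : R3) :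
    DifferentiableAt ℝ (Xf δ k) x ∧ fderiv ℝ (Xf δ k) x (Pi.single k 1) =
      (qd δ x) ^ (-(1 / 2) : ℝ) - x k ^ 2 * (qd δ x) ^ (-(3 / 2) : ℝ) := by
  have h1 := (qd_fderiv δ x).rpow_const (p := (-(1 / 2) : ℝ)) (Or.inl (qd_pos δ hδ x).ne')
  have h2 := ((ContinuousLinearMap.proj k : R3 →L[ℝ] ℝ).hasFDerivAt (x := x)).mul h1
  refine ⟨h2.differentiableAt, ?_⟩
  have h3 : fderiv ℝ (Xf δ k) x = _ := h2.fderiv
  rw [h3]
  have h4 : (-(1 / 2) - 1 : ℝ) = -(3 / 2) := by norm_num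
  simp only [h4]
  simp [Fin.sum_univ_three]
  fin_cases k <;> simp <;> ring

/-- Continuity of the derivative. -/
theorem Xf_div_cont (δ : ℝ) (hδ : 0 < δ) (k : Fin 3) :
    Continuous (fun x => fderiv ℝ (Xf δ k) x (Pi.single k 1)) := by
  have h : (fun x => fderiv ℝ (Xf δ k) x (Pi.single k 1)) =
      fun x => (qd δ x) ^ (-(1 / 2) : ℝ) - x k ^ 2 * (qd δ x) ^ (-(3 / 2) : ℝ) := by
    funext x
    exact (Xf_hasFDeriv δ hδ k x).2
  rw [h]
  exact ((qd_cont δ).rpow_const (fun x => Or.inl (qd_pos δ hδ x).ne')).sub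
    (((continuous_apply k).pow 2).mul ((qd_cont δ).rpow_const (fun x => Or.inl (qd_pos δ hδ x).ne')))

theorem div_ge (δ : ℝ) (hδ : 0 < δ) (x : R3) :
    2 * (qd δ x) ^ (-(1 / 2) : ℝ) ≤ ∑ k, fderiv ℝ (Xf δ k) x (Pi.single k 1) := by
  have h1 : ∀ k, fderiv ℝ (Xf δ k) x (Pi.single k 1) = (qd δ x) ^ (-(1 / 2) : ℝ) - x k ^ 2 * (qd δ x) ^ (-(3 / 2) : ℝ) :=
    fun k => (Xf_hasFDeriv δ hδ k x).2
  simp only [h1, Finset.sum_sub_distrib, ← Finset.sum_mul]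
  have hq := qd_pos δ hδ x
  have h2 : qd δ x * (qd δ x) ^ (-(3 / 2) : ℝ) = (qd δ x) ^ (-(1 / 2) : ℝ) := by
    conv_lhs => rw [← Real.rpow_one (qd δ x)]
    rw [← Real.rpow_mul hq.le, ← Real.rpow_add hq]
    norm_num
  have h3 : (∑ k, x k ^ 2) * (qd δ x) ^ (-(3 / 2) : ℝ) ≤ qd δ x * (qd δ x) ^ (-(3 / 2) : ℝ) := by
    apply mul_le_mul_of_nonneg_right _ (by positivity)
    unfold qd
    linarith
  simp
  rw [h2] at h3
  linarith

theorem Xf_sq (δ : ℝ) (hδ : 0 < δ) (x : R3) : ∑ k, Xf δ k x ^ 2 ≤ 1 := by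
  have hq := qd_pos δ hδ x
  unfold Xf
  simp only [mul_pow, ← Finset.sum_mul]
  have h1 : ((qd δ x) ^ (-(1 / 2) : ℝ)) ^ 2 = (qd δ x)⁻¹ := by
    rw [← Real.rpow_natCast, ← Real.rpow_mul hq.le]
    norm_num
    rw [Real.rpow_neg_one]
  rw [h1, ← div_eq_mul_inv, div_le_one hq]
  unfold qd
  linarith

/-- Regularised Coulomb inequality. -/
theorem coul_reg (A : R3 → Fin 3 → ℝ) (hA : ContDiff ℝ ((⊤ : ℕ∞) : WithTop ℕ∞) A) (u : TS)
    (β δ : ℝ) (hβ : 0 ≤ β) (hδ : 0 < δ) :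
    2 * β * ∫ x, (qd δ x) ^ (-(1 / 2) : ℝ) * ‖(u : R3 → S2) x‖ ^ 2 ≤
      (∫ x, ∑ k, ‖Dm A k u x‖ ^ 2) + β ^ 2 * ∫ x, ‖(u : R3 → S2) x‖ ^ 2 := by
  have hn1 : ContDiff ℝ 1 (fun y => ‖(u : R3 → S2) y‖ ^ 2) := (ts1 u).norm_sq ℂ
  have hder : ∀ k, Continuous (fun x => fderiv ℝ (fun y => ‖(u : R3 → S2) y‖ ^ 2) x (Pi.single k 1)) := fun k =>
    (hn1.continuous_fderiv (by simp)).clm_apply continuous_const
  have hz : ∀ k x, (u : R3 → S2) x = 0 → fderiv ℝ (fun y => ‖(u : R3 → S2) y‖ ^ 2) x (Pi.single k 1) = 0 := by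
    intro k x hx
    rw [fderiv_normsq_eq A, hx, inner_zero_left]
    simp
  -- integration by parts
  have hibp : ∀ k, ∫ x, Xf δ k x * fderiv ℝ (fun y => ‖(u : R3 → S2) y‖ ^ 2) x (Pi.single k 1) =
      - ∫ x, fderiv ℝ (Xf δ k) x (Pi.single k 1) * ‖(u : R3 → S2) x‖ ^ 2 := by
    intro k
    apply integral_mul_fderiv_eq_neg_fderiv_mul_of_integrable (μ := volume) (𝕜 := ℝ)
      (f := Xf δ k) (g := fun x => ‖(u : R3 → S2) x‖ ^ 2) (v := Pi.single k 1)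
    · apply int_mul u _ ((Xf_div_cont δ hδ k).mul ((ts0 u).norm.pow 2))
      intro x hx
      simp [hx]
    · apply int_mul u _ ((Xf_cont δ hδ k).mul (hder k))
      intro x hx
      simp [hz k x hx]
    · apply int_mul u _ ((Xf_cont δ hδ k).mul ((ts0 u).norm.pow 2))
      intro x hx
      simp [hx]
    · intro x _
      exact (Xf_hasFDeriv δ hδ k x).1
    · intro x _
      exact (hn1.differentiable (by simp)) x
  -- pointwise expansion
  have hpt : ∀ x, 0 ≤ ∑ k, ‖Dm A k u x‖ ^ 2 +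
      β * ∑ k, Xf δ k x * fderiv ℝ (fun y => ‖(u : R3 → S2) y‖ ^ 2) x (Pi.single k 1) +
      β ^ 2 * ‖(u : R3 → S2) x‖ ^ 2 := by
    intro x
    have h1 : ∀ k, ‖Dm A k u x - ((β * Xf δ k x : ℝ) : ℂ) • (Complex.I • (u : R3 → S2) x)‖ ^ 2 =
        ‖Dm A k u x‖ ^ 2 + β * (Xf δ k x * fderiv ℝ (fun y => ‖(u : R3 → S2) y‖ ^ 2) x (Pi.single k 1)) +
        β ^ 2 * (Xf δ k x ^ 2 * ‖(u : R3 → S2) x‖ ^ 2) := by
      intro k
      rw [@norm_sub_sq ℂ, fderiv_normsq_eq A, inner_smul_right, inner_smul_right, norm_smul, norm_smul,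
        Complex.norm_I, Complex.norm_real]
      have h2 : (inner ℂ (Dm A k u x) ((u : R3 → S2) x) : ℂ) =
        (starRingEnd ℂ) (inner ℂ ((u : R3 → S2) x) (Dm A k u x) : ℂ) := by rw [inner_conj_symm]
      rw [h2]
      have h3 : (‖(β * Xf δ k x : ℝ)‖ * (1 * ‖(u : R3 → S2) x‖)) ^ 2 = β ^ 2 * (Xf δ k x ^ 2 * ‖(u : R3 → S2) x‖ ^ 2) := by
        rw [mul_pow, Real.norm_eq_abs, sq_abs]; ring
      rw [h3]
      simp only [RCLike.re_to_complex, Complex.mul_re, Complex.mul_im, Complex.ofReal_re,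
        Complex.ofReal_im, Complex.I_re, Complex.I_im, Complex.conj_re, Complex.conj_im]
      ring
    have h2 : 0 ≤ ∑ k, ‖Dm A k u x - ((β * Xf δ k x : ℝ) : ℂ) • (Complex.I • (u : R3 → S2) x)‖ ^ 2 :=
      Finset.sum_nonneg (fun _ _ => sq_nonneg _)
    simp only [h1, Finset.sum_add_distrib, ← Finset.mul_sum, ← Finset.sum_mul] at h2
    have h3 := Xf_sq δ hδ x
    have h4 : β ^ 2 * ((∑ k, Xf δ k x ^ 2) * ‖(u : R3 → S2) x‖ ^ 2) ≤ β ^ 2 * (1 * ‖(u : R3 → S2) x‖ ^ 2) := by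
      gcongr
    linarith
  have iK : Integrable (fun x => ∑ k, ‖Dm A k u x‖ ^ 2) := integrable_finsetSum _ (fun k _ => int_D A hA u k)
  have iX : ∀ k, Integrable (fun x => Xf δ k x * fderiv ℝ (fun y => ‖(u : R3 → S2) y‖ ^ 2) x (Pi.single k 1)) := by
    intro k
    apply int_mul u _ ((Xf_cont δ hδ k).mul (hder k))
    intro x hx
    simp [hz k x hx]
  have iXs : Integrable (fun x => ∑ k, Xf δ k x * fderiv ℝ (fun y => ‖(u : R3 → S2) y‖ ^ 2) x (Pi.single k 1)) :=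
    integrable_finsetSum _ (fun k _ => iX k)
  have iu := int_u u
  have h5 : 0 ≤ (∫ x, ∑ k, ‖Dm A k u x‖ ^ 2) +
      β * (∫ x, ∑ k, Xf δ k x * fderiv ℝ (fun y => ‖(u : R3 → S2) y‖ ^ 2) x (Pi.single k 1)) +
      β ^ 2 * ∫ x, ‖(u : R3 → S2) x‖ ^ 2 := by
    have h6 := add3 _ _ _ iK (iXs.const_mul β) (iu.const_mul (β ^ 2))
    rw [integral_const_mul, integral_const_mul] at h6
    rw [← h6]
    exact integral_nonneg hpt
  have h7 : ∫ x, ∑ k, Xf δ k x * fderiv ℝ (fun y => ‖(u : R3 → S2) y‖ ^ 2) x (Pi.single k 1) =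
      - ∫ x, (∑ k, fderiv ℝ (Xf δ k) x (Pi.single k 1)) * ‖(u : R3 → S2) x‖ ^ 2 := by
    rw [integral_finsetSum _ (fun k _ => iX k)]
    simp only [hibp, Finset.sum_neg_distrib]
    congr 1
    rw [← integral_finsetSum]
    · simp only [Finset.sum_mul]
    · intro k _
      apply int_mul u _ ((Xf_div_cont δ hδ k).mul ((ts0 u).norm.pow 2))
      intro x hx
      simp [hx]
  have iw : Integrable (fun x => (qd δ x) ^ (-(1 / 2) : ℝ) * ‖(u : R3 → S2) x‖ ^ 2) := by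
    apply int_mul u
    · exact ((qd_cont δ).rpow_const (fun x => Or.inl (qd_pos δ hδ x).ne')).mul ((ts0 u).norm.pow 2)
    · intro x hx; simp [hx]
  have h8 : 2 * ∫ x, (qd δ x) ^ (-(1 / 2) : ℝ) * ‖(u : R3 → S2) x‖ ^ 2 ≤
      ∫ x, (∑ k, fderiv ℝ (Xf δ k) x (Pi.single k 1)) * ‖(u : R3 → S2) x‖ ^ 2 := by
    rw [← integral_const_mul]
    apply integral_mono (iw.const_mul 2)
    · apply int_mul u
      · exact (continuous_finsetSum _ (fun k _ => Xf_div_cont δ hδ k)).mul ((ts0 u).norm.pow 2)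
      · intro x hx; simp [hx]
    · intro x
      dsimp only
      rw [← mul_assoc]
      exact mul_le_mul_of_nonneg_right (div_ge δ hδ x) (sq_nonneg _)
  rw [h7] at h5
  have h9 : β * (2 * ∫ x, (qd δ x) ^ (-(1 / 2) : ℝ) * ‖(u : R3 → S2) x‖ ^ 2) ≤
      β * ∫ x, (∑ k, fderiv ℝ (Xf δ k) x (Pi.single k 1)) * ‖(u : R3 → S2) x‖ ^ 2 := by gcongr
  linarith

/-- The Coulomb potential is dominated by the kinetic energy. -/
theorem coulomb (A : R3 → Fin 3 → ℝ) (hA : ContDiff ℝ ((⊤ : ℕ∞) : WithTop ℕ∞) A) (u : TS) :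
    Integrable (fun x => ‖(u : R3 → S2) x‖ ^ 2 / en x) ∧ ∀ β : ℝ, 0 ≤ β →
    2 * β * ∫ x, ‖(u : R3 → S2) x‖ ^ 2 / en x ≤
      (∫ x, ∑ k, ‖Dm A k u x‖ ^ 2) + β ^ 2 * ∫ x, ‖(u : R3 → S2) x‖ ^ 2 := by
  set δ : ℕ → ℝ := fun n => 1 / ((n : ℝ) + 1) with hδ
  have hδ0 : ∀ n, 0 < δ n := fun n => by rw [hδ]; positivity
  have hδt : Tendsto δ atTop (𝓝 0) := tendsto_one_div_add_atTop_nhds_zero_nat
  have hen : Continuous en := by
    unfold en
    exact Real.continuous_sqrt.comp (by fun_prop)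
  have hm : Measurable (fun x => ‖(u : R3 → S2) x‖ ^ 2 / en x) :=
    ((ts0 u).norm.pow 2).measurable.div hen.measurable
  have hnn : ∀ x, 0 ≤ ‖(u : R3 → S2) x‖ ^ 2 / en x := fun x =>
    div_nonneg (sq_nonneg _) (Real.sqrt_nonneg _)
  have hfat : ∀ β : ℝ, 0 < β → ∫⁻ x, ENNReal.ofReal (‖(u : R3 → S2) x‖ ^ 2 / en x) ≤
      ENNReal.ofReal (((∫ x, ∑ k, ‖Dm A k u x‖ ^ 2) + β ^ 2 * ∫ x, ‖(u : R3 → S2) x‖ ^ 2) / (2 * β)) := by
    intro β hβ
    have h0 : ∀ᵐ x : R3, x ≠ 0 := by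
      rw [ae_iff]
      simp
    have h1 : ∀ᵐ x : R3, ENNReal.ofReal (‖(u : R3 → S2) x‖ ^ 2 / en x) =
        liminf (fun n => ENNReal.ofReal ((qd (δ n) x) ^ (-(1 / 2) : ℝ) * ‖(u : R3 → S2) x‖ ^ 2)) atTop := by
      filter_upwards [h0] with x hx
      have h2 : 0 < ∑ k, x k ^ 2 := by
        obtain ⟨k, hk⟩ := Function.ne_iff.mp hx
        have h3 : 0 < x k ^ 2 := by
          have : x k ≠ 0 := hk
          positivity
        exact lt_of_lt_of_le h3 (Finset.single_le_sum (f := fun k => x k ^ 2) (fun _ _ => sq_nonneg _) (Finset.mem_univ k))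
      have h4 : Tendsto (fun n => (qd (δ n) x) ^ (-(1 / 2) : ℝ) * ‖(u : R3 → S2) x‖ ^ 2) atTop
          (𝓝 ((∑ k, x k ^ 2) ^ (-(1 / 2) : ℝ) * ‖(u : R3 → S2) x‖ ^ 2)) := by
        apply Tendsto.mul_const
        have h5 : Tendsto (fun n => qd (δ n) x) atTop (𝓝 (∑ k, x k ^ 2)) := by
          unfold qd
          have := (tendsto_const_nhds (x := ∑ k, x k ^ 2) (f := atTop (α := ℕ))).add hδt
          simpa using this
        exact h5.rpow_const (Or.inl h2.ne')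
      have h6 : (∑ k, x k ^ 2) ^ (-(1 / 2) : ℝ) * ‖(u : R3 → S2) x‖ ^ 2 = ‖(u : R3 → S2) x‖ ^ 2 / en x := by
        unfold en
        rw [Real.sqrt_eq_rpow, Real.rpow_neg h2.le]
        exact (mul_comm _ _).trans (div_eq_mul_inv _ _).symm
      rw [h6] at h4
      exact (((ENNReal.continuous_ofReal.tendsto _).comp h4).liminf_eq).symm
    rw [lintegral_congr_ae h1]
    refine (lintegral_liminf_le ?_).trans ?_
    · intro n
      have hc : Continuous (fun x => (qd (δ n) x) ^ (-(1 / 2) : ℝ) * ‖(u : R3 → S2) x‖ ^ 2) :=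
        ((qd_cont (δ n)).rpow_const (fun x => Or.inl (qd_pos (δ n) (hδ0 n) x).ne')).mul ((ts0 u).norm.pow 2)
      exact hc.measurable.ennreal_ofReal
    · apply liminf_le_of_le (by isBoundedDefault)
      intro b hb
      obtain ⟨n, hn⟩ := hb.exists
      refine hn.trans ?_
      have iw : Integrable (fun x => (qd (δ n) x) ^ (-(1 / 2) : ℝ) * ‖(u : R3 → S2) x‖ ^ 2) := by
        apply int_mul u
        · exact ((qd_cont (δ n)).rpow_const (fun x => Or.inl (qd_pos (δ n) (hδ0 n) x).ne')).mul ((ts0 u).norm.pow 2)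
        · intro x hx; simp [hx]
      rw [← ofReal_integral_eq_lintegral_ofReal iw (Eventually.of_forall (fun x => by
        have := qd_pos (δ n) (hδ0 n) x
        positivity))]
      apply ENNReal.ofReal_le_ofReal
      rw [le_div_iff₀ (by positivity)]
      have := coul_reg A hA u β (δ n) hβ.le (hδ0 n)
      linarith
  have hint : Integrable (fun x => ‖(u : R3 → S2) x‖ ^ 2 / en x) := by
    refine ⟨hm.aestronglyMeasurable, ?_⟩
    rw [hasFiniteIntegral_iff_ofReal (Eventually.of_forall hnn)]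
    exact lt_of_le_of_lt (hfat 1 one_pos) ENNReal.ofReal_lt_top
  refine ⟨hint, ?_⟩
  intro β hβ
  have hKn : 0 ≤ ∫ x, ∑ k, ‖Dm A k u x‖ ^ 2 :=
    integral_nonneg (fun x => Finset.sum_nonneg (fun _ _ => sq_nonneg _))
  have hun : 0 ≤ ∫ x, ‖(u : R3 → S2) x‖ ^ 2 := integral_nonneg (fun x => sq_nonneg _)
  rcases hβ.eq_or_lt with h0 | hpos
  · rw [← h0]
    simpa using hKn
  have h1 := hfat β hpos
  rw [← ofReal_integral_eq_lintegral_ofReal hint (Eventually.of_forall hnn)] at h1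
  have h2 := (ENNReal.ofReal_le_ofReal_iff (by positivity)).mp h1
  rw [le_div_iff₀ (by positivity)] at h2
  linarith

end Pool.Agent.Helper20.SM
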