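import Mathlib

set_option autoImplicit false

open MeasureTheory Set Function
open scoped BigOperators ENNReal

namespace Pool.Agent.Helper20.SM

/-- Three dimensional space with the product structure. -/
abbrev R3 := Fin 3 → ℝ

/-- Lebesgue measure on the unit interval. -/
noncomputable def m1 : Measure ℝ := volume.restrict (Icc (0 : ℝ) 1)

/-- Lebesgue measure on the unit cube. -/
noncomputable def m3 : Measure R3 := Measure.pi (fun _ => m1)

instance : IsProbabilityMeasure m1 := ⟨by simp [m1]⟩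

instance : IsProbabilityMeasure m3 := by unfold m3; infer_instance

theorem m3_eq : m3 = volume.restrict (Set.pi univ (fun _ : Fin 3 => Icc (0 : ℝ) 1)) := by
  unfold m3 m1
  rw [← Measure.restrict_pi_pi, volume_pi]

theorem ae_m3 : ∀ᵐ x ∂m3, ∀ i, x i ∈ Icc (0 : ℝ) 1 := by
  rw [m3_eq]
  have h := ae_restrict_mem (μ := (volume : Measure R3))
    (MeasurableSet.univ_pi (fun i : Fin 3 => measurableSet_Icc (a := (0 : ℝ)) (b := 1)))
  filter_upwards [h] with x hx i
  exact hx i (mem_univ i)

/-- Mixing the coordinates of two points preserves the product measure. -/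
theorem mix_preserving (S : Finset (Fin 3)) :
    MeasurePreserving (fun p : R3 × R3 => (fun i => if i ∈ S then p.2 i else p.1 i : R3))
      (m3.prod m3) m3 := by
  have h1 := (measurePreserving_arrowProdEquivProdArrow ℝ ℝ (Fin 3) (fun _ => m1) (fun _ => m1)).symm
  have h2 : MeasurePreserving (fun (a : Fin 3 → ℝ × ℝ) i => if i ∈ S then (a i).2 else (a i).1)
      (Measure.pi (fun _ => m1.prod m1)) (Measure.pi (fun _ => m1)) := by
    have := measurePreserving_pi (fun _ : Fin 3 => m1.prod m1) (fun _ : Fin 3 => m1)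
      (f := fun i (a : ℝ × ℝ) => if i ∈ S then a.2 else a.1) (by
        intro i
        by_cases hi : i ∈ S
        · simp only [hi, if_true]
          exact measurePreserving_snd
        · simp only [hi, if_false]
          exact measurePreserving_fst)
    exact this
  have h3 := h2.comp h1
  exact h3

variable {E : Type} [NormedAddCommGroup E] [NormedSpace ℝ E] [CompleteSpace E]

theorem line_diff (F : R3 → E) (hF : ContDiff ℝ 1 F) (w : R3) (k : Fin 3) (s t : ℝ)
    (hs : s ∈ Icc (0 : ℝ) 1) (ht : t ∈ Icc (0 : ℝ) 1) :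
    ‖F (update w k s) - F (update w k t)‖ₑ ≤
      ∫⁻ τ, ‖fderiv ℝ F (update w k τ) (Pi.single k 1)‖ₑ ∂m1 := by
  have hd : ∀ τ : ℝ, HasDerivAt (fun τ => F (update w k τ))
      (fderiv ℝ F (update w k τ) (Pi.single k 1)) τ := by
    intro τ
    have h1 : HasFDerivAt F (fderiv ℝ F (update w k τ)) (update w k τ) :=
      ((hF.differentiable (by simp)) _).hasFDerivAt
    exact h1.comp_hasDerivAt τ (hasDerivAt_update w k τ)
  have hc : Continuous (fun τ : ℝ => fderiv ℝ F (update w k τ) (Pi.single k 1)) := by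
    have h1 : Continuous (fun x => fderiv ℝ F x (Pi.single k 1)) :=
      (hF.continuous_fderiv (by simp)).clm_apply continuous_const
    exact h1.comp (continuous_const.update k continuous_id)
  have h2 : F (update w k s) - F (update w k t) =
      ∫ τ in t..s, fderiv ℝ F (update w k τ) (Pi.single k 1) := by
    rw [intervalIntegral.integral_eq_sub_of_hasDerivAt (fun τ _ => hd τ)
      (hc.intervalIntegrable _ _)]
  rw [h2]
  have h3 : ‖∫ τ in t..s, fderiv ℝ F (update w k τ) (Pi.single k 1)‖ₑ ≤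
      ∫⁻ τ in uIoc t s, ‖fderiv ℝ F (update w k τ) (Pi.single k 1)‖ₑ := by
    have h4 : ‖∫ τ in t..s, fderiv ℝ F (update w k τ) (Pi.single k 1)‖ₑ =
        ‖∫ τ in uIoc t s, fderiv ℝ F (update w k τ) (Pi.single k 1)‖ₑ := by
      rw [← ofReal_norm, ← ofReal_norm,
        intervalIntegral.norm_integral_eq_norm_integral_uIoc]
    rw [h4]
    exact enorm_integral_le_lintegral_enorm _
  refine h3.trans ?_
  unfold m1
  apply lintegral_mono_set
  intro x hx
  have := uIoc_subset_uIcc hx
  rw [mem_uIcc] at this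
  rcases this with h | h
  · exact ⟨ht.1.trans h.1, h.2.trans hs.2⟩
  · exact ⟨hs.1.trans h.1, h.2.trans ht.2⟩

/-- The one dimensional Sobolev bound along a coordinate line. -/
theorem line_sob (F : R3 → E) (hF : ContDiff ℝ 1 F) (w : R3) (k : Fin 3)
    (hs : w k ∈ Icc (0 : ℝ) 1) :
    ‖F w‖ₑ ≤ ∫⁻ τ, (‖F (update w k τ)‖ₑ +
      ∑ j, ‖fderiv ℝ F (update w k τ) (Pi.single j 1)‖ₑ) ∂m1 := by
  have hm : ∀ τ ∈ Icc (0 : ℝ) 1, ‖F w‖ₑ ≤ ‖F (update w k τ)‖ₑ +
      ∫⁻ τ, ‖fderiv ℝ F (update w k τ) (Pi.single k 1)‖ₑ ∂m1 := by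
    intro τ hτ
    have h1 := line_diff F hF w k (w k) τ hs hτ
    rw [update_eq_self] at h1
    have h2 : F w = F (update w k τ) + (F w - F (update w k τ)) := by abel
    calc ‖F w‖ₑ = ‖F (update w k τ) + (F w - F (update w k τ))‖ₑ := by rw [← h2]
      _ ≤ ‖F (update w k τ)‖ₑ + ‖F w - F (update w k τ)‖ₑ := enorm_add_le _ _
      _ ≤ _ := by gcongr
  have hcont : ∀ j, Continuous (fun τ : ℝ => fderiv ℝ F (update w k τ) (Pi.single j 1)) := by
    intro j
    have h1 : Continuous (fun x => fderiv ℝ F x (Pi.single j 1)) :=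
      (hF.continuous_fderiv (by simp)).clm_apply continuous_const
    exact h1.comp (continuous_const.update k continuous_id)
  have hcF : Continuous (fun τ : ℝ => F (update w k τ)) :=
    hF.continuous.comp (continuous_const.update k continuous_id)
  calc ‖F w‖ₑ = ∫⁻ τ, ‖F w‖ₑ ∂m1 := by simp
    _ ≤ ∫⁻ τ, (‖F (update w k τ)‖ₑ +
      ∫⁻ τ, ‖fderiv ℝ F (update w k τ) (Pi.single k 1)‖ₑ ∂m1) ∂m1 := by
        apply lintegral_mono_ae
        have h := ae_restrict_mem (μ := (volume : Measure ℝ)) (measurableSet_Icc (a := (0 : ℝ)) (b := 1))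
        unfold m1
        filter_upwards [h] with τ hτ
        exact hm τ hτ
    _ = (∫⁻ τ, ‖F (update w k τ)‖ₑ ∂m1) +
      ∫⁻ τ, ‖fderiv ℝ F (update w k τ) (Pi.single k 1)‖ₑ ∂m1 := by
        rw [lintegral_add_right _ measurable_const]
        simp
    _ = ∫⁻ τ, (‖F (update w k τ)‖ₑ +
      ‖fderiv ℝ F (update w k τ) (Pi.single k 1)‖ₑ) ∂m1 := by
        rw [lintegral_add_left hcF.enorm.measurable]
    _ ≤ _ := by
        apply lintegral_mono
        intro τ
        dsimp only
        gcongr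
        exact Finset.single_le_sum (f := fun j => ‖fderiv ℝ F (update w k τ) (Pi.single j 1)‖ₑ)
          (fun _ _ => zero_le) (Finset.mem_univ k)

/-- Sobolev (endpoint) inequality on the unit cube. -/
theorem cube_sob (F : R3 → E) (hF : ContDiff ℝ 1 F) :
    ∫⁻ x, ‖F x‖ₑ ^ (3 / 2 : ℝ) ∂m3 ≤
      (∫⁻ x, (‖F x‖ₑ + ∑ j, ‖fderiv ℝ F x (Pi.single j 1)‖ₑ) ∂m3) ^ (3 / 2 : ℝ) := by
  set f : R3 → ℝ≥0∞ := fun x => ‖F x‖ₑ + ∑ j, ‖fderiv ℝ F x (Pi.single j 1)‖ₑ with hf
  have hfm : Measurable f := by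
    have h1 : Continuous f := by
      have h2 : ∀ j, Continuous (fun x => ‖fderiv ℝ F x (Pi.single j 1)‖ₑ) := fun j =>
        ((hF.continuous_fderiv (by simp)).clm_apply continuous_const).enorm
      exact hF.continuous.enorm.add (continuous_finsetSum _ (fun j _ => h2 j))
    exact h1.measurable
  have hp : Real.HolderConjugate (Fintype.card (Fin 3)) (3 / 2 : ℝ) := by
    rw [Real.holderConjugate_iff]
    norm_num
  have h1 := lintegral_prod_lintegral_pow_le (fun _ : Fin 3 => m1) hp hfm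
  refine le_trans ?_ h1
  show _ ≤ ∫⁻ x, _ ∂m3
  apply lintegral_mono_ae
  filter_upwards [ae_m3] with x hx
  have h2 : ∀ i : Fin 3, ‖F x‖ₑ ^ (1 / 2 : ℝ) ≤ (∫⁻ xᵢ, f (update x i xᵢ) ∂m1) ^ ((1 : ℝ) / ((Fintype.card (Fin 3) : ℝ) - 1)) := by
    intro i
    have h3 := line_sob F hF x i (hx i)
    have h4 : ((1 : ℝ) / ((Fintype.card (Fin 3) : ℝ) - 1)) = 1 / 2 := by norm_num
    rw [h4]
    exact ENNReal.rpow_le_rpow h3 (by norm_num)
  calc ‖F x‖ₑ ^ (3 / 2 : ℝ) = ∏ _i : Fin 3, ‖F x‖ₑ ^ (1 / 2 : ℝ) := by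
        rw [Finset.prod_const, ← ENNReal.rpow_natCast, ← ENNReal.rpow_mul]
        norm_num
    _ ≤ _ := Finset.prod_le_prod' (fun i _ => h2 i)

/-- One step of the telescoping used in the Poincare inequality. -/
theorem poincare_step (F : R3 → E) (hF : ContDiff ℝ 1 F) (S : Finset (Fin 3)) (k : Fin 3)
    (hk : k ∉ S) :
    ∫⁻ p : R3 × R3, ‖F (fun i => if i ∈ S then p.2 i else p.1 i) -
      F (fun i => if i ∈ insert k S then p.2 i else p.1 i)‖ₑ ∂(m3.prod m3) ≤
      ∫⁻ x, ‖fderiv ℝ F x (Pi.single k 1)‖ₑ ∂m3 := by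
  -- the integrand along the line, averaged
  have hcont : Continuous (fun x => ‖fderiv ℝ F x (Pi.single k 1)‖ₑ) :=
    ((hF.continuous_fderiv (by simp)).clm_apply continuous_const).enorm
  set G : R3 → ℝ≥0∞ := fun x => ‖fderiv ℝ F x (Pi.single k 1)‖ₑ with hG
  have hGm : Measurable G := hcont.measurable
  set g : R3 → ℝ≥0∞ := fun w => ∫⁻ y, G (fun i => if i ∈ ({k} : Finset (Fin 3)) then y i else w i) ∂m3
    with hg
  have hgm : Measurable g := by
    apply Measurable.lintegral_prod_right' (f := fun p : R3 × R3 => G (fun i => if i ∈ ({k} : Finset (Fin 3)) then p.2 i else p.1 i))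
    exact hGm.comp (mix_preserving {k}).measurable
  have hg1 : ∀ w, g w = ∫⁻ τ, G (update w k τ) ∂m1 := by
    intro w
    have h1 : MeasurePreserving (fun y : R3 => y k) m3 m1 := by
      exact measurePreserving_eval (fun _ : Fin 3 => m1) k
    have h2 : Measurable (fun τ : ℝ => G (update w k τ)) :=
      (hcont.comp (continuous_const.update k continuous_id)).measurable
    rw [← h1.lintegral_comp h2]
    apply lintegral_congr
    intro y
    congr 1
    funext i
    by_cases hi : i = k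
    · subst hi; simp
    · simp [hi]
  have hg2 : ∫⁻ w, g w ∂m3 = ∫⁻ x, G x ∂m3 := by
    have h1 := (mix_preserving {k}).lintegral_comp hGm
    have h2 := lintegral_prod (μ := m3) (ν := m3)
      (fun p : R3 × R3 => G (fun i => if i ∈ ({k} : Finset (Fin 3)) then p.2 i else p.1 i))
      ((hGm.comp (mix_preserving {k}).measurable).aemeasurable)
    rw [← h1, h2]
  rw [← hg2, ← (mix_preserving S).lintegral_comp hgm]
  apply lintegral_mono_ae
  have h3 : ∀ᵐ p ∂(m3.prod m3), (∀ i, p.1 i ∈ Icc (0 : ℝ) 1) ∧ ∀ i, p.2 i ∈ Icc (0 : ℝ) 1 := by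
    have ha : ∀ᵐ p ∂(m3.prod m3), (∀ i, p.1 i ∈ Icc (0 : ℝ) 1) :=
      (measurePreserving_fst (μ := m3) (ν := m3)).quasiMeasurePreserving.ae ae_m3
    have hb : ∀ᵐ p ∂(m3.prod m3), (∀ i, p.2 i ∈ Icc (0 : ℝ) 1) :=
      (measurePreserving_snd (μ := m3) (ν := m3)).quasiMeasurePreserving.ae ae_m3
    filter_upwards [ha, hb] with p h1 h2
    exact ⟨h1, h2⟩
  filter_upwards [h3] with p hp
  rw [hg1]
  set w : R3 := fun i => if i ∈ S then p.2 i else p.1 i with hw
  have h4 : w = update w k (p.1 k) := by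
    funext i
    by_cases hi : i = k
    · subst hi; simp [hw, hk]
    · simp [hi]
  have h5 : (fun i => if i ∈ insert k S then p.2 i else p.1 i : R3) = update w k (p.2 k) := by
    funext i
    by_cases hi : i = k
    · subst hi; simp
    · simp [hi, hw, Finset.mem_insert]
  rw [h5]
  calc ‖F w - F (update w k (p.2 k))‖ₑ = ‖F (update w k (p.1 k)) - F (update w k (p.2 k))‖ₑ := by
        rw [← h4]
    _ ≤ _ := line_diff F hF w k _ _ (hp.1 k) (hp.2 k)

/-- L1 Poincare inequality on the unit cube. -/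
theorem cube_poincare (F : R3 → E) (hF : ContDiff ℝ 1 F) :
    ∫⁻ x, ‖F x - ∫ y, F y ∂m3‖ₑ ∂m3 ≤ ∑ k, ∫⁻ x, ‖fderiv ℝ F x (Pi.single k 1)‖ₑ ∂m3 := by
  have hFi : Integrable F m3 := by
    rw [m3_eq]
    exact (hF.continuous.continuousOn).integrableOn_compact
      (isCompact_univ_pi (fun _ => isCompact_Icc))
  have h1 : ∀ x, ‖F x - ∫ y, F y ∂m3‖ₑ ≤ ∫⁻ y, ‖F x - F y‖ₑ ∂m3 := by
    intro x
    have h2 : F x - ∫ y, F y ∂m3 = ∫ y, (F x - F y) ∂m3 := by
      rw [integral_sub (integrable_const _) hFi]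
      simp
    rw [h2]
    exact enorm_integral_le_lintegral_enorm _
  have hm : Measurable (fun p : R3 × R3 => ‖F p.1 - F p.2‖ₑ) :=
    ((hF.continuous.comp continuous_fst).sub (hF.continuous.comp continuous_snd)).enorm.measurable
  calc ∫⁻ x, ‖F x - ∫ y, F y ∂m3‖ₑ ∂m3 ≤ ∫⁻ x, ∫⁻ y, ‖F x - F y‖ₑ ∂m3 ∂m3 :=
        lintegral_mono h1
    _ = ∫⁻ p : R3 × R3, ‖F p.1 - F p.2‖ₑ ∂(m3.prod m3) := by
        rw [lintegral_prod _ hm.aemeasurable]
    _ ≤ ∫⁻ p : R3 × R3, (‖F (fun i => if i ∈ (∅ : Finset (Fin 3)) then p.2 i else p.1 i) -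
          F (fun i => if i ∈ insert 0 (∅ : Finset (Fin 3)) then p.2 i else p.1 i)‖ₑ +
        (‖F (fun i => if i ∈ ({0} : Finset (Fin 3)) then p.2 i else p.1 i) -
          F (fun i => if i ∈ insert 1 ({0} : Finset (Fin 3)) then p.2 i else p.1 i)‖ₑ +
        ‖F (fun i => if i ∈ ({1, 0} : Finset (Fin 3)) then p.2 i else p.1 i) -
          F (fun i => if i ∈ insert 2 ({1, 0} : Finset (Fin 3)) then p.2 i else p.1 i)‖ₑ)) ∂(m3.prod m3) := by
        apply lintegral_mono
        intro p
        dsimp only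
        have e1 : (fun i => if i ∈ (∅ : Finset (Fin 3)) then p.2 i else p.1 i : R3) = p.1 := by
          funext i; simp
        have e2 : (fun i => if i ∈ insert 2 ({1, 0} : Finset (Fin 3)) then p.2 i else p.1 i : R3) = p.2 := by
          funext i; fin_cases i <;> simp
        have e3 : (insert 0 (∅ : Finset (Fin 3))) = {0} := rfl
        have e4 : (insert 1 ({0} : Finset (Fin 3))) = {1, 0} := rfl
        rw [e1, e2, e3, e4]
        set a : E := F (fun i => if i ∈ ({0} : Finset (Fin 3)) then p.2 i else p.1 i)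
        set b : E := F (fun i => if i ∈ ({1, 0} : Finset (Fin 3)) then p.2 i else p.1 i)
        have h3 : F p.1 - F p.2 = (F p.1 - a) + ((a - b) + (b - F p.2)) := by abel
        rw [h3]
        refine (enorm_add_le _ _).trans ?_
        gcongr
        exact enorm_add_le _ _
    _ = _ := by
        have hmS : ∀ S T : Finset (Fin 3), Measurable (fun p : R3 × R3 =>
            ‖F (fun i => if i ∈ S then p.2 i else p.1 i) -
              F (fun i => if i ∈ T then p.2 i else p.1 i)‖ₑ) := by
          intro S T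
          have hS : ∀ S : Finset (Fin 3), Continuous (fun p : R3 × R3 =>
              (fun i => if i ∈ S then p.2 i else p.1 i : R3)) := by
            intro S
            apply continuous_pi
            intro i
            by_cases hi : i ∈ S
            · simp only [hi, if_true]
              exact (continuous_apply i).comp continuous_snd
            · simp only [hi, if_false]
              exact (continuous_apply i).comp continuous_fst
          exact ((hF.continuous.comp (hS S)).sub (hF.continuous.comp (hS T))).enorm.measurable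
        rw [lintegral_add_left (hmS _ _), lintegral_add_left (hmS _ _)]
    _ ≤ _ := by
        rw [Fin.sum_univ_three, add_assoc]
        gcongr
        · exact poincare_step F hF ∅ 0 (by simp)
        · exact poincare_step F hF {0} 1 (by simp)
        · exact poincare_step F hF {1, 0} 2 (by simp)

end Pool.Agent.Helper20.SM
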