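import Mathlib

set_option autoImplicit false

open MeasureTheory Set Function Filter
open scoped BigOperators ENNReal Topology ComplexConjugate

namespace Pool.Agent.Helper20.SM

section Exc

variable {Ω : Type} [TopologicalSpace Ω] [MeasurableSpace Ω] [BorelSpace Ω]
  [SecondCountableTopology Ω] [LocallyCompactSpace Ω] [T2Space Ω]
  (μ : Measure Ω) [SigmaFinite μ] [IsLocallyFiniteMeasure μ] {n : ℕ}

/-- Fubini for one coordinate. -/
theorem fub (i : Fin (n + 1)) (F : (Fin (n + 1) → Ω) → ℂ) (hF : Continuous F) (hFs : HasCompactSupport F) :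
    ∫ ω, F ω ∂(Measure.pi (fun _ => μ)) =
      ∫ ω' : Fin n → Ω, (∫ y, F (Fin.insertNth i y ω') ∂μ) ∂(Measure.pi (fun _ => μ)) := by
  have hi : Integrable F (Measure.pi (fun _ => μ)) := hF.integrable_of_hasCompactSupport hFs
  have h1 := (measurePreserving_piFinSuccAbove (fun _ : Fin (n + 1) => μ) i).symm
  have h2 := h1.integral_comp' F
  rw [← h2]
  have h3 : Integrable (fun p : Ω × (Fin n → Ω) => F ((MeasurableEquiv.piFinSuccAbove (fun _ => Ω) i).symm p))
      (μ.prod (Measure.pi (fun _ => μ))) := by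
    exact (h1.integrable_comp_emb (MeasurableEquiv.measurableEmbedding _)).mpr hi
  rw [integral_prod_symm _ h3]
  rfl

/-- One-particle overlap. -/
noncomputable def ov (f : Ω → ℂ) (ψ : (Fin (n + 1) → Ω) → ℂ) (i : Fin (n + 1)) (ω : Fin (n + 1) → Ω) : ℂ :=
  ∫ y, conj (f y) * ψ (update ω i y) ∂μ

omit [LocallyCompactSpace Ω] [T2Space Ω] [MeasurableSpace Ω] [BorelSpace Ω] [SecondCountableTopology Ω] in
theorem upd_cont (i : Fin (n + 1)) : Continuous (fun p : Ω × (Fin (n + 1) → Ω) => update p.2 i p.1) := by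
  exact continuous_snd.update i continuous_fst

omit [T2Space Ω] [SigmaFinite μ] in
theorem ov_cont (f : Ω → ℂ) (hf : Continuous f) (hfs : HasCompactSupport f)
    (ψ : (Fin (n + 1) → Ω) → ℂ) (hψ : Continuous ψ) (i : Fin (n + 1)) : Continuous (ov μ f ψ i) := by
  have h1 : ∀ ω, ov μ f ψ i ω = ∫ y in tsupport f, conj (f y) * ψ (update ω i y) ∂μ := by
    intro ω
    unfold ov
    symm
    apply setIntegral_eq_integral_of_forall_compl_eq_zero
    intro y hy
    rw [image_eq_zero_of_notMem_tsupport hy]
    simp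
  have h2 : Continuous (fun ω : Fin (n + 1) → Ω => ∫ y in tsupport f, conj (f y) * ψ (update ω i y) ∂μ) := by
    apply continuous_parametric_integral_of_continuous (f := fun (ω : Fin (n + 1) → Ω) (y : Ω) => conj (f y) * ψ (update ω i y))
    · have h3 : Continuous (fun p : (Fin (n + 1) → Ω) × Ω => conj (f p.2) * ψ (update p.1 i p.2)) := by
        apply Continuous.mul
        · exact Complex.continuous_conj.comp (hf.comp continuous_snd)
        · exact hψ.comp (continuous_fst.update i continuous_snd)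
      exact h3
    · exact hfs
  have h3 : ov μ f ψ i = fun ω => ∫ y in tsupport f, conj (f y) * ψ (update ω i y) ∂μ := funext h1
  rw [h3]
  exact h2

omit [TopologicalSpace Ω] [BorelSpace Ω] [SecondCountableTopology Ω] [LocallyCompactSpace Ω] [T2Space Ω]
  [SigmaFinite μ] [IsLocallyFiniteMeasure μ] in
theorem ov_insert (f : Ω → ℂ) (ψ : (Fin (n + 1) → Ω) → ℂ) (i : Fin (n + 1)) (y : Ω) (ω' : Fin n → Ω) :
    ov μ f ψ i (Fin.insertNth i y ω') = ∫ t, conj (f t) * ψ (Fin.insertNth i t ω') ∂μ := by
  unfold ov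
  congr 1
  funext t
  congr 2
  funext j
  by_cases hj : j = i
  · subst hj; simp
  · obtain ⟨k, rfl⟩ := Fin.exists_succAbove_eq hj
    simp [hj]

omit [MeasurableSpace Ω] [BorelSpace Ω] [SecondCountableTopology Ω] [LocallyCompactSpace Ω] in
theorem supp_aux (f : Ω → ℂ) (hfs : HasCompactSupport f)
    (ψ : (Fin (n + 1) → Ω) → ℂ) (hψs : HasCompactSupport ψ) (i : Fin (n + 1)) (F : (Fin (n + 1) → Ω) → ℂ)
    (hF : ∀ ω, F ω ≠ 0 → f (ω i) ≠ 0 ∧ ∃ y, ψ (update ω i y) ≠ 0) : HasCompactSupport F := by
  have hK : IsCompact ((fun p : Ω × (Fin (n + 1) → Ω) => update p.2 i p.1) '' (tsupport f ×ˢ tsupport ψ)) :=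
    (IsCompact.prod hfs hψs).image (upd_cont i)
  apply HasCompactSupport.of_support_subset_isCompact hK
  intro ω hω
  obtain ⟨h1, y, h2⟩ := hF ω hω
  refine ⟨(ω i, update ω i y), ⟨subset_tsupport _ h1, subset_tsupport _ h2⟩, ?_⟩
  simp

/-- The Pauli principle bound on one-particle occupation. -/
theorem exclusion (f : Ω → ℂ) (hf : Continuous f) (hfs : HasCompactSupport f)
    (ψ : (Fin (n + 1) → Ω) → ℂ) (hψ : Continuous ψ) (hψs : HasCompactSupport ψ)
    (hanti : ∀ i j : Fin (n + 1), i ≠ j → ∀ ω, ψ (ω ∘ Equiv.swap i j) = - ψ ω)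
    (hF0 : 0 < ∫ y, ‖f y‖ ^ 2 ∂μ) :
    ∑ i : Fin (n + 1), ∫ ω' : Fin n → Ω, ‖∫ y, conj (f y) * ψ (Fin.insertNth i y ω') ∂μ‖ ^ 2
        ∂(Measure.pi (fun _ => μ)) ≤
      (∫ y, ‖f y‖ ^ 2 ∂μ) * ∫ ω, ‖ψ ω‖ ^ 2 ∂(Measure.pi (fun _ => μ)) := by
  classical
  set ν : Measure (Fin (n + 1) → Ω) := Measure.pi (fun _ => μ) with hν
  set N : ℝ := ∫ y, ‖f y‖ ^ 2 ∂μ with hN
  -- the components of the comparison function
  set g : Fin (n + 1) → (Fin (n + 1) → Ω) → ℂ := fun i ω => f (ω i) * ov μ f ψ i ω with hg
  have hgc : ∀ i, Continuous (g i) := fun i =>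
    (hf.comp (continuous_apply i)).mul (ov_cont μ f hf hfs ψ hψ i)
  have hgsup : ∀ i ω, g i ω ≠ 0 → f (ω i) ≠ 0 ∧ ∃ y, ψ (update ω i y) ≠ 0 := by
    intro i ω h
    refine ⟨left_ne_zero_of_mul h, ?_⟩
    by_contra hcon
    push Not at hcon
    apply right_ne_zero_of_mul h
    unfold ov
    simp [hcon]
  have hgs : ∀ i, HasCompactSupport (g i) := fun i => supp_aux f hfs ψ hψs i (g i) (hgsup i)
  -- products are integrable
  have hmulc : ∀ a b : (Fin (n + 1) → Ω) → ℂ, HasCompactSupport a →
      HasCompactSupport (fun ω => conj (a ω) * b ω) := by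
    intro a b ha
    apply ha.mono
    intro ω hω
    rw [mem_support] at hω ⊢
    intro h
    apply hω
    simp [h]
  have hint : ∀ a b : (Fin (n + 1) → Ω) → ℂ, Continuous a → Continuous b → HasCompactSupport a →
      Integrable (fun ω => conj (a ω) * b ω) ν := by
    intro a b ha hb has
    exact ((Complex.continuous_conj.comp ha).mul hb).integrable_of_hasCompactSupport (hmulc a b has)
  -- the occupation numbers
  set α : Fin (n + 1) → (Fin n → Ω) → ℂ := fun i ω' => ∫ y, conj (f y) * ψ (Fin.insertNth i y ω') ∂μ with hα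
  have hov : ∀ i y ω', ov μ f ψ i (Fin.insertNth i y ω') = α i ω' := fun i y ω' => ov_insert μ f ψ i y ω'
  set S : Fin (n + 1) → ℝ := fun i => ∫ ω' : Fin n → Ω, ‖α i ω'‖ ^ 2 ∂(Measure.pi (fun _ => μ)) with hS
  -- overlap with psi
  have h1 : ∀ i, ∫ ω, conj (g i ω) * ψ ω ∂ν = ((S i : ℝ) : ℂ) := by
    intro i
    rw [hν, fub μ i (fun ω => conj (g i ω) * ψ ω) ((Complex.continuous_conj.comp (hgc i)).mul hψ) (hmulc _ _ (hgs i))]
    rw [hS]
    dsimp only
    rw [← integral_complex_ofReal]
    apply integral_congr_ae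
    filter_upwards with ω'
    have e1 : ∀ y, conj (g i (Fin.insertNth i y ω')) * ψ (Fin.insertNth i y ω') =
        conj (α i ω') * (conj (f y) * ψ (Fin.insertNth i y ω')) := by
      intro y
      simp only [hg, hov, Fin.insertNth_apply_same, map_mul]
      ring
    simp only [e1]
    rw [integral_const_mul]
    show conj (α i ω') * α i ω' = _
    rw [mul_comm, Complex.mul_conj, Complex.normSq_eq_norm_sq]
  -- diagonal terms
  have h2 : ∀ i, ∫ ω, conj (g i ω) * g i ω ∂ν = ((N * S i : ℝ) : ℂ) := by
    intro i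
    rw [hν, fub μ i (fun ω => conj (g i ω) * g i ω) ((Complex.continuous_conj.comp (hgc i)).mul (hgc i)) (hmulc _ _ (hgs i))]
    rw [hS]
    dsimp only
    have e1 : ∀ ω' y, conj (g i (Fin.insertNth i y ω')) * g i (Fin.insertNth i y ω') =
        ((‖α i ω'‖ ^ 2 : ℝ) : ℂ) * ((‖f y‖ ^ 2 : ℝ) : ℂ) := by
      intro ω' y
      simp only [hg, hov, Fin.insertNth_apply_same]
      rw [mul_comm, Complex.mul_conj, Complex.normSq_eq_norm_sq, norm_mul]
      push_cast
      ring
    have e2 : ∀ ω', ∫ y, conj (g i (Fin.insertNth i y ω')) * g i (Fin.insertNth i y ω') ∂μ =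
        ((‖α i ω'‖ ^ 2 * N : ℝ) : ℂ) := by
      intro ω'
      simp only [e1]
      rw [integral_const_mul, integral_complex_ofReal, ← Complex.ofReal_mul]
    simp only [e2]
    rw [integral_complex_ofReal, integral_mul_const, mul_comm]
  -- off-diagonal terms
  have h3 : ∀ i j, i ≠ j → ∫ ω, conj (g i ω) * g j ω ∂ν = 0 := by
    intro i j hij
    rw [hν, fub μ i (fun ω => conj (g i ω) * g j ω) ((Complex.continuous_conj.comp (hgc i)).mul (hgc j)) (hmulc _ _ (hgs i))]
    have hz : ∀ ω' : Fin n → Ω, ∫ y, conj (g i (Fin.insertNth i y ω')) * g j (Fin.insertNth i y ω') ∂μ = 0 := by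
      intro ω'
      obtain ⟨k, hk⟩ := Fin.exists_succAbove_eq hij.symm
      have e1 : ∀ y, conj (g i (Fin.insertNth i y ω')) * g j (Fin.insertNth i y ω') =
          (conj (α i ω') * f (ω' k)) * (conj (f y) * ov μ f ψ j (Fin.insertNth i y ω')) := by
        intro y
        simp only [hg, hov, Fin.insertNth_apply_same, map_mul]
        have : Fin.insertNth (α := fun _ => Ω) i y ω' j = ω' k := by
          rw [← hk]
          simp
        rw [this]
        ring
      simp only [e1]
      rw [integral_const_mul]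
      have e2 : ∫ y, conj (f y) * ov μ f ψ j (Fin.insertNth i y ω') ∂μ = 0 := by
        set h : Ω → Ω → ℂ := fun y y' => conj (f y) * (conj (f y') * ψ (update (Fin.insertNth i y ω') j y')) with hh
        have e3 : ∫ y, conj (f y) * ov μ f ψ j (Fin.insertNth i y ω') ∂μ = ∫ y, ∫ y', h y y' ∂μ ∂μ := by
          unfold ov
          congr 1
          funext y
          rw [← integral_const_mul]
        have hswap : ∀ y y', h y' y = - h y y' := by
          intro y y'
          simp only [hh]
          have e4 : update (Fin.insertNth (α := fun _ => Ω) i y' ω') j y =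
              (update (Fin.insertNth (α := fun _ => Ω) i y ω') j y') ∘ Equiv.swap i j := by
            funext l
            by_cases hl : l = i
            · subst hl
              simp [hij, Function.comp]
            · by_cases hl2 : l = j
              · subst hl2
                simp [Function.comp, hij]
              · obtain ⟨m, rfl⟩ := Fin.exists_succAbove_eq hl
                simp [Function.comp, hl2, Equiv.swap_apply_of_ne_of_ne hl hl2]
          rw [e4, hanti i j hij]
          ring
        have hci : Continuous (uncurry h) := by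
          have c1 : Continuous (fun p : Ω × Ω => conj (f p.1) * (conj (f p.2) *
              ψ (update (Fin.insertNth (α := fun _ => Ω) i p.1 ω') j p.2))) := by
            apply Continuous.mul (Complex.continuous_conj.comp (hf.comp continuous_fst))
            apply Continuous.mul (Complex.continuous_conj.comp (hf.comp continuous_snd))
            have hcc : Continuous (fun p : Ω × Ω => Fin.insertNth (α := fun _ => Ω) i p.1 ω') := by
              apply continuous_pi
              intro l
              by_cases hl : l = i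
              · subst hl
                simpa using continuous_fst
              · obtain ⟨m, rfl⟩ := Fin.exists_succAbove_eq hl
                simpa using continuous_const
            exact hψ.comp (hcc.update j continuous_snd)
          exact c1
        have hcs : HasCompactSupport (uncurry h) := by
          apply HasCompactSupport.of_support_subset_isCompact (IsCompact.prod hfs hfs)
          rintro ⟨y, y'⟩ hy
          have hy' : h y y' ≠ 0 := hy
          simp only [hh] at hy'
          have a1 : conj (f y) ≠ 0 := left_ne_zero_of_mul hy'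
          have a2 : conj (f y') ≠ 0 := left_ne_zero_of_mul (right_ne_zero_of_mul hy')
          refine ⟨subset_tsupport _ ?_, subset_tsupport _ ?_⟩
          · rw [mem_support]
            intro h0
            apply a1
            simp [h0]
          · rw [mem_support]
            intro h0
            apply a2
            simp [h0]
        have hii : Integrable (uncurry h) (μ.prod μ) := hci.integrable_of_hasCompactSupport hcs
        have e5 := integral_integral_swap hii
        have e6 : ∫ y, ∫ y', h y' y ∂μ ∂μ = - ∫ y, ∫ y', h y y' ∂μ ∂μ := by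
          have e8 : ∀ y, ∫ y', h y' y ∂μ = - ∫ y', h y y' ∂μ := by
            intro y
            rw [← integral_neg]
            apply integral_congr_ae
            filter_upwards with y'
            exact hswap y y'
          rw [← integral_neg]
          apply integral_congr_ae
          filter_upwards with y
          exact e8 y
        rw [e3]
        have e7 : ∫ y, ∫ y', h y y' ∂μ ∂μ = - ∫ y, ∫ y', h y y' ∂μ ∂μ := by
          conv_lhs => rw [e5]
          exact e6
        exact self_eq_neg.mp e7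
      rw [e2, mul_zero]
    simp only [hz]
    simp
  -- the square
  set D : (Fin (n + 1) → Ω) → ℂ := fun ω => (N : ℂ) * ψ ω - ∑ i, g i ω with hD
  have h4 : 0 ≤ (∫ ω, conj (D ω) * D ω ∂ν).re := by
    have e1 : ∀ ω, conj (D ω) * D ω = ((‖D ω‖ ^ 2 : ℝ) : ℂ) := by
      intro ω
      rw [mul_comm, Complex.mul_conj, Complex.normSq_eq_norm_sq]
    simp only [e1]
    rw [integral_complex_ofReal, Complex.ofReal_re]
    exact integral_nonneg (fun _ => sq_nonneg _)
  have hψψ : ∫ ω, conj (ψ ω) * ψ ω ∂ν = ((∫ ω, ‖ψ ω‖ ^ 2 ∂ν : ℝ) : ℂ) := by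
    rw [← integral_complex_ofReal]
    apply integral_congr_ae
    filter_upwards with ω
    rw [mul_comm, Complex.mul_conj, Complex.normSq_eq_norm_sq]
  have hψg : ∀ i, ∫ ω, conj (ψ ω) * g i ω ∂ν = ((S i : ℝ) : ℂ) := by
    intro i
    have e1 : ∫ ω, conj (ψ ω) * g i ω ∂ν = conj (∫ ω, conj (g i ω) * ψ ω ∂ν) := by
      rw [← integral_conj]
      apply integral_congr_ae
      filter_upwards with ω
      simp [mul_comm]
    rw [e1, h1, Complex.conj_ofReal]
  have iψψ := hint ψ ψ hψ hψ hψs
  have iψg : ∀ i, Integrable (fun ω => conj (ψ ω) * g i ω) ν := fun i => hint ψ (g i) hψ (hgc i) hψs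
  have igψ : ∀ i, Integrable (fun ω => conj (g i ω) * ψ ω) ν := fun i => hint (g i) ψ (hgc i) hψ (hgs i)
  have igg : ∀ i j, Integrable (fun ω => conj (g i ω) * g j ω) ν := fun i j =>
    hint (g i) (g j) (hgc i) (hgc j) (hgs i)
  have h5 : ∫ ω, conj (D ω) * D ω ∂ν = ((N ^ 2 * (∫ ω, ‖ψ ω‖ ^ 2 ∂ν) - N * ∑ i, S i : ℝ) : ℂ) := by
    have e1 : ∀ ω, conj (D ω) * D ω = (N : ℂ) ^ 2 * (conj (ψ ω) * ψ ω) -
        (N : ℂ) * (∑ i, conj (ψ ω) * g i ω) - (N : ℂ) * (∑ i, conj (g i ω) * ψ ω) +
        ∑ i, ∑ j, conj (g i ω) * g j ω := by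
      intro ω
      simp only [hD, map_sub, map_mul, map_sum, Complex.conj_ofReal]
      rw [← Finset.mul_sum, ← Finset.sum_mul]
      have : ∑ i, ∑ j, conj (g i ω) * g j ω = (∑ i, conj (g i ω)) * ∑ j, g j ω := by
        rw [Finset.sum_mul_sum]
      rw [this]
      ring
    simp only [e1]
    have j1 : Integrable (fun ω => (N : ℂ) ^ 2 * (conj (ψ ω) * ψ ω)) ν := iψψ.const_mul _
    have j2 : Integrable (fun ω => (N : ℂ) * (∑ i, conj (ψ ω) * g i ω)) ν :=
      (integrable_finsetSum _ (fun i _ => iψg i)).const_mul _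
    have j3 : Integrable (fun ω => (N : ℂ) * (∑ i, conj (g i ω) * ψ ω)) ν :=
      (integrable_finsetSum _ (fun i _ => igψ i)).const_mul _
    have j4 : Integrable (fun ω => ∑ i, ∑ j, conj (g i ω) * g j ω) ν :=
      integrable_finsetSum _ (fun i _ => integrable_finsetSum _ (fun j _ => igg i j))
    have j12 : Integrable (fun ω => (N : ℂ) ^ 2 * (conj (ψ ω) * ψ ω) - (N : ℂ) * (∑ i, conj (ψ ω) * g i ω)) ν :=
      j1.sub j2
    have j123 : Integrable (fun ω => (N : ℂ) ^ 2 * (conj (ψ ω) * ψ ω) - (N : ℂ) * (∑ i, conj (ψ ω) * g i ω) -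
        (N : ℂ) * (∑ i, conj (g i ω) * ψ ω)) ν := j12.sub j3
    rw [integral_add j123 j4, integral_sub j12 j3, integral_sub j1 j2, integral_const_mul,
      integral_const_mul, integral_const_mul, integral_finsetSum _ (fun i _ => iψg i),
      integral_finsetSum _ (fun i _ => igψ i),
      integral_finsetSum _ (fun i _ => integrable_finsetSum _ (fun j _ => igg i j))]
    simp only [hψψ, hψg, h1]
    have e2 : ∀ i, ∫ ω, ∑ j, conj (g i ω) * g j ω ∂ν = ((N * S i : ℝ) : ℂ) := by
      intro i
      rw [integral_finsetSum _ (fun j _ => igg i j), Finset.sum_eq_single i]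
      · exact h2 i
      · intro j _ hj
        exact h3 i j (Ne.symm hj)
      · intro h; exact absurd (Finset.mem_univ i) h
    simp only [e2]
    push_cast
    rw [← Finset.mul_sum]
    ring
  rw [h5, Complex.ofReal_re] at h4
  have h6 : N * ∑ i, S i ≤ N * (N * ∫ ω, ‖ψ ω‖ ^ 2 ∂ν) := by nlinarith
  exact le_of_mul_le_mul_left h6 hF0

end Exc

end Pool.Agent.Helper20.SM
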