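import Pool.Agent.Helper20.SMSob

set_option autoImplicit false

open MeasureTheory Set Function
open scoped BigOperators ENNReal

namespace Pool.Agent.Helper20.SM

/-- Two component spinors. -/
abbrev S2 := EuclideanSpace ℂ (Fin 2)

/-- The Gram matrix of three vectors in a two dimensional space is far from the identity. -/
theorem gram_far (w : Fin 3 → S2) :
    1 ≤ ∑ i, ∑ j, ‖(inner ℂ (w i) (w j) : ℂ) - (if i = j then 1 else 0)‖ := by
  let L : (Fin 3 → ℂ) →ₗ[ℂ] S2 := Fintype.linearCombination ℂ w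
  have hk : LinearMap.ker L ≠ ⊥ := by
    apply LinearMap.ker_ne_bot_of_finrank_lt
    simp
  obtain ⟨c, hc, hc0⟩ := (Submodule.ne_bot_iff _).mp hk
  have hL : ∑ j, c j • w j = 0 := by
    have := LinearMap.mem_ker.mp hc
    simpa [L, Fintype.linearCombination_apply] using this
  obtain ⟨i, _, hi⟩ := Finset.exists_max_image Finset.univ (fun i => ‖c i‖) ⟨0, Finset.mem_univ _⟩
  have hpos : 0 < ‖c i‖ := by
    obtain ⟨j, hj⟩ := Function.ne_iff.mp hc0
    have : 0 < ‖c j‖ := norm_pos_iff.mpr hj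
    exact lt_of_lt_of_le this (hi j (Finset.mem_univ j))
  have h1 : c i = - ∑ j, c j * ((inner ℂ (w i) (w j) : ℂ) - (if i = j then 1 else 0)) := by
    have h2 : ∑ j, c j * (inner ℂ (w i) (w j) : ℂ) = 0 := by
      have h3 : (inner ℂ (w i) (∑ j, c j • w j) : ℂ) = 0 := by rw [hL]; simp
      rw [inner_sum] at h3
      simpa [inner_smul_right] using h3
    simp only [mul_sub, Finset.sum_sub_distrib, h2]
    simp
  have h4 : ‖c i‖ ≤ ‖c i‖ * ∑ j, ‖(inner ℂ (w i) (w j) : ℂ) - (if i = j then 1 else 0)‖ := by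
    calc ‖c i‖ = ‖∑ j, c j * ((inner ℂ (w i) (w j) : ℂ) - (if i = j then 1 else 0))‖ := by
          conv_lhs => rw [h1]
          rw [norm_neg]
      _ ≤ ∑ j, ‖c j * ((inner ℂ (w i) (w j) : ℂ) - (if i = j then 1 else 0))‖ := norm_sum_le _ _
      _ ≤ ∑ j, ‖c i‖ * ‖(inner ℂ (w i) (w j) : ℂ) - (if i = j then 1 else 0)‖ := by
          apply Finset.sum_le_sum
          intro j _
          rw [norm_mul]
          gcongr
          exact hi j (Finset.mem_univ j)
      _ = _ := by rw [Finset.mul_sum]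
  have h5 : 1 ≤ ∑ j, ‖(inner ℂ (w i) (w j) : ℂ) - (if i = j then 1 else 0)‖ := by
    by_contra hcon
    push Not at hcon
    nlinarith
  refine h5.trans ?_
  exact Finset.single_le_sum (f := fun i => ∑ j, ‖(inner ℂ (w i) (w j) : ℂ) - (if i = j then 1 else 0)‖)
    (fun i _ => Finset.sum_nonneg (fun _ _ => norm_nonneg _)) (Finset.mem_univ i)

theorem integrable_m3 {E : Type} [NormedAddCommGroup E] {f : R3 → E} (hf : Continuous f) :
    Integrable f m3 := by
  rw [m3_eq]
  exact (hf.continuousOn).integrableOn_compact (isCompact_univ_pi (fun _ => isCompact_Icc))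

/-- Exclusion principle on the unit cube. -/
theorem cube_excl (v : Fin 3 → R3 → S2) (hv : ∀ i, ContDiff ℝ 1 (v i)) (κ : Fin 3 → Fin 3 → R3 → ℝ)
    (hκ : ∀ i k, Continuous (κ i k))
    (h : ∀ i j k x, ‖fderiv ℝ (fun y => (inner ℂ (v i y) (v j y) : ℂ)) x (Pi.single k 1)‖ ≤
      ‖v i x‖ * κ j k x + κ i k x * ‖v j x‖)
    (hon : ∀ i j, ∫ x, (inner ℂ (v i x) (v j x) : ℂ) ∂m3 = if i = j then 1 else 0)
    (hc : ∀ i, ∑ k, ∫ x, (κ i k x) ^ 2 ∂m3 ≤ 1 / 1000) : False := by
  have hcont : ∀ i, Continuous (v i) := fun i => (hv i).continuous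
  have hI : ∀ i j, ContDiff ℝ 1 (fun y => (inner ℂ (v i y) (v j y) : ℂ)) := fun i j =>
    (hv i).inner ℂ (hv j)
  -- L2 norms
  have hnorm : ∀ i, ∫ x, ‖v i x‖ ^ 2 ∂m3 = 1 := by
    intro i
    have h1 := hon i i
    simp only [if_true] at h1
    have h2 : ∀ x, (inner ℂ (v i x) (v i x) : ℂ) = ((‖v i x‖ ^ 2 : ℝ) : ℂ) := by
      intro x
      rw [inner_self_eq_norm_sq_to_K]
      push_cast
      rfl
    simp only [h2] at h1
    rw [integral_complex_ofReal] at h1
    exact_mod_cast h1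
  -- the key estimate
  have key : ∀ i j k, ∫⁻ x, ‖fderiv ℝ (fun y => (inner ℂ (v i y) (v j y) : ℂ)) x (Pi.single k 1)‖ₑ ∂m3 ≤
      ENNReal.ofReal ((1 / 54) + 27 * (∫ x, (κ j k x) ^ 2 ∂m3) + 27 * (∫ x, (κ i k x) ^ 2 ∂m3)) := by
    intro i j k
    have hi1 : Integrable (fun x => ‖v i x‖ * κ j k x + κ i k x * ‖v j x‖) m3 :=
      integrable_m3 (((hcont i).norm.mul (hκ j k)).add ((hκ i k).mul (hcont j).norm))
    have hi2 : Integrable (fun x => (1 / 108 * ‖v i x‖ ^ 2 + 27 * (κ j k x) ^ 2) +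
        (27 * (κ i k x) ^ 2 + 1 / 108 * ‖v j x‖ ^ 2)) m3 := by
      apply integrable_m3
      have := hcont i
      have := hcont j
      have := hκ i k
      have := hκ j k
      fun_prop
    have hnn : ∀ x, 0 ≤ ‖v i x‖ * κ j k x + κ i k x * ‖v j x‖ := fun x =>
      (norm_nonneg _).trans (h i j k x)
    calc ∫⁻ x, ‖fderiv ℝ (fun y => (inner ℂ (v i y) (v j y) : ℂ)) x (Pi.single k 1)‖ₑ ∂m3
        ≤ ∫⁻ x, ENNReal.ofReal (‖v i x‖ * κ j k x + κ i k x * ‖v j x‖) ∂m3 := by
          apply lintegral_mono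
          intro x
          dsimp only
          rw [← ofReal_norm]
          exact ENNReal.ofReal_le_ofReal (h i j k x)
      _ = ENNReal.ofReal (∫ x, (‖v i x‖ * κ j k x + κ i k x * ‖v j x‖) ∂m3) := by
          rw [ofReal_integral_eq_lintegral_ofReal hi1 (Filter.Eventually.of_forall hnn)]
      _ ≤ ENNReal.ofReal (∫ x, ((1 / 108 * ‖v i x‖ ^ 2 + 27 * (κ j k x) ^ 2) +
          (27 * (κ i k x) ^ 2 + 1 / 108 * ‖v j x‖ ^ 2)) ∂m3) := by
          apply ENNReal.ofReal_le_ofReal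
          apply integral_mono hi1 hi2
          intro x
          dsimp only
          nlinarith [sq_nonneg (‖v i x‖ - 54 * κ j k x), sq_nonneg (‖v j x‖ - 54 * κ i k x)]
      _ = _ := by
          congr 1
          have c1 : Integrable (fun x => 1 / 108 * ‖v i x‖ ^ 2) m3 :=
            integrable_m3 (by have := hcont i; fun_prop)
          have c2 : Integrable (fun x => 27 * (κ j k x) ^ 2) m3 :=
            integrable_m3 (by have := hκ j k; fun_prop)
          have c3 : Integrable (fun x => 27 * (κ i k x) ^ 2) m3 :=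
            integrable_m3 (by have := hκ i k; fun_prop)
          have c4 : Integrable (fun x => 1 / 108 * ‖v j x‖ ^ 2) m3 :=
            integrable_m3 (by have := hcont j; fun_prop)
          have c12 : Integrable (fun x => 1 / 108 * ‖v i x‖ ^ 2 + 27 * (κ j k x) ^ 2) m3 := c1.add c2
          have c34 : Integrable (fun x => 27 * (κ i k x) ^ 2 + 1 / 108 * ‖v j x‖ ^ 2) m3 := c3.add c4
          rw [integral_add c12 c34, integral_add c1 c2, integral_add c3 c4]
          simp only [integral_const_mul, hnorm]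
          ring
  have hpt : (1 : ℝ≥0∞) ≤ ∑ i, ∑ j, ∫⁻ x, ‖(inner ℂ (v i x) (v j x) : ℂ) - (if i = j then 1 else 0)‖ₑ ∂m3 := by
    have hm : ∀ i j, Measurable (fun x => ‖(inner ℂ (v i x) (v j x) : ℂ) - (if i = j then 1 else 0)‖ₑ) := by
      intro i j
      exact ((hI i j).continuous.sub continuous_const).enorm.measurable
    calc (1 : ℝ≥0∞) = ∫⁻ x, 1 ∂m3 := by simp
      _ ≤ ∫⁻ x, ∑ i, ∑ j, ‖(inner ℂ (v i x) (v j x) : ℂ) - (if i = j then 1 else 0)‖ₑ ∂m3 := by
          apply lintegral_mono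
          intro x
          dsimp only
          have h1 := gram_far (fun i => v i x)
          have h2 : ENNReal.ofReal 1 ≤ ENNReal.ofReal (∑ i, ∑ j, ‖(inner ℂ (v i x) (v j x) : ℂ) - (if i = j then 1 else 0)‖) :=
            ENNReal.ofReal_le_ofReal h1
          rw [ENNReal.ofReal_one] at h2
          refine h2.trans (le_of_eq ?_)
          rw [ENNReal.ofReal_sum_of_nonneg (fun i _ => Finset.sum_nonneg (fun _ _ => norm_nonneg _))]
          apply Finset.sum_congr rfl
          intro i _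
          rw [ENNReal.ofReal_sum_of_nonneg (fun i _ => norm_nonneg _)]
          apply Finset.sum_congr rfl
          intro j _
          rw [ofReal_norm]
      _ = _ := by
          rw [lintegral_finsetSum _ (fun i _ => Finset.measurable_sum _ (fun j _ => hm i j))]
          apply Finset.sum_congr rfl
          intro i _
          rw [lintegral_finsetSum _ (fun j _ => hm i j)]
  have hfin : (1 : ℝ≥0∞) ≤ ∑ i, ∑ j, ∑ k, ENNReal.ofReal ((1 / 54) +
      27 * (∫ x, (κ j k x) ^ 2 ∂m3) + 27 * (∫ x, (κ i k x) ^ 2 ∂m3)) := by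
    refine hpt.trans ?_
    apply Finset.sum_le_sum
    intro i _
    apply Finset.sum_le_sum
    intro j _
    have h1 := cube_poincare (fun y => (inner ℂ (v i y) (v j y) : ℂ)) (hI i j)
    rw [hon] at h1
    refine h1.trans ?_
    exact Finset.sum_le_sum (fun k _ => key i j k)
  have hnn : ∀ i k, 0 ≤ ∫ x, (κ i k x) ^ 2 ∂m3 := fun i k => integral_nonneg (fun x => sq_nonneg _)
  have hre : ∑ i, ∑ j, ∑ k, ENNReal.ofReal ((1 / 54) +
      27 * (∫ x, (κ j k x) ^ 2 ∂m3) + 27 * (∫ x, (κ i k x) ^ 2 ∂m3)) =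
      ENNReal.ofReal (∑ i, ∑ j, ∑ k, ((1 / 54) +
      27 * (∫ x, (κ j k x) ^ 2 ∂m3) + 27 * (∫ x, (κ i k x) ^ 2 ∂m3))) := by
    have hp : ∀ i j k, 0 ≤ ((1 / 54) + 27 * (∫ x, (κ j k x) ^ 2 ∂m3) + 27 * (∫ x, (κ i k x) ^ 2 ∂m3)) := by
      intro i j k
      have := hnn i k
      have := hnn j k
      positivity
    rw [ENNReal.ofReal_sum_of_nonneg (fun i _ => Finset.sum_nonneg (fun j _ => Finset.sum_nonneg (fun k _ => hp i j k)))]
    apply Finset.sum_congr rfl
    intro i _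
    rw [ENNReal.ofReal_sum_of_nonneg (fun j _ => Finset.sum_nonneg (fun k _ => hp i j k))]
    apply Finset.sum_congr rfl
    intro j _
    rw [ENNReal.ofReal_sum_of_nonneg (fun k _ => hp i j k)]
  rw [hre] at hfin
  have h1 : (1 : ℝ) ≤ ∑ i, ∑ j, ∑ k, ((1 / 54) +
      27 * (∫ x, (κ j k x) ^ 2 ∂m3) + 27 * (∫ x, (κ i k x) ^ 2 ∂m3)) := by
    rwa [ENNReal.one_le_ofReal] at hfin
  simp only [Fin.sum_univ_three] at h1 hc
  have c0 := hc 0
  have c1 := hc 1
  have c2 := hc 2
  linarith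

end Pool.Agent.Helper20.SM
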