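import Pool.Agent.Helper20.SMExcl

set_option autoImplicit false

open MeasureTheory Set Function
open scoped BigOperators ENNReal

namespace Pool.Agent.Helper20.SM

/-- Smooth compactly supported spinors. -/
noncomputable def TS : Submodule ℂ (R3 → S2) where
  carrier := {u | ContDiff ℝ ((⊤ : ℕ∞) : WithTop ℕ∞) u ∧ HasCompactSupport u}
  add_mem' := fun ha hb => ⟨ha.1.add hb.1, ha.2.add hb.2⟩
  zero_mem' := ⟨contDiff_const, HasCompactSupport.zero⟩
  smul_mem' := fun c _ hu => ⟨contDiff_const.smul hu.1, hu.2.smul_left (f := fun _ => c)⟩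

theorem tsC (u : TS) : ContDiff ℝ ((⊤ : ℕ∞) : WithTop ℕ∞) (u : R3 → S2) := u.2.1
theorem tsK (u : TS) : HasCompactSupport (u : R3 → S2) := u.2.2
theorem ts1 (u : TS) : ContDiff ℝ 1 (u : R3 → S2) := u.2.1.of_le (by exact_mod_cast le_top)
theorem ts0 (u : TS) : Continuous (u : R3 → S2) := u.2.1.continuous
theorem tsd (u : TS) (x : R3) : DifferentiableAt ℝ (u : R3 → S2) x :=
  ((ts1 u).differentiable (by simp)) x

/-- Magnetic derivative. -/
noncomputable def Dm (A : R3 → Fin 3 → ℝ) (k : Fin 3) (u : R3 → S2) (x : R3) : S2 :=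
  (-Complex.I) • fderiv ℝ u x (Pi.single k 1) + ((A x k : ℝ) : ℂ) • u x

theorem Dm_cont (A : R3 → Fin 3 → ℝ) (hA : Continuous A) (k : Fin 3) (u : TS) :
    Continuous (Dm A k (u : R3 → S2)) := by
  unfold Dm
  have h1 : Continuous (fun x => fderiv ℝ (u : R3 → S2) x (Pi.single k 1)) :=
    ((ts1 u).continuous_fderiv (by simp)).clm_apply continuous_const
  have h2 : Continuous (fun x => ((A x k : ℝ) : ℂ)) :=
    Complex.continuous_ofReal.comp ((continuous_apply k).comp hA)
  exact (h1.const_smul (-Complex.I)).add (h2.smul (ts0 u))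

theorem Dm_eq (A : R3 → Fin 3 → ℝ) (k : Fin 3) (u : R3 → S2) (x : R3) :
    fderiv ℝ u x (Pi.single k 1) = Complex.I • Dm A k u x - (Complex.I * ((A x k : ℝ) : ℂ)) • u x := by
  unfold Dm
  rw [smul_add, smul_smul, smul_smul]
  simp [Complex.I_mul_I]

/-- Gauge invariant gradient of products. -/
theorem fderiv_inner_eq (A : R3 → Fin 3 → ℝ) (k : Fin 3) (u v : TS) (x : R3) :
    fderiv ℝ (fun y => (inner ℂ ((u : R3 → S2) y) ((v : R3 → S2) y) : ℂ)) x (Pi.single k 1) =
      Complex.I * (inner ℂ ((u : R3 → S2) x) (Dm A k v x) : ℂ) -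
      Complex.I * (inner ℂ (Dm A k u x) ((v : R3 → S2) x) : ℂ) := by
  rw [fderiv_inner_apply ℂ (tsd u x) (tsd v x), Dm_eq A k u x, Dm_eq A k v x]
  rw [inner_sub_right, inner_sub_left, inner_smul_right, inner_smul_right, inner_smul_left,
    inner_smul_left]
  simp
  ring

theorem fderiv_inner_norm_le (A : R3 → Fin 3 → ℝ) (k : Fin 3) (u v : TS) (x : R3) :
    ‖fderiv ℝ (fun y => (inner ℂ ((u : R3 → S2) y) ((v : R3 → S2) y) : ℂ)) x (Pi.single k 1)‖ ≤
      ‖(u : R3 → S2) x‖ * ‖Dm A k v x‖ + ‖Dm A k u x‖ * ‖(v : R3 → S2) x‖ := by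
  rw [fderiv_inner_eq A]
  refine (norm_sub_le _ _).trans ?_
  rw [norm_mul, norm_mul, Complex.norm_I, one_mul, one_mul]
  gcongr
  · exact norm_inner_le_norm _ _
  · exact norm_inner_le_norm _ _

/-- The gradient of the density, gauge invariant form. -/
theorem fderiv_normsq_eq (A : R3 → Fin 3 → ℝ) (k : Fin 3) (u : TS) (x : R3) :
    fderiv ℝ (fun y => ‖(u : R3 → S2) y‖ ^ 2) x (Pi.single k 1) =
      -2 * (inner ℂ ((u : R3 → S2) x) (Dm A k u x) : ℂ).im := by
  have h0 : DifferentiableAt ℝ (fun y => (inner ℂ ((u : R3 → S2) y) ((u : R3 → S2) y) : ℂ)) x :=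
    (tsd u x).inner ℂ (tsd u x)
  have h1 : (fun y => ‖(u : R3 → S2) y‖ ^ 2) =
      fun y => Complex.reCLM (inner ℂ ((u : R3 → S2) y) ((u : R3 → S2) y) : ℂ) := by
    funext y
    rw [inner_self_eq_norm_sq_to_K]
    simp only [Complex.reCLM_apply, Complex.coe_algebraMap]
    rw [← Complex.ofReal_pow, Complex.ofReal_re]
  rw [h1]
  have h2 := (Complex.reCLM.hasFDerivAt.comp x h0.hasFDerivAt).fderiv
  have h3 : fderiv ℝ (fun y => Complex.reCLM (inner ℂ ((u : R3 → S2) y) ((u : R3 → S2) y) : ℂ)) x =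
    Complex.reCLM.comp (fderiv ℝ (fun y => (inner ℂ ((u : R3 → S2) y) ((u : R3 → S2) y) : ℂ)) x) := h2
  rw [h3, ContinuousLinearMap.comp_apply, fderiv_inner_eq A]
  have h4 : (inner ℂ (Dm A k u x) ((u : R3 → S2) x) : ℂ) =
    (starRingEnd ℂ) (inner ℂ ((u : R3 → S2) x) (Dm A k u x) : ℂ) := by
    rw [inner_conj_symm]
  rw [h4]
  simp only [Complex.reCLM_apply, Complex.sub_re, Complex.mul_re, Complex.I_re, Complex.I_im,
    Complex.conj_re, Complex.conj_im]
  ring

theorem fderiv_normsq_le (A : R3 → Fin 3 → ℝ) (k : Fin 3) (u : TS) (x : R3) :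
    |fderiv ℝ (fun y => ‖(u : R3 → S2) y‖ ^ 2) x (Pi.single k 1)| ≤
      2 * ‖(u : R3 → S2) x‖ * ‖Dm A k u x‖ := by
  rw [fderiv_normsq_eq A, abs_mul]
  have h1 : |(inner ℂ ((u : R3 → S2) x) (Dm A k u x) : ℂ).im| ≤ ‖(u : R3 → S2) x‖ * ‖Dm A k u x‖ :=
    (Complex.abs_im_le_norm _).trans (norm_inner_le_norm _ _)
  have h2 : |(-2 : ℝ)| = 2 := by norm_num
  rw [h2]
  linarith

/-- Half open cubes. -/
def qs (a : R3) (ℓ : ℝ) : Set R3 := {x | ∀ k, a k ≤ x k ∧ x k < a k + ℓ}

theorem qs_eq (a : R3) (ℓ : ℝ) : qs a ℓ = Set.pi univ (fun k => Ico (a k) (a k + ℓ)) := by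
  ext x
  simp [qs, Set.mem_pi]

theorem qs_meas (a : R3) (ℓ : ℝ) : MeasurableSet (qs a ℓ) := by
  rw [qs_eq]
  exact MeasurableSet.univ_pi (fun _ => measurableSet_Ico)

theorem m3_eq_qs : m3 = volume.restrict (qs 0 1) := by
  rw [m3_eq]
  apply Measure.restrict_congr_set
  rw [qs_eq]
  have h := Measure.univ_pi_Ico_ae_eq_Icc (μ := fun _ : Fin 3 => (volume : Measure ℝ))
    (f := fun _ => (0 : ℝ)) (g := fun _ => (1 : ℝ))
  have h2 : (Set.pi univ (fun _ : Fin 3 => Icc (0 : ℝ) 1)) = Icc (fun _ => (0 : ℝ)) (fun _ => (1 : ℝ)) := by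
    rw [Set.pi_univ_Icc]
  rw [h2]
  have h3 : (fun k : Fin 3 => Ico ((0 : R3) k) ((0 : R3) k + 1)) = fun _ => Ico (0 : ℝ) 1 := by
    funext k; simp
  rw [h3]
  exact h.symm

/-- Scaling of integrals over cubes. -/
theorem scale (a : R3) (ℓ : ℝ) (hℓ : 0 < ℓ) (f : R3 → ℝ≥0∞) (hf : Measurable f) :
    ∫⁻ x in qs a ℓ, f x = ENNReal.ofReal (ℓ ^ 3) * ∫⁻ x, f (a + ℓ • x) ∂m3 := by
  set F : R3 → ℝ≥0∞ := (qs a ℓ).indicator f with hF
  have hFm : Measurable F := hf.indicator (qs_meas a ℓ)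
  have h1 : ∫⁻ x in qs a ℓ, f x = ∫⁻ x, F x := by
    rw [hF, lintegral_indicator (qs_meas a ℓ)]
  have h2 : ∫⁻ x, f (a + ℓ • x) ∂m3 = ∫⁻ x, F (a + ℓ • x) := by
    rw [m3_eq_qs, ← lintegral_indicator (qs_meas 0 1)]
    apply lintegral_congr
    intro x
    have h3 : x ∈ qs 0 1 ↔ a + ℓ • x ∈ qs a ℓ := by
      simp only [qs, mem_ofPred_eq]
      constructor
      · intro h k
        have := h k
        simp only [Pi.zero_apply, zero_add] at this
        simp only [Pi.add_apply, Pi.smul_apply, smul_eq_mul]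
        constructor
        · have := mul_nonneg hℓ.le this.1
          linarith
        · have := mul_lt_mul_of_pos_left this.2 hℓ
          linarith
      · intro h k
        have := h k
        simp only [Pi.add_apply, Pi.smul_apply, smul_eq_mul] at this
        simp only [Pi.zero_apply, zero_add]
        constructor
        · have h4 : 0 ≤ ℓ * x k := by linarith [this.1]
          exact nonneg_of_mul_nonneg_right h4 hℓ
        · have h4 : ℓ * x k < ℓ * 1 := by linarith [this.2]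
          exact lt_of_mul_lt_mul_left h4 hℓ.le
    by_cases hx : x ∈ qs 0 1
    · rw [indicator_of_mem hx, hF, indicator_of_mem (h3.mp hx)]
    · rw [indicator_of_notMem hx, hF, indicator_of_notMem (fun h => hx (h3.mpr h))]
  have h4 : ∫⁻ x, F (a + ℓ • x) = ENNReal.ofReal (ℓ ^ 3)⁻¹ * ∫⁻ x, F x := by
    have h5 : ∫⁻ x, F (a + ℓ • x) = ∫⁻ y, F (a + y) ∂(Measure.map (fun x : R3 => ℓ • x) volume) := by
      have hm2 : Measurable (fun y : R3 => F (a + y)) := hFm.comp (measurable_const_add a)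
      rw [lintegral_map hm2 (measurable_const_smul ℓ)]
    rw [h5, Measure.map_addHaar_smul volume hℓ.ne', lintegral_smul_measure]
    have h6 : Module.finrank ℝ R3 = 3 := by simp
    rw [h6, abs_of_pos (by positivity), lintegral_add_left_eq_self]
    rfl
  rw [h1, h2, h4, ← mul_assoc, ← ENNReal.ofReal_mul (by positivity),
    mul_inv_cancel₀ (by positivity), ENNReal.ofReal_one, one_mul]

/-- Splitting a cube in eight. -/
theorem split (a : R3) (ℓ : ℝ) (hℓ : 0 < ℓ) (f : R3 → ℝ≥0∞) :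
    ∫⁻ x in qs a (2 * ℓ), f x = ∑ δ : Fin 3 → Bool,
      ∫⁻ x in qs (fun k => if δ k then a k + ℓ else a k) ℓ, f x := by
  have h1 : qs a (2 * ℓ) = ⋃ δ ∈ (Finset.univ : Finset (Fin 3 → Bool)),
      qs (fun k => if δ k then a k + ℓ else a k) ℓ := by
    ext x
    simp only [qs, mem_ofPred_eq, Finset.mem_univ, iUnion_true, mem_iUnion]
    constructor
    · intro h
      refine ⟨fun k => decide (a k + ℓ ≤ x k), ?_⟩
      intro k
      have := h k
      by_cases hk : a k + ℓ ≤ x k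
      · simp only [hk, decide_true, if_true]
        exact ⟨trivial, by linarith [this.2]⟩
      · simp only [hk, decide_false]
        push Not at hk
        exact ⟨this.1, hk⟩
    · rintro ⟨δ, h⟩ k
      have := h k
      by_cases hk : δ k = true
      · simp only [hk, if_true] at this
        constructor <;> linarith [this.1, this.2]
      · simp only [hk] at this
        constructor
        · exact this.1
        · have := this.2
          simp at this
          linarith
  rw [h1, lintegral_biUnion_finset]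
  · intro δ _ δ' _ hne
    rw [Function.onFun, Set.disjoint_left]
    intro x hx hx'
    apply hne
    funext k
    have h2 := hx k
    have h3 := hx' k
    by_cases hk : δ k = true <;> by_cases hk' : δ' k = true
    · rw [hk, hk']
    · simp only [hk, hk'] at h2 h3
      simp at h2 h3
      linarith [h2.1, h3.2]
    · simp only [hk, hk'] at h2 h3
      simp at h2 h3
      linarith [h2.2, h3.1]
    · rw [Bool.not_eq_true] at hk hk'
      rw [hk, hk']
  · intro δ _
    exact qs_meas _ _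

end Pool.Agent.Helper20.SM
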