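import Pool.Agent.Helper20.SMTop

set_option autoImplicit false

open MeasureTheory Set Function Filter
open scoped BigOperators ENNReal Topology ComplexConjugate

namespace Pool.Agent.Helper20.SM

variable {n : ℕ}

/-- Fubini for the i-th particle. -/
theorem fubX (i : Fin (n + 1)) (F : Xn (n + 1) → ℝ) (hF : Integrable F) :
    ∫ x, F x = ∫ x' : Xn n, ∫ y : R3, F (ins i x' y) := by
  have h1 := (volume_preserving_piFinSuccAbove (fun _ : Fin (n + 1) => E3) i).symm
  have h2 := h1.integral_comp' F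
  rw [← h2]
  have h3 : Integrable (fun p : E3 × Xn n => F ((MeasurableEquiv.piFinSuccAbove (fun _ => E3) i).symm p))
      (volume.prod volume) := by
    exact (h1.integrable_comp_emb (MeasurableEquiv.measurableEmbedding _)).mpr hF
  have h4 := integral_prod_symm _ h3
  refine h4.trans ?_
  apply integral_congr_ae
  filter_upwards with x'
  exact tE_int (fun e => F ((MeasurableEquiv.piFinSuccAbove (fun _ => E3) i).symm (e, x')))

/-- Splitting the spin sum. -/
theorem spin_split (i : Fin (n + 1)) (g : Sn (n + 1) → ℝ) :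
    ∑ s, g s = ∑ s' : Sn n, ∑ t : Fin 2, g (Fin.insertNth i t s') := by
  rw [← Equiv.sum_comp (Fin.insertNthEquiv (fun _ : Fin (n + 1) => Fin 2) i) g, Fintype.sum_prod_type,
    Finset.sum_comm]
  rfl

/-- The kinetic energy density of the i-th particle. -/
noncomputable def kd (ψ : Xn (n + 1) → Sn (n + 1) → ℂ) (A : E3 → E3) (i : Fin (n + 1)) (x : Xn (n + 1)) : ℝ :=
  ∑ s : Sn (n + 1), ‖∑ k : Fin 3, ∑ t : Fin 2, pm k (s i) t *
    ((-Complex.I) * fderiv ℝ (fun y => ψ y (Function.update s i t)) x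
        (Pi.single i (EuclideanSpace.single k (1 : ℝ)) : Xn (n + 1))
      + ((A (x i) k : ℝ) : ℂ) * ψ x (Function.update s i t))‖ ^ 2

theorem kd_ins {ψ : Xn (n + 1) → Sn (n + 1) → ℂ} (h : WF ψ) (A : E3 → E3) (i : Fin (n + 1)) (x' : Xn n) (y : R3) :
    kd ψ A i (ins i x' y) = ∑ s' : Sn n, ‖ps ψ A i s' x' y‖ ^ 2 := by
  unfold kd
  rw [spin_split i]
  apply Finset.sum_congr rfl
  intro s' _
  rw [EuclideanSpace.norm_sq_eq]
  apply Finset.sum_congr rfl
  intro t _
  congr 2
  have h1 := pauli_slice h A i s' x' y t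
  unfold ps
  rw [h1]
  apply Finset.sum_congr rfl
  intro k _
  apply Finset.sum_congr rfl
  intro t' _
  have e1 : (Fin.insertNth i t s' : Sn (n + 1)) i = t := by simp
  have e2 : Function.update (Fin.insertNth i t s' : Sn (n + 1)) i t' = Fin.insertNth i t' s' := by
    funext j
    by_cases hj : j = i
    · subst hj; simp
    · obtain ⟨m, rfl⟩ := Fin.exists_succAbove_eq hj
      simp [hj]
  have e3 : (ins i x' y) i = tE y := by unfold ins; simp
  rw [e1, e2, e3]

theorem kd_cont {ψ : Xn (n + 1) → Sn (n + 1) → ℂ} (h : WF ψ) {A : E3 → E3}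
    (hA : ContDiff ℝ ((⊤ : ℕ∞) : WithTop ℕ∞) A) (i : Fin (n + 1)) : Continuous (kd ψ A i) := by
  unfold kd
  apply continuous_finsetSum
  intro s _
  apply Continuous.pow
  apply Continuous.norm
  apply continuous_finsetSum
  intro k _
  apply continuous_finsetSum
  intro t _
  apply continuous_const.mul
  apply Continuous.add
  · apply continuous_const.mul
    exact ((h.smooth _).continuous_fderiv (by simp)).clm_apply continuous_const
  · apply Continuous.mul
    · have h2 : Continuous (fun x : E3 => A x k) := by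
        have := hA.continuous
        fun_prop
      exact Complex.continuous_ofReal.comp (h2.comp (continuous_apply i))
    · exact (h.smooth _).continuous

theorem kd_compact {ψ : Xn (n + 1) → Sn (n + 1) → ℂ} (h : WF ψ) (A : E3 → E3) (i : Fin (n + 1)) :
    HasCompactSupport (kd ψ A i) := by
  apply HasCompactSupport.of_support_subset_isCompact (K0_compact h)
  intro x hx
  by_contra hne
  apply hx
  have h1 : ∀ s, (fun y => ψ y s) =ᶠ[𝓝 x] fun _ => 0 := by
    intro s
    have h2 : (K0 ψ)ᶜ ∈ 𝓝 x := (K0_compact h).isClosed.isOpen_compl.mem_nhds hne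
    filter_upwards [h2] with w hw
    by_contra h3
    exact hw (K0_mem h3)
  unfold kd
  apply Finset.sum_eq_zero
  intro s _
  have h4 : ∀ s, fderiv ℝ (fun y => ψ y s) x = 0 := by
    intro s
    rw [(h1 s).fderiv_eq]
    simp
  have h5 : ∀ s, ψ x s = 0 := fun s => (h1 s).eq_of_nhds
  simp [h4, h5]

theorem ps_cont1 {ψ : Xn (n + 1) → Sn (n + 1) → ℂ} (h : WF ψ) {A : E3 → E3}
    (hA : ContDiff ℝ ((⊤ : ℕ∞) : WithTop ℕ∞) A) (i : Fin (n + 1)) (s' : Sn n) (x' : Xn n) :
    Continuous (fun y => ps ψ A i s' x' y) := by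
  have h3 : Continuous (fun y : R3 => ((x', y) : Xn n × R3)) := Continuous.prodMk_right x'
  have h4 := ps_cont h hA i s'
  have h5 := Continuous.comp h4 h3
  exact h5

/-- Kinetic energy of the i-th particle. -/
theorem kin_eq {ψ : Xn (n + 1) → Sn (n + 1) → ℂ} (h : WF ψ) {A : E3 → E3}
    (hA : ContDiff ℝ ((⊤ : ℕ∞) : WithTop ℕ∞) A) (i : Fin (n + 1)) :
    ∫ x, kd ψ A i x = ∑ s' : Sn n, ∫ x' : Xn n, ∫ y, ‖ps ψ A i s' x' y‖ ^ 2 := by
  have hi : Integrable (kd ψ A i) := (kd_cont h hA i).integrable_of_hasCompactSupport (kd_compact h A i)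
  rw [fubX i _ hi]
  have h1 : ∀ x' s', Integrable (fun y => ‖ps ψ A i s' x' y‖ ^ 2) := by
    intro x' s'
    apply ((ps_cont1 h hA i s' x').norm.pow 2).integrable_of_hasCompactSupport
    apply HasCompactSupport.of_support_subset_isCompact (KR_compact h i)
    intro y hy
    by_contra hne
    apply hy
    simp [ps_zero h A i s' x' y hne]
  have h2 : ∀ x', ∫ y, kd ψ A i (ins i x' y) = ∑ s' : Sn n, ∫ y, ‖ps ψ A i s' x' y‖ ^ 2 := by
    intro x'
    simp only [kd_ins h]
    rw [integral_finsetSum _ (fun s' _ => h1 x' s')]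
  simp only [h2]
  rw [integral_finsetSum]
  intro s' _
  apply Continuous.integrable_of_hasCompactSupport
  · apply param_cont volume (fun x' y => ‖ps ψ A i s' x' y‖ ^ 2) _ (KR ψ i) (KR_compact h i)
    · intro x y hy
      rw [ps_zero h A i s' x y hy]
      simp
    · exact (ps_cont h hA i s').norm.pow 2
  · apply HasCompactSupport.of_support_subset_isCompact (KX_compact h i)
    intro x' hx'
    by_contra hne
    apply hx'
    simp [ps_zero' A i s' x' hne]

/-- The density. -/
noncomputable def dn (ψ : Xn (n + 1) → Sn (n + 1) → ℂ) (x : Xn (n + 1)) : ℝ := ∑ s : Sn (n + 1), ‖ψ x s‖ ^ 2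

theorem dn_ins (ψ : Xn (n + 1) → Sn (n + 1) → ℂ) (i : Fin (n + 1)) (x' : Xn n) (y : R3) :
    dn ψ (ins i x' y) = ∑ s' : Sn n, ‖slf ψ i s' x' y‖ ^ 2 := by
  unfold dn
  rw [spin_split i]
  apply Finset.sum_congr rfl
  intro s' _
  rw [EuclideanSpace.norm_sq_eq]
  rfl

theorem dn_cont {ψ : Xn (n + 1) → Sn (n + 1) → ℂ} (h : WF ψ) : Continuous (dn ψ) :=
  continuous_finsetSum _ (fun s _ => (h.smooth s).continuous.norm.pow 2)

theorem dn_compact {ψ : Xn (n + 1) → Sn (n + 1) → ℂ} (h : WF ψ) : HasCompactSupport (dn ψ) := by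
  apply HasCompactSupport.of_support_subset_isCompact (K0_compact h)
  intro x hx
  by_contra hne
  apply hx
  unfold dn
  apply Finset.sum_eq_zero
  intro s _
  have : ψ x s = 0 := by
    by_contra h3
    exact hne (K0_mem h3)
  simp [this]

theorem G_int {ψ : Xn (n + 1) → Sn (n + 1) → ℂ} (h : WF ψ) (i : Fin (n + 1)) (s' : Sn n)
    (μ : Measure R3) [IsFiniteMeasureOnCompacts μ] :
    Integrable (fun x' : Xn n => ∫ y, ‖slf ψ i s' x' y‖ ^ 2 ∂μ) := by
  apply Continuous.integrable_of_hasCompactSupport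
  · apply param_cont μ (fun x' y => ‖slf ψ i s' x' y‖ ^ 2) _ (KR ψ i) (KR_compact h i)
    · intro x y hy
      rw [slf_zero i s' x y hy]
      simp
    · exact (slf_cont h i s').norm.pow 2
  · apply HasCompactSupport.of_support_subset_isCompact (KX_compact h i)
    intro x' hx'
    by_contra hne
    apply hx'
    simp [slf_zero' i s' x' hne]

theorem P_int {ψ : Xn (n + 1) → Sn (n + 1) → ℂ} (h : WF ψ) {A : E3 → E3}
    (hA : ContDiff ℝ ((⊤ : ℕ∞) : WithTop ℕ∞) A) (i : Fin (n + 1)) (s' : Sn n) :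
    Integrable (fun x' : Xn n => ∫ y, ‖ps ψ A i s' x' y‖ ^ 2) := by
  apply Continuous.integrable_of_hasCompactSupport
  · apply param_cont volume (fun x' y => ‖ps ψ A i s' x' y‖ ^ 2) _ (KR ψ i) (KR_compact h i)
    · intro x y hy
      rw [ps_zero h A i s' x y hy]
      simp
    · exact (ps_cont h hA i s').norm.pow 2
  · apply HasCompactSupport.of_support_subset_isCompact (KX_compact h i)
    intro x' hx'
    by_contra hne
    apply hx'
    simp [ps_zero' A i s' x' hne]

/-- Total mass. -/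
theorem mass_eq {ψ : Xn (n + 1) → Sn (n + 1) → ℂ} (h : WF ψ) (i : Fin (n + 1)) :
    ∫ x, dn ψ x = ∑ s' : Sn n, ∫ x' : Xn n, ∫ y, ‖slf ψ i s' x' y‖ ^ 2 := by
  have hi : Integrable (dn ψ) := (dn_cont h).integrable_of_hasCompactSupport (dn_compact h)
  rw [fubX i _ hi]
  have h2 : ∀ x', ∫ y, dn ψ (ins i x' y) = ∑ s' : Sn n, ∫ y, ‖slf ψ i s' x' y‖ ^ 2 := by
    intro x'
    simp only [dn_ins]
    have hii : ∀ s', Integrable (fun y => ‖slf ψ i s' x' y‖ ^ 2) := fun s' => int_sq volume (sl h i s' x')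
    rw [integral_finsetSum _ (fun s' _ => hii s')]
  simp only [h2]
  rw [integral_finsetSum]
  intro s' _
  exact G_int h i s' volume

/-- Integrability of the Coulomb density. -/
theorem coul_int {ψ : Xn (n + 1) → Sn (n + 1) → ℂ} (h : WF ψ) (i : Fin (n + 1)) :
    Integrable (fun x : Xn (n + 1) => dn ψ x / ‖x i‖) := by
  have h1 := (volume_preserving_piFinSuccAbove (fun _ : Fin (n + 1) => E3) i).symm
  rw [← h1.integrable_comp_emb (MeasurableEquiv.measurableEmbedding _)]
  obtain ⟨C, hC⟩ := (dn_cont h).bounded_above_of_compact_support (dn_compact h)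
  -- the one body part
  set KE : Set E3 := tE '' KR ψ i with hKE
  have hKEc : IsCompact KE := (KR_compact h i).image tE.continuous
  have hg : Integrable (fun e : E3 => KE.indicator (fun e => 1 / ‖e‖) e) := by
    rw [← tE_mp.integrable_comp_emb tE.toHomeomorph.measurableEmbedding]
    have e1 : ((fun e : E3 => KE.indicator (fun e => 1 / ‖e‖) e) ∘ fun y => tE y) =
        (KR ψ i).indicator (fun y => 1 / en y) := by
      funext y
      have hiff : tE y ∈ KE ↔ y ∈ KR ψ i := by
        constructor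
        · rintro ⟨w, hw, hw2⟩
          have : w = y := tE.injective hw2
          rwa [← this]
        · intro hy
          exact ⟨y, hy, rfl⟩
      by_cases hy : y ∈ KR ψ i
      · rw [comp_apply, indicator_of_mem hy, indicator_of_mem (hiff.mpr hy), tE_norm]
      · rw [comp_apply, indicator_of_notMem hy, indicator_of_notMem (fun hh => hy (hiff.mp hh))]
    rw [e1, integrable_indicator_iff (KR_compact h i).measurableSet]
    refine ⟨(measurable_const.div en_cont.measurable).aestronglyMeasurable, ?_⟩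
    rw [hasFiniteIntegral_iff_ofReal (Eventually.of_forall (fun y => by unfold en; positivity))]
    have h3 : muc (KR ψ i) < ⊤ := (KR_compact h i).measure_lt_top
    unfold muc at h3
    rwa [withDensity_apply _ (KR_compact h i).measurableSet] at h3
  have hg2 : Integrable (fun x' : Xn n => (KX ψ i).indicator (fun _ => C) x') := by
    rw [integrable_indicator_iff (KX_compact h i).measurableSet]
    have : volume (KX ψ i) < ⊤ := (KX_compact h i).measure_lt_top
    exact integrableOn_const this.ne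
  have hprod := Integrable.mul_prod hg hg2
  apply Integrable.mono' hprod
  · have hm : Measurable (fun x : Xn (n + 1) => dn ψ x / ‖x i‖) :=
      (dn_cont h).measurable.div (continuous_apply i).norm.measurable
    exact (hm.comp (MeasurableEquiv.measurable _)).aestronglyMeasurable
  · filter_upwards with p
    obtain ⟨e, x'⟩ := p
    have hval : (MeasurableEquiv.piFinSuccAbove (fun _ : Fin (n + 1) => E3) i).symm (e, x') = ins i x' (tE.symm e) := by
      unfold ins
      rw [tE.apply_symm_apply]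
      rfl
    rw [comp_apply, hval]
    have hxi : (ins i x' (tE.symm e)) i = e := by unfold ins; simp
    rw [hxi]
    have hdn0 : 0 ≤ dn ψ (ins i x' (tE.symm e)) := Finset.sum_nonneg (fun _ _ => sq_nonneg _)
    by_cases hmem : ins i x' (tE.symm e) ∈ K0 ψ
    · have h4 := ins_mem_K0 hmem
      have h5 : e ∈ KE := ⟨_, h4.1, tE.apply_symm_apply e⟩
      rw [indicator_of_mem h5, indicator_of_mem h4.2, Real.norm_eq_abs, abs_of_nonneg (by positivity)]
      have h6 := hC (ins i x' (tE.symm e))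
      rw [Real.norm_eq_abs, abs_of_nonneg hdn0] at h6
      calc dn ψ (ins i x' (tE.symm e)) / ‖e‖ ≤ C / ‖e‖ := by gcongr
        _ = _ := by ring
    · have h4 : dn ψ (ins i x' (tE.symm e)) = 0 := by
        unfold dn
        apply Finset.sum_eq_zero
        intro s _
        have : ψ (ins i x' (tE.symm e)) s = 0 := by
          by_contra h3
          exact hmem (K0_mem h3)
        simp [this]
      rw [h4]
      simp only [zero_div, norm_zero]
      have hC0 : 0 ≤ C := (norm_nonneg _).trans (hC (ins i x' (tE.symm e)))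
      apply mul_nonneg
      · exact indicator_nonneg (fun _ _ => by positivity) _
      · exact indicator_nonneg (fun _ _ => hC0) _

/-- Coulomb energy of the i-th particle. -/
theorem coul_eq {ψ : Xn (n + 1) → Sn (n + 1) → ℂ} (h : WF ψ) (i : Fin (n + 1)) :
    ∫ x : Xn (n + 1), dn ψ x / ‖x i‖ = ∑ s' : Sn n, ∫ x' : Xn n, ∫ y, ‖slf ψ i s' x' y‖ ^ 2 / en y := by
  rw [fubX i _ (coul_int h i)]
  have hmuc : ∀ s' x', ∫ y, ‖slf ψ i s' x' y‖ ^ 2 / en y = ∫ y, ‖slf ψ i s' x' y‖ ^ 2 ∂muc := by
    intro s' x'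
    rw [integral_muc]
    apply integral_congr_ae
    filter_upwards with y
    rw [smul_eq_mul]
    ring
  have h2 : ∀ x', ∫ y, dn ψ (ins i x' y) / ‖(ins i x' y) i‖ = ∑ s' : Sn n, ∫ y, ‖slf ψ i s' x' y‖ ^ 2 / en y := by
    intro x'
    have hii : ∀ s', Integrable (fun y => ‖slf ψ i s' x' y‖ ^ 2 / en y) := fun s' =>
      (coulomb (fun _ _ => 0) contDiff_const (sl h i s' x')).1
    rw [← integral_finsetSum _ (fun s' _ => hii s')]
    apply integral_congr_ae
    filter_upwards with y
    have hxi : (ins i x' y) i = tE y := by unfold ins; simp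
    rw [dn_ins, hxi, tE_norm, Finset.sum_div]
  simp only [h2]
  rw [integral_finsetSum]
  intro s' _
  simp only [hmuc]
  exact G_int h i s' muc

/-- The N-body energy as a sum over slices. -/
theorem energy_eq {ψ : Xn (n + 1) → Sn (n + 1) → ℂ} (h : WF ψ) {A : E3 → E3}
    (hA : ContDiff ℝ ((⊤ : ℕ∞) : WithTop ℕ∞) A) (z : ℝ) (i : Fin (n + 1)) :
    (∫ x, kd ψ A i x) - z * (∫ x : Xn (n + 1), dn ψ x / ‖x i‖) + z ^ 2 * ∫ x, dn ψ x =
      ∑ s' : Sn n, ∫ x' : Xn n, (hs (ap A) (ap_smooth hA) z (sl h i s' x') (sl h i s' x')).re := by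
  rw [kin_eq h hA, coul_eq h, mass_eq h i, Finset.mul_sum, Finset.mul_sum, ← Finset.sum_sub_distrib,
    ← Finset.sum_add_distrib]
  apply Finset.sum_congr rfl
  intro s' _
  have e0 : (fun x' => (hs (ap A) (ap_smooth hA) z (sl h i s' x') (sl h i s' x')).re) = fun x' =>
      (∫ y, ‖ps ψ A i s' x' y‖ ^ 2) - z * (∫ y, ‖slf ψ i s' x' y‖ ^ 2 / en y) +
        z ^ 2 * ∫ y, ‖slf ψ i s' x' y‖ ^ 2 := funext (fun x' => q_eq h hA z i s' x')
  rw [e0]
  have hmuc : ∀ x', ∫ y, ‖slf ψ i s' x' y‖ ^ 2 / en y = ∫ y, ‖slf ψ i s' x' y‖ ^ 2 ∂muc := by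
    intro x'
    rw [integral_muc]
    apply integral_congr_ae
    filter_upwards with y
    rw [smul_eq_mul]
    ring
  simp only [hmuc]
  have i1 := P_int h hA i s'
  have i2 := (G_int h i s' muc).const_mul z
  have i3 := (G_int h i s' volume).const_mul (z ^ 2)
  have i12 : Integrable (fun x' : Xn n => (∫ y, ‖ps ψ A i s' x' y‖ ^ 2) - z * (∫ y, ‖slf ψ i s' x' y‖ ^ 2 ∂muc)) :=
    i1.sub i2
  rw [integral_add i12 i3, integral_sub i1 i2, integral_const_mul, integral_const_mul]

end Pool.Agent.Helper20.SM
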