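import Pool.Agent.Helper20.SMCoul2
import Pool.Agent.Helper20.SMAbs

set_option autoImplicit false

open MeasureTheory Set Function Filter
open scoped BigOperators ENNReal Topology ComplexConjugate

namespace Pool.Agent.Helper20.SM

open Pool.Agent.Helper20.PF (FS)

theorem en_cont : Continuous en := by
  unfold en
  exact Real.continuous_sqrt.comp (by fun_prop)

/-- Measure with Coulomb density. -/
noncomputable def muc : Measure R3 := volume.withDensity (fun x => ENNReal.ofReal (1 / en x))

/-- A test spinor that is large on a given compact set. -/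
theorem exists_big (K : Set R3) (hK : IsCompact K) : ∃ u : TS, ∀ x ∈ K, 1 ≤ ‖(u : R3 → S2) x‖ := by
  obtain ⟨r, hr⟩ := hK.isBounded.subset_closedBall (0 : R3)
  let r' : ℝ := max r 0 + 1
  have hr'0 : 0 < r' := by positivity
  let f : ContDiffBump (0 : R3) := ⟨r', r' + 1, hr'0, by linarith⟩
  let e0 : S2 := EuclideanSpace.single 0 1
  refine ⟨⟨fun x => (f x) • e0, ?_, ?_⟩, ?_⟩
  · exact f.contDiff.smul contDiff_const
  · exact f.hasCompactSupport.smul_right
  · intro x hx
    show 1 ≤ ‖(f x) • e0‖
    have h1 : x ∈ Metric.closedBall (0 : R3) r' := by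
      apply Metric.closedBall_subset_closedBall _ (hr hx)
      have := le_max_left r 0
      linarith
    rw [f.one_of_mem_closedBall h1, one_smul]
    simp [e0]

instance : IsFiniteMeasureOnCompacts muc := by
  constructor
  intro K hK
  obtain ⟨u, hu⟩ := exists_big K hK
  have h1 := (coulomb (fun _ _ => 0) contDiff_const u).1
  unfold muc
  rw [withDensity_apply _ hK.measurableSet]
  have h2 : ∫⁻ x in K, ENNReal.ofReal (1 / en x) ≤ ∫⁻ x, ENNReal.ofReal (‖(u : R3 → S2) x‖ ^ 2 / en x) := by
    calc ∫⁻ x in K, ENNReal.ofReal (1 / en x) ≤ ∫⁻ x in K, ENNReal.ofReal (‖(u : R3 → S2) x‖ ^ 2 / en x) := by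
          apply setLIntegral_mono' hK.measurableSet
          intro x hx
          apply ENNReal.ofReal_le_ofReal
          apply div_le_div_of_nonneg_right _ (Real.sqrt_nonneg _)
          have := hu x hx
          nlinarith
      _ ≤ _ := lintegral_mono' Measure.restrict_le_self le_rfl
  refine lt_of_le_of_lt h2 ?_
  have h3 := h1.2
  have h4 : ∀ x, 0 ≤ ‖(u : R3 → S2) x‖ ^ 2 / en x := fun x =>
    div_nonneg (sq_nonneg _) (Real.sqrt_nonneg _)
  rw [hasFiniteIntegral_iff_ofReal (Eventually.of_forall h4)] at h3
  exact h3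

theorem integral_muc {F : Type} [NormedAddCommGroup F] [NormedSpace ℝ F] (g : R3 → F) :
    ∫ x, g x ∂muc = ∫ x, (1 / en x) • g x := by
  unfold muc
  rw [integral_withDensity_eq_integral_toReal_smul]
  · apply integral_congr_ae
    filter_upwards with x
    rw [ENNReal.toReal_ofReal (by unfold en; positivity)]
  · exact (measurable_const.div en_cont.measurable).ennreal_ofReal
  · filter_upwards with x
    exact ENNReal.ofReal_lt_top

theorem int_ip (μ : Measure R3) [IsFiniteMeasureOnCompacts μ] (u v : TS) :
    Integrable (fun x => (inner ℂ ((u : R3 → S2) x) ((v : R3 → S2) x) : ℂ)) μ := by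
  apply Continuous.integrable_of_hasCompactSupport
  · exact (ts0 u).inner (ts0 v)
  · apply (tsK u).mono
    intro x hx
    rw [Function.mem_support] at hx ⊢
    intro h
    apply hx
    rw [h, inner_zero_left]

theorem int_sq (μ : Measure R3) [IsFiniteMeasureOnCompacts μ] (u : TS) :
    Integrable (fun x => ‖(u : R3 → S2) x‖ ^ 2) μ := by
  apply Continuous.integrable_of_hasCompactSupport
  · exact (ts0 u).norm.pow 2
  · apply (tsK u).mono
    intro x hx
    rw [Function.mem_support] at hx ⊢
    intro h
    apply hx
    simp [h]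

/-- The sesquilinear pairing with respect to a measure. -/
noncomputable def ipm (μ : Measure R3) [IsFiniteMeasureOnCompacts μ] : TS →ₗ⋆[ℂ] TS →ₗ[ℂ] ℂ :=
  LinearMap.mk₂'ₛₗ (starRingEnd ℂ) (RingHom.id ℂ)
    (fun u v => ∫ x, (inner ℂ ((u : R3 → S2) x) ((v : R3 → S2) x) : ℂ) ∂μ)
    (by
      intro u u' v
      rw [← integral_add (int_ip μ u v) (int_ip μ u' v)]
      apply integral_congr_ae
      filter_upwards with x
      rw [← inner_add_left]
      rfl)
    (by
      intro c u v
      rw [smul_eq_mul, ← integral_const_mul]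
      apply integral_congr_ae
      filter_upwards with x
      rw [← inner_smul_left]
      rfl)
    (by
      intro u v v'
      rw [← integral_add (int_ip μ u v) (int_ip μ u v')]
      apply integral_congr_ae
      filter_upwards with x
      rw [← inner_add_right]
      rfl)
    (by
      intro c u v
      rw [RingHom.id_apply, smul_eq_mul, ← integral_const_mul]
      apply integral_congr_ae
      filter_upwards with x
      rw [← inner_smul_right]
      rfl)

theorem ipm_apply (μ : Measure R3) [IsFiniteMeasureOnCompacts μ] (u v : TS) :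
    ipm μ u v = ∫ x, (inner ℂ ((u : R3 → S2) x) ((v : R3 → S2) x) : ℂ) ∂μ := rfl

theorem ipm_conj (μ : Measure R3) [IsFiniteMeasureOnCompacts μ] (u v : TS) :
    conj (ipm μ u v) = ipm μ v u := by
  rw [ipm_apply, ipm_apply, ← integral_conj]
  apply integral_congr_ae
  filter_upwards with x
  rw [inner_conj_symm]

theorem ipm_self (μ : Measure R3) [IsFiniteMeasureOnCompacts μ] (u : TS) :
    ipm μ u u = ((∫ x, ‖(u : R3 → S2) x‖ ^ 2 ∂μ : ℝ) : ℂ) := by
  rw [ipm_apply, ← integral_complex_ofReal]
  apply integral_congr_ae
  filter_upwards with x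
  rw [inner_self_eq_norm_sq_to_K]
  push_cast
  rfl

/-- The inner product structure on test spinors. -/
@[reducible] noncomputable def tsCore : InnerProductSpace.Core ℂ TS where
  inner u v := ipm volume u v
  conj_inner_symm u v := ipm_conj volume v u
  re_inner_nonneg u := by
    show 0 ≤ (ipm volume u u).re
    rw [ipm_self, Complex.ofReal_re]
    exact integral_nonneg (fun _ => sq_nonneg _)
  add_left u v w := by
    show ipm volume (u + v) w = ipm volume u w + ipm volume v w
    rw [map_add, LinearMap.add_apply]
  smul_left u v c := by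
    show ipm volume (c • u) v = conj c * ipm volume u v
    rw [LinearMap.map_smulₛₗ, LinearMap.smul_apply, smul_eq_mul]
  definite u hu := by
    have h1 : ipm volume u u = 0 := hu
    rw [ipm_self] at h1
    have h2 : ∫ x, ‖(u : R3 → S2) x‖ ^ 2 = 0 := by exact_mod_cast h1
    rw [integral_eq_zero_iff_of_nonneg (fun x => sq_nonneg _) (int_sq volume u)] at h2
    have h3 : (fun x => ‖(u : R3 → S2) x‖ ^ 2) = fun _ => (0 : ℝ) :=
      Continuous.ae_eq_iff_eq volume ((ts0 u).norm.pow 2) continuous_const |>.mp h2
    ext1
    funext x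
    have h4 := congr_fun h3 x
    have h5 : ‖(u : R3 → S2) x‖ = 0 := by
      have : ‖(u : R3 → S2) x‖ ^ 2 = 0 := h4
      exact pow_eq_zero_iff (by norm_num) |>.mp this
    exact norm_eq_zero.mp h5

@[reducible] noncomputable def tsNormed : NormedAddCommGroup TS :=
  @InnerProductSpace.Core.toNormedAddCommGroup ℂ TS _ _ _ tsCore

@[reducible] noncomputable def tsInner : @InnerProductSpace ℂ TS _ tsNormed.toSeminormedAddCommGroup :=
  @InnerProductSpace.ofCore ℂ TS _ _ _ tsCore.toCore

end Pool.Agent.Helper20.SM
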