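import Pool.Agent.Helper20.SMOne

set_option autoImplicit false

open MeasureTheory Set Function Filter
open scoped BigOperators ENNReal Topology ComplexConjugate

namespace Pool.Agent.Helper20.SM

theorem lint_half (r : ℝ) (hr : 0 < r) :
    ∫⁻ t in Ioo 0 r, ENNReal.ofReal (t ^ (-(1 / 2) : ℝ)) = ENNReal.ofReal (2 * r ^ (1 / 2 : ℝ)) := by
  have h1 : ∫ t in (0 : ℝ)..r, t ^ (-(1 / 2) : ℝ) = 2 * r ^ (1 / 2 : ℝ) := by
    rw [integral_rpow (Or.inl (by norm_num))]
    norm_num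
    ring
  have h2 : IntervalIntegrable (fun t : ℝ => t ^ (-(1 / 2) : ℝ)) volume 0 r :=
    intervalIntegral.intervalIntegrable_rpow' (by norm_num)
  rw [intervalIntegrable_iff_integrableOn_Ioo_of_le hr.le] at h2
  rw [intervalIntegral.integral_of_le hr.le, integral_Ioc_eq_integral_Ioo] at h1
  rw [← h1, ofReal_integral_eq_lintegral_ofReal h2]
  filter_upwards [ae_restrict_mem measurableSet_Ioo] with t ht
  exact Real.rpow_nonneg ht.1.le _

theorem inner_t (γ b : ℝ) (hγ : 0 < γ) (hb : 0 ≤ b) :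
    ∫⁻ t in Ioi (0 : ℝ), ENNReal.ofReal ((t ^ 2 / γ) ^ (-(1 / 4) : ℝ)) *
      ENNReal.ofReal (if t ^ 2 / (4 * γ) < b then b else 0) ^ (7 / 4 : ℝ) ≤
      ENNReal.ofReal (3 * Real.sqrt γ * b ^ 2) := by
  rcases hb.eq_or_lt with h0 | hbpos
  · rw [← h0]
    simp
  set r : ℝ := 2 * Real.sqrt (γ * b) with hr
  have hr0 : 0 < r := by positivity
  have h1 : ∀ t ∈ Ioi (0 : ℝ), ENNReal.ofReal ((t ^ 2 / γ) ^ (-(1 / 4) : ℝ)) *
      ENNReal.ofReal (if t ^ 2 / (4 * γ) < b then b else 0) ^ (7 / 4 : ℝ) ≤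
      (Ioo 0 r).indicator (fun t => ENNReal.ofReal (γ ^ (1 / 4 : ℝ) * b ^ (7 / 4 : ℝ)) *
        ENNReal.ofReal (t ^ (-(1 / 2) : ℝ))) t := by
    intro t ht
    have ht0 : (0 : ℝ) < t := ht
    by_cases hh : t ^ 2 / (4 * γ) < b
    · rw [if_pos hh]
      have htr : t < r := by
        rw [hr]
        have h2 : t ^ 2 < 4 * (γ * b) := by
          rw [div_lt_iff₀ (by positivity)] at hh
          linarith
        have h3 : (2 * Real.sqrt (γ * b)) ^ 2 = 4 * (γ * b) := by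
          rw [mul_pow, Real.sq_sqrt (by positivity)]
          norm_num
        rw [← h3] at h2
        exact lt_of_pow_lt_pow_left₀ 2 (by positivity) h2
      rw [indicator_of_mem (show t ∈ Ioo 0 r from ⟨ht0, htr⟩), ENNReal.ofReal_rpow_of_pos hbpos,
        ← ENNReal.ofReal_mul (by positivity), ← ENNReal.ofReal_mul (by positivity)]
      apply ENNReal.ofReal_le_ofReal
      apply le_of_eq
      have h4 : (t ^ 2 / γ) ^ (-(1 / 4) : ℝ) = γ ^ (1 / 4 : ℝ) * t ^ (-(1 / 2) : ℝ) := by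
        rw [Real.div_rpow (by positivity) hγ.le, ← Real.rpow_natCast t 2, ← Real.rpow_mul ht0.le,
          div_eq_mul_inv, ← Real.rpow_neg hγ.le]
        norm_num
        ring
      rw [h4]
      ring
    · rw [if_neg hh]
      simp
  calc ∫⁻ t in Ioi (0 : ℝ), ENNReal.ofReal ((t ^ 2 / γ) ^ (-(1 / 4) : ℝ)) *
      ENNReal.ofReal (if t ^ 2 / (4 * γ) < b then b else 0) ^ (7 / 4 : ℝ)
      ≤ ∫⁻ t in Ioi (0 : ℝ), (Ioo 0 r).indicator (fun t => ENNReal.ofReal (γ ^ (1 / 4 : ℝ) * b ^ (7 / 4 : ℝ)) *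
        ENNReal.ofReal (t ^ (-(1 / 2) : ℝ))) t := setLIntegral_mono' measurableSet_Ioi h1
    _ ≤ ∫⁻ t, (Ioo 0 r).indicator (fun t => ENNReal.ofReal (γ ^ (1 / 4 : ℝ) * b ^ (7 / 4 : ℝ)) *
        ENNReal.ofReal (t ^ (-(1 / 2) : ℝ))) t := lintegral_mono' Measure.restrict_le_self le_rfl
    _ = ENNReal.ofReal (γ ^ (1 / 4 : ℝ) * b ^ (7 / 4 : ℝ)) * ENNReal.ofReal (2 * r ^ (1 / 2 : ℝ)) := by
        have hm : Measurable (fun t : ℝ => ENNReal.ofReal (t ^ (-(1 / 2) : ℝ))) := by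
          fun_prop
        rw [lintegral_indicator measurableSet_Ioo, lintegral_const_mul _ hm, lint_half r hr0]
    _ ≤ _ := by
        rw [← ENNReal.ofReal_mul (by positivity)]
        apply ENNReal.ofReal_le_ofReal
        have h2 : r ^ (1 / 2 : ℝ) = 2 ^ (1 / 2 : ℝ) * (γ ^ (1 / 4 : ℝ) * b ^ (1 / 4 : ℝ)) := by
          rw [hr, Real.mul_rpow (by norm_num) (by positivity), Real.sqrt_eq_rpow,
            ← Real.rpow_mul (by positivity), Real.mul_rpow hγ.le hbpos.le]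
          norm_num
        have h3 : γ ^ (1 / 4 : ℝ) * γ ^ (1 / 4 : ℝ) = Real.sqrt γ := by
          rw [← Real.rpow_add hγ, Real.sqrt_eq_rpow]
          norm_num
        have h4 : b ^ (7 / 4 : ℝ) * b ^ (1 / 4 : ℝ) = b ^ 2 := by
          rw [← Real.rpow_add hbpos, ← Real.rpow_natCast]
          norm_num
        have h5 : 2 * (2 : ℝ) ^ (1 / 2 : ℝ) ≤ 3 := by
          rw [← Real.sqrt_eq_rpow]
          have : Real.sqrt 2 ≤ 3 / 2 := by
            rw [Real.sqrt_le_left (by norm_num)]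
            norm_num
          linarith
        rw [h2]
        calc γ ^ (1 / 4 : ℝ) * b ^ (7 / 4 : ℝ) * (2 * (2 ^ (1 / 2 : ℝ) * (γ ^ (1 / 4 : ℝ) * b ^ (1 / 4 : ℝ))))
            = (2 * (2 : ℝ) ^ (1 / 2 : ℝ)) * ((γ ^ (1 / 4 : ℝ) * γ ^ (1 / 4 : ℝ)) * (b ^ (7 / 4 : ℝ) * b ^ (1 / 4 : ℝ))) := by ring
          _ = (2 * (2 : ℝ) ^ (1 / 2 : ℝ)) * (Real.sqrt γ * b ^ 2) := by rw [h3, h4]
          _ ≤ 3 * (Real.sqrt γ * b ^ 2) := by gcongr
          _ = _ := by ring

/-- Sum of negative eigenvalues controlled by the field energy. -/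
theorem one_body (A : R3 → Fin 3 → ℝ) (hA : ContDiff ℝ ((⊤ : ℕ∞) : WithTop ℕ∞) A)
    (hAc : HasCompactSupport A) (z γ : ℝ) (hz : 0 ≤ z) (hγ : 0 < γ) (hzγ : z ^ 2 ≤ γ)
    (n : ℕ) (e : Fin n → TS) (lam : Fin n → ℝ)
    (he : @Orthonormal ℂ TS _ tsNormed.toSeminormedAddCommGroup tsInner (Fin n) e)
    (hd : ∀ i j, hs A hA z (e i) (e j) = if i = j then ((lam i : ℝ) : ℂ) else 0) :
    ∑ i, max (-lam i) 0 ≤ (150 / c2) * Real.sqrt γ * ∫ x, Bn A x ^ 2 := by
  have hB2 : Integrable (fun x => Bn A x ^ 2) := by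
    apply ((Bn_cont A hA).pow 2).integrable_of_hasCompactSupport
    apply (Bn_compact A hAc).mono
    intro x hx
    rw [Function.mem_support] at hx ⊢
    intro h
    apply hx
    simp [h]
  have hcp := c2_pos
  -- counting
  have hcount : ∀ t : ℝ, 0 < t → (((Finset.univ.filter (fun i => lam i < -t)).card : ℕ) : ℝ≥0∞) ≤
      ENNReal.ofReal (50 / c2) * (ENNReal.ofReal ((t ^ 2 / γ) ^ (-(1 / 4) : ℝ)) *
          ∫⁻ x, ENNReal.ofReal (Vr A (t ^ 2 / (4 * γ)) x) ^ (7 / 4 : ℝ)) := by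
    intro t ht
    obtain ⟨T, hT, hT2⟩ := low_states A hA hAc z γ t hz hγ hzγ ht
    refine le_trans ?_ hT
    have h1 := @count TS tsNormed tsInner (hs A hA z) t T (by
      intro u hu
      have h2 := hT2 u hu
      have h3 : (@norm TS tsNormed.toNorm u) ^ 2 = ∫ x, ‖(u : R3 → S2) x‖ ^ 2 := by
        have h4 := @inner_self_eq_norm_sq_to_K ℂ TS _ tsNormed.toSeminormedAddCommGroup tsInner u
        have h5 : ipm volume u u = ((@norm TS tsNormed.toNorm u : ℝ) : ℂ) ^ 2 := h4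
        rw [ipm_self] at h5
        exact_mod_cast h5.symm
      rw [h3]
      exact h2) n e lam he hd
    exact_mod_cast h1
  -- layer cake
  have hlc : ∀ i, ENNReal.ofReal (max (-lam i) 0) = ∫⁻ t in Ioi (0 : ℝ), (if lam i < -t then 1 else 0) := by
    intro i
    have h1 : ∀ t : ℝ, (if lam i < -t then (1 : ℝ≥0∞) else 0) = (Iio (-lam i)).indicator (fun _ => 1) t := by
      intro t
      by_cases h : lam i < -t
      · rw [if_pos h, indicator_of_mem (show t ∈ Iio (-lam i) by simp; linarith)]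
      · rw [if_neg h, indicator_of_notMem (show t ∉ Iio (-lam i) by simp; linarith)]
    simp only [h1]
    rw [lintegral_indicator measurableSet_Iio, Measure.restrict_restrict measurableSet_Iio]
    simp only [lintegral_const, one_mul, MeasurableSet.univ, Measure.restrict_apply, univ_inter]
    have h2 : Iio (-lam i) ∩ Ioi 0 = Ioo 0 (-lam i) := by
      ext t; simp [and_comm]
    rw [h2, Real.volume_Ioo, sub_zero]
    rcases le_total 0 (-lam i) with h | h
    · rw [max_eq_left h]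
    · rw [max_eq_right h, ENNReal.ofReal_zero, ENNReal.ofReal_of_nonpos h]
  have hsum : ENNReal.ofReal (∑ i, max (-lam i) 0) =
      ∫⁻ t in Ioi (0 : ℝ), (((Finset.univ.filter (fun i => lam i < -t)).card : ℕ) : ℝ≥0∞) := by
    rw [ENNReal.ofReal_sum_of_nonneg (fun i _ => le_max_right _ _)]
    simp only [hlc]
    rw [← lintegral_finsetSum']
    · apply lintegral_congr
      intro t
      rw [Finset.card_filter]
      push_cast
      rfl
    · intro i _
      apply Measurable.aemeasurable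
      exact Measurable.ite (measurableSet_lt measurable_const measurable_neg) measurable_const measurable_const
  have hmain : ENNReal.ofReal (∑ i, max (-lam i) 0) ≤
      ENNReal.ofReal ((150 / c2) * Real.sqrt γ * ∫ x, Bn A x ^ 2) := by
    rw [hsum]
    have hmeas : Measurable (fun p : ℝ × R3 => ENNReal.ofReal ((p.1 ^ 2 / γ) ^ (-(1 / 4) : ℝ)) *
        ENNReal.ofReal (if p.1 ^ 2 / (4 * γ) < Bn A p.2 then Bn A p.2 else 0) ^ (7 / 4 : ℝ)) := by
      apply Measurable.mul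
      · exact (((measurable_fst.pow_const 2).div_const γ).pow_const _).ennreal_ofReal
      · apply Measurable.pow_const
        apply Measurable.ennreal_ofReal
        have hBm : Measurable (fun p : ℝ × R3 => Bn A p.2) := (Bn_cont A hA).measurable.comp measurable_snd
        exact Measurable.ite (measurableSet_lt ((measurable_fst.pow_const 2).div_const _) hBm) hBm measurable_const
    have hmx : ∀ t : ℝ, Measurable (fun x => ENNReal.ofReal (Vr A (t ^ 2 / (4 * γ)) x) ^ (7 / 4 : ℝ)) :=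
      fun t => (Vr_meas A hA _).ennreal_ofReal.pow_const _
    calc ∫⁻ t in Ioi (0 : ℝ), (((Finset.univ.filter (fun i => lam i < -t)).card : ℕ) : ℝ≥0∞)
        ≤ ∫⁻ t in Ioi (0 : ℝ), ENNReal.ofReal (50 / c2) * (ENNReal.ofReal ((t ^ 2 / γ) ^ (-(1 / 4) : ℝ)) *
          ∫⁻ x, ENNReal.ofReal (Vr A (t ^ 2 / (4 * γ)) x) ^ (7 / 4 : ℝ)) :=
          setLIntegral_mono' measurableSet_Ioi (fun t ht => hcount t ht)
      _ = ENNReal.ofReal (50 / c2) * ∫⁻ t in Ioi (0 : ℝ), (ENNReal.ofReal ((t ^ 2 / γ) ^ (-(1 / 4) : ℝ)) *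
          ∫⁻ x, ENNReal.ofReal (Vr A (t ^ 2 / (4 * γ)) x) ^ (7 / 4 : ℝ)) := by
          rw [lintegral_const_mul' _ _ ENNReal.ofReal_ne_top]
      _ = ENNReal.ofReal (50 / c2) * ∫⁻ t in Ioi (0 : ℝ), ∫⁻ x, (ENNReal.ofReal ((t ^ 2 / γ) ^ (-(1 / 4) : ℝ)) *
          ENNReal.ofReal (Vr A (t ^ 2 / (4 * γ)) x) ^ (7 / 4 : ℝ)) := by
          congr 1
          apply lintegral_congr
          intro t
          rw [lintegral_const_mul _ (hmx t)]
      _ = ENNReal.ofReal (50 / c2) * ∫⁻ x, ∫⁻ t in Ioi (0 : ℝ), (ENNReal.ofReal ((t ^ 2 / γ) ^ (-(1 / 4) : ℝ)) *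
          ENNReal.ofReal (Vr A (t ^ 2 / (4 * γ)) x) ^ (7 / 4 : ℝ)) := by
          congr 1
          rw [lintegral_lintegral_swap]
          exact hmeas.aemeasurable
      _ ≤ ENNReal.ofReal (50 / c2) * ∫⁻ x, ENNReal.ofReal (3 * Real.sqrt γ * Bn A x ^ 2) := by
          gcongr with x
          exact inner_t γ (Bn A x) hγ (Bn_nonneg A x)
      _ = _ := by
          rw [← ofReal_integral_eq_lintegral_ofReal (hB2.const_mul _) (Eventually.of_forall (fun x => by
            have := Bn_nonneg A x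
            positivity)), integral_const_mul, ← ENNReal.ofReal_mul (by positivity)]
          congr 1
          ring
  exact (ENNReal.ofReal_le_ofReal_iff (by
    have : 0 ≤ ∫ x, Bn A x ^ 2 := integral_nonneg (fun _ => sq_nonneg _)
    positivity)).mp hmain

end Pool.Agent.Helper20.SM
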