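import Pool.Agent.Helper20.SMAbs

set_option autoImplicit false

open MeasureTheory Set Function Filter
open scoped BigOperators ENNReal Topology ComplexConjugate

namespace Pool.Agent.Helper20.SM

theorem simple_integral {X Z : Type} [MeasurableSpace X] [MeasurableSpace Z] (ν : Measure X)
    [IsFiniteMeasure ν] (s : SimpleFunc X Z) (g : Z → ℝ) :
    ∫ x, g (s x) ∂ν = ∑ v : s.range, (ν (s ⁻¹' {(v : Z)})).toReal * g v := by
  classical
  have h1 : ∀ x, g (s x) = ∑ v ∈ s.range, (s ⁻¹' {v}).indicator (fun _ => g v) x := by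
    intro x
    rw [Finset.sum_eq_single (s x)]
    · rw [indicator_of_mem]
      simp
    · intro v _ hv
      rw [indicator_of_notMem]
      simp only [mem_preimage, mem_singleton_iff]
      exact fun h => hv h.symm
    · intro h
      exact absurd (s.mem_range_self x) h
  simp only [h1]
  rw [integral_finsetSum]
  · rw [← Finset.sum_coe_sort s.range]
    apply Finset.sum_congr rfl
    intro v _
    rw [integral_indicator (s.measurableSet_fiber v)]
    simp [Measure.real, mul_comm]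
  · intro v _
    exact (integrable_const _).indicator (s.measurableSet_fiber v)

variable {E : Type} [NormedAddCommGroup E] [InnerProductSpace ℂ E]

theorem limit_lemma (H : E →ₗ⋆[ℂ] E →ₗ[ℂ] ℂ) (hH : ∀ u v, conj (H u v) = H v u) (R : ℝ) (_hR0 : 0 ≤ R)
    (hR : ∀ (n : ℕ) (e : Fin n → E) (lam : Fin n → ℝ), Orthonormal ℂ e →
      (∀ i j, H (e i) (e j) = if i = j then ((lam i : ℝ) : ℂ) else 0) → ∑ i, max (-lam i) 0 ≤ R)
    {X : Type} [PseudoMetricSpace X] [MeasurableSpace X] [BorelSpace X] [SecondCountableTopology X]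
    (x₀ : X) (ν : Measure X) [IsFiniteMeasure ν] {J : Type} [Fintype J] (Φ : J → X → E)
    (hΦ : ∀ j, Continuous (Φ j)) (M : ℝ) (hM : ∀ j x, ‖Φ j x‖ ≤ M)
    (hq : ∀ j, Continuous (fun x => (H (Φ j x) (Φ j x)).re)) (M' : ℝ)
    (hM' : ∀ j x, |(H (Φ j x) (Φ j x)).re| ≤ M')
    (hpauli : ∀ f : E, ∑ j, ∫ x, ‖(inner ℂ f (Φ j x) : ℂ)‖ ^ 2 ∂ν ≤ ‖f‖ ^ 2) :
    -(2 * R) ≤ ∑ j, ∫ x, (H (Φ j x) (Φ j x)).re ∂ν := by
  classical
  let s : ℕ → SimpleFunc X X := fun m => SimpleFunc.approxOn id measurable_id univ x₀ (mem_univ _) m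
  have hs : ∀ x, Tendsto (fun m => s m x) atTop (𝓝 x) := by
    intro x
    have := SimpleFunc.tendsto_approxOn (f := (id : X → X)) measurable_id (s := univ) (y₀ := x₀) (mem_univ _)
      (x := x) (by simp)
    exact this
  set d : ℕ → ℝ := fun m => ∑ j, ∫ x, ‖Φ j (s m x) - Φ j x‖ ^ 2 ∂ν with hd
  have hmeasd : ∀ j m, Measurable (fun x => ‖Φ j (s m x) - Φ j x‖ ^ 2) := by
    intro j m
    have h1 : Continuous (fun p : X × X => ‖Φ j p.1 - Φ j p.2‖ ^ 2) :=
      (((hΦ j).comp continuous_fst).sub ((hΦ j).comp continuous_snd)).norm.pow 2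
    exact h1.measurable.comp ((s m).measurable.prodMk measurable_id)
  have hbd : ∀ j m x, ‖‖Φ j (s m x) - Φ j x‖ ^ 2‖ ≤ (2 * M) ^ 2 := by
    intro j m x
    rw [Real.norm_eq_abs, abs_of_nonneg (sq_nonneg _)]
    have h1 : ‖Φ j (s m x) - Φ j x‖ ≤ 2 * M := by
      refine (norm_sub_le _ _).trans ?_
      have := hM j (s m x)
      have := hM j x
      linarith
    gcongr
  have hintd : ∀ j m, Integrable (fun x => ‖Φ j (s m x) - Φ j x‖ ^ 2) ν := by
    intro j m
    exact Integrable.mono' (integrable_const ((2 * M) ^ 2)) (hmeasd j m).aestronglyMeasurable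
      (Eventually.of_forall (hbd j m))
  have hdt : Tendsto d atTop (𝓝 0) := by
    have h1 : ∀ j, Tendsto (fun m => ∫ x, ‖Φ j (s m x) - Φ j x‖ ^ 2 ∂ν) atTop (𝓝 0) := by
      intro j
      have h2 := tendsto_integral_of_dominated_convergence (μ := ν)
        (F := fun m x => ‖Φ j (s m x) - Φ j x‖ ^ 2) (f := fun _ => (0 : ℝ)) (fun _ => (2 * M) ^ 2)
        (fun m => (hmeasd j m).aestronglyMeasurable) (integrable_const _)
        (fun m => Eventually.of_forall (hbd j m))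
        (Eventually.of_forall (fun x => by
          have h3 : Tendsto (fun m => Φ j (s m x)) atTop (𝓝 (Φ j x)) := ((hΦ j).tendsto x).comp (hs x)
          have h4 := (h3.sub_const (Φ j x)).norm.pow 2
          simpa using h4))
      simpa using h2
    have h2 := tendsto_finsetSum Finset.univ (fun j _ => h1 j)
    simpa [hd] using h2
  have hmeasq : ∀ j m, Measurable (fun x => (H (Φ j (s m x)) (Φ j (s m x))).re) := by
    intro j m
    exact (hq j).measurable.comp (s m).measurable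
  have hlim : Tendsto (fun m => ∑ j, ∫ x, (H (Φ j (s m x)) (Φ j (s m x))).re ∂ν) atTop
      (𝓝 (∑ j, ∫ x, (H (Φ j x) (Φ j x)).re ∂ν)) := by
    apply tendsto_finsetSum
    intro j _
    apply tendsto_integral_of_dominated_convergence (μ := ν) (fun _ => M')
      (fun m => (hmeasq j m).aestronglyMeasurable) (integrable_const _)
    · intro m
      exact Eventually.of_forall (fun x => by rw [Real.norm_eq_abs]; exact hM' j (s m x))
    · exact Eventually.of_forall (fun x => ((hq j).tendsto x).comp (hs x))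
  have hinn : ∀ (f : E) j, Continuous (fun x => ‖(inner ℂ f (Φ j x) : ℂ)‖ ^ 2) := fun f j =>
    (continuous_const.inner (hΦ j)).norm.pow 2
  have hinnb : ∀ (f : E) j x, ‖‖(inner ℂ f (Φ j x) : ℂ)‖ ^ 2‖ ≤ (‖f‖ * M) ^ 2 := by
    intro f j x
    rw [Real.norm_eq_abs, abs_of_nonneg (sq_nonneg _)]
    have h1 : ‖(inner ℂ f (Φ j x) : ℂ)‖ ≤ ‖f‖ * M :=
      (norm_inner_le_norm _ _).trans (mul_le_mul_of_nonneg_left (hM j x) (norm_nonneg _))
    gcongr
  have hstep : ∀ m, -((2 + 2 * d m) * R) ≤ ∑ j, ∫ x, (H (Φ j (s m x)) (Φ j (s m x))).re ∂ν := by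
    intro m
    have hd0 : 0 ≤ d m := Finset.sum_nonneg (fun j _ => integral_nonneg (fun x => sq_nonneg _))
    have hsimp : ∀ (j : J) (g : X → ℝ), ∫ x, g (s m x) ∂ν = ∑ v : (s m).range, (ν (s m ⁻¹' {(v : X)})).toReal * g v :=
      fun j g => simple_integral ν (s m) g
    have h1 := lemA H hH R hR (ι := J × (s m).range) (fun p => Φ p.1 p.2)
      (fun p => (ν (s m ⁻¹' {(p.2 : X)})).toReal) (fun p => ENNReal.toReal_nonneg) (2 + 2 * d m) (by
        intro f
        rw [Fintype.sum_prod_type]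
        have h2 : ∀ j, ∑ v : (s m).range, (ν (s m ⁻¹' {(v : X)})).toReal * ‖(inner ℂ f (Φ j v) : ℂ)‖ ^ 2 =
            ∫ x, ‖(inner ℂ f (Φ j (s m x)) : ℂ)‖ ^ 2 ∂ν := fun j =>
          (hsimp j (fun v => ‖(inner ℂ f (Φ j v) : ℂ)‖ ^ 2)).symm
        simp only [h2]
        have h3 : ∀ j, ∫ x, ‖(inner ℂ f (Φ j (s m x)) : ℂ)‖ ^ 2 ∂ν ≤
            2 * (∫ x, ‖(inner ℂ f (Φ j x) : ℂ)‖ ^ 2 ∂ν) + 2 * ‖f‖ ^ 2 * ∫ x, ‖Φ j (s m x) - Φ j x‖ ^ 2 ∂ν := by
          intro j
          have i1 : Integrable (fun x => ‖(inner ℂ f (Φ j x) : ℂ)‖ ^ 2) ν :=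
            Integrable.mono' (integrable_const ((‖f‖ * M) ^ 2)) (hinn f j).aestronglyMeasurable
              (Eventually.of_forall (hinnb f j))
          have i2 : Integrable (fun x => ‖(inner ℂ f (Φ j (s m x)) : ℂ)‖ ^ 2) ν :=
            Integrable.mono' (integrable_const ((‖f‖ * M) ^ 2))
              ((hinn f j).measurable.comp (s m).measurable).aestronglyMeasurable
              (Eventually.of_forall (fun x => hinnb f j (s m x)))
          rw [← integral_const_mul, ← integral_const_mul, ← integral_add (i1.const_mul 2) ((hintd j m).const_mul _)]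
          apply integral_mono i2 ((i1.const_mul 2).add ((hintd j m).const_mul _))
          intro x
          show ‖(inner ℂ f (Φ j (s m x)) : ℂ)‖ ^ 2 ≤ 2 * ‖(inner ℂ f (Φ j x) : ℂ)‖ ^ 2 +
            2 * ‖f‖ ^ 2 * ‖Φ j (s m x) - Φ j x‖ ^ 2
          have e1 : (inner ℂ f (Φ j (s m x)) : ℂ) = inner ℂ f (Φ j x) + inner ℂ f (Φ j (s m x) - Φ j x) := by
            rw [← inner_add_right]; congr 1; abel
          have e2 : ‖(inner ℂ f (Φ j (s m x)) : ℂ)‖ ≤ ‖(inner ℂ f (Φ j x) : ℂ)‖ + ‖f‖ * ‖Φ j (s m x) - Φ j x‖ := by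
            rw [e1]
            exact (norm_add_le _ _).trans (by gcongr; exact norm_inner_le_norm _ _)
          have e3 : ‖(inner ℂ f (Φ j (s m x)) : ℂ)‖ ^ 2 ≤ (‖(inner ℂ f (Φ j x) : ℂ)‖ + ‖f‖ * ‖Φ j (s m x) - Φ j x‖) ^ 2 := by
            gcongr
          nlinarith [sq_nonneg (‖(inner ℂ f (Φ j x) : ℂ)‖ - ‖f‖ * ‖Φ j (s m x) - Φ j x‖)]
        calc ∑ j, ∫ x, ‖(inner ℂ f (Φ j (s m x)) : ℂ)‖ ^ 2 ∂ν
            ≤ ∑ j, (2 * (∫ x, ‖(inner ℂ f (Φ j x) : ℂ)‖ ^ 2 ∂ν) + 2 * ‖f‖ ^ 2 * ∫ x, ‖Φ j (s m x) - Φ j x‖ ^ 2 ∂ν) :=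
              Finset.sum_le_sum (fun j _ => h3 j)
          _ = 2 * (∑ j, ∫ x, ‖(inner ℂ f (Φ j x) : ℂ)‖ ^ 2 ∂ν) + 2 * ‖f‖ ^ 2 * d m := by
              rw [Finset.sum_add_distrib, ← Finset.mul_sum, ← Finset.mul_sum]
          _ ≤ 2 * ‖f‖ ^ 2 + 2 * ‖f‖ ^ 2 * d m := by
              have := hpauli f
              linarith
          _ = _ := by ring) (by positivity)
    rw [Fintype.sum_prod_type] at h1
    have h2 : ∀ j, ∑ v : (s m).range, (ν (s m ⁻¹' {(v : X)})).toReal * (H (Φ j v) (Φ j v)).re =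
        ∫ x, (H (Φ j (s m x)) (Φ j (s m x))).re ∂ν := fun j =>
      (hsimp j (fun v => (H (Φ j v) (Φ j v)).re)).symm
    simp only [h2] at h1
    exact h1
  have hl2 : Tendsto (fun m => -((2 + 2 * d m) * R)) atTop (𝓝 (-((2 + 2 * 0) * R))) :=
    (((hdt.const_mul 2).const_add 2).mul_const R).neg
  have h3 := le_of_tendsto_of_tendsto' hl2 hlim hstep
  simpa using h3

end Pool.Agent.Helper20.SM
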