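import Pool.Agent.Helper20.SMForm

set_option autoImplicit false

open MeasureTheory Set Function
open scoped BigOperators ENNReal

namespace Pool.Agent.Helper20.SM

theorem aff_cont (a : R3) (ℓ : ℝ) : Continuous (fun x : R3 => a + ℓ • x) :=
  continuous_const.add (continuous_id.const_smul ℓ)

theorem aff_hasFDeriv (a : R3) (ℓ : ℝ) (x : R3) :
    HasFDerivAt (fun x : R3 => a + ℓ • x) (ℓ • ContinuousLinearMap.id ℝ R3) x :=
  ((hasFDerivAt_id x).const_smul ℓ).const_add a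

theorem aff_c1 (a : R3) (ℓ : ℝ) : ContDiff ℝ 1 (fun x : R3 => a + ℓ • x) :=
  contDiff_const.add (contDiff_id.const_smul ℓ)

/-- Chain rule for rescaled functions. -/
theorem fderiv_aff {E : Type} [NormedAddCommGroup E] [NormedSpace ℝ E] (f : R3 → E) (hf : ContDiff ℝ 1 f)
    (a : R3) (ℓ : ℝ) (x w : R3) :
    fderiv ℝ (fun y => f (a + ℓ • y)) x w = ℓ • fderiv ℝ f (a + ℓ • x) w := by
  have h1 : HasFDerivAt f (fderiv ℝ f (a + ℓ • x)) (a + ℓ • x) :=
    ((hf.differentiable (by simp)) _).hasFDerivAt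
  have h2 := (h1.comp x (aff_hasFDeriv a ℓ x)).fderiv
  have h3 : fderiv ℝ (fun y => f (a + ℓ • y)) x = (fderiv ℝ f (a + ℓ • x)).comp (ℓ • ContinuousLinearMap.id ℝ R3) := h2
  rw [h3]
  simp

/-- The local pairing as a linear functional. -/
noncomputable def locL (a : R3) (ℓ : ℝ) (f : TS) : TS →ₗ[ℂ] ℂ where
  toFun u := ∫ x, (inner ℂ ((f : R3 → S2) (a + ℓ • x)) ((u : R3 → S2) (a + ℓ • x)) : ℂ) ∂m3
  map_add' u v := by
    have h : ∀ u : TS, Integrable (fun x => (inner ℂ ((f : R3 → S2) (a + ℓ • x)) ((u : R3 → S2) (a + ℓ • x)) : ℂ)) m3 :=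
      fun u => integrable_m3 (((ts0 f).comp (aff_cont a ℓ)).inner ((ts0 u).comp (aff_cont a ℓ)))
    rw [← integral_add (h u) (h v)]
    apply integral_congr_ae
    filter_upwards with x
    simp
  map_smul' c u := by
    simp only [RingHom.id_apply, smul_eq_mul]
    rw [← integral_const_mul]
    apply integral_congr_ae
    filter_upwards with x
    simp

/-- The local mass. -/
noncomputable def gloc (a : R3) (ℓ : ℝ) (u : TS) : ℝ := ∫ x, ‖(u : R3 → S2) (a + ℓ • x)‖ ^ 2 ∂m3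

/-- The local kinetic energy. -/
noncomputable def kloc (A : R3 → Fin 3 → ℝ) (a : R3) (ℓ : ℝ) (u : TS) : ℝ :=
  ∑ k, ∫ x, ‖Dm A k u (a + ℓ • x)‖ ^ 2 ∂m3

theorem gloc_nonneg (a : R3) (ℓ : ℝ) (u : TS) : 0 ≤ gloc a ℓ u :=
  integral_nonneg (fun _ => sq_nonneg _)

theorem kloc_nonneg (A : R3 → Fin 3 → ℝ) (a : R3) (ℓ : ℝ) (u : TS) : 0 ≤ kloc A a ℓ u :=
  Finset.sum_nonneg (fun _ _ => integral_nonneg (fun _ => sq_nonneg _))

theorem exists_bad (A : R3 → Fin 3 → ℝ) (a : R3) (ℓ : ℝ)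
    (T : Finset (TS →ₗ[ℂ] ℂ))
    (h : ¬ ∀ u : TS, (∀ L ∈ T, L u = 0) → gloc a ℓ u ≤ 1000 * ℓ ^ 2 * kloc A a ℓ u) :
    ∃ u : TS, (∀ L ∈ T, L u = 0) ∧ 1000 * ℓ ^ 2 * kloc A a ℓ u < gloc a ℓ u := by
  push Not at h
  exact h

/-- On every cube two linear conditions give a magnetic Poincare inequality. -/
theorem excl (A : R3 → Fin 3 → ℝ) (hA : Continuous A) (a : R3) (ℓ : ℝ) (hℓ : 0 < ℓ) :
    ∃ T : Finset (TS →ₗ[ℂ] ℂ), T.card ≤ 2 ∧ ∀ u : TS, (∀ L ∈ T, L u = 0) →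
      gloc a ℓ u ≤ 1000 * ℓ ^ 2 * kloc A a ℓ u := by
  classical
  by_contra hcon
  push Not at hcon
  obtain ⟨u0, -, h0⟩ := hcon ∅ (by simp)
  obtain ⟨u1, hT1, h1⟩ := hcon {locL a ℓ u0} (by simp)
  obtain ⟨u2, hT2, h2⟩ := hcon {locL a ℓ u0, locL a ℓ u1} (Finset.card_le_two)
  have o01 : locL a ℓ u0 u1 = 0 := hT1 _ (by simp)
  have o02 : locL a ℓ u0 u2 = 0 := hT2 _ (by simp)
  have o12 : locL a ℓ u1 u2 = 0 := hT2 _ (by simp)
  let u : Fin 3 → TS := ![u0, u1, u2]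
  have hb : ∀ i, 1000 * ℓ ^ 2 * kloc A a ℓ (u i) < gloc a ℓ (u i) := by
    intro i
    fin_cases i
    · exact h0
    · exact h1
    · exact h2
  have hgpos : ∀ i, 0 < gloc a ℓ (u i) := by
    intro i
    have := kloc_nonneg A a ℓ (u i)
    have := hb i
    have : 0 ≤ 1000 * ℓ ^ 2 * kloc A a ℓ (u i) := by positivity
    linarith
  have hsymm : ∀ f g : TS, locL a ℓ f g = 0 → locL a ℓ g f = 0 := by
    intro f g hfg
    have h3 : locL a ℓ g f = (starRingEnd ℂ) (locL a ℓ f g) := by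
      show (∫ x, _ ∂m3) = (starRingEnd ℂ) (∫ x, _ ∂m3)
      rw [← integral_conj]
      apply integral_congr_ae
      filter_upwards with x
      rw [inner_conj_symm]
    rw [h3, hfg, map_zero]
  have horth : ∀ i j, i ≠ j → locL a ℓ (u i) (u j) = 0 := by
    intro i j hij
    fin_cases i <;> fin_cases j <;> first | exact absurd rfl hij | skip
    · exact o01
    · exact o02
    · exact hsymm _ _ o01
    · exact o12
    · exact hsymm _ _ o02
    · exact hsymm _ _ o12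
  set c : Fin 3 → ℝ := fun i => (Real.sqrt (gloc a ℓ (u i)))⁻¹ with hc
  have hc2 : ∀ i, (c i) ^ 2 * gloc a ℓ (u i) = 1 := by
    intro i
    rw [hc]
    dsimp only
    rw [inv_pow, Real.sq_sqrt (hgpos i).le, inv_mul_cancel₀ (hgpos i).ne']
  have hcpos : ∀ i, 0 < c i := fun i => inv_pos.mpr (Real.sqrt_pos.mpr (hgpos i))
  let v : Fin 3 → R3 → S2 := fun i x => ((c i : ℝ) : ℂ) • (u i : R3 → S2) (a + ℓ • x)
  let κ : Fin 3 → Fin 3 → R3 → ℝ := fun i k x => ℓ * c i * ‖Dm A k (u i) (a + ℓ • x)‖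
  have hv : ∀ i, ContDiff ℝ 1 (v i) := by
    intro i
    exact ((ts1 (u i)).comp (aff_c1 a ℓ)).const_smul (((c i : ℝ) : ℂ))
  have hinner : ∀ i j x, (inner ℂ (v i x) (v j x) : ℂ) = ((c i * c j : ℝ) : ℂ) *
      (inner ℂ ((u i : R3 → S2) (a + ℓ • x)) ((u j : R3 → S2) (a + ℓ • x)) : ℂ) := by
    intro i j x
    simp only [v]
    rw [inner_smul_left, inner_smul_right, Complex.conj_ofReal]
    push_cast
    ring
  refine cube_excl v hv κ ?_ ?_ ?_ ?_
  · intro i k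
    exact continuous_const.mul ((Dm_cont A hA k (u i)).comp (aff_cont a ℓ)).norm
  · intro i j k x
    have hf : ContDiff ℝ 1 (fun y => (inner ℂ ((u i : R3 → S2) y) ((u j : R3 → S2) y) : ℂ)) :=
      (ts1 (u i)).inner ℂ (ts1 (u j))
    have e1 : (fun y => (inner ℂ (v i y) (v j y) : ℂ)) = fun y => ((c i * c j : ℝ) : ℂ) *
      (fun z => (inner ℂ ((u i : R3 → S2) z) ((u j : R3 → S2) z) : ℂ)) (a + ℓ • y) := by
      funext y
      rw [hinner]
    rw [e1]
    have hd : DifferentiableAt ℝ (fun y => (fun z => (inner ℂ ((u i : R3 → S2) z) ((u j : R3 → S2) z) : ℂ)) (a + ℓ • y)) x :=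
      ((hf.comp (aff_c1 a ℓ)).differentiable (by simp)) x
    have e2 : fderiv ℝ (fun y => ((c i * c j : ℝ) : ℂ) *
      (fun z => (inner ℂ ((u i : R3 → S2) z) ((u j : R3 → S2) z) : ℂ)) (a + ℓ • y)) x (Pi.single k 1) =
      ((c i * c j : ℝ) : ℂ) * fderiv ℝ (fun y => (fun z => (inner ℂ ((u i : R3 → S2) z) ((u j : R3 → S2) z) : ℂ)) (a + ℓ • y)) x (Pi.single k 1) := by
      rw [fderiv_const_mul hd]
      simp
    rw [e2, fderiv_aff _ hf, norm_mul, norm_smul, Complex.norm_real, Real.norm_eq_abs,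
      Real.norm_eq_abs, abs_of_pos (mul_pos (hcpos i) (hcpos j)), abs_of_pos hℓ]
    have h3 := fderiv_inner_norm_le A k (u i) (u j) (a + ℓ • x)
    have h4 : ∀ i, ‖v i x‖ = c i * ‖(u i : R3 → S2) (a + ℓ • x)‖ := by
      intro i
      simp only [v]
      rw [norm_smul, Complex.norm_real, Real.norm_eq_abs, abs_of_pos (hcpos i)]
    rw [h4, h4]
    simp only [κ]
    calc c i * c j * (ℓ * ‖fderiv ℝ (fun y => (inner ℂ ((u i : R3 → S2) y) ((u j : R3 → S2) y) : ℂ)) (a + ℓ • x) (Pi.single k 1)‖)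
        ≤ c i * c j * (ℓ * (‖(u i : R3 → S2) (a + ℓ • x)‖ * ‖Dm A k (u j) (a + ℓ • x)‖ + ‖Dm A k (u i) (a + ℓ • x)‖ * ‖(u j : R3 → S2) (a + ℓ • x)‖)) := by
          have := (mul_pos (hcpos i) (hcpos j)).le
          gcongr
      _ = _ := by ring
  · intro i j
    simp only [hinner]
    rw [integral_const_mul]
    have h3 : ∫ x, (inner ℂ ((u i : R3 → S2) (a + ℓ • x)) ((u j : R3 → S2) (a + ℓ • x)) : ℂ) ∂m3 = locL a ℓ (u i) (u j) := rfl
    rw [h3]
    by_cases hij : i = j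
    · subst hij
      rw [if_pos rfl]
      have h4 : locL a ℓ (u i) (u i) = ((gloc a ℓ (u i) : ℝ) : ℂ) := by
        show (∫ x, _ ∂m3) = _
        rw [gloc, ← integral_complex_ofReal]
        apply integral_congr_ae
        filter_upwards with x
        rw [inner_self_eq_norm_sq_to_K]
        push_cast
        rfl
      rw [h4]
      have := hc2 i
      rw [← Complex.ofReal_mul]
      have h5 : c i * c i * gloc a ℓ (u i) = 1 := by rw [← this]; ring
      rw [h5]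
      simp
    · rw [if_neg hij, horth i j hij, mul_zero]
  · intro i
    have h3 : ∑ k, ∫ x, (κ i k x) ^ 2 ∂m3 = (c i) ^ 2 * (ℓ ^ 2 * kloc A a ℓ (u i)) := by
      rw [kloc, Finset.mul_sum, Finset.mul_sum]
      apply Finset.sum_congr rfl
      intro k _
      rw [← integral_const_mul, ← integral_const_mul]
      apply integral_congr_ae
      filter_upwards with x
      simp only [κ]
      ring
    rw [h3]
    have h4 := hb i
    have h5 : (c i) ^ 2 * (1000 * ℓ ^ 2 * kloc A a ℓ (u i)) ≤ (c i) ^ 2 * gloc a ℓ (u i) := by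
      gcongr
    rw [hc2] at h5
    linarith

end Pool.Agent.Helper20.SM
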