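import Pool.Agent.Helper20.SMPB

set_option autoImplicit false

open MeasureTheory Set Function Filter
open scoped BigOperators ENNReal Topology ComplexConjugate

namespace Pool.Agent.Helper20.SM

variable {n : ℕ}

/-- The N-body bound. -/
theorem nbody {ψ : Xn (n + 1) → Sn (n + 1) → ℂ} (h : WF ψ)
    (hanti : ∀ (σ : Equiv.Perm (Fin (n + 1))) (x : Xn (n + 1)) (s : Sn (n + 1)),
      ψ (x ∘ σ) (s ∘ σ) = ((Equiv.Perm.sign σ : ℤ) : ℂ) * ψ x s)
    (hnorm : ∫ x, dn ψ x = 1) {A : E3 → E3} (hA : ContDiff ℝ ((⊤ : ℕ∞) : WithTop ℕ∞) A)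
    (hAc : HasCompactSupport A) (z γ : ℝ) (hz : 0 ≤ z) (hγ : 0 < γ) (hzγ : z ^ 2 ≤ γ) :
    -(2 * ((150 / c2) * Real.sqrt γ * ∫ x, Bn (ap A) x ^ 2)) ≤
      ∑ i : Fin (n + 1), ((∫ x, kd ψ A i x) - z * (∫ x : Xn (n + 1), dn ψ x / ‖x i‖) + z ^ 2 * ∫ x, dn ψ x) := by
  classical
  set R : ℝ := (150 / c2) * Real.sqrt γ * ∫ x, Bn (ap A) x ^ 2 with hR
  have hR0 : 0 ≤ R := by
    have h1 : 0 ≤ ∫ x, Bn (ap A) x ^ 2 := integral_nonneg (fun _ => sq_nonneg _)
    have := c2_pos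
    positivity
  set K' : Set (Xn n) := ⋃ i, KX ψ i with hK'
  have hK'c : IsCompact K' := isCompact_iUnion (fun i => KX_compact h i)
  have hfin : IsFiniteMeasure ((volume : Measure (Xn n)).restrict K') :=
    ⟨by rw [Measure.restrict_apply_univ]; exact hK'c.measure_lt_top⟩
  have hout : ∀ (x' : Xn n), x' ∉ K' → ∀ i, x' ∉ KX ψ i := by
    intro x' hx i hi
    exact hx (mem_iUnion.mpr ⟨i, hi⟩)
  obtain ⟨M, hM⟩ : ∃ M, ∀ (j : Fin (n + 1) × Sn n) x', nrm (sl h j.1 j.2 x') ≤ M := by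
    choose M hM using fun j : Fin (n + 1) × Sn n => sl_bdd h j.1 j.2
    refine ⟨∑ j, |M j|, fun j x' => (hM j x').trans ((le_abs_self _).trans ?_)⟩
    exact Finset.single_le_sum (f := fun j => |M j|) (fun _ _ => abs_nonneg _) (Finset.mem_univ j)
  obtain ⟨M', hM'⟩ : ∃ M', ∀ (j : Fin (n + 1) × Sn n) x',
      |(hs (ap A) (ap_smooth hA) z (sl h j.1 j.2 x') (sl h j.1 j.2 x')).re| ≤ M' := by
    choose M hM using fun j : Fin (n + 1) × Sn n => q_bdd h hA z j.1 j.2
    refine ⟨∑ j, |M j|, fun j x' => (hM j x').trans ((le_abs_self _).trans ?_)⟩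
    exact Finset.single_le_sum (f := fun j => |M j|) (fun _ _ => abs_nonneg _) (Finset.mem_univ j)
  have hmain := @limit_lemma TS tsNormed tsInner (hs (ap A) (ap_smooth hA) z)
    (hs_conj (ap A) (ap_smooth hA) z) R hR0
    (fun m e lam he hd => one_body (ap A) (ap_smooth hA) (ap_compact hAc) z γ hz hγ hzγ m e lam he hd)
    (Xn n) _ _ _ _ 0 ((volume : Measure (Xn n)).restrict K') hfin (Fin (n + 1) × Sn n) _
    (fun j x' => sl h j.1 j.2 x') (fun j => sl_cont h j.1 j.2) M hM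
    (fun j => q_cont h hA z j.1 j.2) M' hM'
    (by
      intro f
      have h1 := pauli_bound h hanti hnorm f
      rw [Fintype.sum_prod_type]
      refine le_trans (le_of_eq ?_) h1
      apply Finset.sum_congr rfl
      intro i _
      apply Finset.sum_congr rfl
      intro s' _
      apply setIntegral_eq_integral_of_forall_compl_eq_zero
      intro x' hx'
      have h2 := sl_zero h i s' x' (hout x' hx' i)
      show ‖ipm volume f (sl h i s' x')‖ ^ 2 = 0
      rw [h2]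
      simp)
  refine hmain.trans (le_of_eq ?_)
  rw [Fintype.sum_prod_type]
  apply Finset.sum_congr rfl
  intro i _
  rw [energy_eq h hA z i]
  apply Finset.sum_congr rfl
  intro s' _
  apply setIntegral_eq_integral_of_forall_compl_eq_zero
  intro x' hx'
  exact q_zero h hA z i s' x' (hout x' hx' i)

end Pool.Agent.Helper20.SM
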