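import Pool.Agent.Helper20.SMHilb

set_option autoImplicit false

open MeasureTheory Set Function Filter
open scoped BigOperators ENNReal Topology ComplexConjugate

namespace Pool.Agent.Helper20.SM

open Pool.Agent.Helper20.PF (FS)

/-- The Pauli operator sigma dot D. -/
noncomputable def SD (A : R3 → Fin 3 → ℝ) (hA : ContDiff ℝ ((⊤ : ℕ∞) : WithTop ℕ∞) A) : TS →ₗ[ℂ] TS :=
  ∑ k, (LT (sg k)).comp (DT A hA k)

theorem SD_apply (A : R3 → Fin 3 → ℝ) (hA : ContDiff ℝ ((⊤ : ℕ∞) : WithTop ℕ∞) A) (u : TS) (x : R3) :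
    (SD A hA u : R3 → S2) x = ∑ k, sg k (Dm A k u x) := by
  unfold SD
  rw [LinearMap.sum_apply]
  simp only [Fin.sum_univ_three, LinearMap.comp_apply]
  rfl

/-- The one-body energy form, shifted by z squared. -/
noncomputable def hs (A : R3 → Fin 3 → ℝ) (hA : ContDiff ℝ ((⊤ : ℕ∞) : WithTop ℕ∞) A) (z : ℝ) :
    TS →ₗ⋆[ℂ] TS →ₗ[ℂ] ℂ :=
  LinearMap.mk₂'ₛₗ (starRingEnd ℂ) (RingHom.id ℂ)
    (fun u v => ipm volume (SD A hA u) (SD A hA v) - (z : ℂ) * ipm muc u v + ((z ^ 2 : ℝ) : ℂ) * ipm volume u v)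
    (by
      intro u u' v
      simp only [map_add, LinearMap.add_apply]
      ring)
    (by
      intro c u v
      simp only [map_smul, LinearMap.map_smulₛₗ, LinearMap.smul_apply, smul_eq_mul]
      ring)
    (by
      intro u v v'
      simp only [map_add]
      ring)
    (by
      intro c u v
      simp only [map_smul, smul_eq_mul, RingHom.id_apply]
      ring)

theorem hs_apply (A : R3 → Fin 3 → ℝ) (hA : ContDiff ℝ ((⊤ : ℕ∞) : WithTop ℕ∞) A) (z : ℝ) (u v : TS) :
    hs A hA z u v = ipm volume (SD A hA u) (SD A hA v) - (z : ℂ) * ipm muc u v +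
      ((z ^ 2 : ℝ) : ℂ) * ipm volume u v := rfl

theorem hs_conj (A : R3 → Fin 3 → ℝ) (hA : ContDiff ℝ ((⊤ : ℕ∞) : WithTop ℕ∞) A) (z : ℝ) (u v : TS) :
    conj (hs A hA z u v) = hs A hA z v u := by
  rw [hs_apply, hs_apply]
  simp only [map_add, map_sub, map_mul, ipm_conj, Complex.conj_ofReal]

/-- The quadratic form in real terms. -/
theorem hs_self (A : R3 → Fin 3 → ℝ) (hA : ContDiff ℝ ((⊤ : ℕ∞) : WithTop ℕ∞) A) (z : ℝ) (u : TS) :
    (hs A hA z u u).re = (∫ x, ‖∑ k, sg k (Dm A k u x)‖ ^ 2) - z * (∫ x, ‖(u : R3 → S2) x‖ ^ 2 / en x) +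
      z ^ 2 * ∫ x, ‖(u : R3 → S2) x‖ ^ 2 := by
  rw [hs_apply, ipm_self, ipm_self, ipm_self, ← Complex.ofReal_mul, ← Complex.ofReal_mul,
    ← Complex.ofReal_sub, ← Complex.ofReal_add, Complex.ofReal_re]
  simp only [SD_apply]
  rw [integral_muc]
  congr 3
  apply integral_congr_ae
  filter_upwards with x
  rw [smul_eq_mul]
  ring

/-- The large part of the field at a given energy. -/
noncomputable def Vr (A : R3 → Fin 3 → ℝ) (c : ℝ) (x : R3) : ℝ := if c < Bn A x then Bn A x else 0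

theorem Vr_meas (A : R3 → Fin 3 → ℝ) (hA : ContDiff ℝ ((⊤ : ℕ∞) : WithTop ℕ∞) A) (c : ℝ) :
    Measurable (Vr A c) :=
  Measurable.ite (measurableSet_lt measurable_const (Bn_cont A hA).measurable)
    (Bn_cont A hA).measurable measurable_const

theorem Vr_nonneg (A : R3 → Fin 3 → ℝ) (c : ℝ) (x : R3) : 0 ≤ Vr A c x := by
  unfold Vr
  split_ifs
  · exact Bn_nonneg A x
  · exact le_rfl

theorem Vr_le (A : R3 → Fin 3 → ℝ) (c : ℝ) (x : R3) : Vr A c x ≤ Bn A x := by
  unfold Vr
  split_ifs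
  · exact le_rfl
  · exact Bn_nonneg A x

theorem Bn_compact (A : R3 → Fin 3 → ℝ) (hAc : HasCompactSupport A) : HasCompactSupport (Bn A) := by
  apply hAc.mono'
  intro x hx
  by_contra hcon
  apply hx
  have h1 : ∀ k : Fin 3, (fun y => A y k) =ᶠ[𝓝 x] fun _ => 0 := by
    intro k
    rw [notMem_tsupport_iff_eventuallyEq] at hcon
    filter_upwards [hcon] with y hy
    rw [hy]
    rfl
  have h2 : ∀ k : Fin 3, fderiv ℝ (fun y => A y k) x = 0 := by
    intro k
    rw [(h1 k).fderiv_eq]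
    simp
  unfold Bn Fs
  simp [h2]

/-- The main one-body estimate: few low lying states. -/
theorem low_states (A : R3 → Fin 3 → ℝ) (hA : ContDiff ℝ ((⊤ : ℕ∞) : WithTop ℕ∞) A)
    (hAc : HasCompactSupport A) (z γ t : ℝ) (hz : 0 ≤ z) (hγ : 0 < γ) (hzγ : z ^ 2 ≤ γ) (ht : 0 < t) :
    ∃ T : Finset (TS →ₗ[ℂ] ℂ), (T.card : ℝ≥0∞) ≤ ENNReal.ofReal (50 / c2) *
        (ENNReal.ofReal ((t ^ 2 / γ) ^ (-(1 / 4) : ℝ)) *
          ∫⁻ x, ENNReal.ofReal (Vr A (t ^ 2 / (4 * γ)) x) ^ (7 / 4 : ℝ)) ∧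
      ∀ u : TS, (∀ L ∈ T, L u = 0) → -(t * ∫ x, ‖(u : R3 → S2) x‖ ^ 2) ≤ (hs A hA z u u).re := by
  have hBc := Bn_compact A hAc
  obtain ⟨M, hM⟩ : ∃ M, ∀ x, Bn A x ≤ M := by
    obtain ⟨M, hM⟩ := (Bn_cont A hA).bounded_above_of_compact_support hBc
    exact ⟨M, fun x => (le_abs_self _).trans (by simpa [Real.norm_eq_abs] using hM x)⟩
  obtain ⟨R, hR⟩ : ∃ R, ∀ x : R3, Bn A x ≠ 0 → ∀ k, |x k| ≤ R := by
    obtain ⟨R, hR⟩ := hBc.isCompact.isBounded.subset_closedBall (0 : R3)
    refine ⟨R, fun x hx k => ?_⟩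
    have h1 : x ∈ Metric.closedBall (0 : R3) R := hR (subset_tsupport _ hx)
    rw [mem_closedBall_zero_iff] at h1
    exact (norm_le_pi_norm x k).trans h1
  set s : ℝ := t ^ 2 / γ with hs'
  have hs0 : 0 < s := by positivity
  set c : ℝ := t ^ 2 / (4 * γ) with hc
  have hcs : c = s / 4 := by rw [hc, hs']; field_simp
  have hVm : Measurable (fun x => ENNReal.ofReal (Vr A c x)) := (Vr_meas A hA c).ennreal_ofReal
  obtain ⟨T, hT, hT2⟩ := clr A hA.continuous (fun x => ENNReal.ofReal (Vr A c x)) hVm M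
    (fun x => ENNReal.ofReal_le_ofReal ((Vr_le A c x).trans (hM x))) R
    (by
      intro x hx
      apply hR
      intro h0
      apply hx
      have h1 := Vr_le A c x
      have h2 := Vr_nonneg A c x
      have : Vr A c x = 0 := by linarith
      rw [this, ENNReal.ofReal_zero]) s hs0
  refine ⟨T, hT, ?_⟩
  intro u hu
  by_contra hcon
  push Not at hcon
  rw [hs_self] at hcon
  -- notation
  set K := ∫ x, ∑ k, ‖Dm A k u x‖ ^ 2 with hK
  set G := ∫ x, ‖(u : R3 → S2) x‖ ^ 2 with hG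
  set P := ∫ x, ‖∑ k, sg k (Dm A k u x)‖ ^ 2 with hP
  set C := ∫ x, ‖(u : R3 → S2) x‖ ^ 2 / en x with hC
  set B := ∫ x, Bn A x * ‖(u : R3 → S2) x‖ ^ 2 with hB
  have hP0 : 0 ≤ P := integral_nonneg (fun _ => sq_nonneg _)
  have hK0 : 0 ≤ K := integral_nonneg (fun _ => Finset.sum_nonneg (fun _ _ => sq_nonneg _))
  have hG0 : 0 ≤ G := integral_nonneg (fun _ => sq_nonneg _)
  have hB0 : 0 ≤ B := integral_nonneg (fun x => mul_nonneg (Bn_nonneg A x) (sq_nonneg _))
  have hPK : K - B ≤ P := pauli_lower A hA u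
  have hcoul := (coulomb A hA u).2
  -- key inequality
  have hkey : K + s * G < 2 * B := by
    set t' := t + z ^ 2 with ht'
    have ht'0 : 0 < t' := by positivity
    have hE : P - z * C + t' * G < 0 := by rw [ht']; linarith
    by_cases hcase : t' ≤ γ
    · have h1 := hcoul z hz
      have h2 : s ≤ z ^ 2 + 2 * t := by
        rw [hs', div_le_iff₀ hγ]
        have h3 : t ≤ γ := by rw [ht'] at hcase; nlinarith [sq_nonneg z]
        nlinarith [sq_nonneg z]
      have h4 : s * G ≤ (z ^ 2 + 2 * t) * G := mul_le_mul_of_nonneg_right h2 hG0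
      rw [ht'] at hE
      nlinarith
    · push Not at hcase
      set μ := γ / t' with hμ
      have hμ0 : 0 < μ := by positivity
      have hμ1 : μ ≤ 1 := by rw [hμ, div_le_one ht'0]; exact hcase.le
      have h1 : μ * P ≤ P := by nlinarith
      have h2 : μ * (K - B) ≤ μ * P := by gcongr
      have h3 : z * C ≤ μ / 2 * K + z ^ 2 / (2 * μ) * G := by
        rcases hz.eq_or_lt with h0 | hzpos
        · rw [← h0]; simp; positivity
        · have h4 := hcoul (z / μ) (by positivity)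
          have h5 : μ / 2 * (2 * (z / μ) * C) ≤ μ / 2 * (K + (z / μ) ^ 2 * G) := by gcongr
          have h6 : μ / 2 * (2 * (z / μ) * C) = z * C := by field_simp
          have h7 : μ / 2 * (K + (z / μ) ^ 2 * G) = μ / 2 * K + z ^ 2 / (2 * μ) * G := by
            field_simp
          rw [h6, h7] at h5
          exact h5
      have h4 : z ^ 2 / (2 * μ) ≤ t' / 2 := by
        rw [hμ]
        have : z ^ 2 / (2 * (γ / t')) = z ^ 2 / γ * (t' / 2) := by field_simp
        rw [this]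
        have h5 : z ^ 2 / γ ≤ 1 := (div_le_one hγ).mpr hzγ
        have h6 : z ^ 2 / γ * (t' / 2) ≤ 1 * (t' / 2) := by gcongr
        linarith
      have h5 : z ^ 2 / (2 * μ) * G ≤ t' / 2 * G := mul_le_mul_of_nonneg_right h4 hG0
      have h6 : μ / 2 * K + t' / 2 * G < μ * B := by linarith
      have h7 : μ * (K + t' / μ * G) < μ * (2 * B) := by
        have : μ * (K + t' / μ * G) = 2 * (μ / 2 * K + t' / 2 * G) := by field_simp
        rw [this]
        linarith
      have h8 : K + t' / μ * G < 2 * B := lt_of_mul_lt_mul_left h7 hμ0.le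
      have h9 : s ≤ t' / μ := by
        rw [hμ, hs']
        have h10 : t' / (γ / t') = t' ^ 2 / γ := by field_simp
        rw [h10]
        apply div_le_div_of_nonneg_right _ hγ.le
        have : t ≤ t' := by rw [ht']; nlinarith [sq_nonneg z]
        nlinarith
      have h10 : s * G ≤ t' / μ * G := mul_le_mul_of_nonneg_right h9 hG0
      linarith
  -- the truncated field
  have iV : Integrable (fun x => Vr A c x * ‖(u : R3 → S2) x‖ ^ 2) := by
    apply Integrable.mono' (g := fun x => Bn A x * ‖(u : R3 → S2) x‖ ^ 2)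
    · apply int_mul u
      · exact (Bn_cont A hA).mul ((ts0 u).norm.pow 2)
      · intro x hx; simp [hx]
    · exact ((Vr_meas A hA c).mul ((ts0 u).norm.pow 2).measurable).aestronglyMeasurable
    · filter_upwards with x
      rw [Real.norm_eq_abs, abs_of_nonneg (mul_nonneg (Vr_nonneg A c x) (sq_nonneg _))]
      exact mul_le_mul_of_nonneg_right (Vr_le A c x) (sq_nonneg _)
  have hBV : 2 * B ≤ s / 2 * G + 2 * ∫ x, Vr A c x * ‖(u : R3 → S2) x‖ ^ 2 := by
    rw [hB, hG, ← integral_const_mul, ← integral_const_mul, ← integral_const_mul,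
      ← integral_add ((int_u u).const_mul _) (iV.const_mul 2)]
    apply integral_mono
    · apply Integrable.const_mul
      apply int_mul u
      · exact (Bn_cont A hA).mul ((ts0 u).norm.pow 2)
      · intro x hx; simp [hx]
    · exact ((int_u u).const_mul _).add (iV.const_mul 2)
    · intro x
      dsimp only
      have h1 : 0 ≤ ‖(u : R3 → S2) x‖ ^ 2 := sq_nonneg _
      unfold Vr
      split_ifs with hh
      · have : 0 ≤ s / 2 * ‖(u : R3 → S2) x‖ ^ 2 := by positivity
        linarith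
      · push Not at hh
        rw [hcs] at hh
        nlinarith
  have hfin := hT2 u hu
  have e1 : ∫⁻ x, ENNReal.ofReal (Vr A c x) * ‖(u : R3 → S2) x‖ₑ ^ 2 =
      ENNReal.ofReal (∫ x, Vr A c x * ‖(u : R3 → S2) x‖ ^ 2) := by
    rw [ofReal_integral_eq_lintegral_ofReal iV (Eventually.of_forall (fun x =>
      mul_nonneg (Vr_nonneg A c x) (sq_nonneg _)))]
    apply lintegral_congr
    intro x
    rw [ENNReal.ofReal_mul (Vr_nonneg A c x), ENNReal.ofReal_pow (norm_nonneg _), ofReal_norm]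
  have e2 : ∫⁻ x, ∑ k, ‖Dm A k u x‖ₑ ^ 2 = ENNReal.ofReal K := by
    rw [hK, ofReal_integral_eq_lintegral_ofReal (integrable_finsetSum _ (fun k _ => int_D A hA u k))
      (Eventually.of_forall (fun x => Finset.sum_nonneg (fun _ _ => sq_nonneg _)))]
    apply lintegral_congr
    intro x
    rw [ENNReal.ofReal_sum_of_nonneg (fun _ _ => sq_nonneg _)]
    apply Finset.sum_congr rfl
    intro k _
    rw [ENNReal.ofReal_pow (norm_nonneg _), ofReal_norm]
  have e3 : ∫⁻ x, ‖(u : R3 → S2) x‖ₑ ^ 2 = ENNReal.ofReal G := by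
    rw [hG, ofReal_integral_eq_lintegral_ofReal (int_u u) (Eventually.of_forall (fun x => sq_nonneg _))]
    apply lintegral_congr
    intro x
    rw [ENNReal.ofReal_pow (norm_nonneg _), ofReal_norm]
  rw [e1, e2, e3, ← ENNReal.ofReal_mul (by positivity), ← ENNReal.ofReal_add hK0 (by positivity)] at hfin
  have e5 : ∀ y : ℝ, 2 * ENNReal.ofReal y = ENNReal.ofReal (2 * y) := by
    intro y
    rw [ENNReal.ofReal_mul (by norm_num)]
    norm_num
  rw [e5] at hfin
  have hfin2 := (ENNReal.ofReal_le_ofReal_iff (by positivity)).mp hfin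
  linarith

end Pool.Agent.Helper20.SM
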