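import Pool.Agent.Helper20.SMFub

set_option autoImplicit false

open MeasureTheory Set Function Filter
open scoped BigOperators ENNReal Topology ComplexConjugate

namespace Pool.Agent.Helper20.SM

variable {n : ℕ}

/-- One particle position and spin. -/
abbrev Om := E3 × Fin 2

/-- The one particle measure. -/
noncomputable def mo : Measure Om := (volume : Measure E3).prod Measure.count

instance : SigmaFinite mo := by unfold mo; infer_instance
instance : IsLocallyFiniteMeasure mo := by unfold mo; infer_instance

theorem count_pi (m : ℕ) (s : Sn m) : (Measure.pi (fun _ : Fin m => (Measure.count : Measure (Fin 2)))).real {s} = 1 := by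
  rw [Measure.real, Measure.pi_singleton]
  simp

/-- Integration over configurations as space integral and spin sum. -/
theorem integral_zip (m : ℕ) (g : (Fin m → Om) → ℝ) (hg : Integrable g (Measure.pi (fun _ => mo))) :
    ∫ ω, g ω ∂(Measure.pi (fun _ => mo)) = ∫ x : Xn m, ∑ s : Sn m, g (fun j => (x j, s j)) := by
  have h1 := (measurePreserving_arrowProdEquivProdArrow E3 (Fin 2) (Fin m) (fun _ => (volume : Measure E3))
    (fun _ => (Measure.count : Measure (Fin 2)))).symm
  have h2 := h1.integral_comp' g
  have h3 : Integrable (fun p : Xn m × Sn m => g ((MeasurableEquiv.arrowProdEquivProdArrow E3 (Fin 2) (Fin m)).symm p))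
      ((Measure.pi (fun _ => (volume : Measure E3))).prod (Measure.pi (fun _ => (Measure.count : Measure (Fin 2))))) := by
    exact (h1.integrable_comp_emb (MeasurableEquiv.measurableEmbedding _)).mpr hg
  have h4 := integral_prod _ h3
  calc ∫ ω, g ω ∂(Measure.pi (fun _ => mo)) = _ := h2.symm
    _ = _ := h4
    _ = _ := by
      rw [← volume_pi]
      apply integral_congr_ae
      filter_upwards with x
      rw [integral_fintype]
      · apply Finset.sum_congr rfl
        intro s _
        rw [count_pi, one_smul]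
        rfl
      · exact Integrable.of_finite

theorem integral_one (g : Om → ℂ) (hg : Integrable g mo) :
    ∫ ω, g ω ∂mo = ∫ y : R3, ∑ t : Fin 2, g (tE y, t) := by
  unfold mo at hg ⊢
  rw [integral_prod _ hg]
  have h1 : ∀ e : E3, ∫ t : Fin 2, g (e, t) ∂Measure.count = ∑ t : Fin 2, g (e, t) := by
    intro e
    rw [integral_fintype]
    · apply Finset.sum_congr rfl
      intro t _
      rw [Measure.real, Measure.count_singleton]
      simp
    · exact Integrable.of_finite
  simp only [h1]
  exact tE_int (fun e => ∑ t : Fin 2, g (e, t))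

theorem integral_oneR (g : Om → ℝ) (hg : Integrable g mo) :
    ∫ ω, g ω ∂mo = ∫ y : R3, ∑ t : Fin 2, g (tE y, t) := by
  unfold mo at hg ⊢
  rw [integral_prod _ hg]
  have h1 : ∀ e : E3, ∫ t : Fin 2, g (e, t) ∂Measure.count = ∑ t : Fin 2, g (e, t) := by
    intro e
    rw [integral_fintype]
    · apply Finset.sum_congr rfl
      intro t _
      rw [Measure.real, Measure.count_singleton]
      simp
    · exact Integrable.of_finite
  simp only [h1]
  exact tE_int (fun e => ∑ t : Fin 2, g (e, t))

/-- The wave function on combined variables. -/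
noncomputable def wf (ψ : Xn (n + 1) → Sn (n + 1) → ℂ) (ω : Fin (n + 1) → Om) : ℂ :=
  ψ (fun j => (ω j).1) (fun j => (ω j).2)

theorem wf_cont {ψ : Xn (n + 1) → Sn (n + 1) → ℂ} (h : WF ψ) : Continuous (wf ψ) := by
  have h1 : Continuous (fun p : Xn (n + 1) × Sn (n + 1) => ψ p.1 p.2) := by
    rw [continuous_prod_of_discrete_right]
    intro s
    exact (h.smooth s).continuous
  have h2 : Continuous (fun ω : Fin (n + 1) → Om => ((fun j => (ω j).1, fun j => (ω j).2) : Xn (n + 1) × Sn (n + 1))) := by
    fun_prop
  exact h1.comp h2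

theorem wf_compact {ψ : Xn (n + 1) → Sn (n + 1) → ℂ} (h : WF ψ) : HasCompactSupport (wf ψ) := by
  have h1 : IsCompact ((fun (p : Xn (n + 1) × Sn (n + 1)) (j : Fin (n + 1)) => ((p.1 j, p.2 j) : Om)) ''
      (K0 ψ ×ˢ (univ : Set (Sn (n + 1))))) := by
    apply IsCompact.image
    · exact (K0_compact h).prod isCompact_univ
    · fun_prop
  apply HasCompactSupport.of_support_subset_isCompact h1
  intro ω hω
  exact ⟨(fun j => (ω j).1, fun j => (ω j).2), ⟨K0_mem hω, mem_univ _⟩, rfl⟩

/-- A test spinor on combined variables. -/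
noncomputable def fh (f : TS) (ω : Om) : ℂ := (f : R3 → S2) (tE.symm ω.1) ω.2

theorem fh_cont (f : TS) : Continuous (fh f) := by
  have h1 : Continuous (fun p : E3 × Fin 2 => (f : R3 → S2) (tE.symm p.1) p.2) := by
    rw [continuous_prod_of_discrete_right]
    intro t
    have h2 : Continuous (fun e : E3 => (f : R3 → S2) (tE.symm e)) := (ts0 f).comp tE.symm.continuous
    exact (EuclideanSpace.proj t : S2 →L[ℂ] ℂ).continuous.comp h2
  exact h1

theorem fh_compact (f : TS) : HasCompactSupport (fh f) := by
  have h1 : IsCompact ((tE '' tsupport (f : R3 → S2)) ×ˢ (univ : Set (Fin 2))) :=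
    ((tsK f).isCompact.image tE.continuous).prod isCompact_univ
  apply HasCompactSupport.of_support_subset_isCompact h1
  rintro ⟨e, t⟩ hω
  refine ⟨⟨tE.symm e, ?_, tE.apply_symm_apply e⟩, mem_univ _⟩
  apply subset_tsupport
  rw [mem_support]
  intro h0
  apply hω
  unfold fh
  rw [h0]
  rfl

theorem om_ins_cont (i : Fin (n + 1)) :
    Continuous (fun p : Om × (Fin n → Om) => (Fin.insertNth i p.1 p.2 : Fin (n + 1) → Om)) := by
  apply continuous_pi
  intro l
  by_cases hl : l = i
  · subst hl
    have e : (fun p : Om × (Fin n → Om) => (Fin.insertNth l p.1 p.2 : Fin (n + 1) → Om) l) = fun p => p.1 := by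
      funext p; simp
    rw [e]
    exact continuous_fst
  · obtain ⟨m, rfl⟩ := Fin.exists_succAbove_eq hl
    have e : (fun p : Om × (Fin n → Om) => (Fin.insertNth i p.1 p.2 : Fin (n + 1) → Om) (i.succAbove m)) =
        fun p => p.2 m := by
      funext p; simp
    rw [e]
    exact (continuous_apply m).comp continuous_snd

theorem inner_sl {ψ : Xn (n + 1) → Sn (n + 1) → ℂ} (h : WF ψ) (f : TS) (i : Fin (n + 1)) (s' : Sn n) (x' : Xn n) :
    ∫ y : Om, conj (fh f y) * wf ψ (Fin.insertNth i y (fun j => (x' j, s' j))) ∂mo =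
      ipm volume f (sl h i s' x') := by
  have hcont : Continuous (fun y : Om => conj (fh f y) * wf ψ (Fin.insertNth i y (fun j => (x' j, s' j)))) := by
    apply Continuous.mul
    · exact Complex.continuous_conj.comp (fh_cont f)
    · have hins : Continuous (fun y : Om => (Fin.insertNth i y (fun j => (x' j, s' j)) : Fin (n + 1) → Om)) :=
        (om_ins_cont i).comp (continuous_id.prodMk continuous_const)
      exact (wf_cont h).comp hins
  have hcs : HasCompactSupport (fun y : Om => conj (fh f y) * wf ψ (Fin.insertNth i y (fun j => (x' j, s' j)))) := by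
    apply (fh_compact f).mono
    intro y hy
    rw [mem_support] at hy ⊢
    intro h0
    apply hy
    simp [h0]
  rw [integral_one _ (hcont.integrable_of_hasCompactSupport hcs), ipm_apply]
  apply integral_congr_ae
  filter_upwards with y
  rw [PiLp.inner_apply]
  apply Finset.sum_congr rfl
  intro t _
  have e1 : fh f (tE y, t) = (f : R3 → S2) y t := by
    unfold fh
    simp
  have e2 : wf ψ (Fin.insertNth i ((tE y, t) : Om) (fun j => (x' j, s' j))) = slf ψ i s' x' y t := by
    unfold wf
    rw [slf_apply]
    congr 1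
    · funext j
      by_cases hj : j = i
      · subst hj; simp [ins]
      · obtain ⟨m, rfl⟩ := Fin.exists_succAbove_eq hj
        simp [ins]
    · funext j
      by_cases hj : j = i
      · subst hj; simp
      · obtain ⟨m, rfl⟩ := Fin.exists_succAbove_eq hj
        simp
  rw [e1, e2]
  simp [sl, mul_comm]

/-- The Pauli principle bound for slices. -/
theorem pauli_bound {ψ : Xn (n + 1) → Sn (n + 1) → ℂ} (h : WF ψ)
    (hanti : ∀ (σ : Equiv.Perm (Fin (n + 1))) (x : Xn (n + 1)) (s : Sn (n + 1)),
      ψ (x ∘ σ) (s ∘ σ) = ((Equiv.Perm.sign σ : ℤ) : ℂ) * ψ x s)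
    (hnorm : ∫ x, dn ψ x = 1) (f : TS) :
    ∑ i : Fin (n + 1), ∑ s' : Sn n, ∫ x' : Xn n, ‖ipm volume f (sl h i s' x')‖ ^ 2 ≤ nrm f ^ 2 := by
  have hfn : ∫ y, ‖fh f y‖ ^ 2 ∂mo = nrm f ^ 2 := by
    have hi : Integrable (fun y => ‖fh f y‖ ^ 2) mo := by
      apply ((fh_cont f).norm.pow 2).integrable_of_hasCompactSupport
      apply (fh_compact f).mono
      intro y hy
      rw [mem_support] at hy ⊢
      intro h0
      apply hy
      simp [h0]
    rw [integral_oneR _ hi, nrm_sq]
    apply integral_congr_ae
    filter_upwards with y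
    rw [EuclideanSpace.norm_sq_eq]
    apply Finset.sum_congr rfl
    intro t _
    unfold fh
    simp
  -- convert the sum
  have hconv : ∀ i, ∑ s' : Sn n, ∫ x' : Xn n, ‖ipm volume f (sl h i s' x')‖ ^ 2 =
      ∫ ω' : Fin n → Om, ‖∫ y, conj (fh f y) * wf ψ (Fin.insertNth i y ω') ∂mo‖ ^ 2 ∂(Measure.pi (fun _ => mo)) := by
    intro i
    have hc1 : Continuous (fun ω' : Fin n → Om => ∫ y, conj (fh f y) * wf ψ (Fin.insertNth i y ω') ∂mo) := by
      have hh : (fun ω' : Fin n → Om => ∫ y, conj (fh f y) * wf ψ (Fin.insertNth i y ω') ∂mo) =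
          fun ω' => ov mo (fh f) (wf ψ) i (Fin.insertNth i ((0, 0) : Om) ω') := by
        funext ω'
        rw [ov_insert]
      rw [hh]
      have hins : Continuous (fun ω' : Fin n → Om => (Fin.insertNth i ((0, 0) : Om) ω' : Fin (n + 1) → Om)) :=
        (om_ins_cont i).comp (continuous_const.prodMk continuous_id)
      exact (ov_cont mo (fh f) (fh_cont f) (fh_compact f) (wf ψ) (wf_cont h) i).comp hins
    have hs1 : HasCompactSupport (fun ω' : Fin n → Om => ‖∫ y, conj (fh f y) * wf ψ (Fin.insertNth i y ω') ∂mo‖ ^ 2) := by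
      have hK : IsCompact ((fun (ω : Fin (n + 1) → Om) (j : Fin n) => ω (i.succAbove j)) '' tsupport (wf ψ)) :=
        (wf_compact h).isCompact.image (continuous_pi (fun _ => continuous_apply _))
      apply HasCompactSupport.of_support_subset_isCompact hK
      intro ω' hω'
      by_contra hne
      apply hω'
      have : ∀ y, wf ψ (Fin.insertNth i y ω') = 0 := by
        intro y
        by_contra h0
        apply hne
        refine ⟨Fin.insertNth i y ω', subset_tsupport _ h0, ?_⟩
        funext j
        simp
      simp [this]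
    have hi1 : Integrable (fun ω' : Fin n → Om => ‖∫ y, conj (fh f y) * wf ψ (Fin.insertNth i y ω') ∂mo‖ ^ 2)
        (Measure.pi (fun _ => mo)) := (hc1.norm.pow 2).integrable_of_hasCompactSupport hs1
    rw [integral_zip n _ hi1]
    simp only [inner_sl h]
    rw [integral_finsetSum]
    intro s' _
    have hc2 : Continuous (fun x' : Xn n => ‖ipm volume f (sl h i s' x')‖ ^ 2) := by
      have e : (fun x' : Xn n => ‖ipm volume f (sl h i s' x')‖ ^ 2) = fun x' =>
          ‖∫ y, conj (fh f y) * wf ψ (Fin.insertNth i y (fun j => (x' j, s' j))) ∂mo‖ ^ 2 := by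
        funext x'
        rw [inner_sl h]
      rw [e]
      have hz : Continuous (fun x' : Xn n => (fun j => ((x' j, s' j) : Om))) := by fun_prop
      exact (hc1.norm.pow 2).comp hz
    apply hc2.integrable_of_hasCompactSupport
    apply HasCompactSupport.of_support_subset_isCompact (KX_compact h i)
    intro x' hx'
    by_contra hne
    apply hx'
    simp [sl_zero h i s' x' hne]
  simp only [hconv]
  rcases (nrm_nonneg f).eq_or_lt with h0 | hpos
  · -- zero function
    have hf0 : f = 0 := by
      have h1 : @norm TS tsNormed.toNorm f = 0 := h0.symm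
      exact (@norm_eq_zero TS tsNormed.toNormedAddGroup f).mp h1
    have h2 : ∀ y, fh f y = 0 := by
      intro y
      rw [hf0]
      rfl
    simp [h2]
    exact sq_nonneg _
  · have h1 := exclusion mo (fh f) (fh_cont f) (fh_compact f) (wf ψ) (wf_cont h) (wf_compact h) (by
      intro i j hij ω
      have h2 := hanti (Equiv.swap i j) (fun j => (ω j).1) (fun j => (ω j).2)
      rw [Equiv.Perm.sign_swap hij] at h2
      unfold wf
      have h3 : ψ (fun l => ((ω ∘ Equiv.swap i j) l).1) (fun l => ((ω ∘ Equiv.swap i j) l).2) =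
        ψ ((fun j => (ω j).1) ∘ Equiv.swap i j) ((fun j => (ω j).2) ∘ Equiv.swap i j) := rfl
      rw [h3, h2]
      simp) (by rw [hfn]; positivity)
    refine h1.trans (le_of_eq ?_)
    rw [hfn]
    have hi2 : Integrable (fun ω => ‖wf ψ ω‖ ^ 2) (Measure.pi (fun _ => mo)) := by
      apply ((wf_cont h).norm.pow 2).integrable_of_hasCompactSupport
      apply (wf_compact h).mono
      intro y hy
      rw [mem_support] at hy ⊢
      intro h0
      apply hy
      simp [h0]
    rw [integral_zip (n + 1) _ hi2]
    have h4 : ∫ x : Xn (n + 1), ∑ s : Sn (n + 1), ‖wf ψ (fun j => (x j, s j))‖ ^ 2 = ∫ x, dn ψ x := rfl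
    rw [h4, hnorm, mul_one]

end Pool.Agent.Helper20.SM
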