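import Pool.Agent.Helper20.SMClr
import Pool.Agent.Helper20.PFCalc

set_option autoImplicit false

open MeasureTheory Set Function
open scoped BigOperators ENNReal

namespace Pool.Agent.Helper20.SM

open Pool.Agent.Helper20.PF (FS)

/-- Pauli matrices. -/
def pm : Fin 3 → Matrix (Fin 2) (Fin 2) ℂ :=
  ![!![0, 1; 1, 0], !![0, -Complex.I; Complex.I, 0], !![1, 0; 0, -1]]

/-- Pauli matrices acting on spinors. -/
noncomputable def sg (k : Fin 3) : S2 →ₗ[ℂ] S2 where
  toFun v := WithLp.toLp 2 (fun s => ∑ t, pm k s t * v t)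
  map_add' v w := by
    ext s
    simp [mul_add, Finset.sum_add_distrib]
  map_smul' c v := by
    ext s
    simp only [PiLp.smul_apply, smul_eq_mul, RingHom.id_apply, Finset.mul_sum]
    apply Finset.sum_congr rfl
    intro t _
    ring

theorem sg_apply (k : Fin 3) (v : S2) (s : Fin 2) : sg k v s = ∑ t, pm k s t * v t := rfl

/-- Expansion of the Pauli form. -/
theorem sg_expand (w : Fin 3 → S2) :
    ‖∑ k, sg k (w k)‖ ^ 2 = ∑ k, ‖w k‖ ^ 2 +
      (((inner ℂ (w 0) (sg 0 (sg 1 (w 1))) : ℂ).re - (inner ℂ (w 1) (sg 0 (sg 1 (w 0))) : ℂ).re) +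
      ((inner ℂ (w 0) (sg 0 (sg 2 (w 2))) : ℂ).re - (inner ℂ (w 2) (sg 0 (sg 2 (w 0))) : ℂ).re) +
      ((inner ℂ (w 1) (sg 1 (sg 2 (w 2))) : ℂ).re - (inner ℂ (w 2) (sg 1 (sg 2 (w 1))) : ℂ).re)) := by
  simp only [EuclideanSpace.norm_sq_eq, Fin.sum_univ_three, Fin.sum_univ_two, PiLp.add_apply,
    sg_apply, PiLp.inner_apply, pm, Complex.sq_norm, Complex.normSq_apply]
  simp [Matrix.cons_val_zero, Matrix.cons_val_one]
  ring

/-- The field strength bound. -/
theorem field_bound (F01 F02 F12 : ℝ) (v : S2) :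
    |(-Complex.I * (F01 : ℂ) * (inner ℂ v (sg 0 (sg 1 v)) : ℂ)).re +
      (-Complex.I * (F02 : ℂ) * (inner ℂ v (sg 0 (sg 2 v)) : ℂ)).re +
      (-Complex.I * (F12 : ℂ) * (inner ℂ v (sg 1 (sg 2 v)) : ℂ)).re| ≤
      Real.sqrt (F01 ^ 2 + F02 ^ 2 + F12 ^ 2) * ‖v‖ ^ 2 := by
  have h1 : (-Complex.I * (F01 : ℂ) * (inner ℂ v (sg 0 (sg 1 v)) : ℂ)).re =
      F01 * ((v 0).re ^ 2 + (v 0).im ^ 2 - (v 1).re ^ 2 - (v 1).im ^ 2) := by
    simp only [sg_apply, PiLp.inner_apply, pm, Fin.sum_univ_two]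
    simp
    left
    ring
  have h2 : (-Complex.I * (F02 : ℂ) * (inner ℂ v (sg 0 (sg 2 v)) : ℂ)).re =
      F02 * (-(2 * ((v 0).re * (v 1).im - (v 0).im * (v 1).re))) := by
    simp only [sg_apply, PiLp.inner_apply, pm, Fin.sum_univ_two]
    simp
    ring
  have h3 : (-Complex.I * (F12 : ℂ) * (inner ℂ v (sg 1 (sg 2 v)) : ℂ)).re =
      F12 * (2 * ((v 0).re * (v 1).re + (v 0).im * (v 1).im)) := by
    simp only [sg_apply, PiLp.inner_apply, pm, Fin.sum_univ_two]
    simp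
    left
    ring
  have h4 : ‖v‖ ^ 2 = (v 0).re ^ 2 + (v 0).im ^ 2 + (v 1).re ^ 2 + (v 1).im ^ 2 := by
    rw [EuclideanSpace.norm_sq_eq, Fin.sum_univ_two, Complex.sq_norm, Complex.sq_norm,
      Complex.normSq_apply, Complex.normSq_apply]
    ring
  rw [h1, h2, h3, h4]
  set a := (v 0).re
  set b := (v 0).im
  set c := (v 1).re
  set d := (v 1).im
  have hn : 0 ≤ a ^ 2 + b ^ 2 + c ^ 2 + d ^ 2 := by positivity
  apply abs_le_of_sq_le_sq _ (by positivity)
  rw [mul_pow, Real.sq_sqrt (by positivity)]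
  have key : (a ^ 2 + b ^ 2 + c ^ 2 + d ^ 2) ^ 2 = (a ^ 2 + b ^ 2 - c ^ 2 - d ^ 2) ^ 2 +
      (-(2 * (a * d - b * c))) ^ 2 + (2 * (a * c + b * d)) ^ 2 := by ring
  rw [key]
  set p := a ^ 2 + b ^ 2 - c ^ 2 - d ^ 2
  set q := -(2 * (a * d - b * c))
  set r := 2 * (a * c + b * d)
  nlinarith [sq_nonneg (F01 * q - F02 * p), sq_nonneg (F01 * r - F12 * p), sq_nonneg (F02 * r - F12 * q)]

/-- Spinors as finite dimensional valued functions. -/
theorem toFS (u : TS) : FS (u : R3 → S2) :=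
  ⟨tsC u, tsK u, ⟨⊤, inferInstance, fun _ => Submodule.mem_top⟩⟩

/-- Magnetic derivative as a linear map on test spinors. -/
noncomputable def DT (A : R3 → Fin 3 → ℝ) (hA : ContDiff ℝ ((⊤ : ℕ∞) : WithTop ℕ∞) A) (k : Fin 3) :
    TS →ₗ[ℂ] TS where
  toFun u := ⟨Dm A k u, by
    constructor
    · have h1 : ContDiff ℝ ((⊤ : ℕ∞) : WithTop ℕ∞) (fun x => fderiv ℝ (u : R3 → S2) x (Pi.single k 1)) :=
        ((toFS u).deriv (Pi.single k 1)).smooth
      have h2 : ContDiff ℝ ((⊤ : ℕ∞) : WithTop ℕ∞) (fun x => ((A x k : ℝ) : ℂ)) :=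
        Complex.ofRealCLM.contDiff.comp (contDiff_pi.mp hA k)
      exact (h1.const_smul (-Complex.I)).add (h2.smul (tsC u))
    · have h1 : HasCompactSupport (fun x => fderiv ℝ (u : R3 → S2) x (Pi.single k 1)) :=
        ((toFS u).deriv (Pi.single k 1)).compact
      have h2 : HasCompactSupport (fun x => (-Complex.I) • fderiv ℝ (u : R3 → S2) x (Pi.single k 1)) :=
        h1.smul_left (f := fun _ => -Complex.I)
      have h3 : HasCompactSupport (fun x => ((A x k : ℝ) : ℂ) • (u : R3 → S2) x) :=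
        (tsK u).smul_left (f := fun x => ((A x k : ℝ) : ℂ))
      exact h2.add h3⟩
  map_add' u v := by
    ext1
    funext x
    show Dm A k ((u : R3 → S2) + (v : R3 → S2)) x = Dm A k u x + Dm A k v x
    unfold Dm
    rw [fderiv_add (tsd u x) (tsd v x)]
    simp only [_root_.add_apply, smul_add, Pi.add_apply]
    abel
  map_smul' c u := by
    ext1
    funext x
    show Dm A k (c • (u : R3 → S2)) x = c • Dm A k u x
    unfold Dm
    rw [fderiv_const_smul (tsd u x)]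
    simp only [_root_.smul_apply, smul_add, Pi.smul_apply]
    rw [smul_comm c (-Complex.I), smul_comm c ((A x k : ℝ) : ℂ)]

theorem DT_apply (A : R3 → Fin 3 → ℝ) (hA : ContDiff ℝ ((⊤ : ℕ∞) : WithTop ℕ∞) A) (k : Fin 3)
    (u : TS) : (DT A hA k u : R3 → S2) = Dm A k u := rfl

/-- Constant linear maps acting on test spinors. -/
noncomputable def LT (J : S2 →ₗ[ℂ] S2) : TS →ₗ[ℂ] TS where
  toFun u := ⟨fun x => J ((u : R3 → S2) x), ⟨((toFS u).map J).smooth, ((toFS u).map J).compact⟩⟩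
  map_add' u v := by
    ext1
    funext x
    show J ((u : R3 → S2) x + (v : R3 → S2) x) = J ((u : R3 → S2) x) + J ((v : R3 → S2) x)
    rw [map_add]
  map_smul' c u := by
    ext1
    funext x
    show J (c • (u : R3 → S2) x) = c • J ((u : R3 → S2) x)
    rw [map_smul]

theorem LT_apply (J : S2 →ₗ[ℂ] S2) (u : TS) (x : R3) : (LT J u : R3 → S2) x = J ((u : R3 → S2) x) := rfl

theorem Dm_LT (A : R3 → Fin 3 → ℝ) (k : Fin 3) (J : S2 →ₗ[ℂ] S2) (u : TS) (x : R3) :
    Dm A k (LT J u) x = J (Dm A k u x) := by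
  unfold Dm
  have h1 : fderiv ℝ (LT J u : R3 → S2) x (Pi.single k 1) = J (fderiv ℝ (u : R3 → S2) x (Pi.single k 1)) :=
    (toFS u).fderiv_map J x (Pi.single k 1)
  rw [h1, map_add, map_smul, map_smul]
  rfl

/-- Symmetry of the magnetic derivative. -/
theorem Dm_symm (A : R3 → Fin 3 → ℝ) (hA : Continuous A) (k : Fin 3) (u v : TS) :
    ∫ x, (inner ℂ (Dm A k u x) ((v : R3 → S2) x) : ℂ) = ∫ x, (inner ℂ ((u : R3 → S2) x) (Dm A k v x) : ℂ) := by
  have h1 := FS.integral_by_parts volume (toFS u) (toFS v) (Pi.single k 1)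
  have i1 := FS.integrable_inner volume ((toFS u).deriv (Pi.single k 1)) (toFS v)
  have i2 := FS.integrable_inner volume (toFS u) ((toFS v).deriv (Pi.single k 1))
  have i3 : Integrable (fun x => ((A x k : ℝ) : ℂ) * (inner ℂ ((u : R3 → S2) x) ((v : R3 → S2) x) : ℂ)) := by
    apply Continuous.integrable_of_hasCompactSupport
    · have : Continuous (fun x => ((A x k : ℝ) : ℂ)) :=
        Complex.continuous_ofReal.comp ((continuous_apply k).comp hA)
      exact this.mul ((ts0 u).inner (ts0 v))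
    · apply (tsK u).mono
      intro x hx
      rw [Function.mem_support] at hx ⊢
      intro h
      apply hx
      rw [h, inner_zero_left, mul_zero]
  have e1 : ∀ x, (inner ℂ (Dm A k u x) ((v : R3 → S2) x) : ℂ) =
      Complex.I * (inner ℂ (fderiv ℝ (u : R3 → S2) x (Pi.single k 1)) ((v : R3 → S2) x) : ℂ) +
      ((A x k : ℝ) : ℂ) * (inner ℂ ((u : R3 → S2) x) ((v : R3 → S2) x) : ℂ) := by
    intro x
    unfold Dm
    rw [inner_add_left, inner_smul_left, inner_smul_left]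
    simp
  have e2 : ∀ x, (inner ℂ ((u : R3 → S2) x) (Dm A k v x) : ℂ) =
      -Complex.I * (inner ℂ ((u : R3 → S2) x) (fderiv ℝ (v : R3 → S2) x (Pi.single k 1)) : ℂ) +
      ((A x k : ℝ) : ℂ) * (inner ℂ ((u : R3 → S2) x) ((v : R3 → S2) x) : ℂ) := by
    intro x
    unfold Dm
    rw [inner_add_right, inner_smul_right, inner_smul_right]
  simp only [e1, e2]
  rw [integral_add (i1.const_mul _) i3, integral_add (i2.const_mul _) i3, integral_const_mul,
    integral_const_mul, h1]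
  ring

/-- The commutator of magnetic derivatives. -/
theorem Dm_comm (A : R3 → Fin 3 → ℝ) (hA : ContDiff ℝ ((⊤ : ℕ∞) : WithTop ℕ∞) A) (j k : Fin 3)
    (u : TS) (x : R3) :
    Dm A j (DT A hA k u) x - Dm A k (DT A hA j u) x =
      (-Complex.I * ((fderiv ℝ (fun y => A y k) x (Pi.single j 1) -
        fderiv ℝ (fun y => A y j) x (Pi.single k 1) : ℝ) : ℂ)) • (u : R3 → S2) x := by
  have hAk : ∀ k, DifferentiableAt ℝ (fun y => A y k) x := fun k =>
    ((contDiff_pi.mp hA k).differentiable (by simp)) x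
  have hd2 : DifferentiableAt ℝ (fderiv ℝ (u : R3 → S2)) x :=
    (((tsC u).fderiv_right (m := ((⊤ : ℕ∞) : WithTop ℕ∞)) (by simp)).differentiable (by simp)) x
  have hsym : ∀ j k : Fin 3, fderiv ℝ (fderiv ℝ (u : R3 → S2)) x (Pi.single j 1) (Pi.single k 1) =
      fderiv ℝ (fderiv ℝ (u : R3 → S2)) x (Pi.single k 1) (Pi.single j 1) := by
    intro j k
    have := ((tsC u).contDiffAt (x := x)).isSymmSndFDerivAt (by
      simp only [minSmoothness_of_isRCLikeNormedField]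
      exact WithTop.coe_le_coe.mpr le_top)
    exact this _ _
  have hDk : ∀ j k : Fin 3, fderiv ℝ (DT A hA k u : R3 → S2) x (Pi.single j 1) =
      (-Complex.I) • fderiv ℝ (fderiv ℝ (u : R3 → S2)) x (Pi.single j 1) (Pi.single k 1) +
      (((A x k : ℝ) : ℂ) • fderiv ℝ (u : R3 → S2) x (Pi.single j 1) +
        ((fderiv ℝ (fun y => A y k) x (Pi.single j 1) : ℝ) : ℂ) • (u : R3 → S2) x) := by
    intro j k
    have e1 : HasFDerivAt (fun y => fderiv ℝ (u : R3 → S2) y (Pi.single k 1))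
        ((fderiv ℝ (fderiv ℝ (u : R3 → S2)) x).flip (Pi.single k 1)) x := by
      have := hd2.hasFDerivAt.clm_apply (hasFDerivAt_const (Pi.single k (1 : ℝ) : R3) x)
      simpa using this
    have e2 : HasFDerivAt (fun y => ((A y k : ℝ) : ℂ))
        (Complex.ofRealCLM.comp (fderiv ℝ (fun y => A y k) x)) x :=
      Complex.ofRealCLM.hasFDerivAt.comp x (hAk k).hasFDerivAt
    have e3 := (e1.const_smul (-Complex.I)).add (e2.smul (tsd u x).hasFDerivAt)
    have e4 : fderiv ℝ (DT A hA k u : R3 → S2) x = _ := e3.fderiv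
    rw [e4]
    simp
  have e0 : ∀ j k : Fin 3, Dm A j (DT A hA k u) x =
      (-Complex.I) • ((-Complex.I) • fderiv ℝ (fderiv ℝ (u : R3 → S2)) x (Pi.single j 1) (Pi.single k 1) +
      (((A x k : ℝ) : ℂ) • fderiv ℝ (u : R3 → S2) x (Pi.single j 1) +
        ((fderiv ℝ (fun y => A y k) x (Pi.single j 1) : ℝ) : ℂ) • (u : R3 → S2) x)) +
      ((A x j : ℝ) : ℂ) • ((-Complex.I) • fderiv ℝ (u : R3 → S2) x (Pi.single k 1) +
        ((A x k : ℝ) : ℂ) • (u : R3 → S2) x) := by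
    intro j k
    conv_lhs => unfold Dm
    rw [hDk, DT_apply]
    rfl
  rw [e0, e0, hsym k j]
  push_cast
  module

end Pool.Agent.Helper20.SM
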