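import Pool.Agent.Helper20.SMLayer
import Pool.Agent.Helper20.SMExc
import Pool.Agent.Helper20.SMLimit

set_option autoImplicit false

open MeasureTheory Set Function Filter
open scoped BigOperators ENNReal Topology ComplexConjugate

namespace Pool.Agent.Helper20.SM

/-- Euclidean three space. -/
abbrev E3 := EuclideanSpace ℝ (Fin 3)

/-- The identification of coordinates with Euclidean space. -/
noncomputable def tE : R3 ≃L[ℝ] E3 := (EuclideanSpace.equiv (Fin 3) ℝ).symm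

theorem tE_apply (y : R3) (k : Fin 3) : tE y k = y k := rfl

theorem tE_single (k : Fin 3) : tE (Pi.single k 1) = EuclideanSpace.single k (1 : ℝ) := by
  ext j
  rw [tE_apply]
  simp [Pi.single_apply]

theorem tE_norm (y : R3) : ‖tE y‖ = en y := by
  rw [EuclideanSpace.norm_eq]
  unfold en
  congr 1
  apply Finset.sum_congr rfl
  intro k _
  rw [tE_apply, Real.norm_eq_abs, sq_abs]

theorem tE_mp : MeasurePreserving (fun y : R3 => tE y) volume volume :=
  PiLp.volume_preserving_toLp (Fin 3)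

theorem tE_int {F : Type} [NormedAddCommGroup F] [NormedSpace ℝ F] (g : E3 → F) :
    ∫ e, g e = ∫ y, g (tE y) := by
  have := tE_mp.integral_comp (tE.toHomeomorph.measurableEmbedding) g
  exact this.symm

variable {n : ℕ}

/-- Many-body configurations. -/
abbrev Xn (n : ℕ) := Fin n → E3
/-- Spin configurations. -/
abbrev Sn (n : ℕ) := Fin n → Fin 2

/-- Insertion of the i-th particle position. -/
noncomputable def ins (i : Fin (n + 1)) (x' : Xn n) (y : R3) : Xn (n + 1) := Fin.insertNth i (tE y) x'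

theorem ins_eq (i : Fin (n + 1)) (x' : Xn n) (y : R3) :
    ins i x' y = ContinuousLinearMap.single ℝ (fun _ : Fin (n + 1) => E3) i (tE y) + Fin.insertNth i 0 x' := by
  unfold ins
  funext j
  by_cases hj : j = i
  · subst hj; simp
  · obtain ⟨k, rfl⟩ := Fin.exists_succAbove_eq hj
    simp

theorem ins_hasFDeriv (i : Fin (n + 1)) (x' : Xn n) (y : R3) :
    HasFDerivAt (ins i x') ((ContinuousLinearMap.single ℝ (fun _ : Fin (n + 1) => E3) i).comp
      (tE : R3 →L[ℝ] E3)) y := by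
  have h1 : ins i x' = fun y => ((ContinuousLinearMap.single ℝ (fun _ : Fin (n + 1) => E3) i).comp
      (tE : R3 →L[ℝ] E3)) y + Fin.insertNth i 0 x' := by
    funext y
    rw [ins_eq]
    rfl
  rw [h1]
  exact (((ContinuousLinearMap.single ℝ (fun _ : Fin (n + 1) => E3) i).comp
      (tE : R3 →L[ℝ] E3)).hasFDerivAt).add_const _

theorem ins_smooth (i : Fin (n + 1)) (x' : Xn n) :
    ContDiff ℝ ((⊤ : ℕ∞) : WithTop ℕ∞) (ins i x') := by
  have h1 : ins i x' = fun y => ((ContinuousLinearMap.single ℝ (fun _ : Fin (n + 1) => E3) i).comp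
      (tE : R3 →L[ℝ] E3)) y + Fin.insertNth i 0 x' := by
    funext y
    rw [ins_eq]
    rfl
  rw [h1]
  exact (ContinuousLinearMap.contDiff _).add contDiff_const

theorem ins_cont (i : Fin (n + 1)) : Continuous (fun p : Xn n × R3 => ins i p.1 p.2) := by
  unfold ins
  exact (tE.continuous.comp continuous_snd).finInsertNth i continuous_fst

/-- Wave functions. -/
structure WF (ψ : Xn (n + 1) → Sn (n + 1) → ℂ) : Prop where
  smooth : ∀ s, ContDiff ℝ ((⊤ : ℕ∞) : WithTop ℕ∞) (fun x => ψ x s)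
  compact : ∀ s, HasCompactSupport (fun x => ψ x s)

/-- The compact set carrying the wave function. -/
def K0 (ψ : Xn (n + 1) → Sn (n + 1) → ℂ) : Set (Xn (n + 1)) := ⋃ s, tsupport (fun x => ψ x s)

theorem K0_compact {ψ : Xn (n + 1) → Sn (n + 1) → ℂ} (h : WF ψ) : IsCompact (K0 ψ) :=
  isCompact_iUnion (fun s => h.compact s)

theorem K0_mem {ψ : Xn (n + 1) → Sn (n + 1) → ℂ} {x : Xn (n + 1)} {s : Sn (n + 1)} (h : ψ x s ≠ 0) :
    x ∈ K0 ψ := mem_iUnion.mpr ⟨s, subset_tsupport _ h⟩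

/-- Values of slices. -/
noncomputable def slf (ψ : Xn (n + 1) → Sn (n + 1) → ℂ) (i : Fin (n + 1)) (s' : Sn n) (x' : Xn n) (y : R3) : S2 :=
  WithLp.toLp 2 (fun t : Fin 2 => ψ (ins i x' y) (Fin.insertNth i t s'))

theorem slf_apply (ψ : Xn (n + 1) → Sn (n + 1) → ℂ) (i : Fin (n + 1)) (s' : Sn n) (x' : Xn n) (y : R3)
    (t : Fin 2) : slf ψ i s' x' y t = ψ (ins i x' y) (Fin.insertNth i t s') := rfl

/-- Compact set of positions of particle i. -/
def KR (ψ : Xn (n + 1) → Sn (n + 1) → ℂ) (i : Fin (n + 1)) : Set R3 :=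
  (fun x : Xn (n + 1) => tE.symm (x i)) '' K0 ψ

/-- Compact set of positions of the other particles. -/
def KX (ψ : Xn (n + 1) → Sn (n + 1) → ℂ) (i : Fin (n + 1)) : Set (Xn n) :=
  (fun (x : Xn (n + 1)) (j : Fin n) => x (i.succAbove j)) '' K0 ψ

theorem KR_compact {ψ : Xn (n + 1) → Sn (n + 1) → ℂ} (h : WF ψ) (i : Fin (n + 1)) : IsCompact (KR ψ i) :=
  (K0_compact h).image (tE.symm.continuous.comp (continuous_apply i))

theorem KX_compact {ψ : Xn (n + 1) → Sn (n + 1) → ℂ} (h : WF ψ) (i : Fin (n + 1)) : IsCompact (KX ψ i) :=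
  (K0_compact h).image (continuous_pi (fun _ => continuous_apply _))

theorem ins_mem_K0 {ψ : Xn (n + 1) → Sn (n + 1) → ℂ} {i : Fin (n + 1)} {x' : Xn n} {y : R3}
    (h : ins i x' y ∈ K0 ψ) : y ∈ KR ψ i ∧ x' ∈ KX ψ i := by
  refine ⟨⟨_, h, ?_⟩, ⟨_, h, ?_⟩⟩
  · simp [ins]
  · funext j
    simp [ins]

theorem slf_ne {ψ : Xn (n + 1) → Sn (n + 1) → ℂ} {i : Fin (n + 1)} {s' : Sn n} {x' : Xn n} {y : R3}
    (h : slf ψ i s' x' y ≠ 0) : ins i x' y ∈ K0 ψ := by
  by_contra hcon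
  apply h
  ext t
  rw [slf_apply]
  by_contra hne
  exact hcon (K0_mem hne)

theorem slf_smooth {ψ : Xn (n + 1) → Sn (n + 1) → ℂ} (h : WF ψ) (i : Fin (n + 1)) (s' : Sn n) (x' : Xn n) :
    ContDiff ℝ ((⊤ : ℕ∞) : WithTop ℕ∞) (slf ψ i s' x') := by
  rw [contDiff_piLp]
  intro t
  exact (h.smooth _).comp (ins_smooth i x')

theorem slf_compact {ψ : Xn (n + 1) → Sn (n + 1) → ℂ} (h : WF ψ) (i : Fin (n + 1)) (s' : Sn n) (x' : Xn n) :
    HasCompactSupport (slf ψ i s' x') := by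
  apply HasCompactSupport.of_support_subset_isCompact (KR_compact h i)
  intro y hy
  exact (ins_mem_K0 (slf_ne hy)).1

/-- Slices as test spinors. -/
noncomputable def sl {ψ : Xn (n + 1) → Sn (n + 1) → ℂ} (h : WF ψ) (i : Fin (n + 1)) (s' : Sn n) (x' : Xn n) : TS :=
  ⟨slf ψ i s' x', slf_smooth h i s' x', slf_compact h i s' x'⟩

theorem slf_cont {ψ : Xn (n + 1) → Sn (n + 1) → ℂ} (h : WF ψ) (i : Fin (n + 1)) (s' : Sn n) :
    Continuous (fun p : Xn n × R3 => slf ψ i s' p.1 p.2) := by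
  unfold slf
  apply (PiLp.continuous_toLp 2 (fun _ : Fin 2 => ℂ)).comp
  apply continuous_pi
  intro t
  exact (h.smooth _).continuous.comp (ins_cont i)

/-- Derivative of a slice. -/
theorem slf_fderiv {ψ : Xn (n + 1) → Sn (n + 1) → ℂ} (h : WF ψ) (i : Fin (n + 1)) (s' : Sn n) (x' : Xn n)
    (y : R3) (k : Fin 3) (t : Fin 2) :
    (fderiv ℝ (slf ψ i s' x') y (Pi.single k 1)) t =
      fderiv ℝ (fun x => ψ x (Fin.insertNth i t s')) (ins i x' y)
        (Pi.single i (EuclideanSpace.single k (1 : ℝ))) := by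
  have hd : DifferentiableAt ℝ (slf ψ i s' x') y :=
    ((slf_smooth h i s' x').differentiable (by simp)) y
  have h1 : HasFDerivAt (fun y => slf ψ i s' x' y t)
      (((EuclideanSpace.proj t : S2 →L[ℂ] ℂ).restrictScalars ℝ).comp (fderiv ℝ (slf ψ i s' x') y)) y :=
    ((EuclideanSpace.proj t : S2 →L[ℂ] ℂ).restrictScalars ℝ).hasFDerivAt.comp y hd.hasFDerivAt
  have h2 : HasFDerivAt (fun y => slf ψ i s' x' y t)
      ((fderiv ℝ (fun x => ψ x (Fin.insertNth i t s')) (ins i x' y)).comp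
        ((ContinuousLinearMap.single ℝ (fun _ : Fin (n + 1) => E3) i).comp (tE : R3 →L[ℝ] E3))) y := by
    have h3 : HasFDerivAt (fun x => ψ x (Fin.insertNth i t s'))
        (fderiv ℝ (fun x => ψ x (Fin.insertNth i t s')) (ins i x' y)) (ins i x' y) :=
      (((h.smooth _).differentiable (by simp)) _).hasFDerivAt
    exact h3.comp y (ins_hasFDeriv i x' y)
  have h4 := h1.unique h2
  have h5 := congr_arg (fun L : R3 →L[ℝ] ℂ => L (Pi.single k 1)) h4
  have h6 : (tE : R3 →L[ℝ] E3) (Pi.single k 1) = EuclideanSpace.single k (1 : ℝ) := tE_single k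
  simp only [ContinuousLinearMap.comp_apply, h6] at h5
  exact h5

/-- The vector potential in coordinates. -/
noncomputable def ap (A : E3 → E3) (x : R3) (k : Fin 3) : ℝ := A (tE x) k

theorem ap_smooth {A : E3 → E3} (hA : ContDiff ℝ ((⊤ : ℕ∞) : WithTop ℕ∞) A) :
    ContDiff ℝ ((⊤ : ℕ∞) : WithTop ℕ∞) (ap A) := by
  rw [contDiff_pi]
  intro k
  have h1 : ContDiff ℝ ((⊤ : ℕ∞) : WithTop ℕ∞) (fun x : R3 => A (tE x)) := hA.comp tE.contDiff
  exact (contDiff_piLp 2).mp h1 k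

theorem ap_compact {A : E3 → E3} (hAc : HasCompactSupport A) : HasCompactSupport (ap A) := by
  have h1 : HasCompactSupport (A ∘ tE) := hAc.comp_homeomorph tE.toHomeomorph
  apply h1.mono
  intro x hx
  rw [mem_support] at hx ⊢
  intro h0
  apply hx
  funext k
  have : A (tE x) = 0 := h0
  show A (tE x) k = 0
  rw [this]
  rfl

/-- The field energy density in coordinates. -/
theorem Bn_eq {A : E3 → E3} (hA : ContDiff ℝ ((⊤ : ℕ∞) : WithTop ℕ∞) A) (x : R3) :
    Bn (ap A) x ^ 2 = (1 / 2 : ℝ) * ∑ j : Fin 3, ∑ k : Fin 3,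
      ((fderiv ℝ A (tE x) (EuclideanSpace.single j (1 : ℝ))) k -
        (fderiv ℝ A (tE x) (EuclideanSpace.single k (1 : ℝ))) j) ^ 2 := by
  have h1 : ∀ j k : Fin 3, fderiv ℝ (fun y => ap A y k) x (Pi.single j 1) =
      (fderiv ℝ A (tE x) (EuclideanSpace.single j (1 : ℝ))) k := by
    intro j k
    have hd : HasFDerivAt A (fderiv ℝ A (tE x)) (tE x) := ((hA.differentiable (by simp)) _).hasFDerivAt
    have h2 : HasFDerivAt (fun y : R3 => A (tE y)) ((fderiv ℝ A (tE x)).comp (tE : R3 →L[ℝ] E3)) x :=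
      hd.comp x tE.hasFDerivAt
    have h3 : HasFDerivAt (fun y => ap A y k) ((EuclideanSpace.proj k : E3 →L[ℝ] ℝ).comp
        ((fderiv ℝ A (tE x)).comp (tE : R3 →L[ℝ] E3))) x :=
      (EuclideanSpace.proj k : E3 →L[ℝ] ℝ).hasFDerivAt.comp x h2
    rw [h3.fderiv]
    have h6 : (tE : R3 →L[ℝ] E3) (Pi.single j 1) = EuclideanSpace.single j (1 : ℝ) := tE_single j
    simp only [ContinuousLinearMap.comp_apply, h6]
    rfl
  unfold Bn Fs
  simp only [h1]
  rw [Real.sq_sqrt (by positivity)]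
  simp only [Fin.sum_univ_three]
  ring

/-- The Pauli operator on slices in components. -/
theorem pauli_slice {ψ : Xn (n + 1) → Sn (n + 1) → ℂ} (h : WF ψ) (A : E3 → E3) (i : Fin (n + 1))
    (s' : Sn n) (x' : Xn n) (y : R3) (s0 : Fin 2) :
    (∑ k, sg k (Dm (ap A) k (slf ψ i s' x') y)) s0 =
      ∑ k : Fin 3, ∑ t : Fin 2, pm k s0 t * ((-Complex.I) *
        fderiv ℝ (fun x => ψ x (Fin.insertNth i t s')) (ins i x' y)
          (Pi.single i (EuclideanSpace.single k (1 : ℝ))) +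
        ((A (tE y) k : ℝ) : ℂ) * ψ (ins i x' y) (Fin.insertNth i t s')) := by
  rw [WithLp.ofLp_sum, Finset.sum_apply]
  apply Finset.sum_congr rfl
  intro k _
  rw [sg_apply]
  apply Finset.sum_congr rfl
  intro t _
  congr 1
  unfold Dm
  rw [PiLp.add_apply, PiLp.smul_apply, PiLp.smul_apply, slf_fderiv h, slf_apply]
  rfl

end Pool.Agent.Helper20.SM
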