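import Pool.Agent.Helper20.SMCube

set_option autoImplicit false

open MeasureTheory Set Function
open scoped BigOperators ENNReal

namespace Pool.Agent.Helper20.SM

variable {V : Type} [NormedAddCommGroup V] [InnerProductSpace ℂ V]

theorem sq_add_le (a b : ℝ≥0∞) : (a + b) ^ 2 ≤ 2 * a ^ 2 + 2 * b ^ 2 := by
  have h := ENNReal.rpow_add_le_mul_rpow_add_rpow a b (p := 2) (by norm_num)
  have h2 : (2 : ℝ≥0∞) ^ ((2 : ℝ) - 1) = 2 := by norm_num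
  rw [h2] at h
  have e : ∀ x : ℝ≥0∞, x ^ (2 : ℝ) = x ^ (2 : ℕ) := fun x => by
    rw [← ENNReal.rpow_natCast]; norm_num
  rw [e, e, e] at h
  rw [← mul_add]
  exact h

theorem sq_sum3_le (a : Fin 3 → ℝ≥0∞) : (∑ j, a j) ^ 2 ≤ 3 * ∑ j, (a j) ^ 2 := by
  have h := ENNReal.rpow_sum_le_const_mul_sum_rpow Finset.univ a (p := 2) (by norm_num)
  have e : ∀ x : ℝ≥0∞, x ^ (2 : ℝ) = x ^ (2 : ℕ) := fun x => by
    rw [← ENNReal.rpow_natCast]; norm_num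
  simp only [e] at h
  have h2 : ((Finset.univ : Finset (Fin 3)).card : ℝ≥0∞) ^ ((2 : ℝ) - 1) = 3 := by
    norm_num
  rw [h2] at h
  exact h

/-- The L6 bound on the unit cube. -/
theorem cube_L6 (v : R3 → V) (hv : ContDiff ℝ 1 v) (κ : Fin 3 → R3 → ℝ)
    (hκ : ∀ j, Continuous (κ j))
    (h : ∀ j x, |fderiv ℝ (fun y => ‖v y‖ ^ 2) x (Pi.single j 1)| ≤ 2 * ‖v x‖ * κ j x) :
    (∫⁻ x, ‖v x‖ₑ ^ 6 ∂m3) ^ (1 / 3 : ℝ) ≤ 2 * ∫⁻ x, ‖v x‖ₑ ^ 2 ∂m3 +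
      96 * ∑ j, ∫⁻ x, (ENNReal.ofReal (κ j x)) ^ 2 ∂m3 := by
  have hsq : ContDiff ℝ 1 (fun y => ‖v y‖ ^ 2) := hv.norm_sq ℂ
  set g : R3 → ℝ := fun y => (‖v y‖ ^ 2) ^ 2 with hg
  have hg1 : ContDiff ℝ 1 g := hsq.pow 2
  have hder : ∀ j x, ‖fderiv ℝ g x (Pi.single j 1)‖ₑ ≤
      4 * (‖v x‖ₑ ^ 3 * ENNReal.ofReal (κ j x)) := by
    intro j x
    have hd : HasFDerivAt (fun y => ‖v y‖ ^ 2) (fderiv ℝ (fun y => ‖v y‖ ^ 2) x) x :=
      ((hsq.differentiable (by simp)) x).hasFDerivAt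
    have h1 := hd.pow 2
    have h2 : fderiv ℝ g x (Pi.single j 1) =
        2 * ‖v x‖ ^ 2 * fderiv ℝ (fun y => ‖v y‖ ^ 2) x (Pi.single j 1) := by
      rw [HasFDerivAt.fderiv h1]
      simp
    have h3 : ‖fderiv ℝ g x (Pi.single j 1)‖ ≤ 4 * (‖v x‖ ^ 3 * κ j x) := by
      rw [h2, Real.norm_eq_abs, abs_mul, abs_of_nonneg (by positivity)]
      calc 2 * ‖v x‖ ^ 2 * |fderiv ℝ (fun y => ‖v y‖ ^ 2) x (Pi.single j 1)|
          ≤ 2 * ‖v x‖ ^ 2 * (2 * ‖v x‖ * κ j x) := by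
            gcongr
            exact h j x
        _ = _ := by ring
    rw [← ofReal_norm]
    calc ENNReal.ofReal ‖fderiv ℝ g x (Pi.single j 1)‖ ≤ ENNReal.ofReal (4 * (‖v x‖ ^ 3 * κ j x)) :=
          ENNReal.ofReal_le_ofReal h3
      _ = _ := by
        rw [ENNReal.ofReal_mul (by norm_num), ENNReal.ofReal_mul (by positivity),
          ENNReal.ofReal_pow (norm_nonneg _), ofReal_norm]
        norm_num
  have hgn : ∀ x, ‖g x‖ₑ = ‖v x‖ₑ ^ 4 := by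
    intro x
    rw [hg, ← ofReal_norm, ← ofReal_norm, ← ENNReal.ofReal_pow (norm_nonneg _)]
    congr 1
    rw [Real.norm_eq_abs, abs_of_nonneg (by positivity)]
    ring
  have hsob := cube_sob g hg1
  set X : ℝ≥0∞ := ∫⁻ x, ‖v x‖ₑ ^ 6 ∂m3 with hX
  set G : ℝ≥0∞ := ∫⁻ x, ‖v x‖ₑ ^ 2 ∂m3 with hG
  set K : Fin 3 → ℝ≥0∞ := fun j => ∫⁻ x, (ENNReal.ofReal (κ j x)) ^ 2 ∂m3 with hK
  have hvm : Measurable (fun x => ‖v x‖ₑ) := hv.continuous.enorm.measurable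
  have hκm : ∀ j, Measurable (fun x => ENNReal.ofReal (κ j x)) := fun j =>
    (hκ j).measurable.ennreal_ofReal
  have e2 : ∀ x : ℝ≥0∞, x ^ (2 : ℝ) = x ^ (2 : ℕ) := fun x => by
    rw [← ENNReal.rpow_natCast]; norm_num
  -- Cauchy Schwarz
  have hCS : ∀ f : R3 → ℝ≥0∞, Measurable f →
      ∫⁻ x, ‖v x‖ₑ ^ 3 * f x ∂m3 ≤ X ^ (1 / 2 : ℝ) * (∫⁻ x, (f x) ^ 2 ∂m3) ^ (1 / 2 : ℝ) := by
    intro f hf
    have h1 := ENNReal.lintegral_mul_le_Lp_mul_Lq m3 (p := 2) (q := 2)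
      (by rw [Real.holderConjugate_iff]; norm_num) (f := fun x => ‖v x‖ₑ ^ 3) (g := f)
      (hvm.pow_const 3).aemeasurable hf.aemeasurable
    simp only [Pi.mul_apply, e2] at h1
    have h2 : ∀ x, (‖v x‖ₑ ^ 3) ^ 2 = ‖v x‖ₑ ^ 6 := fun x => by ring
    simp only [h2] at h1
    exact h1
  have hXle : X ≤ (X ^ (1 / 2 : ℝ) * (G ^ (1 / 2 : ℝ) + 4 * ∑ j, (K j) ^ (1 / 2 : ℝ))) ^ (3 / 2 : ℝ) := by
    have h1 : X = ∫⁻ x, ‖g x‖ₑ ^ (3 / 2 : ℝ) ∂m3 := by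
      rw [hX]
      apply lintegral_congr
      intro x
      rw [hgn, ← ENNReal.rpow_natCast, ← ENNReal.rpow_natCast, ← ENNReal.rpow_mul]
      norm_num
    rw [h1]
    refine hsob.trans ?_
    apply ENNReal.rpow_le_rpow _ (by norm_num)
    rw [← h1]
    have hm4 : ∀ j, Measurable (fun x => ‖v x‖ₑ ^ 3 * ENNReal.ofReal (κ j x)) := fun j =>
      (hvm.pow_const 3).mul (hκm j)
    calc ∫⁻ x, (‖g x‖ₑ + ∑ j, ‖fderiv ℝ g x (Pi.single j 1)‖ₑ) ∂m3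
        ≤ ∫⁻ x, (‖v x‖ₑ ^ 3 * ‖v x‖ₑ + ∑ j, 4 * (‖v x‖ₑ ^ 3 * ENNReal.ofReal (κ j x))) ∂m3 := by
          apply lintegral_mono
          intro x
          dsimp only
          rw [hgn]
          gcongr with j
          · exact le_of_eq (by ring)
          · exact hder j x
      _ = (∫⁻ x, ‖v x‖ₑ ^ 3 * ‖v x‖ₑ ∂m3) +
          ∑ j, 4 * ∫⁻ x, ‖v x‖ₑ ^ 3 * ENNReal.ofReal (κ j x) ∂m3 := by
          have hm5 : Measurable (fun x => ‖v x‖ₑ ^ 3 * ‖v x‖ₑ) := (hvm.pow_const 3).mul hvm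
          rw [lintegral_add_left hm5, lintegral_finsetSum _
            (fun j _ => (hm4 j).const_mul _)]
          congr 1
          apply Finset.sum_congr rfl
          intro j _
          rw [lintegral_const_mul _ (hm4 j)]
      _ ≤ X ^ (1 / 2 : ℝ) * G ^ (1 / 2 : ℝ) +
          ∑ j, 4 * (X ^ (1 / 2 : ℝ) * (K j) ^ (1 / 2 : ℝ)) := by
          gcongr with j
          · exact hCS _ hvm
          · exact hCS _ (hκm j)
      _ = _ := by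
          rw [mul_add, Finset.mul_sum, Finset.mul_sum]
          congr 1
          apply Finset.sum_congr rfl
          intro j _
          ring
  set Y : ℝ≥0∞ := G ^ (1 / 2 : ℝ) + 4 * ∑ j, (K j) ^ (1 / 2 : ℝ) with hY
  have hXfin : X ≠ ⊤ := by
    rw [hX, m3_eq]
    have hc : Continuous (fun x => ‖v x‖ ^ 6) := hv.continuous.norm.pow 6
    have hi : IntegrableOn (fun x => ‖v x‖ ^ 6) (Set.pi univ (fun _ : Fin 3 => Icc (0 : ℝ) 1)) volume :=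
      hc.continuousOn.integrableOn_compact (isCompact_univ_pi (fun _ => isCompact_Icc))
    have h2 := hi.2
    rw [hasFiniteIntegral_iff_enorm] at h2
    have h3 : ∀ x, ‖(‖v x‖ ^ 6 : ℝ)‖ₑ = ‖v x‖ₑ ^ 6 := by
      intro x
      rw [enorm_pow, enorm_norm]
    simp only [h3] at h2
    exact h2.ne
  have hX3 : X ^ (1 / 3 : ℝ) ≤ Y ^ 2 := by
    by_cases hX0 : X = 0
    · rw [hX0]; simp
    have h1 : X ≤ X ^ (3 / 4 : ℝ) * Y ^ (3 / 2 : ℝ) := by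
      calc X ≤ _ := hXle
        _ = _ := by
          rw [ENNReal.mul_rpow_of_nonneg _ _ (by norm_num : (0 : ℝ) ≤ 3 / 2), ← ENNReal.rpow_mul]
          norm_num
    have h2 : X ^ (1 / 4 : ℝ) ≤ Y ^ (3 / 2 : ℝ) := by
      have h3 : X = X ^ (3 / 4 : ℝ) * X ^ (1 / 4 : ℝ) := by
        rw [← ENNReal.rpow_add _ _ hX0 hXfin]
        norm_num
      have h4 : X ^ (3 / 4 : ℝ) ≠ 0 := by
        simp [hX0, hXfin]
      have h5 : X ^ (3 / 4 : ℝ) ≠ ⊤ := by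
        simp [hX0, hXfin]
      rw [h3] at h1
      have h6 : (X ^ (3 / 4 : ℝ) * X ^ (1 / 4 : ℝ)) ^ (3 / 4 : ℝ) = X ^ (3 / 4 : ℝ) := by rw [← h3]
      rw [h6] at h1
      exact (ENNReal.mul_le_mul_iff_right h4 h5).mp h1
    have h7 := ENNReal.rpow_le_rpow h2 (z := 4 / 3) (by norm_num)
    rw [← ENNReal.rpow_mul, ← ENNReal.rpow_mul] at h7
    rw [← e2]
    convert h7 using 2 <;> norm_num
  refine hX3.trans ?_
  rw [hY]
  refine (sq_add_le _ _).trans ?_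
  have h8 : (G ^ (1 / 2 : ℝ)) ^ 2 = G := by
    rw [← e2, ← ENNReal.rpow_mul]
    norm_num
  have h9 : ∀ j, ((K j) ^ (1 / 2 : ℝ)) ^ 2 = K j := by
    intro j
    rw [← e2, ← ENNReal.rpow_mul]
    norm_num
  rw [h8, mul_pow]
  apply add_le_add le_rfl
  calc 2 * (4 ^ 2 * (∑ j, (K j) ^ (1 / 2 : ℝ)) ^ 2) ≤ 2 * (4 ^ 2 * (3 * ∑ j, ((K j) ^ (1 / 2 : ℝ)) ^ 2)) := by
        gcongr
        exact sq_sum3_le _
    _ = 96 * ∑ j, K j := by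
        simp only [h9]
        rw [← mul_assoc, ← mul_assoc]
        norm_num

/-- The potential energy bound on the unit cube. -/
theorem cube_pot (v : R3 → V) (hv : ContDiff ℝ 1 v) (κ : Fin 3 → R3 → ℝ)
    (hκ : ∀ j, Continuous (κ j))
    (h : ∀ j x, |fderiv ℝ (fun y => ‖v y‖ ^ 2) x (Pi.single j 1)| ≤ 2 * ‖v x‖ * κ j x)
    (W : R3 → ℝ≥0∞) (hW : Measurable W) :
    ∫⁻ x, W x * ‖v x‖ₑ ^ 2 ∂m3 ≤ (∫⁻ x, W x ^ (7 / 4 : ℝ) ∂m3) ^ (4 / 7 : ℝ) *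
      (2 * ∫⁻ x, ‖v x‖ₑ ^ 2 ∂m3 + 96 * ∑ j, ∫⁻ x, (ENNReal.ofReal (κ j x)) ^ 2 ∂m3) := by
  have hvm : Measurable (fun x => ‖v x‖ₑ) := hv.continuous.enorm.measurable
  have h1 := ENNReal.lintegral_mul_le_Lp_mul_Lq m3 (p := 3 / 2) (q := 3)
      (by rw [Real.holderConjugate_iff]; norm_num) (f := W) (g := fun x => ‖v x‖ₑ ^ 2)
      hW.aemeasurable (hvm.pow_const 2).aemeasurable
  have h2 : ∀ x, (‖v x‖ₑ ^ 2) ^ (3 : ℝ) = ‖v x‖ₑ ^ 6 := by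
    intro x
    rw [← ENNReal.rpow_natCast, ← ENNReal.rpow_natCast, ← ENNReal.rpow_mul]
    norm_num
  simp only [Pi.mul_apply, h2] at h1
  have h3 := ENNReal.lintegral_mul_le_Lp_mul_Lq m3 (p := 7 / 6) (q := 7)
      (by rw [Real.holderConjugate_iff]; norm_num) (f := fun x => W x ^ (3 / 2 : ℝ)) (g := fun _ => 1)
      (hW.pow_const _).aemeasurable measurable_const.aemeasurable
  have h4 : ∀ x, (W x ^ (3 / 2 : ℝ)) ^ (7 / 6 : ℝ) = W x ^ (7 / 4 : ℝ) := by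
    intro x
    rw [← ENNReal.rpow_mul]
    norm_num
  simp only [Pi.mul_apply, mul_one, h4] at h3
  simp at h3
  have h5 : (∫⁻ x, W x ^ (3 / 2 : ℝ) ∂m3) ^ (2 / 3 : ℝ) ≤ (∫⁻ x, W x ^ (7 / 4 : ℝ) ∂m3) ^ (4 / 7 : ℝ) := by
    have h6 := ENNReal.rpow_le_rpow h3 (z := 2 / 3) (by norm_num)
    rw [← ENNReal.rpow_mul] at h6
    convert h6 using 2
    norm_num
  refine h1.trans ?_
  have h7 := cube_L6 v hv κ hκ h
  have h8 : (1 / (3 / 2) : ℝ) = 2 / 3 := by norm_num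
  rw [h8]
  gcongr

end Pool.Agent.Helper20.SM
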