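import Pool.Agent.Helper20.SMSlice

set_option autoImplicit false

open MeasureTheory Set Function Filter
open scoped BigOperators ENNReal Topology ComplexConjugate

namespace Pool.Agent.Helper20.SM

variable {n : ℕ}

/-- The norm on test spinors. -/
noncomputable def nrm (u : TS) : ℝ := @norm TS tsNormed.toNorm u

theorem nrm_sq (u : TS) : nrm u ^ 2 = ∫ x, ‖(u : R3 → S2) x‖ ^ 2 := by
  have h4 := @inner_self_eq_norm_sq_to_K ℂ TS _ tsNormed.toSeminormedAddCommGroup tsInner u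
  have h5 : ipm volume u u = ((nrm u : ℝ) : ℂ) ^ 2 := h4
  rw [ipm_self] at h5
  exact_mod_cast h5.symm

theorem nrm_nonneg (u : TS) : 0 ≤ nrm u := @norm_nonneg TS tsNormed.toSeminormedAddCommGroup.toSeminormedAddGroup u

theorem param_cont (μ : Measure R3) [IsFiniteMeasureOnCompacts μ] (G : Xn n → R3 → ℝ)
    (hG : Continuous (fun p : Xn n × R3 => G p.1 p.2)) (K : Set R3) (hK : IsCompact K)
    (h0 : ∀ x y, y ∉ K → G x y = 0) : Continuous (fun x => ∫ y, G x y ∂μ) := by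
  have h1 : ∀ x, ∫ y, G x y ∂μ = ∫ y in K, G x y ∂μ := by
    intro x
    symm
    exact setIntegral_eq_integral_of_forall_compl_eq_zero (fun y hy => h0 x y hy)
  simp only [h1]
  exact continuous_parametric_integral_of_continuous (f := G) hG hK

theorem slf_zero {ψ : Xn (n + 1) → Sn (n + 1) → ℂ} (i : Fin (n + 1)) (s' : Sn n) (x' : Xn n)
    (y : R3) (hy : y ∉ KR ψ i) : slf ψ i s' x' y = 0 := by
  by_contra hne
  exact hy (ins_mem_K0 (slf_ne hne)).1

theorem slf_zero' {ψ : Xn (n + 1) → Sn (n + 1) → ℂ} (i : Fin (n + 1)) (s' : Sn n) (x' : Xn n)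
    (hx : x' ∉ KX ψ i) (y : R3) : slf ψ i s' x' y = 0 := by
  by_contra hne
  exact hx (ins_mem_K0 (slf_ne hne)).2

theorem sl_zero {ψ : Xn (n + 1) → Sn (n + 1) → ℂ} (h : WF ψ) (i : Fin (n + 1)) (s' : Sn n) (x' : Xn n)
    (hx : x' ∉ KX ψ i) : sl h i s' x' = 0 := by
  ext1
  funext y
  exact slf_zero' i s' x' hx y

theorem sl_cont {ψ : Xn (n + 1) → Sn (n + 1) → ℂ} (h : WF ψ) (i : Fin (n + 1)) (s' : Sn n) :
    @Continuous (Xn n) TS _ tsNormed.toPseudoMetricSpace.toUniformSpace.toTopologicalSpace (sl h i s') := by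
  rw [@continuous_iff_continuousAt]
  intro x0
  have h1 : Continuous (fun x' => ∫ y, ‖slf ψ i s' x' y - slf ψ i s' x0 y‖ ^ 2) := by
    apply param_cont volume (fun x' y => ‖slf ψ i s' x' y - slf ψ i s' x0 y‖ ^ 2) _ (KR ψ i) (KR_compact h i)
    · intro x y hy
      rw [slf_zero i s' x y hy, slf_zero i s' x0 y hy]
      simp
    · have h2 := slf_cont h i s'
      have h3 : Continuous (fun p : Xn n × R3 => slf ψ i s' x0 p.2) :=
        h2.comp (continuous_const.prodMk continuous_snd)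
      exact (h2.sub h3).norm.pow 2
  have h2 : Tendsto (fun x' => ∫ y, ‖slf ψ i s' x' y - slf ψ i s' x0 y‖ ^ 2) (𝓝 x0) (𝓝 0) := by
    have := h1.tendsto x0
    simpa using this
  have h3 : ∀ x', nrm (sl h i s' x' - sl h i s' x0) ^ 2 = ∫ y, ‖slf ψ i s' x' y - slf ψ i s' x0 y‖ ^ 2 := by
    intro x'
    rw [nrm_sq]
    rfl
  have h4 : Tendsto (fun x' => nrm (sl h i s' x' - sl h i s' x0)) (𝓝 x0) (𝓝 0) := by
    have h5 : Tendsto (fun x' => Real.sqrt (nrm (sl h i s' x' - sl h i s' x0) ^ 2)) (𝓝 x0) (𝓝 (Real.sqrt 0)) := by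
      simp only [h3]
      exact (Real.continuous_sqrt.tendsto 0).comp h2
    simpa [Real.sqrt_sq, nrm_nonneg] using h5
  exact (@tendsto_iff_norm_sub_tendsto_zero (Xn n) TS tsNormed.toSeminormedAddCommGroup
    (sl h i s') (𝓝 x0) (sl h i s' x0)).mpr h4

theorem sl_bdd {ψ : Xn (n + 1) → Sn (n + 1) → ℂ} (h : WF ψ) (i : Fin (n + 1)) (s' : Sn n) :
    ∃ M, ∀ x', nrm (sl h i s' x') ≤ M := by
  have h1 : Continuous (fun x' => ∫ y, ‖slf ψ i s' x' y‖ ^ 2) := by
    apply param_cont volume (fun x' y => ‖slf ψ i s' x' y‖ ^ 2) _ (KR ψ i) (KR_compact h i)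
    · intro x y hy
      rw [slf_zero i s' x y hy]
      simp
    · exact (slf_cont h i s').norm.pow 2
  have h2 : HasCompactSupport (fun x' => ∫ y, ‖slf ψ i s' x' y‖ ^ 2) := by
    apply HasCompactSupport.of_support_subset_isCompact (KX_compact h i)
    intro x' hx'
    by_contra hne
    apply hx'
    simp [slf_zero' i s' x' hne]
  obtain ⟨C, hC⟩ := h1.bounded_above_of_compact_support h2
  refine ⟨Real.sqrt C, fun x' => ?_⟩
  have h3 := hC x'
  rw [Real.norm_eq_abs, abs_of_nonneg (integral_nonneg (fun _ => sq_nonneg _))] at h3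
  rw [← Real.sqrt_sq (nrm_nonneg (sl h i s' x'))]
  apply Real.sqrt_le_sqrt
  rw [nrm_sq]
  exact h3

/-- The Pauli image of slices. -/
noncomputable def ps (ψ : Xn (n + 1) → Sn (n + 1) → ℂ) (A : E3 → E3) (i : Fin (n + 1)) (s' : Sn n) (x' : Xn n)
    (y : R3) : S2 := ∑ k, sg k (Dm (ap A) k (slf ψ i s' x') y)

theorem ps_cont {ψ : Xn (n + 1) → Sn (n + 1) → ℂ} (h : WF ψ) {A : E3 → E3}
    (hA : ContDiff ℝ ((⊤ : ℕ∞) : WithTop ℕ∞) A) (i : Fin (n + 1)) (s' : Sn n) :
    Continuous (fun p : Xn n × R3 => ps ψ A i s' p.1 p.2) := by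
  have h1 : (fun p : Xn n × R3 => ps ψ A i s' p.1 p.2) = fun p => WithLp.toLp 2 (fun s0 : Fin 2 =>
      ∑ k : Fin 3, ∑ t : Fin 2, pm k s0 t * ((-Complex.I) *
        fderiv ℝ (fun x => ψ x (Fin.insertNth i t s')) (ins i p.1 p.2)
          (Pi.single i (EuclideanSpace.single k (1 : ℝ))) +
        ((A (tE p.2) k : ℝ) : ℂ) * ψ (ins i p.1 p.2) (Fin.insertNth i t s'))) := by
    funext p
    ext s0
    exact pauli_slice h A i s' p.1 p.2 s0
  rw [h1]
  apply (PiLp.continuous_toLp 2 (fun _ : Fin 2 => ℂ)).comp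
  apply continuous_pi
  intro s0
  apply continuous_finsetSum
  intro k _
  apply continuous_finsetSum
  intro t _
  apply continuous_const.mul
  apply Continuous.add
  · apply continuous_const.mul
    have h2 : Continuous (fun x => fderiv ℝ (fun x => ψ x (Fin.insertNth i t s')) x
          (Pi.single i (EuclideanSpace.single k (1 : ℝ)) : Xn (n + 1))) :=
      ((h.smooth _).continuous_fderiv (by simp)).clm_apply continuous_const
    exact h2.comp (ins_cont i)
  · apply Continuous.mul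
    · have h2 : Continuous (fun x : R3 => A (tE x) k) :=
        (continuous_apply k).comp (ap_smooth hA).continuous
      exact Complex.continuous_ofReal.comp (h2.comp continuous_snd)
    · exact (h.smooth _).continuous.comp (ins_cont i)

theorem ps_zero {ψ : Xn (n + 1) → Sn (n + 1) → ℂ} (h : WF ψ) (A : E3 → E3) (i : Fin (n + 1)) (s' : Sn n)
    (x' : Xn n) (y : R3) (hy : y ∉ KR ψ i) : ps ψ A i s' x' y = 0 := by
  have h1 : slf ψ i s' x' =ᶠ[𝓝 y] fun _ => 0 := by
    have h2 : (KR ψ i)ᶜ ∈ 𝓝 y := (KR_compact h i).isClosed.isOpen_compl.mem_nhds hy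
    filter_upwards [h2] with w hw
    exact slf_zero i s' x' w hw
  unfold ps Dm
  have h3 : fderiv ℝ (slf ψ i s' x') y = 0 := by
    rw [h1.fderiv_eq]
    simp
  simp [h3, slf_zero i s' x' y hy]

theorem ps_zero' {ψ : Xn (n + 1) → Sn (n + 1) → ℂ} (A : E3 → E3) (i : Fin (n + 1)) (s' : Sn n)
    (x' : Xn n) (hx : x' ∉ KX ψ i) (y : R3) : ps ψ A i s' x' y = 0 := by
  have h1 : slf ψ i s' x' = fun _ => 0 := funext (fun y => slf_zero' i s' x' hx y)
  unfold ps Dm
  simp [h1]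

/-- The one-body energy of slices. -/
theorem q_eq {ψ : Xn (n + 1) → Sn (n + 1) → ℂ} (h : WF ψ) {A : E3 → E3}
    (hA : ContDiff ℝ ((⊤ : ℕ∞) : WithTop ℕ∞) A) (z : ℝ) (i : Fin (n + 1)) (s' : Sn n) (x' : Xn n) :
    (hs (ap A) (ap_smooth hA) z (sl h i s' x') (sl h i s' x')).re =
      (∫ y, ‖ps ψ A i s' x' y‖ ^ 2) - z * (∫ y, ‖slf ψ i s' x' y‖ ^ 2 / en y) +
        z ^ 2 * ∫ y, ‖slf ψ i s' x' y‖ ^ 2 := by
  rw [hs_self]
  rfl

theorem q_cont {ψ : Xn (n + 1) → Sn (n + 1) → ℂ} (h : WF ψ) {A : E3 → E3}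
    (hA : ContDiff ℝ ((⊤ : ℕ∞) : WithTop ℕ∞) A) (z : ℝ) (i : Fin (n + 1)) (s' : Sn n) :
    Continuous (fun x' => (hs (ap A) (ap_smooth hA) z (sl h i s' x') (sl h i s' x')).re) := by
  have e0 : (fun x' => (hs (ap A) (ap_smooth hA) z (sl h i s' x') (sl h i s' x')).re) = fun x' =>
      (∫ y, ‖ps ψ A i s' x' y‖ ^ 2) - z * (∫ y, ‖slf ψ i s' x' y‖ ^ 2 / en y) +
        z ^ 2 * ∫ y, ‖slf ψ i s' x' y‖ ^ 2 := funext (fun x' => q_eq h hA z i s' x')
  rw [e0]
  apply Continuous.add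
  · apply Continuous.sub
    · apply param_cont volume (fun x' y => ‖ps ψ A i s' x' y‖ ^ 2) _ (KR ψ i) (KR_compact h i)
      · intro x y hy
        rw [ps_zero h A i s' x y hy]
        simp
      · exact (ps_cont h hA i s').norm.pow 2
    · apply continuous_const.mul
      have h1 : (fun x' => ∫ y, ‖slf ψ i s' x' y‖ ^ 2 / en y) = fun x' => ∫ y, ‖slf ψ i s' x' y‖ ^ 2 ∂muc := by
        funext x'
        rw [integral_muc]
        apply integral_congr_ae
        filter_upwards with y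
        rw [smul_eq_mul]
        ring
      rw [h1]
      apply param_cont muc (fun x' y => ‖slf ψ i s' x' y‖ ^ 2) _ (KR ψ i) (KR_compact h i)
      · intro x y hy
        rw [slf_zero i s' x y hy]
        simp
      · exact (slf_cont h i s').norm.pow 2
  · apply continuous_const.mul
    apply param_cont volume (fun x' y => ‖slf ψ i s' x' y‖ ^ 2) _ (KR ψ i) (KR_compact h i)
    · intro x y hy
      rw [slf_zero i s' x y hy]
      simp
    · exact (slf_cont h i s').norm.pow 2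

theorem q_zero {ψ : Xn (n + 1) → Sn (n + 1) → ℂ} (h : WF ψ) {A : E3 → E3}
    (hA : ContDiff ℝ ((⊤ : ℕ∞) : WithTop ℕ∞) A) (z : ℝ) (i : Fin (n + 1)) (s' : Sn n) (x' : Xn n)
    (hx : x' ∉ KX ψ i) : (hs (ap A) (ap_smooth hA) z (sl h i s' x') (sl h i s' x')).re = 0 := by
  rw [sl_zero h i s' x' hx]
  simp

theorem q_bdd {ψ : Xn (n + 1) → Sn (n + 1) → ℂ} (h : WF ψ) {A : E3 → E3}
    (hA : ContDiff ℝ ((⊤ : ℕ∞) : WithTop ℕ∞) A) (z : ℝ) (i : Fin (n + 1)) (s' : Sn n) :
    ∃ M, ∀ x', |(hs (ap A) (ap_smooth hA) z (sl h i s' x') (sl h i s' x')).re| ≤ M := by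
  have h2 : HasCompactSupport (fun x' => (hs (ap A) (ap_smooth hA) z (sl h i s' x') (sl h i s' x')).re) := by
    apply HasCompactSupport.of_support_subset_isCompact (KX_compact h i)
    intro x' hx'
    by_contra hne
    exact hx' (q_zero h hA z i s' x' hne)
  obtain ⟨C, hC⟩ := (q_cont h hA z i s').bounded_above_of_compact_support h2
  exact ⟨C, fun x' => by simpa [Real.norm_eq_abs] using hC x'⟩

end Pool.Agent.Helper20.SM
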